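import Pool.Agent.H272.UU.Defs5

/-!
# UU: spaces with the bounded approximation property (by helper375 for helper272)
-/

set_option autoImplicit false

namespace Pool.Agent.H272.UU

open Filter Topology Pool.Agent.H272.IS
open scoped Classical BoundedContinuousFunction

section

variable {X : Type} [NormedAddCommGroup X] [NormedSpace ℂ X]

/-- the pieces -/
noncomputable def ba_E (T : ℕ → (X →L[ℂ] X)) : ℕ → Submodule ℂ X
  | 0 => LinearMap.range (T 0 : X →ₗ[ℂ] X)
  | (n + 1) => LinearMap.range ((T (n + 1) - T n : X →L[ℂ] X) : X →ₗ[ℂ] X)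

theorem ba_E_fin (T : ℕ → (X →L[ℂ] X))
    (hT : ∀ n, FiniteDimensional ℂ (LinearMap.range (T n : X →ₗ[ℂ] X))) (n : ℕ) :
    FiniteDimensional ℂ (ba_E T n) := by
  cases n with
  | zero => exact hT 0
  | succ n =>
    have h1 := hT n
    have h2 := hT (n + 1)
    have hle : ba_E T (n + 1) ≤ LinearMap.range (T (n + 1) : X →ₗ[ℂ] X) ⊔
        LinearMap.range (T n : X →ₗ[ℂ] X) := by
      rintro _ ⟨x, rfl⟩
      have e : ((T (n + 1) - T n : X →L[ℂ] X) : X →ₗ[ℂ] X) x = T (n + 1) x - T n x := rfl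
      rw [e]
      exact Submodule.sub_mem _ (Submodule.mem_sup_left ⟨x, rfl⟩) (Submodule.mem_sup_right ⟨x, rfl⟩)
    exact Submodule.finiteDimensional_of_le hle

/-- the space of the sequences -/
noncomputable def ba_V (T : ℕ → (X →L[ℂ] X)) : Submodule ℂ (ℕ →ᵇ X) where
  carrier := {s | s 0 ∈ ba_E T 0 ∧ (∀ n, s (n + 1) - s n ∈ ba_E T (n + 1)) ∧ CauchySeq s}
  add_mem' := by
    rintro s t ⟨h1, h2, h3⟩ ⟨k1, k2, k3⟩
    refine ⟨Submodule.add_mem _ h1 k1, fun n => ?_, h3.add k3⟩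
    have e : (s + t) (n + 1) - (s + t) n = (s (n + 1) - s n) + (t (n + 1) - t n) := by
      rw [BoundedContinuousFunction.add_apply, BoundedContinuousFunction.add_apply]
      abel
    rw [e]
    exact Submodule.add_mem _ (h2 n) (k2 n)
  zero_mem' := by
    refine ⟨Submodule.zero_mem _, fun n => ?_, ?_⟩
    · have e : (0 : ℕ →ᵇ X) (n + 1) - (0 : ℕ →ᵇ X) n = 0 := by simp
      rw [e]
      exact Submodule.zero_mem _
    · exact (tendsto_const_nhds (x := (0 : X))).cauchySeq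
  smul_mem' := by
    rintro c s ⟨h1, h2, h3⟩
    refine ⟨Submodule.smul_mem _ c h1, fun n => ?_, ?_⟩
    · have e : (c • s) (n + 1) - (c • s) n = c • (s (n + 1) - s n) := by
        rw [BoundedContinuousFunction.smul_apply, BoundedContinuousFunction.smul_apply, smul_sub]
      rw [e]
      exact Submodule.smul_mem _ c (h2 n)
    · exact (uniformContinuous_const_smul c).comp_cauchySeq h3

theorem ba_mem {T : ℕ → (X →L[ℂ] X)} {s : ℕ →ᵇ X} : s ∈ ba_V T ↔
    s 0 ∈ ba_E T 0 ∧ (∀ n, s (n + 1) - s n ∈ ba_E T (n + 1)) ∧ CauchySeq s := Iff.rfl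

theorem ba_closed (T : ℕ → (X →L[ℂ] X))
    (hT : ∀ n, FiniteDimensional ℂ (LinearMap.range (T n : X →ₗ[ℂ] X))) :
    IsClosed (ba_V T : Set (ℕ →ᵇ X)) := by
  have hE : ∀ n, IsClosed (ba_E T n : Set X) := fun n => by
    have := ba_E_fin T hT n
    exact Submodule.closed_of_finiteDimensional _
  have hev : ∀ n : ℕ, Continuous fun s : ℕ →ᵇ X => s n := fun n =>
    continuous_eval_const n
  have hset : (ba_V T : Set (ℕ →ᵇ X)) = {s : ℕ →ᵇ X | s 0 ∈ (ba_E T 0 : Set X)} ∩
      ((⋂ n, {s : ℕ →ᵇ X | s (n + 1) - s n ∈ (ba_E T (n + 1) : Set X)}) ∩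
        {s : ℕ →ᵇ X | CauchySeq s}) := by
    ext s
    rw [SetLike.mem_coe, ba_mem]
    simp only [Set.mem_inter_iff, Set.mem_iInter]
    rfl
  rw [hset]
  refine ((hE 0).preimage (hev 0)).inter ((isClosed_iInter fun n =>
    (hE (n + 1)).preimage ((hev (n + 1)).sub (hev n))).inter ?_)
  refine isClosed_of_closure_subset fun s hs => ?_
  show CauchySeq s
  rw [Metric.mem_closure_iff] at hs
  rw [Metric.cauchySeq_iff]
  intro ε hε
  obtain ⟨t, ht, hst⟩ := hs (ε / 3) (by positivity)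
  have ht' : CauchySeq t := ht
  rw [Metric.cauchySeq_iff] at ht'
  obtain ⟨N, hN⟩ := ht' (ε / 3) (by positivity)
  refine ⟨N, fun m hm n hn => ?_⟩
  have h1 : dist (s m) (t m) < ε / 3 :=
    (BoundedContinuousFunction.dist_coe_le_dist m).trans_lt hst
  have h2 : dist (s n) (t n) < ε / 3 :=
    (BoundedContinuousFunction.dist_coe_le_dist n).trans_lt hst
  have h3 := hN m hm n hn
  have h4 := dist_triangle4 (s m) (t m) (t n) (s n)
  rw [dist_comm (t n) (s n)] at h4
  linarith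

/-- truncation of the index -/
def ba_c (n : ℕ) : C(ℕ, ℕ) := ⟨fun k => min k n, continuous_of_discreteTopology⟩

theorem ba_trunc_mem {T : ℕ → (X →L[ℂ] X)} {s : ℕ →ᵇ X} (hs : s ∈ ba_V T) (n : ℕ) :
    s.compContinuous (ba_c n) ∈ ba_V T := by
  obtain ⟨h1, h2, h3⟩ := ba_mem.1 hs
  refine ba_mem.2 ⟨?_, fun k => ?_, ?_⟩
  · show s (min 0 n) ∈ _
    rw [Nat.zero_min]
    exact h1
  · show s (min (k + 1) n) - s (min k n) ∈ _
    by_cases h : k + 1 ≤ n
    · rw [min_eq_left h, min_eq_left (by omega)]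
      exact h2 k
    · rw [min_eq_right (by omega), min_eq_right (by omega), sub_self]
      exact Submodule.zero_mem _
  · have h4 : Tendsto (fun k => s (min k n)) atTop (𝓝 (s n)) :=
      tendsto_atTop_of_eventually_const (i₀ := n) fun k hk => by rw [min_eq_right hk]
    exact h4.cauchySeq

/-- the projections -/
noncomputable def ba_P (T : ℕ → (X →L[ℂ] X)) (n : ℕ) : ba_V T →L[ℂ] ba_V T :=
  LinearMap.mkContinuous
    { toFun := fun s => ⟨(s : ℕ →ᵇ X).compContinuous (ba_c n), ba_trunc_mem s.2 n⟩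
      map_add' := fun s t => rfl
      map_smul' := fun c s => rfl } 1 (fun s => by
      rw [one_mul]
      refine (BoundedContinuousFunction.norm_le (norm_nonneg _)).2 fun k => ?_
      exact BoundedContinuousFunction.norm_coe_le_norm (s : ℕ →ᵇ X) (min k n))

theorem ba_P_apply (T : ℕ → (X →L[ℂ] X)) (n : ℕ) (s : ba_V T) (k : ℕ) :
    (ba_P T n s : ℕ →ᵇ X) k = (s : ℕ →ᵇ X) (min k n) := rfl

theorem ba_val {T : ℕ → (X →L[ℂ] X)} (s : ba_V T) (n : ℕ) (k : ℕ) (hk : k ≤ n) :
    (s : ℕ →ᵇ X) k ∈ (Finset.range (n + 1)).sup (ba_E T) := by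
  obtain ⟨h1, h2, h3⟩ := ba_mem.1 s.2
  induction k with
  | zero =>
    have hle : ba_E T 0 ≤ (Finset.range (n + 1)).sup (ba_E T) :=
      Finset.le_sup (f := ba_E T) (Finset.mem_range.2 (by omega))
    exact hle h1
  | succ k ih =>
    have hle : ba_E T (k + 1) ≤ (Finset.range (n + 1)).sup (ba_E T) :=
      Finset.le_sup (f := ba_E T) (Finset.mem_range.2 (by omega))
    have h4 := Submodule.add_mem _ (hle (h2 k)) (ih (by omega))
    rwa [sub_add_cancel] at h4

theorem ba_fd (T : ℕ → (X →L[ℂ] X))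
    (hT : ∀ n, FiniteDimensional ℂ (LinearMap.range (T n : X →ₗ[ℂ] X))) : FD (ba_P T) := by
  refine ⟨fun m n s => ?_, fun s => ?_, fun n => ?_, fun n s => ?_⟩
  · apply Subtype.ext
    ext k
    rw [ba_P_apply, ba_P_apply, ba_P_apply, min_assoc]
  · obtain ⟨-, -, h3⟩ := ba_mem.1 s.2
    rw [Metric.cauchySeq_iff] at h3
    rw [Metric.tendsto_atTop]
    intro ε hε
    obtain ⟨N, hN⟩ := h3 (ε / 2) (by positivity)
    refine ⟨N, fun n hn => ?_⟩
    have h4 : dist (ba_P T n s) s ≤ ε / 2 := by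
      rw [Subtype.dist_eq]
      refine (BoundedContinuousFunction.dist_le (by positivity)).2 fun k => ?_
      rw [ba_P_apply]
      by_cases hk : k ≤ n
      · rw [min_eq_left hk, dist_self]
        positivity
      · rw [min_eq_right (by omega)]
        exact (hN n hn k (by omega)).le
    linarith
  · have hG : FiniteDimensional ℂ ((Finset.range (n + 1)).sup (ba_E T) : Submodule ℂ X) := by
      have : ∀ j, FiniteDimensional ℂ (ba_E T j) := ba_E_fin T hT
      exact Submodule.finiteDimensional_finset_sup _ _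
    let φ : LinearMap.range (ba_P T n : ba_V T →ₗ[ℂ] ba_V T) →ₗ[ℂ]
        (Fin (n + 1) → ((Finset.range (n + 1)).sup (ba_E T) : Submodule ℂ X)) :=
      { toFun := fun s k => ⟨((s : ba_V T) : ℕ →ᵇ X) k, ba_val _ n k (by omega)⟩
        map_add' := fun s t => rfl
        map_smul' := fun c s => rfl }
    refine FiniteDimensional.of_injective φ ?_
    rw [injective_iff_map_eq_zero]
    rintro ⟨s, ⟨t, rfl⟩⟩ hs
    apply Subtype.ext
    apply Subtype.ext
    ext k
    have h1 := congrFun hs ⟨min k n, by omega⟩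
    have h2 : ((ba_P T n t : ba_V T) : ℕ →ᵇ X) (min k n) = 0 := congrArg Subtype.val h1
    rw [ba_P_apply, min_assoc, min_self] at h2
    show ((ba_P T n t : ba_V T) : ℕ →ᵇ X) k = 0
    rw [ba_P_apply]
    exact h2
  · refine (BoundedContinuousFunction.norm_le (norm_nonneg _)).2 fun k => ?_
    exact BoundedContinuousFunction.norm_coe_le_norm (s : ℕ →ᵇ X) (min k n)

theorem ba_i [CompleteSpace X] (T : ℕ → (X →L[ℂ] X)) (hT : ∀ x, Tendsto (fun n => T n x) atTop (𝓝 x)) :
    ∃ i : X →L[ℂ] ba_V T, ∀ x n, ((i x : ba_V T) : ℕ →ᵇ X) n = T n x := by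
  obtain ⟨C, hC⟩ := banach_steinhaus (g := T) fun x => by
    obtain ⟨C, hC⟩ := (hT x).norm.bddAbove_range
    exact ⟨C, fun n => hC ⟨n, rfl⟩⟩
  have hb : ∀ x n, ‖T n x‖ ≤ C * ‖x‖ := fun x n =>
    ((T n).le_opNorm x).trans (mul_le_mul_of_nonneg_right (hC n) (norm_nonneg x))
  have hC0 : 0 ≤ C := (norm_nonneg _).trans (hC 0)
  let f : X → (ℕ →ᵇ X) := fun x =>
    BoundedContinuousFunction.ofNormedAddCommGroupDiscrete (fun n => T n x) (C * ‖x‖) (hb x)
  have hf : ∀ x, f x ∈ ba_V T := fun x =>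
    ba_mem.2 ⟨⟨x, rfl⟩, fun n => ⟨x, rfl⟩, (hT x).cauchySeq⟩
  let l : X →ₗ[ℂ] ba_V T :=
    { toFun := fun x => ⟨f x, hf x⟩
      map_add' := fun x y => by
        apply Subtype.ext
        ext n
        exact map_add (T n) x y
      map_smul' := fun c x => by
        apply Subtype.ext
        ext n
        exact map_smul (T n) c x }
  refine ⟨l.mkContinuous C fun x => ?_, fun x n => rfl⟩
  exact (BoundedContinuousFunction.norm_le (mul_nonneg hC0 (norm_nonneg x))).2 fun n => hb x n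

theorem ba_r [CompleteSpace X] (T : ℕ → (X →L[ℂ] X)) :
    ∃ r : ba_V T →L[ℂ] X, ∀ s : ba_V T, Tendsto (s : ℕ →ᵇ X) atTop (𝓝 (r s)) := by
  have h : ∀ s : ba_V T, ∃ x : X, Tendsto (s : ℕ →ᵇ X) atTop (𝓝 x) := fun s =>
    cauchySeq_tendsto_of_complete (ba_mem.1 s.2).2.2
  choose f hf using h
  let l : ba_V T →ₗ[ℂ] X :=
    { toFun := f
      map_add' := fun s t => tendsto_nhds_unique (hf (s + t)) ((hf s).add (hf t))
      map_smul' := fun c s => tendsto_nhds_unique (hf (c • s)) ((hf s).const_smul c) }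
  refine ⟨l.mkContinuous 1 fun s => ?_, fun s => hf s⟩
  rw [one_mul]
  exact le_of_tendsto' (hf s).norm fun n =>
    BoundedContinuousFunction.norm_coe_le_norm (s : ℕ →ᵇ X) n

end

theorem ba : BA := by
  intro X _ _ _ T hfin hT
  obtain ⟨i, hi⟩ := ba_i T hT
  obtain ⟨r, hr⟩ := ba_r T
  refine ⟨ba_V T, inferInstance, inferInstance, (ba_closed T hfin).completeSpace_coe, ba_P T, i, r,
    ba_fd T hfin, fun x => ?_⟩
  refine tendsto_nhds_unique (hr (i x)) ?_
  have e : (((i x : ba_V T) : ℕ →ᵇ X) : ℕ → X) = fun n => T n x := funext fun n => hi x n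
  rw [e]
  exact hT x

end Pool.Agent.H272.UU
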