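import Pool.Agent.H272.UU.Defs2

/-!
# UU: renorming, and statements on the estimates with constants
-/

set_option autoImplicit false

namespace Pool.Agent.H272.UU

open Filter Topology Pool.Agent.H272.IS
open scoped Classical

/-- a decomposition into finite-dimensional subspaces (`P n` are the projections onto the sums of
the first `n` of them) with a lower `q`- and an upper `p`-estimate, with constants `c`, `C`, for all
finite sequences of consecutive blocks -/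
structure Est {V : Type*} [NormedAddCommGroup V] [NormedSpace ℂ V] (p q c C : ℝ)
    (P : ℕ → (V →L[ℂ] V)) : Prop where
  zero : P 0 = 0
  comp : ∀ m n x, P m (P n x) = P (min m n) x
  tend : ∀ x, Tendsto (fun n => P n x) atTop (𝓝 x)
  fin : ∀ n, FiniteDimensional ℂ (LinearMap.range (P n : V →ₗ[ℂ] V))
  lower : ∀ m : ℕ → ℕ, Monotone m → ∀ (k : ℕ) (v : ℕ → V),
    (∀ j, P (m (j + 1)) (v j) = v j) → (∀ j, P (m j) (v j) = 0) →
    c * ∑ j ∈ Finset.range k, ‖v j‖ ^ q ≤ ‖∑ j ∈ Finset.range k, v j‖ ^ q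
  upper : ∀ m : ℕ → ℕ, Monotone m → ∀ (k : ℕ) (v : ℕ → V),
    (∀ j, P (m (j + 1)) (v j) = v j) → (∀ j, P (m j) (v j) = 0) →
    ‖∑ j ∈ Finset.range k, v j‖ ^ p ≤ C * ∑ j ∈ Finset.range k, ‖v j‖ ^ p

/-- R0: shift of the decomposition so that `P 0 = 0` -/
def R0 : Prop := ∀ (V : Type) [NormedAddCommGroup V] [NormedSpace ℂ V] (p q C : ℝ)
  (P : ℕ → (V →L[ℂ] V)), 1 < p → p ≤ q → PQC p q C P → ∃ (C' : ℝ) (P' : ℕ → (V →L[ℂ] V)),
    Est p q 1 C' P'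

/-- R1: renorming, the lower estimate -/
def R1 : Prop := ∀ (V : Type) [NormedAddCommGroup V] [NormedSpace ℂ V] [CompleteSpace V]
  (p q c C : ℝ) (P : ℕ → (V →L[ℂ] V)), 1 < p → p ≤ q → 0 < c → Est p q c C P →
    ∃ (V' : Type) (_ : NormedAddCommGroup V') (_ : NormedSpace ℂ V') (_ : CompleteSpace V')
      (C' : ℝ) (P' : ℕ → (V' →L[ℂ] V')), PQC p q C' P' ∧ P' 0 = 0 ∧ Nonempty (V ≃L[ℂ] V')

/-- the norm of the dual space by partitions, `r` the exponent conjugate to `p` -/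
noncomputable def Mn {V : Type*} [NormedAddCommGroup V] [NormedSpace ℂ V] (r : ℝ)
    (P : ℕ → (V →L[ℂ] V)) (f : V →L[ℂ] ℂ) : ℝ :=
  ⨆ a : {m : ℕ → ℕ // Monotone m} × ℕ,
    (∑ j ∈ Finset.range a.2, ‖f.comp (P (a.1.1 (j + 1)) - P (a.1.1 j))‖ ^ r) ^ (1 / r)

/-- boundedness of the set in the definition of `Mn` -/
def MnBdd {V : Type*} [NormedAddCommGroup V] [NormedSpace ℂ V] (r : ℝ)
    (P : ℕ → (V →L[ℂ] V)) : Prop := ∀ f : V →L[ℂ] ℂ, BddAbove (Set.range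
      fun a : {m : ℕ → ℕ // Monotone m} × ℕ =>
        (∑ j ∈ Finset.range a.2, ‖f.comp (P (a.1.1 (j + 1)) - P (a.1.1 j))‖ ^ r) ^ (1 / r))

/-- R2a: `Mn` is equivalent to the dual norm -/
def R2a : Prop := ∀ (V : Type) [NormedAddCommGroup V] [NormedSpace ℂ V] (p q C r : ℝ)
  (P : ℕ → (V →L[ℂ] V)), 1 < p → p ≤ q → r = p / (p - 1) → PQC p q C P → P 0 = 0 →
    MnBdd r P ∧ ∃ C' : ℝ, ∀ f : V →L[ℂ] ℂ, ‖f‖ ≤ Mn r P f ∧ Mn r P f ≤ C' * ‖f‖

/-- R2b: `Mn` is a seminorm with a lower `r`-estimate -/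
def R2b : Prop := ∀ (V : Type) [NormedAddCommGroup V] [NormedSpace ℂ V] (p q C r : ℝ)
  (P : ℕ → (V →L[ℂ] V)), 1 < p → p ≤ q → r = p / (p - 1) → PQC p q C P → P 0 = 0 → MnBdd r P →
    (∀ f g, Mn r P (f + g) ≤ Mn r P f + Mn r P g) ∧ (∀ (z : ℂ) f, Mn r P (z • f) = ‖z‖ * Mn r P f) ∧
    ∀ n f, Mn r P (f.comp (P n)) ^ r + Mn r P (f - f.comp (P n)) ^ r ≤ Mn r P f ^ r

/-- R2c: `Mn` has an upper `s`-estimate, `s` the exponent conjugate to `q` -/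
def R2c : Prop := ∀ (V : Type) [NormedAddCommGroup V] [NormedSpace ℂ V] (p q C r s : ℝ)
  (P : ℕ → (V →L[ℂ] V)), 1 < p → p ≤ q → r = p / (p - 1) → s = q / (q - 1) → PQC p q C P →
    P 0 = 0 → MnBdd r P →
    ∀ n f, Mn r P f ^ s ≤ Mn r P (f.comp (P n)) ^ s + Mn r P (f - f.comp (P n)) ^ s

/-- R2: renorming, the upper estimate -/
def R2 : Prop := ∀ (V : Type) [NormedAddCommGroup V] [NormedSpace ℂ V] [CompleteSpace V]
  (p q C : ℝ) (P : ℕ → (V →L[ℂ] V)), 1 < p → p ≤ q → PQC p q C P → P 0 = 0 →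
    ∃ (V' : Type) (_ : NormedAddCommGroup V') (_ : NormedSpace ℂ V') (_ : CompleteSpace V')
      (P' : ℕ → (V' →L[ℂ] V')), PQ p q P' ∧ Nonempty (V ≃L[ℂ] V')

/-- UP: addition of an infinite-dimensional summand -/
def UP : Prop := ∀ (W : Type) [NormedAddCommGroup W] [NormedSpace ℂ W] [CompleteSpace W]
  (p q : ℝ) (P : ℕ → (W →L[ℂ] W)), 1 < p → p ≤ q → PQ p q P →
    ∃ (V : Type) (_ : NormedAddCommGroup V) (_ : NormedSpace ℂ V) (_ : CompleteSpace V)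
      (P' : ℕ → (V →L[ℂ] V)) (i : W →L[ℂ] V) (r : V →L[ℂ] W), PQ p q P' ∧ (∀ w, r (i w) = w) ∧
        ‖i‖ ≤ 1 ∧ ‖r‖ ≤ 1 ∧ ¬ FiniteDimensional ℂ (LinearMap.ker (r : V →ₗ[ℂ] W))

end Pool.Agent.H272.UU
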