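import Pool.Agent.H272.UU.Defs2

/-!
# L2: the `ℓ_2`-sum of separable reflexive spaces is separable and reflexive (helper684)
-/

set_option autoImplicit false

namespace Pool.Agent.H272.UU

open Filter Topology Pool.Agent.H272.IS
open scoped Classical

/-- an `ℓ_p`-decomposition (into arbitrary subspaces) -/
structure L2Dec {X : Type*} [NormedAddCommGroup X] [NormedSpace ℂ X] (p : ℝ)
    (P : ℕ → (X →L[ℂ] X)) : Prop where
  comp : ∀ m n x, P m (P n x) = P (min m n) x
  tend : ∀ x, Tendsto (fun n => P n x) atTop (𝓝 x)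
  add : ∀ n x, ‖x‖ ^ p = ‖P n x‖ ^ p + ‖x - P n x‖ ^ p

section l2dec

variable {X : Type*} [NormedAddCommGroup X] [NormedSpace ℂ X]
variable {p : ℝ} {P : ℕ → (X →L[ℂ] X)}

theorem L2Dec.norm_le (h : L2Dec p P) (hp : 1 < p) (n : ℕ) (x : X) : ‖P n x‖ ≤ ‖x‖ := by
  have h1 := h.add n x
  have h2 : 0 ≤ ‖x - P n x‖ ^ p := Real.rpow_nonneg (norm_nonneg _) _
  have h3 : ‖P n x‖ ^ p ≤ ‖x‖ ^ p := by linarith
  exact (Real.rpow_le_rpow_iff (norm_nonneg _) (norm_nonneg _) (by linarith)).1 h3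

theorem L2Dec.norm_sub_le (h : L2Dec p P) (hp : 1 < p) (n : ℕ) (x : X) : ‖x - P n x‖ ≤ ‖x‖ := by
  have h1 := h.add n x
  have h2 : 0 ≤ ‖P n x‖ ^ p := Real.rpow_nonneg (norm_nonneg _) _
  have h3 : ‖x - P n x‖ ^ p ≤ ‖x‖ ^ p := by linarith
  exact (Real.rpow_le_rpow_iff (norm_nonneg _) (norm_nonneg _) (by linarith)).1 h3

theorem L2Dec.idem (h : L2Dec p P) (n : ℕ) (x : X) : P n (P n x) = P n x := by
  rw [h.comp, min_self]

/-- additivity for sums -/
theorem L2Dec.add' (h : L2Dec p P) (n : ℕ) {x y : X} (hx : P n x = x) (hy : P n y = 0) :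
    ‖x + y‖ ^ p = ‖x‖ ^ p + ‖y‖ ^ p := by
  have h1 := h.add n (x + y)
  have h2 : P n (x + y) = x := by rw [map_add, hx, hy, add_zero]
  rw [h2, add_sub_cancel_left] at h1
  exact h1

/-- the decomposition is shrinking -/
theorem L2Dec.shrink (h : L2Dec p P) (hp : 1 < p) (F : X →L[ℂ] ℂ) :
    Tendsto (fun n => F - F.comp (P n)) atTop (𝓝 0) := by
  set s : ℕ → ℝ := fun n => ‖F - F.comp (P n)‖ with hs
  have hs0 : ∀ n, 0 ≤ s n := fun n => norm_nonneg _
  have happ : ∀ n x, (F - F.comp (P n)) x = F (x - P n x) := by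
    intro n x
    simp
  have hsb : ∀ n y, P n y = 0 → ‖F y‖ ≤ s n * ‖y‖ := by
    intro n y hy
    have h1 := (F - F.comp (P n)).le_opNorm y
    rw [happ, hy, sub_zero] at h1
    exact h1
  have hanti : Antitone s := by
    intro m n hmn
    refine ContinuousLinearMap.opNorm_le_bound _ (hs0 m) (fun x => ?_)
    rw [happ]
    have h1 : P m (x - P n x) = 0 := by
      rw [map_sub, h.comp, min_eq_left hmn, sub_self]
    exact (hsb m _ h1).trans (mul_le_mul_of_nonneg_left (h.norm_sub_le hp n x) (hs0 m))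
  have hbdd : BddBelow (Set.range s) := ⟨0, by rintro _ ⟨n, rfl⟩; exact hs0 n⟩
  have hlim := tendsto_atTop_ciInf hanti hbdd
  set t : ℝ := ⨅ n, s n with ht
  have ht0 : 0 ≤ t := le_ciInf hs0
  have htle : ∀ n, t ≤ s n := fun n => ciInf_le hbdd n
  set r : ℝ := 2 ^ (1 / p) with hr
  have hp0 : 0 < p := by linarith
  have hr2 : r < 2 := by
    have h1 : (2 : ℝ) ^ (1 / p) < 2 ^ (1 : ℝ) := by
      apply Real.rpow_lt_rpow_of_exponent_lt (by norm_num)
      rw [div_lt_one hp0]; exact hp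
    rwa [Real.rpow_one] at h1
  -- almost norming vectors
  have hex : ∀ n, ∀ η > 0, ∃ y : X, P n y = 0 ∧ ‖y‖ ≤ 1 ∧ t - η < ‖F y‖ := by
    intro n η hη
    obtain ⟨x, hx1, hx2⟩ := (F - F.comp (P n)).exists_lt_apply_of_lt_opNorm
      (show s n - η < ‖F - F.comp (P n)‖ by change s n - η < s n; linarith)
    refine ⟨x - P n x, ?_, ?_, ?_⟩
    · rw [map_sub, h.idem, sub_self]
    · exact (h.norm_sub_le hp n x).trans hx1.le
    · rw [happ] at hx2
      have := htle n
      linarith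
  have key : ∀ n, ∀ η > 0, 2 * (t - η) ≤ r * s n := by
    intro n η hη
    obtain ⟨y₀, hy₀1, hy₀2, hy₀3⟩ := hex n η hη
    have h1 : Tendsto (fun m => ‖F (P m y₀)‖) atTop (𝓝 ‖F y₀‖) :=
      ((F.continuous.tendsto _).comp (h.tend y₀)).norm
    obtain ⟨m, hm1, hm2⟩ := ((h1.eventually (lt_mem_nhds hy₀3)).and (eventually_ge_atTop n)).exists
    obtain ⟨z₀, hz₀1, hz₀2, hz₀3⟩ := hex m η hη
    obtain ⟨θ, hθ1, hθ2⟩ := exists_phase (F (P m y₀))
    obtain ⟨θ', hθ'1, hθ'2⟩ := exists_phase (F z₀)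
    set y := θ • P m y₀ with hy
    set z := θ' • z₀ with hz
    have hyP : P m y = y := by rw [hy, map_smul, h.idem]
    have hzP : P m z = 0 := by rw [hz, map_smul, hz₀1, smul_zero]
    have hyn : ‖y‖ ≤ 1 := by
      rw [hy, norm_smul, hθ1, one_mul]
      exact (h.norm_le hp m y₀).trans hy₀2
    have hzn : ‖z‖ ≤ 1 := by rw [hz, norm_smul, hθ'1, one_mul]; exact hz₀2
    have hyz : ‖y + z‖ ≤ r := by
      have h2 := h.add' m hyP hzP
      have h3 : ‖y‖ ^ p ≤ 1 := Real.rpow_le_one (norm_nonneg _) hyn hp0.le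
      have h4 : ‖z‖ ^ p ≤ 1 := Real.rpow_le_one (norm_nonneg _) hzn hp0.le
      have h5 : ‖y + z‖ ^ p ≤ 2 := by linarith
      have h6 : r ^ p = 2 := by
        rw [hr, ← Real.rpow_mul (by norm_num), one_div, inv_mul_cancel₀ hp0.ne', Real.rpow_one]
      have h7 : 0 ≤ r := by positivity
      rw [← h6] at h5
      exact (Real.rpow_le_rpow_iff (norm_nonneg _) h7 hp0).1 h5
    have hPn : P n (y + z) = 0 := by
      have h8 : P n y = 0 := by
        rw [hy, map_smul, h.comp, min_eq_left hm2, hy₀1, smul_zero]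
      have h9 : P n z = 0 := by
        have : P n z = P n (P m z) := by rw [h.comp, min_eq_left hm2]
        rw [this, hzP, map_zero]
      rw [map_add, h8, h9, add_zero]
    have hF : ‖F (y + z)‖ = ‖F (P m y₀)‖ + ‖F z₀‖ := by
      have h10 : F (y + z) = ((‖F (P m y₀)‖ + ‖F z₀‖ : ℝ) : ℂ) := by
        rw [map_add, hy, hz, map_smul, map_smul, smul_eq_mul, smul_eq_mul, hθ2, hθ'2]
        push_cast
        rfl
      rw [h10, Complex.norm_real, Real.norm_of_nonneg (by positivity)]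
    have h11 := hsb n _ hPn
    rw [hF] at h11
    calc 2 * (t - η) ≤ ‖F (P m y₀)‖ + ‖F z₀‖ := by linarith
      _ ≤ s n * ‖y + z‖ := h11
      _ ≤ s n * r := by gcongr
      _ = r * s n := mul_comm _ _
  have key2 : ∀ n, 2 * t ≤ r * s n := by
    intro n
    refine le_of_forall_pos_le_add (fun ε hε => ?_)
    have := key n (ε / 2) (by positivity)
    linarith
  have key3 : 2 * t ≤ r * t := ge_of_tendsto' (hlim.const_mul r) key2
  have ht1 : t = 0 := by
    by_contra hne
    have : 0 < t := lt_of_le_of_ne ht0 (Ne.symm hne)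
    nlinarith
  rw [ht1] at hlim
  exact tendsto_zero_iff_norm_tendsto_zero.2 hlim

/-- bounded increasing families converge -/
theorem L2Dec.exists_limit [CompleteSpace X] (h : L2Dec p P) (hp : 1 < p) (x : ℕ → X) (C : ℝ)
    (hC : ∀ n, ‖x n‖ ≤ C) (hx : ∀ m n, m ≤ n → P m (x n) = x m) :
    ∃ y, Tendsto x atTop (𝓝 y) := by
  have hp0 : 0 < p := by linarith
  have hadd : ∀ m n, m ≤ n → ‖x n - x m‖ ^ p = ‖x n‖ ^ p - ‖x m‖ ^ p := by
    intro m n hmn
    have h1 := h.add m (x n)
    rw [hx m n hmn] at h1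
    linarith
  have hmono : Monotone fun n => ‖x n‖ ^ p := by
    intro m n hmn
    have h1 := hadd m n hmn
    have h2 : 0 ≤ ‖x n - x m‖ ^ p := Real.rpow_nonneg (norm_nonneg _) _
    change ‖x m‖ ^ p ≤ ‖x n‖ ^ p
    linarith
  have hbdd : BddAbove (Set.range fun n => ‖x n‖ ^ p) := by
    refine ⟨C ^ p, ?_⟩
    rintro _ ⟨n, rfl⟩
    exact Real.rpow_le_rpow (norm_nonneg _) (hC n) hp0.le
  have hlim := tendsto_atTop_ciSup hmono hbdd
  have hcau := hlim.cauchySeq
  apply cauchySeq_tendsto_of_complete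
  rw [Metric.cauchySeq_iff'] at hcau ⊢
  intro ε hε
  obtain ⟨N, hN⟩ := hcau (ε ^ p) (Real.rpow_pos_of_pos hε p)
  refine ⟨N, fun n hn => ?_⟩
  have h1 := hN n hn
  rw [Real.dist_eq] at h1
  have h2 := (le_abs_self _).trans_lt h1
  rw [dist_eq_norm]
  rw [← hadd N n hn] at h2
  exact (Real.rpow_lt_rpow_iff (norm_nonneg _) hε.le hp0).1 h2

/-- reflexivity, if the functionals on the bidual are given on the ranges of the projections by
vectors -/
theorem L2Dec.reflexive [CompleteSpace X] (h : L2Dec p P) (hp : 1 < p)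
    (hex : ∀ (Φ : (X →L[ℂ] ℂ) →L[ℂ] ℂ) (n : ℕ), ∃ x : X, P n x = x ∧
      ∀ F : X →L[ℂ] ℂ, F x = Φ (F.comp (P n))) :
    Function.Surjective (NormedSpace.inclusionInDoubleDual ℂ X) := by
  intro Φ
  choose x hxP hx using hex Φ
  have hxn : ∀ n, ‖x n‖ ≤ ‖Φ‖ := by
    intro n
    by_cases h0 : ‖x n‖ = 0
    · rw [h0]; exact norm_nonneg Φ
    · obtain ⟨F, hF1, hF2⟩ := exists_dual_vector ℂ (x n) h0
      have h1 : ‖F (x n)‖ = ‖x n‖ := by
        rw [hF2]
        simp
      rw [← h1, hx]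
      calc ‖Φ (F.comp (P n))‖ ≤ ‖Φ‖ * ‖F.comp (P n)‖ := Φ.le_opNorm _
        _ ≤ ‖Φ‖ * 1 := by
            gcongr
            refine ContinuousLinearMap.opNorm_le_bound _ zero_le_one (fun y => ?_)
            calc ‖F (P n y)‖ ≤ ‖F‖ * ‖P n y‖ := F.le_opNorm _
              _ ≤ 1 * ‖y‖ := by
                  rw [hF1]
                  gcongr
                  exact h.norm_le hp n y
        _ = ‖Φ‖ := mul_one _
  have hxc : ∀ m n, m ≤ n → P m (x n) = x m := by
    intro m n hmn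
    have h1 : ∀ F : X →L[ℂ] ℂ, F (P m (x n)) = F (x m) := by
      intro F
      have h2 := hx n (F.comp (P m))
      have h3 : (F.comp (P m)).comp (P n) = F.comp (P m) := by
        ext y
        change F (P m (P n y)) = F (P m y)
        rw [h.comp, min_eq_left hmn]
      rw [h3, ← hx m F] at h2
      exact h2
    by_contra hne
    have h4 : P m (x n) - x m ≠ 0 := sub_ne_zero.2 hne
    obtain ⟨F, -, hF2⟩ := exists_dual_vector ℂ (P m (x n) - x m) (norm_ne_zero_iff.2 h4)
    rw [map_sub, h1, sub_self] at hF2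
    have : ((‖P m (x n) - x m‖ : ℝ) : ℂ) ≠ 0 := by
      exact_mod_cast norm_ne_zero_iff.2 h4
    exact this hF2.symm
  obtain ⟨y, hy⟩ := h.exists_limit hp x ‖Φ‖ hxn hxc
  refine ⟨y, ?_⟩
  ext F
  rw [NormedSpace.dual_def]
  have h1 : Tendsto (fun n => F (x n)) atTop (𝓝 (F y)) := (F.continuous.tendsto _).comp hy
  have h2 : Tendsto (fun n => Φ (F.comp (P n))) atTop (𝓝 (Φ F)) := by
    have h3 : Tendsto (fun n => F.comp (P n)) atTop (𝓝 F) := by
      have h4 := (h.shrink hp F).const_sub F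
      rw [sub_zero] at h4
      refine h4.congr (fun n => ?_)
      rw [sub_sub_cancel]
    exact (Φ.continuous.tendsto _).comp h3
  refine tendsto_nhds_unique h1 (h2.congr (fun n => ?_))
  rw [hx]

end l2dec

section inst

variable (E : ℕ → Type) [∀ n, NormedAddCommGroup (E n)] [∀ n, NormedSpace ℂ (E n)]

theorem L2dec_lp : L2Dec 2 (lpP E 2) := by
  have h2 : (2 : ENNReal).toReal = 2 := by norm_num
  refine ⟨fun m n x => ?_, fun x => ?_, fun n x => ?_⟩
  · apply lp.ext
    funext j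
    rw [lpP_coord, lpP_coord, lpP_coord]
    by_cases h1 : j < m <;> by_cases h2 : j < n <;> simp [h1, h2]
  · have := (lp.hasSum_single (p := 2) (by norm_num) x).tendsto_sum_nat
    refine this.congr (fun n => ?_)
    rw [lpP_apply]
  · have h1 := lp.norm_sub_norm_compl_sub_single (p := 2) (by norm_num) x (Finset.range n)
    have h3 := lp.norm_sum_single (p := 2) (by norm_num) (fun i => x i) (Finset.range n)
    rw [h2] at h1 h3
    rw [lpP_apply, h3]
    linarith

theorem L2_separable [∀ n, TopologicalSpace.SeparableSpace (E n)] :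
    TopologicalSpace.SeparableSpace (lp E 2) := by
  rw [← TopologicalSpace.isSeparable_univ_iff]
  set S : Set (lp E 2) := ⋃ k, Set.range (lp.singleContinuousLinearMap ℂ E 2 k) with hS
  have h1 : TopologicalSpace.IsSeparable S :=
    TopologicalSpace.IsSeparable.iUnion fun k =>
      TopologicalSpace.isSeparable_range (lp.singleContinuousLinearMap ℂ E 2 k).continuous
  have h2 : TopologicalSpace.IsSeparable (Submodule.span ℂ S : Set (lp E 2)) := h1.span
  refine h2.closure.mono fun x _ => ?_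
  refine mem_closure_of_tendsto ((L2dec_lp E).tend x) (Eventually.of_forall fun n => ?_)
  rw [SetLike.mem_coe, lpP_apply]
  refine Submodule.sum_mem _ fun i _ => Submodule.subset_span ?_
  exact Set.mem_iUnion.2 ⟨i, x i, rfl⟩

end inst

/-- L2 -/
theorem l2 : L2 := by
  intro E _ _ _ _ href
  refine ⟨(L2dec_lp E).reflexive (by norm_num) ?_, L2_separable E, fun n => ?_⟩
  · intro Φ n
    have hk : ∀ k, ∃ v : E k, ∀ g : E k →L[ℂ] ℂ, g v = Φ (g.comp (lp.evalCLM ℂ E 2 k)) := by
      intro k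
      obtain ⟨v, hv⟩ := href k (Φ.comp
        (ContinuousLinearMap.precomp ℂ (lp.evalCLM ℂ E 2 k)))
      refine ⟨v, fun g => ?_⟩
      have h1 := congrArg (fun L : (E k →L[ℂ] ℂ) →L[ℂ] ℂ => L g) hv
      exact h1
    choose v hv using hk
    refine ⟨∑ i ∈ Finset.range n, lp.single 2 i (v i), ?_, fun F => ?_⟩
    · apply lp.ext
      funext j
      rw [lpP_coord, lp.coeFn_sum, Finset.sum_apply]
      simp only [lp.single_apply]
      rw [Finset.sum_pi_single]
      by_cases hj : j < n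
      · simp [hj]
      · simp [hj]
    · rw [map_sum]
      have h1 : F.comp (lpP E 2 n) = ∑ i ∈ Finset.range n,
          (F.comp (lp.singleContinuousLinearMap ℂ E 2 i)).comp (lp.evalCLM ℂ E 2 i) := by
        ext x
        simp only [ContinuousLinearMap.comp_apply, sum_apply]
        rw [lpP_apply, map_sum]
        rfl
      rw [h1, map_sum]
      refine Finset.sum_congr rfl fun i _ => ?_
      rw [← hv i]
      rfl
  · refine ⟨lp.singleContinuousLinearMap ℂ E 2 n, lp.evalCLM ℂ E 2 n, fun x => ?_, ?_, ?_⟩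
    · change (lp.single 2 n x : ∀ k, E k) n = x
      rw [lp.single_apply_self]
    · refine ContinuousLinearMap.opNorm_le_bound _ zero_le_one fun x => ?_
      change ‖lp.single 2 n x‖ ≤ 1 * ‖x‖
      rw [lp.norm_single (by norm_num), one_mul]
    · refine ContinuousLinearMap.opNorm_le_bound _ zero_le_one fun x => ?_
      change ‖x n‖ ≤ 1 * ‖x‖
      rw [one_mul]
      exact lp.norm_apply_le_norm (by norm_num) x n

end Pool.Agent.H272.UU
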