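import Pool.Agent.H272.UU.Defs2

/-!
# PM: monotonicity of `(p, q)`-decompositions in the exponents
-/

set_option autoImplicit false

namespace Pool.Agent.H272.UU

open Filter Topology Pool.Agent.H272.IS
open scoped Classical

theorem PM_lower {a b c q q' : ℝ} (ha : 0 ≤ a) (hb : 0 ≤ b) (hc : 0 ≤ c) (hq : 0 < q)
    (hqq : q ≤ q') (h : a ^ q + b ^ q ≤ c ^ q) : a ^ q' + b ^ q' ≤ c ^ q' := by
  have e : ∀ x : ℝ, 0 ≤ x → x ^ q' = (x ^ q) ^ (q' / q) := by
    intro x hx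
    rw [← Real.rpow_mul hx, mul_div_cancel₀ _ hq.ne']
  have hs : 1 ≤ q' / q := by
    rw [le_div_iff₀ hq, one_mul]
    exact hqq
  rw [e a ha, e b hb, e c hc]
  have h0 : 0 ≤ a ^ q := Real.rpow_nonneg ha _
  have h1 : 0 ≤ b ^ q := Real.rpow_nonneg hb _
  exact (Real.add_rpow_le_rpow_add h0 h1 hs).trans
    (Real.rpow_le_rpow (add_nonneg h0 h1) h (zero_le_one.trans hs))

theorem PM_upper {a b c p p' : ℝ} (ha : 0 ≤ a) (hb : 0 ≤ b) (hc : 0 ≤ c) (hp' : 0 < p')
    (hpp : p' ≤ p) (h : c ^ p ≤ a ^ p + b ^ p) : c ^ p' ≤ a ^ p' + b ^ p' := by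
  have hp : 0 < p := hp'.trans_le hpp
  have e : ∀ x : ℝ, 0 ≤ x → x ^ p' = (x ^ p) ^ (p' / p) := by
    intro x hx
    rw [← Real.rpow_mul hx, mul_div_cancel₀ _ hp.ne']
  have hs0 : 0 ≤ p' / p := (div_pos hp' hp).le
  have hs : p' / p ≤ 1 := by
    rw [div_le_iff₀ hp, one_mul]
    exact hpp
  rw [e a ha, e b hb, e c hc]
  have h0 : 0 ≤ a ^ p := Real.rpow_nonneg ha _
  have h1 : 0 ≤ b ^ p := Real.rpow_nonneg hb _
  have h2 : 0 ≤ c ^ p := Real.rpow_nonneg hc _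
  exact (Real.rpow_le_rpow h2 h hs0).trans (Real.rpow_add_le_add_rpow h0 h1 hs0 hs)

theorem pm : PM := by
  intro X _ _ p q p' q' P hp' hpp hpq hqq h
  have hq : 0 < q := by linarith
  exact
    { comp := h.comp
      tend := h.tend
      fin := h.fin
      lower := fun n x => PM_lower (norm_nonneg _) (norm_nonneg _) (norm_nonneg _) hq hqq
        (h.lower n x)
      upper := fun n x => PM_upper (norm_nonneg _) (norm_nonneg _) (norm_nonneg _)
        (by linarith) hpp (h.upper n x) }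

end Pool.Agent.H272.UU
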