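import Pool.Agent.H272.UU.Defs

/-!
# T3: finitely supported vectors which are almost annihilated

If `T` is injective with dense range and not a unit, then there are unit vectors of finite support,
annihilated by a given projection and by finitely many given functionals, on which `T` is small.
-/

set_option autoImplicit false

namespace Pool.Agent.H272.UU

open Filter Topology Pool.Agent.H272.IS
open scoped Classical

section T3aux

variable {X : Type*} [NormedAddCommGroup X] [NormedSpace ℂ X]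

/-- a dense directed union of subspaces meets the kernel of an operator of finite rank in a dense
subset of the kernel -/
theorem T3_dense {E : Type*} [NormedAddCommGroup E] [NormedSpace ℂ E] (S : X →L[ℂ] E)
    (hS : FiniteDimensional ℂ (LinearMap.range (S : X →ₗ[ℂ] E))) (P : ℕ → (X →L[ℂ] X))
    (hcomp : ∀ m n x, P m (P n x) = P (min m n) x) (htend : ∀ x, Tendsto (fun n => P n x) atTop (𝓝 x))
    {x : X} (hx : S x = 0) :
    ∃ y : ℕ → X, (∀ k, S (y k) = 0) ∧ (∀ k, ∃ n, P n (y k) = y k) ∧ Tendsto y atTop (𝓝 x) := by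
  let D : Submodule ℂ X :=
    { carrier := {x | ∃ n, P n x = x}
      zero_mem' := ⟨0, map_zero _⟩
      add_mem' := by
        rintro a b ⟨n, hn⟩ ⟨m, hm⟩
        refine ⟨max n m, ?_⟩
        have h1 : P (max n m) a = a := by
          rw [← hn, hcomp, min_eq_right (le_max_left n m)]
        have h2 : P (max n m) b = b := by
          rw [← hm, hcomp, min_eq_right (le_max_right n m)]
        rw [map_add, h1, h2]
      smul_mem' := by
        rintro c a ⟨n, hn⟩
        exact ⟨n, by rw [map_smul, hn]⟩ }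
  have hPD : ∀ n x, P n x ∈ D := fun n x => ⟨n, by rw [hcomp, min_self]⟩
  let f : D →ₗ[ℂ] LinearMap.range (S : X →ₗ[ℂ] E) :=
    (S : X →ₗ[ℂ] E).rangeRestrict ∘ₗ D.subtype
  have hf : Function.Surjective f := by
    have hcl : IsClosed ((LinearMap.range f : Submodule ℂ (LinearMap.range (S : X →ₗ[ℂ] E))) :
        Set (LinearMap.range (S : X →ₗ[ℂ] E))) := Submodule.closed_of_finiteDimensional _
    rintro ⟨_, z, rfl⟩
    have h1 : Tendsto (fun n => (S : X →ₗ[ℂ] E).rangeRestrict (P n z)) atTop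
        (𝓝 ((S : X →ₗ[ℂ] E).rangeRestrict z)) := by
      rw [tendsto_subtype_rng]
      exact (S.continuous.tendsto z).comp (htend z)
    have h2 := hcl.mem_of_tendsto h1 (Eventually.of_forall fun n => ?_)
    · obtain ⟨d, hd⟩ := h2
      exact ⟨d, hd⟩
    · exact ⟨⟨P n z, hPD n z⟩, rfl⟩
  obtain ⟨R, hR⟩ := f.exists_rightInverse_of_surjective (LinearMap.range_eq_top.2 hf)
  have hRc : Continuous (fun z => ((R z : D) : X)) :=
    (D.subtype ∘ₗ R).continuous_of_finiteDimensional
  refine ⟨fun n => P n x - R ((S : X →ₗ[ℂ] E).rangeRestrict (P n x)), fun n => ?_, fun n => ?_, ?_⟩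
  · have h1 : f (R ((S : X →ₗ[ℂ] E).rangeRestrict (P n x))) =
        (S : X →ₗ[ℂ] E).rangeRestrict (P n x) := LinearMap.congr_fun hR _
    have h2 := congrArg Subtype.val h1
    have h3 : S ((R ((S : X →ₗ[ℂ] E).rangeRestrict (P n x)) : D) : X) = S (P n x) := h2
    rw [map_sub, h3, sub_self]
  · exact D.sub_mem (hPD n x) (R _).2
  · have h1 : Tendsto (fun n => (S : X →ₗ[ℂ] E).rangeRestrict (P n x)) atTop
        (𝓝 ((S : X →ₗ[ℂ] E).rangeRestrict x)) := by
      rw [tendsto_subtype_rng]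
      exact (S.continuous.tendsto x).comp (htend x)
    have h2 := (hRc.tendsto _).comp h1
    have h3 : (S : X →ₗ[ℂ] E).rangeRestrict x = 0 := Subtype.ext hx
    rw [h3, map_zero] at h2
    have h4 := (htend x).sub h2
    simpa using h4

/-- an injective operator with dense range which is not a unit is not bounded below on the kernel of
an operator of finite rank -/
theorem T3_small [CompleteSpace X] {E : Type*} [NormedAddCommGroup E] [NormedSpace ℂ E]
    (S : X →L[ℂ] E) (hS : FiniteDimensional ℂ (LinearMap.range (S : X →ₗ[ℂ] E)))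
    {T : X →L[ℂ] X} (hinj : Function.Injective T) (hd : DenseRange T) (hu : ¬ IsUnit T)
    (ε : ℝ) (hε : 0 < ε) : ∃ x : X, S x = 0 ∧ ‖x‖ = 1 ∧ ‖T x‖ ≤ ε := by
  by_contra hcon
  push Not at hcon
  apply hu
  refine ContinuousLinearMap.isUnit_iff_bijective.2 ⟨hinj, ?_⟩
  have hb : ∀ x, S x = 0 → ε * ‖x‖ ≤ ‖T x‖ := by
    intro x hSx
    by_cases hx : x = 0
    · simp [hx]
    · have hx0 : 0 < ‖x‖ := norm_pos_iff.2 hx
      have h1 := hcon (((‖x‖⁻¹ : ℝ) : ℂ) • x) (by rw [map_smul, hSx, smul_zero]) (by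
        rw [norm_smul, Complex.norm_real, Real.norm_of_nonneg (inv_nonneg.2 hx0.le),
          inv_mul_cancel₀ hx0.ne'])
      rw [map_smul, norm_smul, Complex.norm_real, Real.norm_of_nonneg (inv_nonneg.2 hx0.le)] at h1
      have h2 := mul_lt_mul_of_pos_left h1 hx0
      rw [← mul_assoc, mul_inv_cancel₀ hx0.ne', one_mul] at h2
      linarith
  let V : Submodule ℂ X := LinearMap.ker (S : X →ₗ[ℂ] E)
  have hV : IsClosed (V : Set X) := S.isClosed_ker
  have hVc : CompleteSpace V := hV.completeSpace_coe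
  let g : V →L[ℂ] X := T.comp V.subtypeL
  have hal : AntilipschitzWith ⟨ε⁻¹, by positivity⟩ g := by
    refine AddMonoidHomClass.antilipschitz_of_bound g (fun x => ?_)
    change ‖(x : X)‖ ≤ ε⁻¹ * ‖T x‖
    rw [inv_mul_eq_div, le_div_iff₀ hε, mul_comm]
    exact hb x x.2
  have hcr : IsClosed (Set.range g) := hal.isClosed_range g.uniformContinuous
  have hmap : IsClosed ((V.map (T : X →ₗ[ℂ] X) : Submodule ℂ X) : Set X) := by
    have : ((V.map (T : X →ₗ[ℂ] X) : Submodule ℂ X) : Set X) = Set.range g := by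
      ext z
      constructor
      · rintro ⟨v, hv, rfl⟩
        exact ⟨⟨v, hv⟩, rfl⟩
      · rintro ⟨v, rfl⟩
        exact ⟨v, v.2, rfl⟩
    rw [this]
    exact hcr
  have hco : V.CoFG := by
    have e := (S : X →ₗ[ℂ] E).quotKerEquivRange
    have : FiniteDimensional ℂ (X ⧸ V) := LinearEquiv.finiteDimensional e.symm
    exact this
  have hcl := LinearMap.isClosed_range_of_isClosed_map_of_finiteDimensional_quotient
    (f := (T : X →ₗ[ℂ] X)) (s := V) hmap
  intro y
  have hy := hd y
  have h1 : closure (Set.range T) = Set.range T := by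
    have h2 : ((LinearMap.range (T : X →ₗ[ℂ] X) : Submodule ℂ X) : Set X) = Set.range T := rfl
    rw [← h2]
    exact hcl.closure_eq
  rw [h1] at hy
  exact hy

end T3aux

theorem t3 : T3 := by
  intro X _ _ _ p q P hp hpq hP T hinj hd hu L m ε hε
  let S : X →L[ℂ] (X × (L → ℂ)) := (P m).prod (ContinuousLinearMap.pi fun l : L => (l : X →L[ℂ] ℂ))
  have hS : FiniteDimensional ℂ (LinearMap.range (S : X →ₗ[ℂ] (X × (L → ℂ)))) := by
    have hfin := hP.fin m
    let W : Submodule ℂ (X × (L → ℂ)) :=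
      (LinearMap.range (P m : X →ₗ[ℂ] X)).prod (⊤ : Submodule ℂ (L → ℂ))
    have hW : FiniteDimensional ℂ W := by
      have h1 : (LinearMap.range (P m : X →ₗ[ℂ] X)).FG := Module.Finite.iff_fg.1 hfin
      have h2 : (⊤ : Submodule ℂ (L → ℂ)).FG := Module.Finite.fg_top
      exact Module.Finite.iff_fg.2 (h1.prod h2)
    refine Submodule.finiteDimensional_of_le (S₂ := W) ?_
    rintro _ ⟨x, rfl⟩
    exact ⟨⟨x, rfl⟩, trivial⟩
  obtain ⟨x, hSx, hx1, hTx⟩ := T3_small S hS hinj hd hu (ε / 4) (by positivity)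
  obtain ⟨y, hy1, hy2, hy3⟩ := T3_dense S hS P hP.comp hP.tend hSx
  have hn1 : ∀ᶠ k in atTop, 1 / 2 < ‖y k‖ := by
    have h1 : Tendsto (fun k => ‖y k‖) atTop (𝓝 ‖x‖) := hy3.norm
    rw [hx1] at h1
    exact h1.eventually (lt_mem_nhds (by norm_num))
  have hn2 : ∀ᶠ k in atTop, ‖T (y k)‖ < ε / 2 := by
    have h1 : Tendsto (fun k => ‖T (y k)‖) atTop (𝓝 ‖T x‖) :=
      ((T.continuous.tendsto x).comp hy3).norm
    exact h1.eventually (gt_mem_nhds (by linarith))
  obtain ⟨k, hk1, hk2⟩ := (hn1.and hn2).exists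
  obtain ⟨n, hn⟩ := hy2 k
  have hpos : 0 < ‖y k‖ := by linarith
  have hPn : P (max n (m + 1)) (y k) = y k := by
    rw [← hn, hP.comp, min_eq_right (le_max_left n (m + 1))]
  have hSk : S (y k) = 0 := hy1 k
  have hPm : P m (y k) = 0 := congrArg Prod.fst hSk
  have hl : ∀ l ∈ L, l (y k) = 0 := by
    intro l hlL
    have h1 := congrArg Prod.snd hSk
    exact congrFun h1 ⟨l, hlL⟩
  refine ⟨max n (m + 1), by omega, (((‖y k‖⁻¹ : ℝ) : ℂ) • y k), ?_, ?_, ?_, ?_, ?_⟩
  · rw [map_smul, hPn]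
  · rw [map_smul, hPm, smul_zero]
  · intro l hlL
    rw [map_smul, hl l hlL, smul_zero]
  · rw [norm_smul, Complex.norm_real, Real.norm_of_nonneg (inv_nonneg.2 hpos.le),
      inv_mul_cancel₀ hpos.ne']
  · rw [map_smul, norm_smul, Complex.norm_real, Real.norm_of_nonneg (inv_nonneg.2 hpos.le),
      inv_mul_le_iff₀ hpos]
    nlinarith

end Pool.Agent.H272.UU
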