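import Pool.Agent.H272.UU.Defs

set_option autoImplicit false

namespace Pool.Agent.H272.UU

open Filter Topology Pool.Agent.H272.IS
open scoped Classical

section t5aux

variable {X : Type} [NormedAddCommGroup X] [NormedSpace ℂ X] {p q : ℝ} {P : ℕ → (X →L[ℂ] X)}

theorem t5_norm_le (hq : 0 < q) (h : PQ p q P) (n : ℕ) (x : X) : ‖P n x‖ ≤ ‖x‖ := by
  have h1 := h.lower n x
  have h2 : 0 ≤ ‖x - P n x‖ ^ q := Real.rpow_nonneg (norm_nonneg _) q
  have h3 : ‖P n x‖ ^ q ≤ ‖x‖ ^ q := by linarith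
  exact (Real.rpow_le_rpow_iff (norm_nonneg _) (norm_nonneg _) hq).1 h3

theorem t5_norm_sub_le (hq : 0 < q) (h : PQ p q P) (n : ℕ) (x : X) : ‖x - P n x‖ ≤ ‖x‖ := by
  have h1 := h.lower n x
  have h2 : 0 ≤ ‖P n x‖ ^ q := Real.rpow_nonneg (norm_nonneg _) q
  have h3 : ‖x - P n x‖ ^ q ≤ ‖x‖ ^ q := by linarith
  exact (Real.rpow_le_rpow_iff (norm_nonneg _) (norm_nonneg _) hq).1 h3

theorem t5_idem (h : PQ p q P) (n : ℕ) (x : X) : P n (P n x) = P n x := by
  rw [h.comp, min_self]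

theorem t5_lim1 {q a b : ℝ} (hq : 0 < q) (h : ∀ ε : ℝ, 0 < ε → a ≤ (b + ε) ^ q) : a ≤ b ^ q := by
  have h1 : Tendsto (fun ε : ℝ => (b + ε) ^ q) (𝓝[>] 0) (𝓝 ((b + 0) ^ q)) := by
    refine Tendsto.mono_left ?_ nhdsWithin_le_nhds
    exact (ContinuousAt.rpow_const (continuousAt_const.add continuousAt_id) (Or.inr hq.le))
  rw [add_zero] at h1
  refine ge_of_tendsto h1 ?_
  filter_upwards [self_mem_nhdsWithin] with ε hε
  exact h ε hε

theorem t5_lim2 {p a b c : ℝ} (hp : 0 < p) (h : ∀ ε : ℝ, 0 < ε → a ≤ (b + ε) ^ p + (c + ε) ^ p) :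
    a ≤ b ^ p + c ^ p := by
  have h1 : Tendsto (fun ε : ℝ => (b + ε) ^ p + (c + ε) ^ p) (𝓝[>] 0)
      (𝓝 ((b + 0) ^ p + (c + 0) ^ p)) := by
    refine Tendsto.mono_left ?_ nhdsWithin_le_nhds
    exact (ContinuousAt.rpow_const (continuousAt_const.add continuousAt_id) (Or.inr hp.le)).add
      (ContinuousAt.rpow_const (continuousAt_const.add continuousAt_id) (Or.inr hp.le))
  rw [add_zero, add_zero] at h1
  refine ge_of_tendsto h1 ?_
  filter_upwards [self_mem_nhdsWithin] with ε hε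
  exact h ε hε

end t5aux

theorem t5 : T5 := by
  intro X _ _ p q P hp hpq hP Y _ m hm hY
  have hq0 : 0 < q := by linarith
  have hp0 : 0 < p := by linarith
  -- the induced maps
  have hle : ∀ n, Y ≤ Y.comap ((P (m n) : X →L[ℂ] X) : X →ₗ[ℂ] X) := by
    intro n y hy
    exact hY n y hy
  let A : ℕ → ((X ⧸ Y) →ₗ[ℂ] (X ⧸ Y)) := fun n =>
    Y.mapQ Y ((P (m n) : X →L[ℂ] X) : X →ₗ[ℂ] X) (hle n)
  have hA : ∀ n (z : X), A n (Submodule.Quotient.mk z) = Submodule.Quotient.mk (P (m n) z) :=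
    fun n z => rfl
  have hbound : ∀ n (x : X ⧸ Y), ‖A n x‖ ≤ 1 * ‖x‖ := by
    intro n x
    rw [one_mul]
    refine le_of_forall_pos_le_add fun ε hε => ?_
    obtain ⟨z, hz, hz2⟩ := Submodule.Quotient.norm_mk_lt x hε
    rw [← hz, hA]
    refine (Submodule.Quotient.norm_mk_le Y (P (m n) z)).trans ?_
    refine (t5_norm_le hq0 hP (m n) z).trans ?_
    rw [hz]
    exact hz2.le
  let P' : ℕ → ((X ⧸ Y) →L[ℂ] (X ⧸ Y)) := fun n => LinearMap.mkContinuous (A n) 1 (hbound n)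
  have hP' : ∀ n (z : X), P' n (Submodule.Quotient.mk z) = Submodule.Quotient.mk (P (m n) z) :=
    fun n z => rfl
  have hcomp : ∀ a b x, P' a (P' b x) = P' (min a b) x := by
    intro a b x
    obtain ⟨z, rfl⟩ := Submodule.Quotient.mk_surjective Y x
    rw [hP', hP', hP', hP.comp, hm.monotone.map_min]
  have hsub : ∀ n (z : X), (Submodule.Quotient.mk z : X ⧸ Y) - P' n (Submodule.Quotient.mk z) =
      Submodule.Quotient.mk (z - P (m n) z) := by
    intro n z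
    rw [hP', Submodule.Quotient.mk_sub]
  refine ⟨P', hcomp, ?_, ?_, ?_, ?_⟩
  · intro x
    obtain ⟨z, rfl⟩ := Submodule.Quotient.mk_surjective Y x
    have h1 : Tendsto (fun n => P (m n) z) atTop (𝓝 z) := (hP.tend z).comp hm.tendsto_atTop
    rw [tendsto_iff_norm_sub_tendsto_zero] at h1 ⊢
    refine squeeze_zero (fun n => norm_nonneg _) (fun n => ?_) h1
    rw [hP', ← Submodule.Quotient.mk_sub]
    exact Submodule.Quotient.norm_mk_le Y _
  · intro n
    have h1 : LinearMap.range (P' n : (X ⧸ Y) →ₗ[ℂ] (X ⧸ Y)) ≤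
        (LinearMap.range (P (m n) : X →ₗ[ℂ] X)).map Y.mkQ := by
      rintro _ ⟨x, rfl⟩
      obtain ⟨z, rfl⟩ := Submodule.Quotient.mk_surjective Y x
      exact ⟨P (m n) z, ⟨z, rfl⟩, rfl⟩
    have h2 := hP.fin (m n)
    have h3 : FiniteDimensional ℂ ((LinearMap.range (P (m n) : X →ₗ[ℂ] X)).map Y.mkQ) :=
      inferInstance
    exact Submodule.finiteDimensional_of_le h1
  · intro n x
    refine t5_lim1 hq0 fun ε hε => ?_
    obtain ⟨z, hz, hz2⟩ := Submodule.Quotient.norm_mk_lt x hε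
    rw [← hz]
    rw [← hz] at hz2
    rw [hsub, hP']
    have h1 := hP.lower (m n) z
    have h2 : ‖(Submodule.Quotient.mk (P (m n) z) : X ⧸ Y)‖ ^ q ≤ ‖P (m n) z‖ ^ q :=
      Real.rpow_le_rpow (norm_nonneg _) (Submodule.Quotient.norm_mk_le Y _) hq0.le
    have h3 : ‖(Submodule.Quotient.mk (z - P (m n) z) : X ⧸ Y)‖ ^ q ≤ ‖z - P (m n) z‖ ^ q :=
      Real.rpow_le_rpow (norm_nonneg _) (Submodule.Quotient.norm_mk_le Y _) hq0.le
    have h4 : ‖z‖ ^ q ≤ (‖(Submodule.Quotient.mk z : X ⧸ Y)‖ + ε) ^ q :=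
      Real.rpow_le_rpow (norm_nonneg _) hz2.le hq0.le
    linarith
  · intro n x
    refine t5_lim2 hp0 fun ε hε => ?_
    obtain ⟨u, hu, hu2⟩ := Submodule.Quotient.norm_mk_lt (P' n x) hε
    obtain ⟨v, hv, hv2⟩ := Submodule.Quotient.norm_mk_lt (x - P' n x) hε
    -- the new representative
    have h1 : (Submodule.Quotient.mk (P (m n) u + (v - P (m n) v)) : X ⧸ Y) = x := by
      rw [Submodule.Quotient.mk_add, Submodule.Quotient.mk_sub, ← hP', ← hP', hu, hv, map_sub,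
        hcomp, min_self]
      abel
    have h2 : P (m n) (P (m n) u + (v - P (m n) v)) = P (m n) u := by
      rw [map_add, map_sub, t5_idem hP, t5_idem hP, sub_self, add_zero]
    have h3 : P (m n) u + (v - P (m n) v) - P (m n) (P (m n) u + (v - P (m n) v)) =
        v - P (m n) v := by
      rw [h2]
      abel
    have h4 := hP.upper (m n) (P (m n) u + (v - P (m n) v))
    rw [h3, h2] at h4
    have h5 : ‖x‖ ≤ ‖P (m n) u + (v - P (m n) v)‖ := by
      have h6 := Submodule.Quotient.norm_mk_le Y (P (m n) u + (v - P (m n) v))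
      rw [h1] at h6
      exact h6
    have h6 : ‖x‖ ^ p ≤ ‖P (m n) u + (v - P (m n) v)‖ ^ p :=
      Real.rpow_le_rpow (norm_nonneg _) h5 hp0.le
    have h7 : ‖P (m n) u‖ ^ p ≤ (‖P' n x‖ + ε) ^ p :=
      Real.rpow_le_rpow (norm_nonneg _) ((t5_norm_le hq0 hP (m n) u).trans hu2.le) hp0.le
    have h8 : ‖v - P (m n) v‖ ^ p ≤ (‖x - P' n x‖ + ε) ^ p :=
      Real.rpow_le_rpow (norm_nonneg _) ((t5_norm_sub_le hq0 hP (m n) v).trans hv2.le) hp0.le
    linarith

end Pool.Agent.H272.UU
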