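import Pool.Agent.H272.UU.Defs2
import Pool.Agent.H272.IS.Transfer

/-!
# T7': transport to a space which contains `W` as a complemented subspace, general constants

(after T7 of helper339)
-/

set_option autoImplicit false

namespace Pool.Agent.H272.UU

open Filter Topology Pool.Agent.H272.IS
open scoped Classical

theorem t7' : T7' := by
  intro F W _ _ _ _ _ _ _ i r M hM hri hi hr hinf a ha H
  obtain ⟨Z, hZ⟩ : ∃ Z : Submodule ℂ F, Z = LinearMap.ker (r : F →ₗ[ℂ] W) := ⟨_, rfl⟩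
  have hmem : ∀ x, x ∈ Z ↔ r x = 0 := fun x => by
    rw [hZ, LinearMap.mem_ker]
    rfl
  have hZc : IsClosed (Z : Set F) := by
    have h1 : (Z : Set F) = r ⁻¹' {0} := by
      ext x
      exact hmem x
    rw [h1]
    exact isClosed_singleton.preimage r.continuous
  have hcomp : CompleteSpace Z := hZc.completeSpace_coe
  have hsc : SecondCountableTopology F := UniformSpace.secondCountable_of_separable F
  have hsep : TopologicalSpace.SeparableSpace Z := inferInstance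
  rw [← hZ] at hinf
  obtain ⟨R, K, hK, hNI⟩ := H Z hinf
  have hcod : ∀ x, (ContinuousLinearMap.id ℂ F - i ∘L r) x ∈ Z := by
    intro x
    rw [hmem]
    simp [hri]
  obtain ⟨φ, hφ⟩ : ∃ φ : (W × Z) →L[ℂ] F, φ = i.coprod Z.subtypeL := ⟨_, rfl⟩
  obtain ⟨ψ, hψ⟩ : ∃ ψ : F →L[ℂ] (W × Z), ψ = r.prod
    ((ContinuousLinearMap.id ℂ F - i ∘L r).codRestrict Z hcod) := ⟨_, rfl⟩
  have hφa : ∀ w : W, ∀ z : Z, φ (w, z) = i w + z := fun w z => by
    rw [hφ]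
    simp
  have hψ1 : ∀ x, (ψ x).1 = r x := fun x => by rw [hψ]; rfl
  have hψ2 : ∀ x, ((ψ x).2 : F) = x - i (r x) := fun x => by rw [hψ]; rfl
  have hAB : ∀ x, ψ (φ x) = x := by
    rintro ⟨w, z⟩
    have hz : r (z : F) = 0 := (hmem _).1 z.2
    refine Prod.ext ?_ (Subtype.ext ?_)
    · rw [hψ1, hφa, map_add, hri, hz, add_zero]
    · rw [hψ2, hφa, map_add, hri, hz, add_zero, add_sub_cancel_left]
  have hBA : ∀ x, φ (ψ x) = x := by
    intro x
    have h1 : φ (ψ x) = i (ψ x).1 + ((ψ x).2 : F) := hφa _ _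
    rw [h1, hψ1, hψ2, add_sub_cancel]
  have hφn : ‖φ‖ ≤ M + 1 := by
    refine ContinuousLinearMap.opNorm_le_bound _ (by positivity) ?_
    rintro ⟨w, z⟩
    rw [hφa]
    have h1 : ‖i w‖ ≤ M * ‖w‖ := (i.le_opNorm w).trans (by gcongr)
    have h2 : ‖w‖ ≤ ‖((w, z) : W × Z)‖ := norm_fst_le (w, z)
    have h3 : ‖z‖ ≤ ‖((w, z) : W × Z)‖ := norm_snd_le (w, z)
    have h4 : ‖(z : F)‖ = ‖z‖ := rfl
    calc ‖i w + (z : F)‖ ≤ ‖i w‖ + ‖(z : F)‖ := norm_add_le _ _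
      _ ≤ M * ‖w‖ + ‖z‖ := by rw [h4]; gcongr
      _ ≤ M * ‖((w, z) : W × Z)‖ + ‖((w, z) : W × Z)‖ := by gcongr
      _ = (M + 1) * ‖((w, z) : W × Z)‖ := by ring
  have hψn : ‖ψ‖ ≤ 1 + M + M * M := by
    refine ContinuousLinearMap.opNorm_le_bound _ (by positivity) ?_
    intro x
    have h1 : ‖r x‖ ≤ M * ‖x‖ := (r.le_opNorm x).trans (by gcongr)
    have h2 : ‖i (r x)‖ ≤ M * ‖r x‖ := (i.le_opNorm _).trans (by gcongr)
    have h0 := norm_nonneg x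
    have h3 : 0 ≤ M * ‖x‖ := mul_nonneg hM h0
    have h5 : 0 ≤ M * (M * ‖x‖) := mul_nonneg hM h3
    have h6 : M * ‖r x‖ ≤ M * (M * ‖x‖) := mul_le_mul_of_nonneg_left h1 hM
    have h7 : (1 + M + M * M) * ‖x‖ = ‖x‖ + M * ‖x‖ + M * (M * ‖x‖) := by ring
    rw [h7]
    rw [Prod.norm_def]
    refine max_le ?_ ?_
    · rw [hψ1]
      linarith
    · have h4 : ‖(ψ x).2‖ = ‖((ψ x).2 : F)‖ := rfl
      rw [h4, hψ2]
      refine (norm_sub_le _ _).trans ?_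
      linarith
  refine ⟨R, φ ∘L (K ∘L ψ), hK.conj' ψ φ fun n => ?_, ?_⟩
  · have h1 : ‖ψ‖ * ‖φ‖ ≤ (1 + M + M * M) * (M + 1) :=
      mul_le_mul hψn hφn φ.opNorm_nonneg (by positivity)
    have h2 : 0 < a n := ha n
    have h3 : (1 + M + M * M) * (M + 1) ≤ (1 + M) ^ 4 := by
      have h4 : 0 ≤ M * M := mul_nonneg hM hM
      have h5 : 0 ≤ M * (M * M) := mul_nonneg hM h4
      have h6 : 0 ≤ M * (M * (M * M)) := mul_nonneg hM h5
      nlinarith
    have h7 : 0 < (1 + M) ^ 4 := by positivity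
    calc ‖ψ‖ * ‖φ‖ * (a n / (1 + M) ^ 4) ≤ (1 + M) ^ 4 * (a n / (1 + M) ^ 4) :=
          mul_le_mul_of_nonneg_right (h1.trans h3) (by positivity)
      _ = a n := by field_simp
  · have h := hNI.conj ψ φ hAB hBA
    have he : φ ∘L ((R.prodMap (0 : Z →L[ℂ] Z) + K) ∘L ψ) =
        i ∘L (R ∘L r) + φ ∘L (K ∘L ψ) := by
      ext x
      have h1 : (φ ∘L ((R.prodMap (0 : Z →L[ℂ] Z) + K) ∘L ψ)) x =
          φ ((R (ψ x).1, (0 : Z)) + K (ψ x)) := rfl
      have h2 : (i ∘L (R ∘L r) + φ ∘L (K ∘L ψ)) x = i (R (r x)) + φ (K (ψ x)) := rfl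
      rw [h1, h2, map_add, hφa, hψ1]
      simp
    rw [he] at h
    exact h

end Pool.Agent.H272.UU
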