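import Pool.Agent.H272.UU.Univ
import Pool.Agent.H272.UU.T3
import Pool.Agent.H272.UU.T5
import Pool.Agent.H272.UU.T6p
import Pool.Agent.H272.UU.T7p
import Pool.Agent.H272.UU.PM
import Pool.Agent.H272.UU.L2
import Pool.Agent.H272.UU.Defs3

/-!
# UU: the transfer to the universal space
-/

set_option autoImplicit false

namespace Pool.Agent.H272.UU

open Filter Topology Pool.Agent.H272.IS
open scoped Classical ENNReal

/-- `U` contains every space with a `(p,q)`-decomposition as a complemented subspace -/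
def Uni (p q : ℝ) (U : Type) [NormedAddCommGroup U] [NormedSpace ℂ U] : Prop :=
  ∀ (W : Type) [NormedAddCommGroup W] [NormedSpace ℂ W] [CompleteSpace W]
    (P : ℕ → (W →L[ℂ] W)), PQ p q P →
    ∃ (i : W →L[ℂ] U) (r : U →L[ℂ] W), (∀ w, r (i w) = w) ∧ ‖i‖ ≤ 2 ∧ ‖r‖ ≤ 2

/-- an infinite-dimensional space with a `(p,q)`-decomposition -/
theorem exists_infinite (p q : ℝ) (hp : 1 < p) (hpq : p ≤ q) :
    ∃ (W : Type) (_ : NormedAddCommGroup W) (_ : NormedSpace ℂ W) (_ : CompleteSpace W)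
      (P : ℕ → (W →L[ℂ] W)), PQ p q P ∧ ¬ FiniteDimensional ℂ W := by
  have h0 : 0 < p := by linarith
  have hfact : Fact (1 ≤ ENNReal.ofReal p) := ⟨by
    rw [← ENNReal.ofReal_one]
    exact ENNReal.ofReal_le_ofReal hp.le⟩
  have hP := pdec_lp (fun _ : ℕ => ℂ) (ENNReal.ofReal p) (by
    rw [← ENNReal.ofReal_one]
    exact (ENNReal.ofReal_lt_ofReal_iff h0).2 hp) ENNReal.ofReal_ne_top
  rw [ENNReal.toReal_ofReal h0.le] at hP
  refine ⟨lp (fun _ : ℕ => ℂ) (ENNReal.ofReal p), inferInstance, inferInstance, inferInstance, _,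
    pm _ p p p q _ hp le_rfl le_rfl hpq ⟨hP.comp, hP.tend, hP.fin, fun n x => ?_, fun n x => ?_⟩, ?_⟩
  · exact (hP.add n x).ge
  · exact (hP.add n x).le
  · intro hfd
    have hli : LinearIndependent ℂ (fun n : ℕ => (lp.single (ENNReal.ofReal p) n (1 : ℂ) :
        lp (fun _ : ℕ => ℂ) (ENNReal.ofReal p))) := by
      rw [linearIndependent_iff']
      intro s b hb i hi
      have h1 := congrArg (fun x : lp (fun _ : ℕ => ℂ) (ENNReal.ofReal p) => x i) hb
      simp only [lp.coeFn_sum, Finset.sum_apply, lp.coeFn_smul, Pi.smul_apply, lp.single_apply,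
        lp.coeFn_zero, Pi.zero_apply] at h1
      rw [Finset.sum_eq_single i] at h1
      · simpa using h1
      · intro j _ hji
        simp [Ne.symm hji]
      · intro hcon
        exact absurd hi hcon
    have := hli.finite_of_isNoetherian
    exact not_finite ℕ

theorem not_fd_of_uni {p q : ℝ} (hp : 1 < p) (hpq : p ≤ q) {U : Type} [NormedAddCommGroup U]
    [NormedSpace ℂ U] (h : Uni p q U) : ¬ FiniteDimensional ℂ U := by
  obtain ⟨W, i1, i2, i3, P, hP, hW⟩ := exists_infinite p q hp hpq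
  obtain ⟨i, r, hri, -, -⟩ := h W P hP
  intro hfd
  apply hW
  have hinj : Function.Injective (i : W →ₗ[ℂ] U) := fun x y hxy => by
    have h1 : i x = i y := hxy
    rw [← hri x, ← hri y, h1]
  exact FiniteDimensional.of_injective (i : W →ₗ[ℂ] U) hinj

/-- **Transfer.** -/
theorem transfer_uni (h4 : T4') {p q : ℝ} (hp : 1 < p) (hpq : p ≤ q) {U : Type}
    [NormedAddCommGroup U] [NormedSpace ℂ U] [CompleteSpace U] [TopologicalSpace.SeparableSpace U]
    (hU : Uni p q U) {X V : Type} [NormedAddCommGroup X] [NormedSpace ℂ X] [CompleteSpace X]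
    [NormedAddCommGroup V] [NormedSpace ℂ V] [CompleteSpace V] (P : ℕ → (V →L[ℂ] V))
    (hP : PQ p q P) (i : X →L[ℂ] V) (r : V →L[ℂ] X) (hri : ∀ x, r (i x) = x)
    (hX : ¬ FiniteDimensional ℂ X) (T : X →L[ℂ] X) (hT : NoInv T) (a : ℕ → ℝ)
    (ha : ∀ n, 0 < a n) :
    ∃ (R : U →L[ℂ] U) (K : (U × U) →L[ℂ] (U × U)), Rapid a K ∧
      NoInv (R.prodMap (0 : U →L[ℂ] U) + K) := by
  set M : ℝ := 4 * (‖i‖ + ‖r‖) with hM
  have hM0 : 0 ≤ M := by positivity
  obtain ⟨W, j1, j2, j3, W', j4, j5, j6, P', j, s, hP', hsj, hjn, hsn, hZ⟩ :=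
    t6' t1b t1 h4 t5 X V p q P hp hpq hP i r hri hX T hT (fun n => a n / (1 + M) ^ 4)
      (fun n => by have := ha n; positivity)
  obtain ⟨iU, rU, hU1, hU2, hU3⟩ := hU W' P' hP'
  set I : W →L[ℂ] U := iU ∘L j with hI
  set Rr : U →L[ℂ] W := s ∘L rU with hRr
  have hIR : ∀ w, Rr (I w) = w := by
    intro w
    change s (rU (iU (j w))) = w
    rw [hU1, hsj]
  have hIn : ‖I‖ ≤ M := by
    calc ‖I‖ ≤ ‖iU‖ * ‖j‖ := ContinuousLinearMap.opNorm_comp_le _ _
      _ ≤ 2 * (2 * ‖i‖) := by gcongr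
      _ ≤ M := by rw [hM]; nlinarith [norm_nonneg r]
  have hRn : ‖Rr‖ ≤ M := by
    calc ‖Rr‖ ≤ ‖s‖ * ‖rU‖ := ContinuousLinearMap.opNorm_comp_le _ _
      _ ≤ (2 * ‖r‖) * 2 := by gcongr
      _ ≤ M := by rw [hM]; nlinarith [norm_nonneg i]
  set iF : W →L[ℂ] (U × U) := (ContinuousLinearMap.inl ℂ U U) ∘L I with hiF
  set rF : (U × U) →L[ℂ] W := Rr ∘L (ContinuousLinearMap.fst ℂ U U) with hrF
  have hF : ∀ w, rF (iF w) = w := fun w => hIR w
  have hiFn : ‖iF‖ ≤ M := by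
    refine (ContinuousLinearMap.opNorm_comp_le _ _).trans ?_
    calc ‖ContinuousLinearMap.inl ℂ U U‖ * ‖I‖ ≤ 1 * M := by
          gcongr
          exact ContinuousLinearMap.norm_inl_le_one ℂ U U
      _ = M := one_mul M
  have hrFn : ‖rF‖ ≤ M := by
    refine (ContinuousLinearMap.opNorm_comp_le _ _).trans ?_
    calc ‖Rr‖ * ‖ContinuousLinearMap.fst ℂ U U‖ ≤ M * 1 := by
          gcongr
          exact ContinuousLinearMap.norm_fst_le ..
      _ = M := mul_one M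
  have hUfd : ¬ FiniteDimensional ℂ U := not_fd_of_uni hp hpq hU
  have hker : ¬ FiniteDimensional ℂ (LinearMap.ker (rF : (U × U) →ₗ[ℂ] W)) := by
    intro hfd
    apply hUfd
    let φ : U →ₗ[ℂ] LinearMap.ker (rF : (U × U) →ₗ[ℂ] W) :=
      (LinearMap.inr ℂ U U).codRestrict _ (fun u => by
        rw [LinearMap.mem_ker]
        change Rr 0 = 0
        rw [map_zero])
    have hφ : Function.Injective φ := by
      intro x y hxy
      have h1 : (LinearMap.inr ℂ U U) x = (LinearMap.inr ℂ U U) y := congrArg Subtype.val hxy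
      simpa using h1
    exact FiniteDimensional.of_injective φ hφ
  obtain ⟨R, K, hK, hN⟩ := t7' (U × U) W iF rF M hM0 hF hiFn hrFn hker a ha hZ
  refine ⟨I ∘L (R ∘L Rr), K, hK, ?_⟩
  have he : (I ∘L (R ∘L Rr)).prodMap (0 : U →L[ℂ] U) = iF ∘L (R ∘L rF) := by
    ext x <;> simp [hiF, hrF]
  rw [he]
  exact hN

/-- the universal spaces -/
structure USp (p q : ℝ) where
  U : Type
  i1 : NormedAddCommGroup U
  i2 : NormedSpace ℂ U
  i3 : CompleteSpace U
  i4 : TopologicalSpace.SeparableSpace U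
  refl : Function.Surjective (NormedSpace.inclusionInDoubleDual ℂ U)
  uni : Uni p q U

theorem nonempty_usp (p q : ℝ) (hp : 1 < p) (hpq : p ≤ q) : Nonempty (USp p q) := by
  obtain ⟨U, i1, i2, i3, i4, PU, hPU, hU⟩ := exists_univ p q hp hpq
  exact ⟨⟨U, i1, i2, i3, i4, (t1 U p q _ PU hp hpq hPU).1, hU⟩⟩

/-- **One reflexive space for all exponents.** -/
theorem exists_all : ∃ (U : Type) (_ : NormedAddCommGroup U) (_ : NormedSpace ℂ U)
    (_ : CompleteSpace U) (_ : TopologicalSpace.SeparableSpace U),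
    Function.Surjective (NormedSpace.inclusionInDoubleDual ℂ U) ∧
      ∀ p q : ℝ, 1 < p → p ≤ q → Uni p q U := by
  have hex : ∀ n : ℕ, Nonempty (USp (1 + 1 / ((n : ℝ) + 1)) ((n : ℝ) + 2)) := by
    intro n
    have h1 : (0 : ℝ) < 1 / ((n : ℝ) + 1) := by positivity
    have h2 : 1 / ((n : ℝ) + 1) ≤ 1 := by
      rw [div_le_one (by positivity)]
      have : (0 : ℝ) ≤ n := Nat.cast_nonneg n
      linarith
    have h3 : (0 : ℝ) ≤ n := Nat.cast_nonneg n
    exact nonempty_usp _ _ (by linarith) (by linarith)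
  let S : ∀ n : ℕ, USp (1 + 1 / ((n : ℝ) + 1)) ((n : ℝ) + 2) := fun n => Classical.choice (hex n)
  let i1 : ∀ n, NormedAddCommGroup (S n).U := fun n => (S n).i1
  let i2 : ∀ n, NormedSpace ℂ (S n).U := fun n => (S n).i2
  have i3 : ∀ n, CompleteSpace (S n).U := fun n => (S n).i3
  have i4 : ∀ n, TopologicalSpace.SeparableSpace (S n).U := fun n => (S n).i4
  obtain ⟨h1, h2, h3⟩ := l2 (fun n => (S n).U) (fun n => (S n).refl)
  refine ⟨lp (fun n => (S n).U) 2, inferInstance, inferInstance, inferInstance, h2, h1, ?_⟩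
  intro p q hp hpq W _ _ _ P hP
  obtain ⟨n, hn⟩ := exists_nat_ge (max (1 / (p - 1)) q)
  have hn1 : 1 / (p - 1) ≤ n := (le_max_left _ _).trans hn
  have hn2 : q ≤ n := (le_max_right _ _).trans hn
  have hp1 : 0 < p - 1 := by linarith
  have h4 : 1 + 1 / ((n : ℝ) + 1) ≤ p := by
    have h5 : 1 / ((n : ℝ) + 1) ≤ p - 1 := by
      rw [div_le_iff₀ (by positivity)]
      rw [div_le_iff₀ hp1] at hn1
      nlinarith
    linarith
  have h6 : (1 : ℝ) < 1 + 1 / ((n : ℝ) + 1) := by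
    have : (0 : ℝ) < 1 / ((n : ℝ) + 1) := by positivity
    linarith
  obtain ⟨i, r, hri, hi, hr⟩ := (S n).uni W P (pm W p q _ _ P h6 h4 hpq (by linarith) hP)
  obtain ⟨i', r', hri', hi', hr'⟩ := h3 n
  refine ⟨i' ∘L i, r ∘L r', fun w => ?_, ?_, ?_⟩
  · change r (r' (i' (i w))) = w
    rw [hri', hri]
  · calc ‖i' ∘L i‖ ≤ ‖i'‖ * ‖i‖ := ContinuousLinearMap.opNorm_comp_le _ _
      _ ≤ 1 * 2 := by gcongr
      _ = 2 := by norm_num
  · calc ‖r ∘L r'‖ ≤ ‖r‖ * ‖r'‖ := ContinuousLinearMap.opNorm_comp_le _ _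
      _ ≤ 2 * 1 := by gcongr
      _ = 2 := by norm_num

end Pool.Agent.H272.UU
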