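import Pool.Agent.H272.UU.Defs4

/-!
# UU: the dual of a separable reflexive space is separable
-/

set_option autoImplicit false

namespace Pool.Agent.H272.UU

open Filter Topology Pool.Agent.H272.IS
open scoped Classical

/-- a normed space with separable dual is separable -/
theorem SD_separable_of_dual {E : Type*} [NormedAddCommGroup E] [NormedSpace ℂ E]
    (F : ℕ → (E →L[ℂ] ℂ)) (hF : DenseRange F) : TopologicalSpace.SeparableSpace E := by
  have hu : ∀ n, ∃ u : E, ‖u‖ ≤ 1 ∧ ‖F n‖ / 2 ≤ ‖F n u‖ := by
    intro n
    rcases eq_or_lt_of_le (norm_nonneg (F n)) with h0 | h0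
    · exact ⟨0, by simp, by simp [← h0]⟩
    · obtain ⟨x, hx1, hx2⟩ := (F n).exists_lt_apply_of_lt_opNorm (half_lt_self h0)
      exact ⟨x, hx1.le, hx2.le⟩
  choose u hu1 hu2 using hu
  let p : Submodule ℂ E := (Submodule.span ℂ (Set.range u)).topologicalClosure
  have hp : ∀ x : E, x ∈ p := by
    intro x
    by_contra hx
    obtain ⟨f, hf1, hf2⟩ := exists_vanishing p (Submodule.isClosed_topologicalClosure _) hx
    have hfne : f ≠ 0 := by
      intro h
      apply hf1
      rw [h]
      simp
    have hfpos : 0 < ‖f‖ := norm_pos_iff.2 hfne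
    obtain ⟨n, hn⟩ := hF.exists_dist_lt f (show (0 : ℝ) < ‖f‖ / 4 by positivity)
    rw [dist_eq_norm] at hn
    have h1 : f (u n) = 0 := hf2 _ (Submodule.le_topologicalClosure _
      (Submodule.subset_span ⟨n, rfl⟩))
    have h2 : ‖F n (u n)‖ ≤ ‖f - F n‖ := by
      have h3 : F n (u n) = -((f - F n) (u n)) := by
        rw [ContinuousLinearMap.sub_apply, h1]
        ring
      rw [h3, norm_neg]
      calc ‖(f - F n) (u n)‖ ≤ ‖f - F n‖ * ‖u n‖ := ContinuousLinearMap.le_opNorm _ _
        _ ≤ ‖f - F n‖ * 1 := by
          exact mul_le_mul_of_nonneg_left (hu1 n) (norm_nonneg _)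
        _ = ‖f - F n‖ := mul_one _
    have h4 : ‖f‖ ≤ ‖f - F n‖ + ‖F n‖ := by
      have := norm_add_le (f - F n) (F n)
      rwa [sub_add_cancel] at this
    have h5 := hu2 n
    linarith
  have hsep : TopologicalSpace.IsSeparable (Set.univ : Set E) := by
    have h1 : TopologicalSpace.IsSeparable (Set.range u) := (Set.countable_range u).isSeparable
    have h2 : TopologicalSpace.IsSeparable
        ((Submodule.span ℂ (Set.range u) : Submodule ℂ E) : Set E) := h1.span
    have h3 := h2.closure
    refine h3.mono ?_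
    intro x _
    have := hp x
    rw [← SetLike.mem_coe, Submodule.topologicalClosure_coe] at this
    exact this
  exact TopologicalSpace.isSeparable_univ_iff.1 hsep

/-- the dual of a separable reflexive space is separable -/
theorem sd : SD := by
  intro X _ _ _ _ hX
  have hcont : Continuous (NormedSpace.inclusionInDoubleDual ℂ X) :=
    (NormedSpace.inclusionInDoubleDual ℂ X).continuous
  have hd : DenseRange (fun n => NormedSpace.inclusionInDoubleDual ℂ X
      (TopologicalSpace.denseSeq X n)) :=
    hX.denseRange.comp (TopologicalSpace.denseRange_denseSeq X) hcont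
  have hs : TopologicalSpace.SeparableSpace (X →L[ℂ] ℂ) := SD_separable_of_dual _ hd
  exact TopologicalSpace.exists_dense_seq (X →L[ℂ] ℂ)

end Pool.Agent.H272.UU
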