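import Pool.Agent.H272.UU.Defs4

set_option autoImplicit false

namespace Pool.Agent.H272.UU

open Filter Topology Pool.Agent.H272.IS
open scoped Classical

theorem t5f : T5f := by
  intro X _ _ P hP Y _ m hm hY
  -- the induced maps
  have hle : ∀ n, Y ≤ Y.comap ((P (m n) : X →L[ℂ] X) : X →ₗ[ℂ] X) := by
    intro n y hy
    exact hY n y hy
  let A : ℕ → ((X ⧸ Y) →ₗ[ℂ] (X ⧸ Y)) := fun n =>
    Y.mapQ Y ((P (m n) : X →L[ℂ] X) : X →ₗ[ℂ] X) (hle n)
  have hA : ∀ n (z : X), A n (Submodule.Quotient.mk z) = Submodule.Quotient.mk (P (m n) z) :=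
    fun n z => rfl
  have hbound : ∀ n (x : X ⧸ Y), ‖A n x‖ ≤ 1 * ‖x‖ := by
    intro n x
    rw [one_mul]
    refine le_of_forall_pos_le_add fun ε hε => ?_
    obtain ⟨z, hz, hz2⟩ := Submodule.Quotient.norm_mk_lt x hε
    rw [← hz, hA]
    refine (Submodule.Quotient.norm_mk_le Y (P (m n) z)).trans ?_
    refine (hP.le (m n) z).trans ?_
    rw [hz]
    exact hz2.le
  let P' : ℕ → ((X ⧸ Y) →L[ℂ] (X ⧸ Y)) := fun n => LinearMap.mkContinuous (A n) 1 (hbound n)
  have hP' : ∀ n (z : X), P' n (Submodule.Quotient.mk z) = Submodule.Quotient.mk (P (m n) z) :=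
    fun n z => rfl
  have hcomp : ∀ a b x, P' a (P' b x) = P' (min a b) x := by
    intro a b x
    obtain ⟨z, rfl⟩ := Submodule.Quotient.mk_surjective Y x
    rw [hP', hP', hP', hP.comp, hm.monotone.map_min]
  refine ⟨P', hcomp, ?_, ?_, ?_⟩
  · intro x
    obtain ⟨z, rfl⟩ := Submodule.Quotient.mk_surjective Y x
    have h1 : Tendsto (fun n => P (m n) z) atTop (𝓝 z) := (hP.tend z).comp hm.tendsto_atTop
    rw [tendsto_iff_norm_sub_tendsto_zero] at h1 ⊢
    refine squeeze_zero (fun n => norm_nonneg _) (fun n => ?_) h1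
    rw [hP', ← Submodule.Quotient.mk_sub]
    exact Submodule.Quotient.norm_mk_le Y _
  · intro n
    have h1 : LinearMap.range (P' n : (X ⧸ Y) →ₗ[ℂ] (X ⧸ Y)) ≤
        (LinearMap.range (P (m n) : X →ₗ[ℂ] X)).map Y.mkQ := by
      rintro _ ⟨x, rfl⟩
      obtain ⟨z, rfl⟩ := Submodule.Quotient.mk_surjective Y x
      exact ⟨P (m n) z, ⟨z, rfl⟩, rfl⟩
    have h2 := hP.fin (m n)
    have h3 : FiniteDimensional ℂ ((LinearMap.range (P (m n) : X →ₗ[ℂ] X)).map Y.mkQ) :=
      inferInstance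
    exact Submodule.finiteDimensional_of_le h1
  · intro n x
    have h := hbound n x
    rw [one_mul] at h
    exact h

end Pool.Agent.H272.UU

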