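import Pool.Agent.H272.UU.Defs4
import Pool.Agent.H272.WC.Refl

/-!
# UU: weakly compact operators (helper286)
-/

set_option autoImplicit false

namespace Pool.Agent.H272.UU

open Filter Topology Pool.Agent.H272.IS
open scoped Classical

section

variable {X Y Z : Type} [NormedAddCommGroup X] [NormedSpace ℂ X] [NormedAddCommGroup Y]
  [NormedSpace ℂ Y] [NormedAddCommGroup Z] [NormedSpace ℂ Z]

theorem WF_iff {E : Type} [NormedAddCommGroup E] [NormedSpace ℂ E] {K : E →L[ℂ] E} :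
    WkC K ↔ Q99.RD.UWC K :=
  ⟨fun h => Q99.RD.WeaklyCompact.uwc h, fun h => h.weaklyCompact⟩

theorem WF_post {T : X →L[ℂ] Y} (h : Q99.RD.UWC T) (A : Y →L[ℂ] Z) : Q99.RD.UWC (A ∘L T) := by
  intro R 𝓤 hR
  obtain ⟨y, hy⟩ := h R 𝓤 hR
  exact ⟨A y, fun f => hy (f.comp A)⟩

theorem WF_add {S T : X →L[ℂ] Y} (hS : Q99.RD.UWC S) (hT : Q99.RD.UWC T) :
    Q99.RD.UWC (S + T) := by
  intro R 𝓤 hR
  obtain ⟨y, hy⟩ := hS R 𝓤 hR
  obtain ⟨z, hz⟩ := hT R 𝓤 hR
  refine ⟨y + z, fun f => ?_⟩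
  rw [map_add]
  refine ((hy f).add (hz f)).congr fun x => ?_
  show f (S x) + f (T x) = f (S x + T x)
  rw [map_add]

theorem WF_nuclear [CompleteSpace X] {a : ℕ → ℝ} (ha : Summable a) {K : X →L[ℂ] X}
    (hK : Rapid a K) : Q99.RD.UWC K := by
  intro R 𝓤 hR
  obtain ⟨f, y, h1, h2⟩ := hK
  have hR0 : 0 ≤ R := by
    obtain ⟨x, hx⟩ := 𝓤.nonempty_of_mem hR
    rw [mem_closedBall_zero_iff] at hx
    exact (norm_nonneg x).trans hx
  have hb : ∀ n, ∀ x ∈ Metric.closedBall (0 : X) R, ‖f n x‖ ≤ ‖f n‖ * R := by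
    intro n x hx
    rw [mem_closedBall_zero_iff] at hx
    exact ((f n).le_opNorm x).trans (mul_le_mul_of_nonneg_left hx (norm_nonneg _))
  have h3 : ∀ n, ∃ c : ℂ, Tendsto (fun x => f n x) 𝓤 (𝓝 c) := by
    intro n
    have hc : IsCompact (Metric.closedBall (0 : ℂ) (‖f n‖ * R)) := isCompact_closedBall _ _
    obtain ⟨c, _, hc2⟩ := hc.ultrafilter_le_nhds (𝓤.map (fun x => f n x)) (by
      rw [le_principal_iff]
      show _ ∈ 𝓤.map (fun x => f n x)
      rw [Ultrafilter.mem_map]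
      refine Filter.mem_of_superset hR fun x hx => ?_
      show f n x ∈ Metric.closedBall (0 : ℂ) (‖f n‖ * R)
      rw [mem_closedBall_zero_iff]
      exact hb n x hx)
    exact ⟨c, hc2⟩
  choose c hc using h3
  have h4 : Tendsto (fun x => ∑' k, f k x • y k) 𝓤 (𝓝 (∑' k, c k • y k)) := by
    refine tendsto_tsum_of_dominated_convergence (bound := fun k => R * a k) (ha.mul_left R)
      (fun k => (hc k).smul_const (y k)) ?_
    refine Filter.mem_of_superset hR fun x hx k => ?_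
    rw [norm_smul]
    calc ‖f k x‖ * ‖y k‖ ≤ ‖f k‖ * R * ‖y k‖ :=
          mul_le_mul_of_nonneg_right (hb k x hx) (norm_nonneg _)
      _ = R * (‖f k‖ * ‖y k‖) := by ring
      _ ≤ R * a k := mul_le_mul_of_nonneg_left (h1 k) hR0
  refine ⟨∑' k, c k • y k, fun φ => ?_⟩
  have h5 : ∀ x, ∑' k, f k x • y k = K x := fun x => (h2 x).tsum_eq
  simp only [h5] at h4
  exact (φ.continuous.tendsto _).comp h4

end

/-- **WF.** -/
theorem wf : WF := by
  intro E W _ _ _ _ _ _ A B hW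
  rw [WF_iff]
  have h1 : Q99.RD.UWC (ContinuousLinearMap.id ℂ W) := Pool.Agent.H272.WC.rx_of_surjective hW
  exact (WF_post h1 A).comp B

/-- **WS.** -/
theorem ws : WS := by
  intro U _ _ _ R hR a ha K hK
  rw [WF_iff]
  refine WF_add ?_ (WF_nuclear ha hK)
  have h1 : Q99.RD.UWC (ContinuousLinearMap.inl ℂ U U ∘L R) := WF_post (WF_iff.1 hR) _
  have h2 := h1.comp (ContinuousLinearMap.fst ℂ U U)
  have h3 : R.prodMap (0 : U →L[ℂ] U) =
      (ContinuousLinearMap.inl ℂ U U ∘L R).comp (ContinuousLinearMap.fst ℂ U U) := by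
    ext x <;> simp
  rw [h3]
  exact h2

end Pool.Agent.H272.UU
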