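import Pool.Agent.H272.UU.Univ2
import Pool.Agent.H272.UU.T7g
import Pool.Agent.H272.UU.SD
import Pool.Agent.H272.UU.T5f
import Pool.Agent.H272.UU.WF
import Pool.Agent.H272.UU.Core

/-!
# UU: the transfer to weakly compact operators on the universal space
-/

set_option autoImplicit false

namespace Pool.Agent.H272.UU

open Filter Topology Pool.Agent.H272.IS
open scoped Classical ENNReal

theorem fd_of_pq {p q : ℝ} (hp : 1 < p) (hpq : p ≤ q) {V : Type*} [NormedAddCommGroup V]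
    [NormedSpace ℂ V] {P : ℕ → (V →L[ℂ] V)} (h : PQ p q P) : FD P := by
  have hp0 : 0 < p := by linarith
  have hq0 : 0 < q := by linarith
  refine ⟨h.comp, h.tend, h.fin, fun n x => ?_⟩
  have h1 := h.lower n x
  have h2 : ‖P n x‖ ^ q ≤ ‖x‖ ^ q := by
    have : 0 ≤ ‖x - P n x‖ ^ q := by positivity
    linarith
  exact (Real.rpow_le_rpow_iff (norm_nonneg _) (norm_nonneg _) hq0).1 h2

theorem not_fd_of_uniF {U : Type} [NormedAddCommGroup U] [NormedSpace ℂ U] (h : UniF U) :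
    ¬ FiniteDimensional ℂ U := by
  obtain ⟨W, i1, i2, i3, P, hP, hW⟩ := exists_infinite 2 2 (by norm_num) le_rfl
  obtain ⟨i, r, hri, -, -⟩ := h W P (fd_of_pq (by norm_num) le_rfl hP)
  intro hfd
  apply hW
  have hinj : Function.Injective (i : W →ₗ[ℂ] U) := fun x y hxy => by
    have h1 : i x = i y := hxy
    rw [← hri x, ← hri y, h1]
  exact FiniteDimensional.of_injective (i : W →ₗ[ℂ] U) hinj

/-- **Transfer.** -/
theorem transfer_uniF (h4 : T4') {U : Type}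
    [NormedAddCommGroup U] [NormedSpace ℂ U] [CompleteSpace U]
    (hU : UniF U) {F : Type} [NormedAddCommGroup F] [NormedSpace ℂ F] [CompleteSpace F]
    [TopologicalSpace.SeparableSpace F] (i₀ : (U × U) →L[ℂ] F) (r₀ : F →L[ℂ] (U × U))
    (h₀ : ∀ x, r₀ (i₀ x) = x)
    {X V : Type} [NormedAddCommGroup X] [NormedSpace ℂ X] [CompleteSpace X]
    [NormedAddCommGroup V] [NormedSpace ℂ V] [CompleteSpace V] (P : ℕ → (V →L[ℂ] V))
    (hP : FD P) (i : X →L[ℂ] V) (r : V →L[ℂ] X) (hri : ∀ x, r (i x) = x)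
    (hX : ¬ FiniteDimensional ℂ X)
    (hrefl : Function.Surjective (NormedSpace.inclusionInDoubleDual ℂ X))
    (T : X →L[ℂ] X) (hT : NoInv T) (a : ℕ → ℝ) (ha : ∀ n, 0 < a n) :
    ∃ (W : Type) (_ : NormedAddCommGroup W) (_ : NormedSpace ℂ W) (_ : CompleteSpace W)
      (iF : W →L[ℂ] F) (rF : F →L[ℂ] W) (R : W →L[ℂ] W) (A : F →L[ℂ] X) (B : X →L[ℂ] F),
      Function.Surjective (NormedSpace.inclusionInDoubleDual ℂ W) ∧ (∀ w, rF (iF w) = w) ∧
      ¬ FiniteDimensional ℂ (LinearMap.ker (rF : F →ₗ[ℂ] W)) ∧ BiFac A B ∧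
      Rapid a (B ∘L A - iF ∘L (R ∘L rF)) ∧ NoInv (B ∘L A) := by
  set M₁ : ℝ := 4 * (‖i‖ + ‖r‖) with hM₁
  have hM₁0 : 0 ≤ M₁ := by positivity
  set M : ℝ := (‖i₀‖ + ‖r₀‖) * M₁ with hM
  have hM0 : 0 ≤ M := by positivity
  obtain ⟨W, j1, j2, j3, W', j4, j5, j6, P', j, s, hP', hsj, hjn, hsn, hWr, hZ⟩ :=
    t6g h4 t5f sd X V P hP i r hri hX hrefl T hT (fun n => a n / (1 + M) ^ 4)
      (fun n => by have := ha n; positivity)
  obtain ⟨iU, rU, hU1, hU2, hU3⟩ := hU W' P' hP'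
  set I : W →L[ℂ] U := iU ∘L j with hI
  set Rr : U →L[ℂ] W := s ∘L rU with hRr
  have hIR : ∀ w, Rr (I w) = w := by
    intro w
    change s (rU (iU (j w))) = w
    rw [hU1, hsj]
  have hIn : ‖I‖ ≤ M₁ := by
    calc ‖I‖ ≤ ‖iU‖ * ‖j‖ := ContinuousLinearMap.opNorm_comp_le _ _
      _ ≤ 2 * (2 * ‖i‖) := by gcongr
      _ ≤ M₁ := by rw [hM₁]; nlinarith [norm_nonneg r]
  have hRn : ‖Rr‖ ≤ M₁ := by
    calc ‖Rr‖ ≤ ‖s‖ * ‖rU‖ := ContinuousLinearMap.opNorm_comp_le _ _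
      _ ≤ (2 * ‖r‖) * 2 := by gcongr
      _ ≤ M₁ := by rw [hM₁]; nlinarith [norm_nonneg i]
  set iF : W →L[ℂ] F := i₀ ∘L ((ContinuousLinearMap.inl ℂ U U) ∘L I) with hiF
  set rF : F →L[ℂ] W := (Rr ∘L (ContinuousLinearMap.fst ℂ U U)) ∘L r₀ with hrF
  have hF : ∀ w, rF (iF w) = w := by
    intro w
    change Rr (r₀ (i₀ (I w, 0))).1 = w
    rw [h₀]
    exact hIR w
  have hiFn : ‖iF‖ ≤ M := by
    calc ‖iF‖ ≤ ‖i₀‖ * (‖ContinuousLinearMap.inl ℂ U U‖ * ‖I‖) :=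
          (ContinuousLinearMap.opNorm_comp_le _ _).trans
            (mul_le_mul_of_nonneg_left (ContinuousLinearMap.opNorm_comp_le _ _) (norm_nonneg _))
      _ ≤ ‖i₀‖ * (1 * M₁) := by
          gcongr
          exact ContinuousLinearMap.norm_inl_le_one ℂ U U
      _ ≤ M := by rw [hM]; nlinarith [norm_nonneg r₀]
  have hrFn : ‖rF‖ ≤ M := by
    calc ‖rF‖ ≤ (‖Rr‖ * ‖ContinuousLinearMap.fst ℂ U U‖) * ‖r₀‖ :=
          (ContinuousLinearMap.opNorm_comp_le _ _).trans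
            (mul_le_mul_of_nonneg_right (ContinuousLinearMap.opNorm_comp_le _ _) (norm_nonneg _))
      _ ≤ (M₁ * 1) * ‖r₀‖ := by
          gcongr
          exact ContinuousLinearMap.norm_fst_le ..
      _ ≤ M := by rw [hM]; nlinarith [norm_nonneg i₀]
  have hUfd : ¬ FiniteDimensional ℂ U := not_fd_of_uniF hU
  have hker : ¬ FiniteDimensional ℂ (LinearMap.ker (rF : F →ₗ[ℂ] W)) := by
    intro hfd
    apply hUfd
    let φ : U →ₗ[ℂ] LinearMap.ker (rF : F →ₗ[ℂ] W) :=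
      ((i₀ : (U × U) →ₗ[ℂ] F) ∘ₗ LinearMap.inr ℂ U U).codRestrict _ (fun u => by
        rw [LinearMap.mem_ker]
        change Rr (r₀ (i₀ (0, u))).1 = 0
        rw [h₀]
        exact map_zero Rr)
    have hφ : Function.Injective φ := by
      intro x y hxy
      have h1 : i₀ (0, x) = i₀ (0, y) := congrArg Subtype.val hxy
      have h2 : ((0, x) : U × U) = (0, y) := by rw [← h₀ (0, x), ← h₀ (0, y), h1]
      exact congrArg Prod.snd h2
    exact FiniteDimensional.of_injective φ hφ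
  obtain ⟨R, A, B, hAB, hK, hN⟩ := t7g F W X iF rF M hM0 hF hiFn hrFn hker a ha hZ
  exact ⟨W, j1, j2, j3, iF, rF, R, A, B, hWr, hF, hker, hAB, hK, hN⟩

end Pool.Agent.H272.UU
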