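import Pool.Agent.H272.IS.Hilb

/-!
# One reflexive space for the invariant subspace problem of all spaces with `(p,q)`-decompositions

Definitions and statements of the steps of the project UU (helper272), problem MP_f981b0_an.
-/

set_option autoImplicit false

namespace Pool.Agent.H272.UU

open Filter Topology Pool.Agent.H272.IS
open scoped Classical

/-- a decomposition into finite-dimensional subspaces with a lower `q`- and an upper `p`-estimate -/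
structure PQ {X : Type*} [NormedAddCommGroup X] [NormedSpace ℂ X] (p q : ℝ)
    (P : ℕ → (X →L[ℂ] X)) : Prop where
  comp : ∀ m n x, P m (P n x) = P (min m n) x
  tend : ∀ x, Tendsto (fun n => P n x) atTop (𝓝 x)
  fin : ∀ n, FiniteDimensional ℂ (LinearMap.range (P n : X →ₗ[ℂ] X))
  lower : ∀ n x, ‖P n x‖ ^ q + ‖x - P n x‖ ^ q ≤ ‖x‖ ^ q
  upper : ∀ n x, ‖x‖ ^ p ≤ ‖P n x‖ ^ p + ‖x - P n x‖ ^ p

/-- the same with several blocks and a constant in the upper estimate -/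
structure PQC {X : Type*} [NormedAddCommGroup X] [NormedSpace ℂ X] (p q C : ℝ)
    (P : ℕ → (X →L[ℂ] X)) : Prop where
  comp : ∀ m n x, P m (P n x) = P (min m n) x
  tend : ∀ x, Tendsto (fun n => P n x) atTop (𝓝 x)
  fin : ∀ n, FiniteDimensional ℂ (LinearMap.range (P n : X →ₗ[ℂ] X))
  lower : ∀ n x, ‖P n x‖ ^ q + ‖x - P n x‖ ^ q ≤ ‖x‖ ^ q
  upper : ∀ m : ℕ → ℕ, Monotone m → ∀ (k : ℕ) (v : ℕ → X),
    (∀ j, P (m (j + 1)) (v j) = v j) → (∀ j, P (m j) (v j) = 0) →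
    ‖∑ j ∈ Finset.range k, v j‖ ^ p ≤ C * ∑ j ∈ Finset.range k, ‖v j‖ ^ p

/-! ## The operator side -/

/-- T1b -/
def T1b : Prop := ∀ (X : Type) [NormedAddCommGroup X] [NormedSpace ℂ X] (p q : ℝ)
  (P : ℕ → (X →L[ℂ] X)), 1 < p → p ≤ q → PQ p q P → PQC p q 1 P

/-- T1: reflexivity -/
def T1 : Prop := ∀ (X : Type) [NormedAddCommGroup X] [NormedSpace ℂ X] [CompleteSpace X]
  (p q C : ℝ) (P : ℕ → (X →L[ℂ] X)), 1 < p → p ≤ q → PQC p q C P →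
    Function.Surjective (NormedSpace.inclusionInDoubleDual ℂ X) ∧
      ∃ d : ℕ → (X →L[ℂ] ℂ), DenseRange d

/-- T3: finitely supported vectors which are almost annihilated -/
def T3 : Prop := ∀ (X : Type) [NormedAddCommGroup X] [NormedSpace ℂ X] [CompleteSpace X]
  (p q : ℝ) (P : ℕ → (X →L[ℂ] X)), 1 < p → p ≤ q → PQ p q P →
  ∀ T : X →L[ℂ] X, Function.Injective T → DenseRange T → ¬ IsUnit T →
  ∀ (L : Finset (X →L[ℂ] ℂ)) (m : ℕ) (ε : ℝ), 0 < ε →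
    ∃ m' > m, ∃ y : X, P m' y = y ∧ P m y = 0 ∧ (∀ l ∈ L, l y = 0) ∧ ‖y‖ = 1 ∧ ‖T y‖ ≤ ε

/-- the choice of blocks and functionals -/
structure Sel {X : Type*} [NormedAddCommGroup X] [NormedSpace ℂ X] (P : ℕ → (X →L[ℂ] X))
    (T : X →L[ℂ] X) (ε : ℕ → ℝ) (m : ℕ → ℕ) (y : ℕ → X) (h : ℕ → (X →L[ℂ] ℂ)) : Prop where
  mono : StrictMono m
  blk : ∀ n, P (m (n + 1)) (y n) = y n
  blk0 : ∀ n, P (m n) (y n) = 0
  unit : ∀ n, ‖y n‖ = 1
  small : ∀ n, ‖T (y n)‖ ≤ ε n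
  bi : ∀ i j, h i (T (y j)) = if i = j then 1 else 0
  hn : ∀ n, ‖(h n).comp T‖ ≤ 3
  dens : ∀ f : X →L[ℂ] ℂ, (∀ n, f (y n) = 0) → ∀ η : ℝ, 0 < η →
    ∃ g : X →L[ℂ] ℂ, (∀ n, g (T (y n)) = 0) ∧ ‖g.comp T - f‖ < η

/-- T4: there is a choice -/
def T4 : Prop := ∀ (X : Type) [NormedAddCommGroup X] [NormedSpace ℂ X] [CompleteSpace X]
  (p q : ℝ) (P : ℕ → (X →L[ℂ] X)), 1 < p → p ≤ q → PQ p q P →
  Function.Surjective (NormedSpace.inclusionInDoubleDual ℂ X) →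
  (∃ d : ℕ → (X →L[ℂ] ℂ), DenseRange d) →
  ∀ T : X →L[ℂ] X, Function.Injective T → DenseRange T → ¬ IsUnit T →
  ∀ ε : ℕ → ℝ, (∀ n, 0 < ε n) → ∃ m y h, Sel P T ε m y h

/-- T5: quotients by block subspaces -/
def T5 : Prop := ∀ (X : Type) [NormedAddCommGroup X] [NormedSpace ℂ X]
  (p q : ℝ) (P : ℕ → (X →L[ℂ] X)), 1 < p → p ≤ q → PQ p q P →
  ∀ (Y : Submodule ℂ X) [IsClosed (Y : Set X)] (m : ℕ → ℕ), StrictMono m →
  (∀ n, ∀ y ∈ Y, P (m n) y ∈ Y) → ∃ P' : ℕ → ((X ⧸ Y) →L[ℂ] (X ⧸ Y)), PQ p q P'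

/-- T6: operators without invariant subspaces on `W × Z`, `W` a quotient of `X` -/
def T6 : Prop := ∀ (X : Type) [NormedAddCommGroup X] [NormedSpace ℂ X] [CompleteSpace X]
  (p q : ℝ) (P : ℕ → (X →L[ℂ] X)), 1 < p → p ≤ q → PQ p q P → ¬ FiniteDimensional ℂ X →
  ∀ T : X →L[ℂ] X, NoInv T → ∀ a : ℕ → ℝ, (∀ n, 0 < a n) →
    ∃ (W : Type) (_ : NormedAddCommGroup W) (_ : NormedSpace ℂ W) (_ : CompleteSpace W)
      (P' : ℕ → (W →L[ℂ] W)), PQ p q P' ∧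
      ∀ (Z : Type) [NormedAddCommGroup Z] [NormedSpace ℂ Z] [CompleteSpace Z]
        [TopologicalSpace.SeparableSpace Z], ¬ FiniteDimensional ℂ Z →
        ∃ (R : W →L[ℂ] W) (K : (W × Z) →L[ℂ] (W × Z)), Rapid a K ∧
          NoInv (R.prodMap (0 : Z →L[ℂ] Z) + K)

/-- T7: transport to a space which contains `W` as a complemented subspace -/
def T7 : Prop := ∀ (F W : Type) [NormedAddCommGroup F] [NormedSpace ℂ F] [CompleteSpace F]
  [TopologicalSpace.SeparableSpace F] [NormedAddCommGroup W] [NormedSpace ℂ W] [CompleteSpace W]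
  (i : W →L[ℂ] F) (r : F →L[ℂ] W), (∀ w, r (i w) = w) → ‖i‖ ≤ 2 → ‖r‖ ≤ 2 →
  ¬ FiniteDimensional ℂ (LinearMap.ker (r : F →ₗ[ℂ] W)) → ∀ a : ℕ → ℝ, (∀ n, 0 < a n) →
  (∀ (Z : Type) [NormedAddCommGroup Z] [NormedSpace ℂ Z] [CompleteSpace Z]
        [TopologicalSpace.SeparableSpace Z], ¬ FiniteDimensional ℂ Z →
        ∃ (R : W →L[ℂ] W) (K : (W × Z) →L[ℂ] (W × Z)), Rapid (fun n => a n / 100) K ∧
          NoInv (R.prodMap (0 : Z →L[ℂ] Z) + K)) →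
  ∃ (R : W →L[ℂ] W) (K : F →L[ℂ] F), Rapid a K ∧ NoInv (i ∘L (R ∘L r) + K)

/-! ## The universal space -/

/-- a tree of finite-dimensional blocks of coordinates with seminorms at the nodes: `ι` are the
nodes, `J` the coordinates, `ν j` the node of the coordinate `j` -/
structure TreeData (p C : ℝ) (ι J : Type) [PartialOrder ι] where
  ν : J → ι
  N : ι → Seminorm ℂ (J →₀ ℂ)
  fib : ∀ t, {j | ν j = t}.Finite
  below : ∀ t : ι, {s | s ≤ t}.Finite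
  dep : ∀ (t : ι) (x : J →₀ ℂ), N t (x.filter fun j => ν j ≤ t) = N t x
  mono : ∀ s t, s ≤ t → ∀ x : J →₀ ℂ, (∀ j ∈ x.support, ν j ≤ s) → N t x ≤ 2 * N s x
  upper : ∀ (t : ι) (B : ℕ → Set ι), Monotone B → (∀ n, IsLowerSet (B n)) →
    ∀ (k : ℕ) (v : ℕ → (J →₀ ℂ)), (∀ i, ∀ j ∈ (v i).support, ν j ∈ B (i + 1) ∧ ν j ∉ B i) →
      N t (∑ i ∈ Finset.range k, v i) ^ p ≤ C * ∑ i ∈ Finset.range k, N t (v i) ^ p

section rho

variable {p C : ℝ} {ι J : Type} [PartialOrder ι]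

/-- restriction of a vector to a set of nodes -/
noncomputable def TreeData.res (D : TreeData p C ι J) (S : Set ι) (x : J →₀ ℂ) : J →₀ ℂ :=
  x.filter fun j => D.ν j ∈ S

/-- a convex set of nodes below the node `t` -/
def IsPiece (S : Set ι) (t : ι) : Prop :=
  (∀ s ∈ S, s ≤ t) ∧ ∀ a b c, a ∈ S → c ∈ S → a ≤ b → b ≤ c → b ∈ S

/-- a finite sequence of pairwise disjoint pieces -/
structure Fam (ι : Type) [PartialOrder ι] where
  n : ℕ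
  S : Fin n → Set ι
  t : Fin n → ι
  piece : ∀ i, IsPiece (S i) (t i)
  disj : ∀ i i', i ≠ i' → Disjoint (S i) (S i')

/-- the value of a family -/
noncomputable def TreeData.val (D : TreeData p C ι J) (q : ℝ) (f : Fam ι) (x : J →₀ ℂ) : ℝ :=
  (∑ i, D.N (f.t i) (D.res (f.S i) x) ^ q) ^ (1 / q)

/-- the norm of the universal space -/
noncomputable def TreeData.rho (D : TreeData p C ι J) (q : ℝ) (x : J →₀ ℂ) : ℝ :=
  ⨆ f : Fam ι, D.val q f x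

end rho

/-- UA1: `rho` is a finite seminorm -/
def UA1 : Prop := ∀ (p C q : ℝ) (ι J : Type) [PartialOrder ι] (D : TreeData p C ι J),
  1 < p → p ≤ q → (∀ x, BddAbove (Set.range fun f : Fam ι => D.val q f x)) ∧
    ∃ r : Seminorm ℂ (J →₀ ℂ), ∀ x, r x = D.rho q x

/-- UA2: lower `q`-estimate (`h` is the first half of UA1) -/
def UA2 : Prop := ∀ (p C q : ℝ) (ι J : Type) [PartialOrder ι] (D : TreeData p C ι J),
  1 < p → p ≤ q → (∀ x, BddAbove (Set.range fun f : Fam ι => D.val q f x)) →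
    ∀ (S : Set ι), IsLowerSet S → ∀ x,
      D.rho q (D.res S x) ^ q + D.rho q (x - D.res S x) ^ q ≤ D.rho q x ^ q

/-- UA3: upper `p`-estimate -/
def UA3 : Prop := ∀ (p C q : ℝ) (ι J : Type) [PartialOrder ι] (D : TreeData p C ι J),
  1 < p → p ≤ q → 0 ≤ C → (∀ x, BddAbove (Set.range fun f : Fam ι => D.val q f x)) →
    ∀ (B : ℕ → Set ι), Monotone B → (∀ n, IsLowerSet (B n)) → ∀ (k : ℕ) (v : ℕ → (J →₀ ℂ)),
      (∀ i, ∀ j ∈ (v i).support, D.ν j ∈ B (i + 1) ∧ D.ν j ∉ B i) →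
      D.rho q (∑ i ∈ Finset.range k, v i) ^ p ≤ C * ∑ i ∈ Finset.range k, D.rho q (v i) ^ p

/-- `U` with the dense linear map `e` is the completion for the norm `rho` -/
structure IsCompl {p C : ℝ} {ι J : Type} [PartialOrder ι] (D : TreeData p C ι J) (q : ℝ)
    {U : Type} [NormedAddCommGroup U] [NormedSpace ℂ U] (e : (J →₀ ℂ) →ₗ[ℂ] U) : Prop where
  dense : DenseRange e
  norm : ∀ x, ‖e x‖ = D.rho q x

/-- UB1: the completion exists and is separable -/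
def UB1 : Prop := ∀ (p C q : ℝ) (ι J : Type) [PartialOrder ι] [Countable J]
  (D : TreeData p C ι J), 1 < p → p ≤ q →
    ∃ (U : Type) (_ : NormedAddCommGroup U) (_ : NormedSpace ℂ U) (_ : CompleteSpace U)
      (_ : TopologicalSpace.SeparableSpace U) (e : (J →₀ ℂ) →ₗ[ℂ] U), IsCompl D q e

/-- UB2: the decomposition of the completion -/
def UB2 : Prop := ∀ (p C q : ℝ) (ι J : Type) [PartialOrder ι] [Countable ι]
  (D : TreeData p C ι J), 1 < p → p ≤ q → 0 ≤ C → ∀ (U : Type) [NormedAddCommGroup U]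
    [NormedSpace ℂ U] [CompleteSpace U] (e : (J →₀ ℂ) →ₗ[ℂ] U), IsCompl D q e →
      ∃ P : ℕ → (U →L[ℂ] U), PQC p q C P

/-- UC1: the lower `q`-estimate for disjoint intervals of blocks -/
def UC1 : Prop := ∀ (W : Type) [NormedAddCommGroup W] [NormedSpace ℂ W] (p q : ℝ)
  (P : ℕ → (W →L[ℂ] W)), 1 < p → p ≤ q → PQ p q P → ∀ w : ℕ → W, (∀ n, P n (w n) = w n) →
    (∀ n m, m < n → P m (w n) = 0) → ∀ (M n : ℕ) (I : Fin n → Set ℕ),
    (∀ i, (I i).OrdConnected) → (∀ i j, i ≠ j → Disjoint (I i) (I j)) →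
    ∑ i, ‖∑ k ∈ (Finset.range M).filter (fun k => k ∈ I i), w k‖ ^ q ≤
      ‖∑ k ∈ Finset.range M, w k‖ ^ q

/-- a branch of the tree on which the seminorms are equivalent to the norm of `W` -/
structure Branch {p C : ℝ} {ι J : Type} [PartialOrder ι] (D : TreeData p C ι J) {W : Type}
    [NormedAddCommGroup W] [NormedSpace ℂ W] (P : ℕ → (W →L[ℂ] W)) (t : ℕ → ι)
    (b : (J →₀ ℂ) →ₗ[ℂ] W) : Prop where
  mono : StrictMono t
  init : ∀ n s, s ≤ t n → ∃ m, s = t m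
  off : ∀ j, (∀ n, D.ν j ≠ t n) → b (Finsupp.single j 1) = 0
  on : ∀ n j, D.ν j ≤ t n → P n (b (Finsupp.single j 1)) = b (Finsupp.single j 1)
  on0 : ∀ n j, ¬ D.ν j ≤ t n → P n (b (Finsupp.single j 1)) = 0
  le : ∀ n x, (∀ j ∈ x.support, D.ν j ≤ t n) → D.N (t n) x ≤ ‖b x‖
  ge : ∀ n x, (∀ j ∈ x.support, D.ν j ≤ t n) → ‖b x‖ ≤ 2 * D.N (t n) x
  dense : DenseRange b

/-- UC2: `‖b x‖ ≤ 2 rho x` -/
def UC2 : Prop := ∀ (p C q : ℝ) (ι J : Type) [PartialOrder ι] (D : TreeData p C ι J),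
  1 < p → p ≤ q → (∀ x, BddAbove (Set.range fun f : Fam ι => D.val q f x)) →
  ∀ (W : Type) [NormedAddCommGroup W] [NormedSpace ℂ W] (P : ℕ → (W →L[ℂ] W)) (t : ℕ → ι)
    (b : (J →₀ ℂ) →ₗ[ℂ] W), Branch D P t b → ∀ x, ‖b x‖ ≤ 2 * D.rho q x

/-- UC3: `rho (res β x) ≤ 2 ‖b x‖`, `β` the branch -/
def UC3 : Prop := ∀ (p C q : ℝ) (ι J : Type) [PartialOrder ι] (D : TreeData p C ι J),
  1 < p → p ≤ q → (∀ x, BddAbove (Set.range fun f : Fam ι => D.val q f x)) →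
  ∀ (W : Type) [NormedAddCommGroup W] [NormedSpace ℂ W] (P : ℕ → (W →L[ℂ] W)), PQ p q P →
  ∀ (t : ℕ → ι) (b : (J →₀ ℂ) →ₗ[ℂ] W), Branch D P t b →
    ∀ x, D.rho q (D.res (Set.range t) x) ≤ 2 * ‖b x‖

/-- UC4: a branch gives a complemented subspace of the completion -/
def UC4 : Prop := ∀ (p C q : ℝ) (ι J : Type) [PartialOrder ι] (D : TreeData p C ι J)
  (W : Type) [NormedAddCommGroup W] [NormedSpace ℂ W] [CompleteSpace W]
  (P : ℕ → (W →L[ℂ] W)) (t : ℕ → ι) (b : (J →₀ ℂ) →ₗ[ℂ] W), Branch D P t b →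
  (∀ x, ‖b x‖ ≤ 2 * D.rho q x) → (∀ x, D.rho q (D.res (Set.range t) x) ≤ 2 * ‖b x‖) →
  ∀ (U : Type) [NormedAddCommGroup U] [NormedSpace ℂ U] [CompleteSpace U]
    (e : (J →₀ ℂ) →ₗ[ℂ] U), IsCompl D q e →
    ∃ (i : W →L[ℂ] U) (r : U →L[ℂ] W), (∀ w, r (i w) = w) ∧ ‖i‖ ≤ 2 ∧ ‖r‖ ≤ 2

/-! ## The universal tree -/

/-- the last cut of a list of cuts and codes -/
def lc (l : List (ℕ × ℕ)) : ℕ := (l.getLast?.map Prod.fst).getD 0

/-- the last code of a list of cuts and codes -/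
def lcode (l : List (ℕ × ℕ)) : ℕ := (l.getLast?.map Prod.snd).getD 0

/-- admissible lists: the cuts increase and the seminorms `cn k` of the codes `k` satisfy the
conditions of `TreeData` -/
structure Adm (p : ℝ) (cn : ℕ → Seminorm ℂ (ℕ →₀ ℂ)) (l : List (ℕ × ℕ)) : Prop where
  cuts : ∀ s t : List (ℕ × ℕ), s <+: t → t <+: l → lc s ≤ lc t
  mono : ∀ s t : List (ℕ × ℕ), s <+: t → t <+: l → s ≠ [] → ∀ y : ℕ →₀ ℂ,
    (∀ k ∈ y.support, k < lc s) → cn (lcode t) y ≤ 2 * cn (lcode s) y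
  upper : ∀ t : List (ℕ × ℕ), t <+: l → t ≠ [] → ∀ c : ℕ → ℕ, Monotone c →
    (∀ n, ∃ s : List (ℕ × ℕ), s <+: t ∧ lc s = c n) → ∀ (k : ℕ) (v : ℕ → (ℕ →₀ ℂ)),
      (∀ i, ∀ j ∈ (v i).support, c i ≤ j ∧ j < c (i + 1)) →
      cn (lcode t) (∑ i ∈ Finset.range k, v i) ^ p ≤
        2 ^ p * ∑ i ∈ Finset.range k, cn (lcode t) (v i) ^ p

/-- the nodes of the universal tree -/
def Node (p : ℝ) (cn : ℕ → Seminorm ℂ (ℕ →₀ ℂ)) : Type :=
  {l : List (ℕ × ℕ) // l ≠ [] ∧ Adm p cn l}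

instance (p : ℝ) (cn : ℕ → Seminorm ℂ (ℕ →₀ ℂ)) : PartialOrder (Node p cn) where
  le s t := s.1 <+: t.1
  le_refl s := List.prefix_refl _
  le_trans _ _ _ h h' := h.trans h'
  le_antisymm s t h h' := Subtype.ext (h.eq_of_length (le_antisymm h.length_le h'.length_le))

instance (p : ℝ) (cn : ℕ → Seminorm ℂ (ℕ →₀ ℂ)) : Countable (Node p cn) := by
  unfold Node
  infer_instance

/-- the coordinates of the universal tree -/
def Coord (p : ℝ) (cn : ℕ → Seminorm ℂ (ℕ →₀ ℂ)) : Type :=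
  {a : Node p cn × ℕ // lc a.1.1.dropLast ≤ a.2 ∧ a.2 < lc a.1.1}

instance (p : ℝ) (cn : ℕ → Seminorm ℂ (ℕ →₀ ℂ)) : Countable (Coord p cn) := by
  unfold Coord
  infer_instance

/-- the vector of the coordinates below the node `t` -/
noncomputable def pathVec {p : ℝ} {cn : ℕ → Seminorm ℂ (ℕ →₀ ℂ)} (t : Node p cn) :
    (Coord p cn →₀ ℂ) →ₗ[ℂ] (ℕ →₀ ℂ) :=
  Finsupp.lsum ℂ fun j => if j.1.1 ≤ t then Finsupp.lsingle j.1.2 else 0

/-- UD: the tree data of the universal tree -/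
def UD : Prop := ∀ (p : ℝ) (cn : ℕ → Seminorm ℂ (ℕ →₀ ℂ)), 1 < p →
  ∃ D : TreeData p (2 ^ p) (Node p cn) (Coord p cn), (∀ j, D.ν j = j.1.1) ∧
    ∀ t x, D.N t x = cn (lcode t.1) (pathVec t x)

/-- the sequence of seminorms `cn` approximates every norm on the first coordinates -/
def Approx (cn : ℕ → Seminorm ℂ (ℕ →₀ ℂ)) : Prop :=
  ∀ (c : ℕ) (ν : Seminorm ℂ (ℕ →₀ ℂ)),
    (∀ y : ℕ →₀ ℂ, (∀ k ∈ y.support, k < c) → ν y = 0 → y = 0) →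
    ∃ k, ∀ y : ℕ →₀ ℂ, (∀ j ∈ y.support, j < c) → ν y ≤ 2 * cn k y ∧ cn k y ≤ ν y

/-- UE -/
def UE : Prop := ∃ cn : ℕ → Seminorm ℂ (ℕ →₀ ℂ), Approx cn

/-- a sequence of vectors adapted to the decomposition, with cuts `c n` -/
structure Adapted {W : Type*} [NormedAddCommGroup W] [NormedSpace ℂ W] (P : ℕ → (W →L[ℂ] W))
    (w : ℕ → W) (c : ℕ → ℕ) : Prop where
  mono : Monotone c
  zero : c 0 = 0
  low : ∀ n k, k < c n → P n (w k) = w k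
  high : ∀ n k, c n ≤ k → P n (w k) = 0
  indep : ∀ n, LinearIndependent ℂ (fun k : Fin (c n) => w k)
  span : ∀ n, Submodule.span ℂ (w '' {k | k < c n}) = LinearMap.range (P n : W →ₗ[ℂ] W)

/-- UF: adapted sequences exist -/
def UF : Prop := ∀ (W : Type) [NormedAddCommGroup W] [NormedSpace ℂ W] (p q : ℝ)
  (P : ℕ → (W →L[ℂ] W)), PQ p q P → P 0 = 0 → ∃ w c, Adapted P w c

/-- UG1: the lists of a space are admissible -/
def UG1 : Prop := ∀ (p q : ℝ), 1 < p → p ≤ q → ∀ (cn : ℕ → Seminorm ℂ (ℕ →₀ ℂ))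
  (W : Type) [NormedAddCommGroup W] [NormedSpace ℂ W] (P : ℕ → (W →L[ℂ] W)), PQ p q P →
  P 0 = 0 → ∀ w c, Adapted P w c → ∀ κ : ℕ → ℕ,
  (∀ n, ∀ y : ℕ →₀ ℂ, (∀ j ∈ y.support, j < c (n + 1)) →
    ‖Finsupp.linearCombination ℂ w y‖ ≤ 2 * cn (κ n) y ∧
      cn (κ n) y ≤ ‖Finsupp.linearCombination ℂ w y‖) →
  ∀ n, Adm p cn ((List.range n).map fun i => (c (i + 1), κ i))

/-- UG2: the branch of a space -/
def UG2 : Prop := ∀ (p q : ℝ), 1 < p → p ≤ q → ∀ (cn : ℕ → Seminorm ℂ (ℕ →₀ ℂ))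
  (D : TreeData p (2 ^ p) (Node p cn) (Coord p cn)), (∀ j, D.ν j = j.1.1) →
    (∀ t x, D.N t x = cn (lcode t.1) (pathVec t x)) → ∀
  (W : Type) [NormedAddCommGroup W] [NormedSpace ℂ W] (P : ℕ → (W →L[ℂ] W)), PQ p q P →
  P 0 = 0 → ∀ w c, Adapted P w c → ∀ κ : ℕ → ℕ,
  (∀ n, ∀ y : ℕ →₀ ℂ, (∀ j ∈ y.support, j < c (n + 1)) →
    ‖Finsupp.linearCombination ℂ w y‖ ≤ 2 * cn (κ n) y ∧
      cn (κ n) y ≤ ‖Finsupp.linearCombination ℂ w y‖) →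
  ∃ t b, Branch D (fun n => P (n + 1)) t b

end Pool.Agent.H272.UU
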