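import Pool.Agent.H272.UU.Defs

/-!
# UU: further statements (complemented subspaces, all exponents at the same time)
-/

set_option autoImplicit false

namespace Pool.Agent.H272.UU

open Filter Topology Pool.Agent.H272.IS
open scoped Classical

/-- the choice of vectors and functionals in a space `X` mapped by `i` into `V`, which has the
projections `P` -/
structure Sel' {X V : Type*} [NormedAddCommGroup X] [NormedSpace ℂ X] [NormedAddCommGroup V]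
    [NormedSpace ℂ V] (P : ℕ → (V →L[ℂ] V)) (i : X →L[ℂ] V)
    (T : X →L[ℂ] X) (ε : ℕ → ℝ) (m : ℕ → ℕ) (y : ℕ → X) (h : ℕ → (X →L[ℂ] ℂ)) : Prop where
  mono : StrictMono m
  blk0 : ∀ n, P (m n) (i (y n)) = 0
  near : ∀ n, ‖P (m (n + 1)) (i (y n)) - i (y n)‖ ≤ ε n
  unit : ∀ n, ‖y n‖ = 1
  small : ∀ n, ‖T (y n)‖ ≤ ε n
  bi : ∀ a b, h a (T (y b)) = if a = b then 1 else 0
  hn : ∀ n, ‖(h n).comp T‖ ≤ 4 ^ (n + 1)
  dens : ∀ f : X →L[ℂ] ℂ, (∀ n, f (y n) = 0) → ∀ η : ℝ, 0 < η →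
    ∃ g : X →L[ℂ] ℂ, (∀ n, g (T (y n)) = 0) ∧ ‖g.comp T - f‖ < η

/-- T4': there is a choice -/
def T4' : Prop := ∀ (X V : Type) [NormedAddCommGroup X] [NormedSpace ℂ X] [CompleteSpace X]
  [NormedAddCommGroup V] [NormedSpace ℂ V] (P : ℕ → (V →L[ℂ] V)),
  (∀ x, Tendsto (fun n => P n x) atTop (𝓝 x)) →
  (∀ n, FiniteDimensional ℂ (LinearMap.range (P n : V →ₗ[ℂ] V))) →
  ∀ i : X →L[ℂ] V, Function.Surjective (NormedSpace.inclusionInDoubleDual ℂ X) →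
  (∃ d : ℕ → (X →L[ℂ] ℂ), DenseRange d) →
  ∀ T : X →L[ℂ] X, Function.Injective T → DenseRange T → ¬ IsUnit T →
  ∀ ε : ℕ → ℝ, (∀ n, 0 < ε n) → ∃ m y h, Sel' P i T ε m y h

/-- T6': operators without invariant subspaces on `W × Z`, `W` a quotient of `X`; `X` is
complemented in `V` and `W` is complemented in a quotient `W'` of `V` -/
def T6' : Prop := ∀ (X V : Type) [NormedAddCommGroup X] [NormedSpace ℂ X] [CompleteSpace X]
  [NormedAddCommGroup V] [NormedSpace ℂ V] [CompleteSpace V]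
  (p q : ℝ) (P : ℕ → (V →L[ℂ] V)), 1 < p → p ≤ q → PQ p q P →
  ∀ (i : X →L[ℂ] V) (r : V →L[ℂ] X), (∀ x, r (i x) = x) → ¬ FiniteDimensional ℂ X →
  ∀ T : X →L[ℂ] X, NoInv T → ∀ a : ℕ → ℝ, (∀ n, 0 < a n) →
    ∃ (W : Type) (_ : NormedAddCommGroup W) (_ : NormedSpace ℂ W) (_ : CompleteSpace W)
      (W' : Type) (_ : NormedAddCommGroup W') (_ : NormedSpace ℂ W') (_ : CompleteSpace W')
      (P' : ℕ → (W' →L[ℂ] W')) (j : W →L[ℂ] W') (s : W' →L[ℂ] W), PQ p q P' ∧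
      (∀ w, s (j w) = w) ∧ ‖j‖ ≤ 2 * ‖i‖ ∧ ‖s‖ ≤ 2 * ‖r‖ ∧
      ∀ (Z : Type) [NormedAddCommGroup Z] [NormedSpace ℂ Z] [CompleteSpace Z]
        [TopologicalSpace.SeparableSpace Z], ¬ FiniteDimensional ℂ Z →
        ∃ (R : W →L[ℂ] W) (K : (W × Z) →L[ℂ] (W × Z)), Rapid a K ∧
          NoInv (R.prodMap (0 : Z →L[ℂ] Z) + K)

/-- T7': transport to a space which contains `W` as a complemented subspace -/
def T7' : Prop := ∀ (F W : Type) [NormedAddCommGroup F] [NormedSpace ℂ F] [CompleteSpace F]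
  [TopologicalSpace.SeparableSpace F] [NormedAddCommGroup W] [NormedSpace ℂ W] [CompleteSpace W]
  (i : W →L[ℂ] F) (r : F →L[ℂ] W) (M : ℝ), 0 ≤ M → (∀ w, r (i w) = w) → ‖i‖ ≤ M → ‖r‖ ≤ M →
  ¬ FiniteDimensional ℂ (LinearMap.ker (r : F →ₗ[ℂ] W)) → ∀ a : ℕ → ℝ, (∀ n, 0 < a n) →
  (∀ (Z : Type) [NormedAddCommGroup Z] [NormedSpace ℂ Z] [CompleteSpace Z]
        [TopologicalSpace.SeparableSpace Z], ¬ FiniteDimensional ℂ Z →
        ∃ (R : W →L[ℂ] W) (K : (W × Z) →L[ℂ] (W × Z)), Rapid (fun n => a n / (1 + M) ^ 4) K ∧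
          NoInv (R.prodMap (0 : Z →L[ℂ] Z) + K)) →
  ∃ (R : W →L[ℂ] W) (K : F →L[ℂ] F), Rapid a K ∧ NoInv (i ∘L (R ∘L r) + K)

/-- PM: monotonicity in the exponents -/
def PM : Prop := ∀ (X : Type) [NormedAddCommGroup X] [NormedSpace ℂ X] (p q p' q' : ℝ)
  (P : ℕ → (X →L[ℂ] X)), 1 < p' → p' ≤ p → p ≤ q → q ≤ q' → PQ p q P → PQ p' q' P

/-- L2: sums of reflexive spaces in the sense of `ℓ_2` -/
def L2 : Prop := ∀ (E : ℕ → Type) [∀ n, NormedAddCommGroup (E n)] [∀ n, NormedSpace ℂ (E n)]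
  [∀ n, CompleteSpace (E n)] [∀ n, TopologicalSpace.SeparableSpace (E n)],
  (∀ n, Function.Surjective (NormedSpace.inclusionInDoubleDual ℂ (E n))) →
  Function.Surjective (NormedSpace.inclusionInDoubleDual ℂ (lp E 2)) ∧
    TopologicalSpace.SeparableSpace (lp E 2) ∧
    ∀ n, ∃ (i : E n →L[ℂ] lp E 2) (r : lp E 2 →L[ℂ] E n), (∀ x, r (i x) = x) ∧ ‖i‖ ≤ 1 ∧ ‖r‖ ≤ 1

end Pool.Agent.H272.UU
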