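import Pool.Agent.H272.UU.Defs3

/-!
# UU, second theorem: a separable space which contains all spaces with a finite-dimensional
decomposition as complemented subspaces, and weakly compact operators on it
-/

set_option autoImplicit false

namespace Pool.Agent.H272.UU

open Filter Topology Pool.Agent.H272.IS
open scoped Classical

/-- a monotone decomposition into finite-dimensional subspaces -/
structure FD {X : Type*} [NormedAddCommGroup X] [NormedSpace ℂ X]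
    (P : ℕ → (X →L[ℂ] X)) : Prop where
  comp : ∀ m n x, P m (P n x) = P (min m n) x
  tend : ∀ x, Tendsto (fun n => P n x) atTop (𝓝 x)
  fin : ∀ n, FiniteDimensional ℂ (LinearMap.range (P n : X →ₗ[ℂ] X))
  le : ∀ n x, ‖P n x‖ ≤ ‖x‖

/-- SD: the dual of a separable reflexive space is separable -/
def SD : Prop := ∀ (X : Type) [NormedAddCommGroup X] [NormedSpace ℂ X] [CompleteSpace X]
  [TopologicalSpace.SeparableSpace X],
  Function.Surjective (NormedSpace.inclusionInDoubleDual ℂ X) →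
    ∃ d : ℕ → (X →L[ℂ] ℂ), DenseRange d

/-- RN: renorming so that the decomposition is monotone -/
def RN : Prop := ∀ (V : Type) [NormedAddCommGroup V] [NormedSpace ℂ V] [CompleteSpace V]
  (P : ℕ → (V →L[ℂ] V)), (∀ m n x, P m (P n x) = P (min m n) x) →
  (∀ x, Tendsto (fun n => P n x) atTop (𝓝 x)) →
  (∀ n, FiniteDimensional ℂ (LinearMap.range (P n : V →ₗ[ℂ] V))) →
    ∃ (V' : Type) (_ : NormedAddCommGroup V') (_ : NormedSpace ℂ V') (_ : CompleteSpace V')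
      (P' : ℕ → (V' →L[ℂ] V')), FD P' ∧ Nonempty (V ≃L[ℂ] V')

/-- T5f: quotients by block subspaces -/
def T5f : Prop := ∀ (X : Type) [NormedAddCommGroup X] [NormedSpace ℂ X]
  (P : ℕ → (X →L[ℂ] X)), FD P →
  ∀ (Y : Submodule ℂ X) [IsClosed (Y : Set X)] (m : ℕ → ℕ), StrictMono m →
  (∀ n, ∀ y ∈ Y, P (m n) y ∈ Y) → ∃ P' : ℕ → ((X ⧸ Y) →L[ℂ] (X ⧸ Y)), FD P'

/-- T6f: operators without invariant subspaces on `W × Z`, `W` a quotient of the reflexive space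
`X`; `X` is complemented in `V` and `W` is complemented in a quotient `W'` of `V` -/
def T6f : Prop := ∀ (X V : Type) [NormedAddCommGroup X] [NormedSpace ℂ X] [CompleteSpace X]
  [NormedAddCommGroup V] [NormedSpace ℂ V] [CompleteSpace V]
  (P : ℕ → (V →L[ℂ] V)), FD P →
  ∀ (i : X →L[ℂ] V) (r : V →L[ℂ] X), (∀ x, r (i x) = x) → ¬ FiniteDimensional ℂ X →
  Function.Surjective (NormedSpace.inclusionInDoubleDual ℂ X) →
  ∀ T : X →L[ℂ] X, NoInv T → ∀ a : ℕ → ℝ, (∀ n, 0 < a n) →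
    ∃ (W : Type) (_ : NormedAddCommGroup W) (_ : NormedSpace ℂ W) (_ : CompleteSpace W)
      (W' : Type) (_ : NormedAddCommGroup W') (_ : NormedSpace ℂ W') (_ : CompleteSpace W')
      (P' : ℕ → (W' →L[ℂ] W')) (j : W →L[ℂ] W') (s : W' →L[ℂ] W), FD P' ∧
      (∀ w, s (j w) = w) ∧ ‖j‖ ≤ 2 * ‖i‖ ∧ ‖s‖ ≤ 2 * ‖r‖ ∧
      Function.Surjective (NormedSpace.inclusionInDoubleDual ℂ W) ∧
      ∀ (Z : Type) [NormedAddCommGroup Z] [NormedSpace ℂ Z] [CompleteSpace Z]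
        [TopologicalSpace.SeparableSpace Z], ¬ FiniteDimensional ℂ Z →
        ∃ (R : W →L[ℂ] W) (K : (W × Z) →L[ℂ] (W × Z)), Rapid a K ∧
          NoInv (R.prodMap (0 : Z →L[ℂ] Z) + K)

/-! ## The universal space -/

/-- a tree of finite-dimensional blocks of coordinates with seminorms at the nodes -/
structure TD (ι J : Type) [PartialOrder ι] where
  ν : J → ι
  N : ι → Seminorm ℂ (J →₀ ℂ)
  fib : ∀ t, {j | ν j = t}.Finite
  below : ∀ t : ι, {s | s ≤ t}.Finite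
  chain : ∀ t a b : ι, a ≤ t → b ≤ t → a ≤ b ∨ b ≤ a
  dep : ∀ (t : ι) (x : J →₀ ℂ), N t (x.filter fun j => ν j ≤ t) = N t x
  mono : ∀ s t, s ≤ t → ∀ x : J →₀ ℂ, (∀ j ∈ x.support, ν j ≤ s) → N t x ≤ 2 * N s x

section sig

variable {ι J : Type} [PartialOrder ι]

/-- restriction of a vector to a set of nodes -/
noncomputable def TD.res (D : TD ι J) (S : Set ι) (x : J →₀ ℂ) : J →₀ ℂ :=
  x.filter fun j => D.ν j ∈ S

/-- the norm of the universal space -/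
noncomputable def TD.sig (D : TD ι J) (x : J →₀ ℂ) : ℝ := ⨆ t : ι, D.N t x

/-- boundedness of the set in the definition of `sig` -/
def TD.Bdd (D : TD ι J) : Prop := ∀ x, BddAbove (Set.range fun t : ι => D.N t x)

end sig

/-- VA: `sig` is a finite seminorm -/
def VA : Prop := ∀ (ι J : Type) [PartialOrder ι] (D : TD ι J), D.Bdd ∧
  ∃ r : Seminorm ℂ (J →₀ ℂ), ∀ x, r x = D.sig x

/-- VB: restriction to lower sets -/
def VB : Prop := ∀ (ι J : Type) [PartialOrder ι] (D : TD ι J), D.Bdd →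
  ∀ S : Set ι, IsLowerSet S → ∀ x, D.sig (D.res S x) ≤ 2 * D.sig x

/-- `U` with the dense linear map `e` is the completion for the norm `sig` -/
structure IsCompl2 {ι J : Type} [PartialOrder ι] (D : TD ι J)
    {U : Type} [NormedAddCommGroup U] [NormedSpace ℂ U] (e : (J →₀ ℂ) →ₗ[ℂ] U) : Prop where
  dense : DenseRange e
  norm : ∀ x, ‖e x‖ = D.sig x

/-- VC: the completion exists and is separable -/
def VC : Prop := ∀ (ι J : Type) [PartialOrder ι] [Countable J] (D : TD ι J),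
    ∃ (U : Type) (_ : NormedAddCommGroup U) (_ : NormedSpace ℂ U) (_ : CompleteSpace U)
      (_ : TopologicalSpace.SeparableSpace U) (e : (J →₀ ℂ) →ₗ[ℂ] U), IsCompl2 D e

/-- VD: the decomposition of the completion -/
def VD : Prop := ∀ (ι J : Type) [PartialOrder ι] [Countable ι] (D : TD ι J)
  (U : Type) [NormedAddCommGroup U] [NormedSpace ℂ U] [CompleteSpace U]
  (e : (J →₀ ℂ) →ₗ[ℂ] U), IsCompl2 D e → ∃ P : ℕ → (U →L[ℂ] U), P 0 = 0 ∧
    (∀ m n x, P m (P n x) = P (min m n) x) ∧ (∀ x, Tendsto (fun n => P n x) atTop (𝓝 x)) ∧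
    ∀ n, FiniteDimensional ℂ (LinearMap.range (P n : U →ₗ[ℂ] U))

/-- a branch of the tree on which the seminorms are equivalent to the norm of `W` -/
structure Branch2 {ι J : Type} [PartialOrder ι] (D : TD ι J) {W : Type}
    [NormedAddCommGroup W] [NormedSpace ℂ W] (P : ℕ → (W →L[ℂ] W)) (t : ℕ → ι)
    (b : (J →₀ ℂ) →ₗ[ℂ] W) : Prop where
  mono : StrictMono t
  init : ∀ n s, s ≤ t n → ∃ m, s = t m
  off : ∀ j, (∀ n, D.ν j ≠ t n) → b (Finsupp.single j 1) = 0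
  on : ∀ n j, D.ν j ≤ t n → P n (b (Finsupp.single j 1)) = b (Finsupp.single j 1)
  on0 : ∀ n j, ¬ D.ν j ≤ t n → P n (b (Finsupp.single j 1)) = 0
  le : ∀ n x, (∀ j ∈ x.support, D.ν j ≤ t n) → D.N (t n) x ≤ ‖b x‖
  ge : ∀ n x, (∀ j ∈ x.support, D.ν j ≤ t n) → ‖b x‖ ≤ 2 * D.N (t n) x
  dense : DenseRange b

/-- VE: `‖b x‖ ≤ 2 sig x` -/
def VE : Prop := ∀ (ι J : Type) [PartialOrder ι] (D : TD ι J), D.Bdd →
  ∀ (W : Type) [NormedAddCommGroup W] [NormedSpace ℂ W] (P : ℕ → (W →L[ℂ] W)) (t : ℕ → ι)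
    (b : (J →₀ ℂ) →ₗ[ℂ] W), Branch2 D P t b → ∀ x, ‖b x‖ ≤ 2 * D.sig x

/-- VF: `sig (res β x) ≤ 2 ‖b x‖`, `β` the branch -/
def VF : Prop := ∀ (ι J : Type) [PartialOrder ι] (D : TD ι J), D.Bdd →
  ∀ (W : Type) [NormedAddCommGroup W] [NormedSpace ℂ W] (P : ℕ → (W →L[ℂ] W)), FD P →
  ∀ (t : ℕ → ι) (b : (J →₀ ℂ) →ₗ[ℂ] W), Branch2 D P t b →
    ∀ x, D.sig (D.res (Set.range t) x) ≤ 2 * ‖b x‖

/-- VG: a branch gives a complemented subspace of the completion -/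
def VG : Prop := ∀ (ι J : Type) [PartialOrder ι] (D : TD ι J)
  (W : Type) [NormedAddCommGroup W] [NormedSpace ℂ W] [CompleteSpace W]
  (P : ℕ → (W →L[ℂ] W)) (t : ℕ → ι) (b : (J →₀ ℂ) →ₗ[ℂ] W), Branch2 D P t b →
  (∀ x, ‖b x‖ ≤ 2 * D.sig x) → (∀ x, D.sig (D.res (Set.range t) x) ≤ 2 * ‖b x‖) →
  ∀ (U : Type) [NormedAddCommGroup U] [NormedSpace ℂ U] [CompleteSpace U]
    (e : (J →₀ ℂ) →ₗ[ℂ] U), IsCompl2 D e →
    ∃ (i : W →L[ℂ] U) (r : U →L[ℂ] W), (∀ w, r (i w) = w) ∧ ‖i‖ ≤ 2 ∧ ‖r‖ ≤ 2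

/-- admissible lists -/
structure Adm2 (cn : ℕ → Seminorm ℂ (ℕ →₀ ℂ)) (l : List (ℕ × ℕ)) : Prop where
  cuts : ∀ s t : List (ℕ × ℕ), s <+: t → t <+: l → lc s ≤ lc t
  mono : ∀ s t : List (ℕ × ℕ), s <+: t → t <+: l → s ≠ [] → ∀ y : ℕ →₀ ℂ,
    (∀ k ∈ y.support, k < lc s) → cn (lcode t) y ≤ 2 * cn (lcode s) y

/-- the nodes of the universal tree -/
def Node2 (cn : ℕ → Seminorm ℂ (ℕ →₀ ℂ)) : Type := {l : List (ℕ × ℕ) // l ≠ [] ∧ Adm2 cn l}

instance (cn : ℕ → Seminorm ℂ (ℕ →₀ ℂ)) : PartialOrder (Node2 cn) where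
  le s t := s.1 <+: t.1
  le_refl s := List.prefix_refl _
  le_trans _ _ _ h h' := h.trans h'
  le_antisymm s t h h' := Subtype.ext (h.eq_of_length (le_antisymm h.length_le h'.length_le))

instance (cn : ℕ → Seminorm ℂ (ℕ →₀ ℂ)) : Countable (Node2 cn) := by
  unfold Node2
  infer_instance

/-- the coordinates of the universal tree -/
def Coord2 (cn : ℕ → Seminorm ℂ (ℕ →₀ ℂ)) : Type :=
  {a : Node2 cn × ℕ // lc a.1.1.dropLast ≤ a.2 ∧ a.2 < lc a.1.1}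

instance (cn : ℕ → Seminorm ℂ (ℕ →₀ ℂ)) : Countable (Coord2 cn) := by
  unfold Coord2
  infer_instance

/-- the vector of the coordinates below the node `t` -/
noncomputable def pathVec2 {cn : ℕ → Seminorm ℂ (ℕ →₀ ℂ)} (t : Node2 cn) :
    (Coord2 cn →₀ ℂ) →ₗ[ℂ] (ℕ →₀ ℂ) :=
  Finsupp.lsum ℂ fun j => if j.1.1 ≤ t then Finsupp.lsingle j.1.2 else 0

/-- VH: the tree data of the universal tree -/
def VH : Prop := ∀ cn : ℕ → Seminorm ℂ (ℕ →₀ ℂ),
  ∃ D : TD (Node2 cn) (Coord2 cn), (∀ j, D.ν j = j.1.1) ∧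
    ∀ t x, D.N t x = cn (lcode t.1) (pathVec2 t x)

/-- VI: adapted sequences exist -/
def VI : Prop := ∀ (W : Type) [NormedAddCommGroup W] [NormedSpace ℂ W]
  (P : ℕ → (W →L[ℂ] W)), FD P → P 0 = 0 → ∃ w c, Adapted P w c

/-- VK: the branch of a space -/
def VK : Prop := ∀ (cn : ℕ → Seminorm ℂ (ℕ →₀ ℂ))
  (D : TD (Node2 cn) (Coord2 cn)), (∀ j, D.ν j = j.1.1) →
    (∀ t x, D.N t x = cn (lcode t.1) (pathVec2 t x)) → ∀
  (W : Type) [NormedAddCommGroup W] [NormedSpace ℂ W] (P : ℕ → (W →L[ℂ] W)), FD P →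
  P 0 = 0 → ∀ w c, Adapted P w c → ∀ κ : ℕ → ℕ,
  (∀ n, ∀ y : ℕ →₀ ℂ, (∀ j ∈ y.support, j < c (n + 1)) →
    ‖Finsupp.linearCombination ℂ w y‖ ≤ 2 * cn (κ n) y ∧
      cn (κ n) y ≤ ‖Finsupp.linearCombination ℂ w y‖) →
  ∃ t b, Branch2 D (fun n => P (n + 1)) t b

/-! ## Weakly compact operators -/

/-- `K` is weakly compact: the image of the closed unit ball is relatively weakly compact. -/
def WkC {E : Type} [NormedAddCommGroup E] [NormedSpace ℂ E] (K : E →L[ℂ] E) : Prop :=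
  IsCompact (closure (toWeakSpace ℂ E '' (K '' Metric.closedBall (0 : E) 1)))

/-- WF: operators which factor through a reflexive space are weakly compact -/
def WF : Prop := ∀ (E W : Type) [NormedAddCommGroup E] [NormedSpace ℂ E] [CompleteSpace E]
  [NormedAddCommGroup W] [NormedSpace ℂ W] [CompleteSpace W] (A : W →L[ℂ] E) (B : E →L[ℂ] W),
  Function.Surjective (NormedSpace.inclusionInDoubleDual ℂ W) → WkC (A ∘L B)

/-- WS: `(R ⊕ 0) + K` is weakly compact if `R` is weakly compact and `K` is nuclear -/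
def WS : Prop := ∀ (U : Type) [NormedAddCommGroup U] [NormedSpace ℂ U] [CompleteSpace U]
  (R : U →L[ℂ] U), WkC R → ∀ (a : ℕ → ℝ), Summable a → ∀ K : (U × U) →L[ℂ] (U × U), Rapid a K →
    WkC (R.prodMap (0 : U →L[ℂ] U) + K)

end Pool.Agent.H272.UU
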