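import Pool.Agent.H272.UU.Defs4

/-!
# UU: the bounded approximation property
-/

set_option autoImplicit false

namespace Pool.Agent.H272.UU

open Filter Topology Pool.Agent.H272.IS
open scoped Classical

/-- BA: a space with the bounded approximation property is complemented in a space with a
monotone decomposition into finite-dimensional subspaces -/
def BA : Prop := ∀ (X : Type) [NormedAddCommGroup X] [NormedSpace ℂ X] [CompleteSpace X]
  (T : ℕ → (X →L[ℂ] X)), (∀ n, FiniteDimensional ℂ (LinearMap.range (T n : X →ₗ[ℂ] X))) →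
  (∀ x, Tendsto (fun n => T n x) atTop (𝓝 x)) →
    ∃ (V : Type) (_ : NormedAddCommGroup V) (_ : NormedSpace ℂ V) (_ : CompleteSpace V)
      (P : ℕ → (V →L[ℂ] V)) (i : X →L[ℂ] V) (r : V →L[ℂ] X), FD P ∧ ∀ x, r (i x) = x

end Pool.Agent.H272.UU
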