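import Pool.Agent.H272.UU.Defs3

/-!
# UU, R0: shift of the decomposition so that `P 0 = 0` (helper706)
-/

set_option autoImplicit false

namespace Pool.Agent.H272.UU

open Filter Topology Pool.Agent.H272.IS
open scoped Classical

section R0

variable {V : Type} [NormedAddCommGroup V] [NormedSpace ℂ V]

/-- the shifted projections -/
noncomputable def r0P (P : ℕ → (V →L[ℂ] V)) : ℕ → (V →L[ℂ] V)
  | 0 => 0
  | n + 1 => P n

theorem r0_comp {P : ℕ → (V →L[ℂ] V)} (h : ∀ m n x, P m (P n x) = P (min m n) x) (m n : ℕ) (x : V) :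
    r0P P m (r0P P n x) = r0P P (min m n) x := by
  rcases m with _ | m
  · rw [Nat.zero_min]
    rfl
  rcases n with _ | n
  · rw [Nat.min_zero]
    change P m ((0 : V →L[ℂ] V) x) = (0 : V →L[ℂ] V) x
    rw [ContinuousLinearMap.zero_apply, map_zero]
  · rw [Nat.succ_min_succ]
    exact h m n x

theorem r0_lower2 {p q C : ℝ} {P : ℕ → (V →L[ℂ] V)} (hq : 0 < q) (h : PQC p q C P) (n : ℕ) (x : V) :
    ‖r0P P n x‖ ^ q + ‖x - r0P P n x‖ ^ q ≤ ‖x‖ ^ q := by
  rcases n with _ | n
  · change ‖(0 : V →L[ℂ] V) x‖ ^ q + ‖x - (0 : V →L[ℂ] V) x‖ ^ q ≤ ‖x‖ ^ q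
    rw [ContinuousLinearMap.zero_apply, norm_zero, sub_zero, Real.zero_rpow hq.ne', zero_add]
  · exact h.lower n x

theorem r0_lower {p q C : ℝ} {P : ℕ → (V →L[ℂ] V)} (hq : 0 < q) (h : PQC p q C P) (m : ℕ → ℕ)
    (hm : Monotone m) (v : ℕ → V) (h1 : ∀ j, r0P P (m (j + 1)) (v j) = v j)
    (h2 : ∀ j, r0P P (m j) (v j) = 0) (k : ℕ) :
    ∑ j ∈ Finset.range k, ‖v j‖ ^ q ≤ ‖∑ j ∈ Finset.range k, v j‖ ^ q := by
  induction k with
  | zero =>
    rw [Finset.sum_range_zero, Finset.sum_range_zero, norm_zero, Real.zero_rpow hq.ne']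
  | succ k ih =>
    rw [Finset.sum_range_succ, Finset.sum_range_succ]
    have h3 : r0P P (m k) (∑ j ∈ Finset.range k, v j) = ∑ j ∈ Finset.range k, v j := by
      rw [map_sum]
      refine Finset.sum_congr rfl fun j hj => ?_
      have hjk : m (j + 1) ≤ m k := hm (Finset.mem_range.1 hj)
      conv_lhs => rw [← h1 j]
      rw [r0_comp h.comp, min_eq_right hjk, h1 j]
    have h4 := r0_lower2 hq h (m k) (∑ j ∈ Finset.range k, v j + v k)
    rw [map_add, h3, h2 k, add_zero, add_sub_cancel_left] at h4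
    linarith

theorem r0_rpow_add {p a b : ℝ} (hp : 0 < p) (ha : 0 ≤ a) (hb : 0 ≤ b) :
    (a + b) ^ p ≤ 2 ^ p * (a ^ p + b ^ p) := by
  have h1 : (a + b) ^ p ≤ (2 * max a b) ^ p := by
    refine Real.rpow_le_rpow (by positivity) ?_ hp.le
    have := le_max_left a b
    have := le_max_right a b
    linarith
  have h2 : (max a b) ^ p ≤ a ^ p + b ^ p := by
    rcases le_total a b with h | h
    · rw [max_eq_right h]
      have := Real.rpow_nonneg ha p
      linarith
    · rw [max_eq_left h]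
      have := Real.rpow_nonneg hb p
      linarith
  rw [Real.mul_rpow (by norm_num) (le_max_of_le_left ha)] at h1
  have h3 : (0 : ℝ) ≤ 2 ^ p := by positivity
  exact h1.trans (mul_le_mul_of_nonneg_left h2 h3)

theorem r0_upper {p q C : ℝ} {P : ℕ → (V →L[ℂ] V)} (hp : 0 < p) (h : PQC p q C P) (m : ℕ → ℕ)
    (hm : Monotone m) (v : ℕ → V) (h1 : ∀ j, r0P P (m (j + 1)) (v j) = v j)
    (h2 : ∀ j, r0P P (m j) (v j) = 0) (k : ℕ) :
    ‖∑ j ∈ Finset.range k, v j‖ ^ p ≤ 2 ^ p * (1 + |C|) * ∑ j ∈ Finset.range k, ‖v j‖ ^ p := by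
  obtain ⟨u, hu⟩ : ∃ u : ℕ → V, u = fun j => if m j = 0 then v j else 0 := ⟨_, rfl⟩
  obtain ⟨w, hw⟩ : ∃ w : ℕ → V, w = fun j => if m j = 0 then 0 else v j := ⟨_, rfl⟩
  have hv : ∀ j, v j = u j + w j := by
    intro j
    rw [hu, hw]
    by_cases h3 : m j = 0
    · simp only [h3, if_true, add_zero]
    · simp only [h3, if_false, zero_add]
  have hS : 0 ≤ ∑ j ∈ Finset.range k, ‖v j‖ ^ p :=
    Finset.sum_nonneg fun j _ => Real.rpow_nonneg (norm_nonneg _) p
  -- the first part
  have hu1 : ‖∑ j ∈ Finset.range k, u j‖ ^ p ≤ ∑ j ∈ Finset.range k, ‖v j‖ ^ p := by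
    by_cases hex : ∃ j ∈ Finset.range k, u j ≠ 0
    · obtain ⟨j0, hj0, hj0'⟩ := hex
      have hm0 : ∀ j, u j ≠ 0 → m j = 0 ∧ m (j + 1) ≠ 0 := by
        intro j hj
        rw [hu] at hj
        by_cases h3 : m j = 0
        · refine ⟨h3, fun h4 => hj ?_⟩
          have h5 := h1 j
          rw [h4] at h5
          change (0 : V →L[ℂ] V) (v j) = v j at h5
          rw [ContinuousLinearMap.zero_apply] at h5
          simp only [h3, if_true]
          exact h5.symm
        · exact absurd (by simp only [h3, if_false]) hj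
      have h6 : ∑ j ∈ Finset.range k, u j = u j0 := by
        refine Finset.sum_eq_single j0 (fun j _ hjj => ?_) (fun h' => absurd hj0 h')
        by_contra hne
        obtain ⟨h7, h8⟩ := hm0 j hne
        obtain ⟨h9, h10⟩ := hm0 j0 hj0'
        rcases lt_or_gt_of_ne hjj with h11 | h11
        · have := hm (show j + 1 ≤ j0 from h11)
          omega
        · have := hm (show j0 + 1 ≤ j from h11)
          omega
      have h12 : u j0 = v j0 := by
        rw [hu]
        simp only [(hm0 j0 hj0').1, if_true]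
      rw [h6, h12]
      exact Finset.single_le_sum (f := fun j => ‖v j‖ ^ p)
        (fun j _ => Real.rpow_nonneg (norm_nonneg _) p) hj0
    · push Not at hex
      rw [Finset.sum_eq_zero hex, norm_zero, Real.zero_rpow hp.ne']
      exact hS
  -- the second part
  have hw1 : ‖∑ j ∈ Finset.range k, w j‖ ^ p ≤ |C| * ∑ j ∈ Finset.range k, ‖v j‖ ^ p := by
    have h3 := h.upper (fun j => m j - 1) (fun a b hab => Nat.sub_le_sub_right (hm hab) 1) k w
      (fun j => by
        by_cases h4 : m j = 0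
        · have h5 : w j = 0 := by rw [hw]; simp only [h4, if_true]
          rw [h5, map_zero]
        · have h5 : w j = v j := by rw [hw]; simp only [h4, if_false]
          have h6 : m (j + 1) ≠ 0 := by
            have := hm (Nat.le_succ j)
            change m j ≤ m (j + 1) at this
            omega
          rw [h5]
          obtain ⟨a, ha⟩ := Nat.exists_eq_succ_of_ne_zero h6
          have h7 := h1 j
          rw [ha] at h7
          change P a (v j) = v j at h7
          change P (m (j + 1) - 1) (v j) = v j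
          rw [ha, Nat.succ_sub_one]
          exact h7)
      (fun j => by
        by_cases h4 : m j = 0
        · have h5 : w j = 0 := by rw [hw]; simp only [h4, if_true]
          rw [h5, map_zero]
        · have h5 : w j = v j := by rw [hw]; simp only [h4, if_false]
          rw [h5]
          obtain ⟨a, ha⟩ := Nat.exists_eq_succ_of_ne_zero h4
          have h7 := h2 j
          rw [ha] at h7
          change P a (v j) = 0 at h7
          change P (m j - 1) (v j) = 0
          rw [ha, Nat.succ_sub_one]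
          exact h7)
    have h8 : ∑ j ∈ Finset.range k, ‖w j‖ ^ p ≤ ∑ j ∈ Finset.range k, ‖v j‖ ^ p := by
      refine Finset.sum_le_sum fun j _ => ?_
      by_cases h4 : m j = 0
      · have h5 : w j = 0 := by rw [hw]; simp only [h4, if_true]
        rw [h5, norm_zero, Real.zero_rpow hp.ne']
        exact Real.rpow_nonneg (norm_nonneg _) p
      · have h5 : w j = v j := by rw [hw]; simp only [h4, if_false]
        rw [h5]
    have h9 : 0 ≤ ∑ j ∈ Finset.range k, ‖w j‖ ^ p :=
      Finset.sum_nonneg fun j _ => Real.rpow_nonneg (norm_nonneg _) p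
    calc ‖∑ j ∈ Finset.range k, w j‖ ^ p ≤ C * ∑ j ∈ Finset.range k, ‖w j‖ ^ p := h3
      _ ≤ |C| * ∑ j ∈ Finset.range k, ‖w j‖ ^ p := mul_le_mul_of_nonneg_right (le_abs_self C) h9
      _ ≤ |C| * ∑ j ∈ Finset.range k, ‖v j‖ ^ p := mul_le_mul_of_nonneg_left h8 (abs_nonneg C)
  have e : ∑ j ∈ Finset.range k, v j = ∑ j ∈ Finset.range k, u j + ∑ j ∈ Finset.range k, w j := by
    rw [← Finset.sum_add_distrib]
    exact Finset.sum_congr rfl fun j _ => hv j
  have h2p : (0 : ℝ) ≤ 2 ^ p := by positivity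
  calc ‖∑ j ∈ Finset.range k, v j‖ ^ p
      ≤ (‖∑ j ∈ Finset.range k, u j‖ + ‖∑ j ∈ Finset.range k, w j‖) ^ p := by
        rw [e]
        exact Real.rpow_le_rpow (norm_nonneg _) (norm_add_le _ _) hp.le
    _ ≤ 2 ^ p * (‖∑ j ∈ Finset.range k, u j‖ ^ p + ‖∑ j ∈ Finset.range k, w j‖ ^ p) :=
        r0_rpow_add hp (norm_nonneg _) (norm_nonneg _)
    _ ≤ 2 ^ p * (∑ j ∈ Finset.range k, ‖v j‖ ^ p + |C| * ∑ j ∈ Finset.range k, ‖v j‖ ^ p) :=
        mul_le_mul_of_nonneg_left (add_le_add hu1 hw1) h2p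
    _ = 2 ^ p * (1 + |C|) * ∑ j ∈ Finset.range k, ‖v j‖ ^ p := by ring

end R0

theorem r0 : R0 := by
  intro V _ _ p q C P hp hpq h
  have hp0 : 0 < p := by linarith
  have hq0 : 0 < q := by linarith
  refine ⟨2 ^ p * (1 + |C|), r0P P, ?_⟩
  constructor
  · rfl
  · exact r0_comp h.comp
  · intro x
    rw [← tendsto_add_atTop_iff_nat 1]
    exact h.tend x
  · intro n
    rcases n with _ | n
    · have h3 : LinearMap.range ((r0P P 0 : V →L[ℂ] V) : V →ₗ[ℂ] V) = ⊥ := by
        change LinearMap.range ((0 : V →L[ℂ] V) : V →ₗ[ℂ] V) = ⊥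
        rw [ContinuousLinearMap.toLinearMap_zero]
        exact LinearMap.range_zero
      rw [h3]
      infer_instance
    · exact h.fin n
  · intro m hm k v h1 h2
    rw [one_mul]
    exact r0_lower hq0 h m hm v h1 h2 k
  · intro m hm k v h1 h2
    exact r0_upper hp0 h m hm v h1 h2 k

end Pool.Agent.H272.UU
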