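import Pool.Agent.H272.UU.Defs3

set_option autoImplicit false

namespace Pool.Agent.H272.UU

open Filter Topology Pool.Agent.H272.IS
open scoped Classical

/-! ## Renorming in general -/

/-- a type synonym for the space with a new norm -/
def r1_T (V : Type) [NormedAddCommGroup V] [NormedSpace ℂ V] (_r : Seminorm ℂ V) : Type := V

/-- the space with a new norm -/
theorem r1_renorm (V : Type) [NormedAddCommGroup V] [NormedSpace ℂ V] [CompleteSpace V]
    (r : Seminorm ℂ V) (M : ℝ) (h1 : ∀ x, ‖x‖ ≤ r x) (h2 : ∀ x, r x ≤ M * ‖x‖) :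
    ∃ (V' : Type) (_ : NormedAddCommGroup V') (_ : NormedSpace ℂ V') (_ : CompleteSpace V')
      (e : V ≃L[ℂ] V'), ∀ x, ‖e x‖ = r x := by
  let i1 : AddCommGroup (r1_T V r) := inferInstanceAs (AddCommGroup V)
  let i2 : Module ℂ (r1_T V r) := inferInstanceAs (Module ℂ V)
  let g : AddGroupNorm (r1_T V r) :=
    { toFun := fun x => r (show V from x)
      map_zero' := map_zero r
      add_le' := fun x y => map_add_le_add r (show V from x) (show V from y)
      neg' := fun x => map_neg_eq_map r (show V from x)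
      eq_zero_of_map_eq_zero' := fun x hx => by
        have h3 : ‖(show V from x)‖ ≤ 0 := (h1 _).trans (le_of_eq hx)
        exact norm_eq_zero.mp (le_antisymm h3 (norm_nonneg _)) }
  let i3 : NormedAddCommGroup (r1_T V r) := g.toNormedAddCommGroup
  have hn : ∀ x : V, ‖(show r1_T V r from x)‖ = r x := fun x => rfl
  let i4 : NormedSpace ℂ (r1_T V r) :=
    { (inferInstance : Module ℂ (r1_T V r)) with
      norm_smul_le := fun a x => (map_smul_eq_mul r a (show V from x)).le }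
  let e0 : V ≃ₗ[ℂ] r1_T V r :=
    { toFun := fun x => x
      invFun := fun x => x
      map_add' := fun x y => rfl
      map_smul' := fun a x => rfl
      left_inv := fun x => rfl
      right_inv := fun x => rfl }
  let e : V ≃L[ℂ] r1_T V r := e0.toContinuousLinearEquivOfBounds M 1
    (fun x => h2 x) (fun x => by
      rw [one_mul]
      exact h1 (e0.symm x))
  refine ⟨r1_T V r, i3, i4, ?_, e, fun x => rfl⟩
  exact ((e.isUniformEmbedding).isUniformInducing.completeSpace_congr e.surjective).mp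
    inferInstance

/-! ## Minkowski for finitely many functions -/

theorem r1_mink (s : ℝ) (hs : 1 ≤ s) (K k : ℕ) (a : ℕ → ℕ → ℝ) (ha : ∀ i j, 0 ≤ a i j) :
    (∑ i ∈ Finset.range K, (∑ j ∈ Finset.range k, a i j) ^ s) ^ (1 / s) ≤
      ∑ j ∈ Finset.range k, (∑ i ∈ Finset.range K, a i j ^ s) ^ (1 / s) := by
  have hs0 : 0 < s := by linarith
  induction k with
  | zero =>
    simp only [Finset.range_zero, Finset.sum_empty]
    rw [Real.zero_rpow hs0.ne', Finset.sum_const_zero, Real.zero_rpow (one_div_pos.mpr hs0).ne']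
  | succ k ih =>
    rw [Finset.sum_range_succ]
    refine le_trans ?_ (add_le_add_left ih _)
    refine le_trans (le_of_eq ?_) (Real.Lp_add_le_of_nonneg (s := Finset.range K) hs
      (fun i _ => Finset.sum_nonneg fun j _ => ha i j) (fun i _ => ha i k))
    congr 1
    refine Finset.sum_congr rfl fun i _ => ?_
    rw [Finset.sum_range_succ]

/-! ## The sums over partitions -/

section

variable {V : Type} [NormedAddCommGroup V] [NormedSpace ℂ V]

/-- the index set -/
abbrev r1_I : Type := {m : ℕ → ℕ // Monotone m} × ℕ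

instance : Nonempty r1_I := ⟨(⟨fun _ => 0, monotone_const⟩, 0)⟩

/-- the sum of a partition -/
noncomputable def r1_S (P : ℕ → (V →L[ℂ] V)) (q : ℝ) (a : r1_I) (x : V) : ℝ :=
  ∑ j ∈ Finset.range a.2, ‖P (a.1.1 (j + 1)) x - P (a.1.1 j) x‖ ^ q

/-- the new norm -/
noncomputable def r1_N (P : ℕ → (V →L[ℂ] V)) (q : ℝ) (x : V) : ℝ :=
  ⨆ a : r1_I, (r1_S P q a x) ^ (1 / q)

theorem r1_S_nonneg (P : ℕ → (V →L[ℂ] V)) (q : ℝ) (a : r1_I) (x : V) : 0 ≤ r1_S P q a x :=
  Finset.sum_nonneg fun _ _ => Real.rpow_nonneg (norm_nonneg _) _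

/-- the hypotheses used for the new norm -/
structure r1_H (P : ℕ → (V →L[ℂ] V)) (q M : ℝ) : Prop where
  hq : 1 ≤ q
  hM : 0 ≤ M
  zero : P 0 = 0
  comp : ∀ m n x, P m (P n x) = P (min m n) x
  tend : ∀ x, Tendsto (fun n => P n x) atTop (𝓝 x)
  bd : ∀ a x, r1_S P q a x ≤ (M * ‖x‖) ^ q

variable {P : ℕ → (V →L[ℂ] V)} {q M : ℝ}

theorem r1_bdd (H : r1_H P q M) (x : V) :
    BddAbove (Set.range fun a : r1_I => (r1_S P q a x) ^ (1 / q)) := by
  have hq0 : 0 < q := by linarith [H.hq]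
  refine ⟨M * ‖x‖, ?_⟩
  rintro _ ⟨a, rfl⟩
  have h0 : 0 ≤ M * ‖x‖ := mul_nonneg H.hM (norm_nonneg _)
  calc (r1_S P q a x) ^ (1 / q) ≤ ((M * ‖x‖) ^ q) ^ (1 / q) :=
        Real.rpow_le_rpow (r1_S_nonneg P q a x) (H.bd a x) (one_div_pos.mpr hq0).le
    _ = M * ‖x‖ := by rw [← Real.rpow_mul h0, mul_one_div_cancel hq0.ne', Real.rpow_one]

theorem r1_N_nonneg (P : ℕ → (V →L[ℂ] V)) (q : ℝ) (x : V) : 0 ≤ r1_N P q x :=
  Real.iSup_nonneg fun a => Real.rpow_nonneg (r1_S_nonneg P q a x) _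

theorem r1_S_le (H : r1_H P q M) (a : r1_I) (x : V) : r1_S P q a x ≤ r1_N P q x ^ q := by
  have hq0 : 0 < q := by linarith [H.hq]
  have h1 : (r1_S P q a x) ^ (1 / q) ≤ r1_N P q x := le_ciSup (r1_bdd H x) a
  have h2 := Real.rpow_le_rpow (Real.rpow_nonneg (r1_S_nonneg P q a x) _) h1 hq0.le
  rwa [← Real.rpow_mul (r1_S_nonneg P q a x), one_div_mul_cancel hq0.ne', Real.rpow_one] at h2

theorem r1_N_le (H : r1_H P q M) (x : V) (B : ℝ) (hB : 0 ≤ B)
    (h : ∀ a, r1_S P q a x ≤ B ^ q) : r1_N P q x ≤ B := by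
  have hq0 : 0 < q := by linarith [H.hq]
  apply ciSup_le
  intro a
  calc (r1_S P q a x) ^ (1 / q) ≤ (B ^ q) ^ (1 / q) :=
        Real.rpow_le_rpow (r1_S_nonneg P q a x) (h a) (one_div_pos.mpr hq0).le
    _ = B := by rw [← Real.rpow_mul hB, mul_one_div_cancel hq0.ne', Real.rpow_one]

theorem r1_N_upper (H : r1_H P q M) (x : V) : r1_N P q x ≤ M * ‖x‖ :=
  r1_N_le H x _ (mul_nonneg H.hM (norm_nonneg _)) fun a => H.bd a x

theorem r1_N_lower (H : r1_H P q M) (x : V) : ‖x‖ ≤ r1_N P q x := by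
  have hq0 : 0 < q := by linarith [H.hq]
  have h1 : ∀ n, ‖P n x‖ ≤ r1_N P q x := by
    intro n
    let m : ℕ → ℕ := fun j => if j = 0 then 0 else n
    have hm : Monotone m := by
      intro i j hij
      change (if i = 0 then 0 else n) ≤ if j = 0 then 0 else n
      split_ifs with h1 h2
      · exact le_rfl
      · exact Nat.zero_le _
      · omega
      · exact le_rfl
    have h2 := r1_S_le H (⟨m, hm⟩, 1) x
    have h3 : r1_S P q (⟨m, hm⟩, 1) x = ‖P n x‖ ^ q := by
      unfold r1_S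
      rw [Finset.sum_range_one]
      change ‖P (if 0 + 1 = 0 then 0 else n) x - P (if 0 = 0 then 0 else n) x‖ ^ q = _
      rw [if_neg (by norm_num), if_pos rfl, H.zero]
      simp
    rw [h3] at h2
    exact (Real.rpow_le_rpow_iff (norm_nonneg _) (r1_N_nonneg P q x) hq0).mp h2
  exact le_of_tendsto (H.tend x).norm (Eventually.of_forall h1)

theorem r1_N_zero (H : r1_H P q M) : r1_N P q 0 = 0 := by
  refine le_antisymm ?_ (r1_N_nonneg P q 0)
  have h := r1_N_upper H 0
  rwa [norm_zero, mul_zero] at h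

theorem r1_N_add (H : r1_H P q M) (x y : V) : r1_N P q (x + y) ≤ r1_N P q x + r1_N P q y := by
  have hq0 : 0 < q := by linarith [H.hq]
  apply ciSup_le
  intro a
  refine le_trans ?_ (add_le_add (le_ciSup (r1_bdd H x) a) (le_ciSup (r1_bdd H y) a))
  unfold r1_S
  refine le_trans ?_ (Real.Lp_add_le_of_nonneg (s := Finset.range a.2) H.hq
    (fun i _ => norm_nonneg _) (fun i _ => norm_nonneg _))
  apply Real.rpow_le_rpow (Finset.sum_nonneg fun i _ => Real.rpow_nonneg (norm_nonneg _) _) _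
    (one_div_pos.mpr hq0).le
  apply Finset.sum_le_sum
  intro i _
  apply Real.rpow_le_rpow (norm_nonneg _) _ hq0.le
  rw [map_add, map_add, add_sub_add_comm]
  exact norm_add_le _ _

theorem r1_N_smul (H : r1_H P q M) (c : ℂ) (x : V) :
    r1_N P q (c • x) ≤ ‖c‖ * r1_N P q x := by
  have hq0 : 0 < q := by linarith [H.hq]
  apply r1_N_le H _ _ (mul_nonneg (norm_nonneg _) (r1_N_nonneg P q x))
  intro a
  rw [Real.mul_rpow (norm_nonneg _) (r1_N_nonneg P q x)]
  refine le_trans (le_of_eq ?_) (mul_le_mul_of_nonneg_left (r1_S_le H a x)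
    (Real.rpow_nonneg (norm_nonneg _) _))
  unfold r1_S
  rw [Finset.mul_sum]
  refine Finset.sum_congr rfl fun i _ => ?_
  rw [map_smul, map_smul, ← smul_sub, norm_smul, Real.mul_rpow (norm_nonneg _) (norm_nonneg _)]

/-! ## The lower estimate -/

/-- the differences beyond `n` -/
theorem r1_max (H : r1_H P q M) (x : V) (n a : ℕ) :
    P (max a n) x - P n x = P a (x - P n x) := by
  rw [map_sub, H.comp]
  rcases le_total a n with h | h
  · rw [max_eq_right h, min_eq_left h, sub_self, sub_self]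
  · rw [max_eq_left h, min_eq_right h]

theorem r1_comb (H : r1_H P q M) (x : V) (n : ℕ) (a b : r1_I) :
    r1_S P q a (P n x) + r1_S P q b (x - P n x) ≤ r1_N P q x ^ q := by
  obtain ⟨⟨m, hm⟩, k⟩ := a
  obtain ⟨⟨m', hm'⟩, k'⟩ := b
  let l : ℕ → ℕ := fun j => if j ≤ k then min (m j) n else max (m' (j - (k + 1))) n
  have hl : Monotone l := by
    intro i j hij
    change (if i ≤ k then min (m i) n else max (m' (i - (k + 1))) n) ≤
      if j ≤ k then min (m j) n else max (m' (j - (k + 1))) n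
    split_ifs with h1 h2
    · exact min_le_min_right _ (hm hij)
    · exact (min_le_right _ _).trans (le_max_right _ _)
    · omega
    · exact max_le_max_right _ (hm' (by omega))
  refine le_trans ?_ (r1_S_le H (⟨l, hl⟩, (k + 1) + k') x)
  unfold r1_S
  change ∑ j ∈ Finset.range k, ‖P (m (j + 1)) (P n x) - P (m j) (P n x)‖ ^ q +
    ∑ j ∈ Finset.range k', ‖P (m' (j + 1)) (x - P n x) - P (m' j) (x - P n x)‖ ^ q ≤
    ∑ j ∈ Finset.range (k + 1 + k'), ‖P (l (j + 1)) x - P (l j) x‖ ^ q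
  rw [Finset.sum_range_add, Finset.sum_range_succ]
  have h1 : ∑ j ∈ Finset.range k, ‖P (m (j + 1)) (P n x) - P (m j) (P n x)‖ ^ q =
      ∑ j ∈ Finset.range k, ‖P (l (j + 1)) x - P (l j) x‖ ^ q := by
    refine Finset.sum_congr rfl fun j hj => ?_
    have hj' := Finset.mem_range.mp hj
    have e1 : l (j + 1) = min (m (j + 1)) n := if_pos (by omega)
    have e2 : l j = min (m j) n := if_pos (by omega)
    rw [e1, e2, H.comp, H.comp]
  have h2 : ∑ j ∈ Finset.range k', ‖P (m' (j + 1)) (x - P n x) - P (m' j) (x - P n x)‖ ^ q =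
      ∑ j ∈ Finset.range k', ‖P (l (k + 1 + j + 1)) x - P (l (k + 1 + j)) x‖ ^ q := by
    refine Finset.sum_congr rfl fun j _ => ?_
    have e1 : l (k + 1 + j + 1) = max (m' (j + 1)) n := by
      change (if k + 1 + j + 1 ≤ k then _ else max (m' (k + 1 + j + 1 - (k + 1))) n) = _
      rw [if_neg (by omega)]
      congr 2
      omega
    have e2 : l (k + 1 + j) = max (m' j) n := by
      change (if k + 1 + j ≤ k then _ else max (m' (k + 1 + j - (k + 1))) n) = _
      rw [if_neg (by omega)]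
      congr 2
      omega
    rw [e1, e2, ← r1_max H x n (m' (j + 1)), ← r1_max H x n (m' j), sub_sub_sub_cancel_right]
  rw [h1, h2]
  have h3 : 0 ≤ ‖P (l (k + 1)) x - P (l k) x‖ ^ q := Real.rpow_nonneg (norm_nonneg _) _
  linarith

theorem r1_low (H : r1_H P q M) (n : ℕ) (x : V) :
    r1_N P q (P n x) ^ q + r1_N P q (x - P n x) ^ q ≤ r1_N P q x ^ q := by
  have hq0 : 0 < q := by linarith [H.hq]
  have key : ∀ (y : V) (B : ℝ), 0 ≤ B → (∀ a, r1_S P q a y ≤ B) → r1_N P q y ^ q ≤ B := by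
    intro y B hB h
    have e : (B ^ (1 / q)) ^ q = B := by
      rw [← Real.rpow_mul hB, one_div_mul_cancel hq0.ne', Real.rpow_one]
    have h1 : r1_N P q y ≤ B ^ (1 / q) := by
      apply r1_N_le H y _ (Real.rpow_nonneg hB _)
      intro a
      rw [e]
      exact h a
    calc r1_N P q y ^ q ≤ (B ^ (1 / q)) ^ q :=
          Real.rpow_le_rpow (r1_N_nonneg P q y) h1 hq0.le
      _ = B := e
  have h1 : ∀ b, r1_N P q (P n x) ^ q ≤ r1_N P q x ^ q - r1_S P q b (x - P n x) := by
    intro b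
    apply key
    · have := r1_comb H x n (⟨fun _ => 0, monotone_const⟩, 0) b
      have h2 : r1_S P q ((⟨fun _ => 0, monotone_const⟩, 0) : r1_I) (P n x) = 0 := by
        unfold r1_S
        exact Finset.sum_range_zero _
      rw [h2] at this
      linarith
    · intro a
      have := r1_comb H x n a b
      linarith
  have h2 : r1_N P q (x - P n x) ^ q ≤ r1_N P q x ^ q - r1_N P q (P n x) ^ q := by
    apply key
    · have h3 := h1 (⟨fun _ => 0, monotone_const⟩, 0)
      have h4 := r1_S_nonneg P q (⟨fun _ => 0, monotone_const⟩, 0) (x - P n x)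
      linarith
    · intro b
      have := h1 b
      linarith
  linarith

/-! ## The upper estimate -/

theorem r1_up (H : r1_H P q M) (p C : ℝ) (hp : 1 < p) (hpq : p ≤ q) (hC : 0 ≤ C)
    (hup : ∀ m : ℕ → ℕ, Monotone m → ∀ (k : ℕ) (v : ℕ → V),
      (∀ j, P (m (j + 1)) (v j) = v j) → (∀ j, P (m j) (v j) = 0) →
      ‖∑ j ∈ Finset.range k, v j‖ ^ p ≤ C * ∑ j ∈ Finset.range k, ‖v j‖ ^ p)
    (m : ℕ → ℕ) (hm : Monotone m) (k : ℕ) (v : ℕ → V)
    (hv1 : ∀ j, P (m (j + 1)) (v j) = v j) (hv0 : ∀ j, P (m j) (v j) = 0) :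
    r1_N P q (∑ j ∈ Finset.range k, v j) ^ p ≤
      C * ∑ j ∈ Finset.range k, r1_N P q (v j) ^ p := by
  have hp0 : 0 < p := by linarith
  have hq0 : 0 < q := by linarith
  have hs : 1 ≤ q / p := (one_le_div hp0).mpr hpq
  have hs0 : 0 < q / p := by linarith
  set R : ℝ := C * ∑ j ∈ Finset.range k, r1_N P q (v j) ^ p with hR
  have hR0 : 0 ≤ R := mul_nonneg hC (Finset.sum_nonneg fun j _ =>
    Real.rpow_nonneg (r1_N_nonneg P q (v j)) _)
  have e0 : (R ^ (1 / p)) ^ q = R ^ (q / p) := by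
    rw [← Real.rpow_mul hR0]
    congr 1
    field_simp
  have hmain : r1_N P q (∑ j ∈ Finset.range k, v j) ≤ R ^ (1 / p) := by
    apply r1_N_le H _ _ (Real.rpow_nonneg hR0 _)
    rintro ⟨⟨l, hl⟩, K⟩
    rw [e0]
    -- the blocks
    let w : ℕ → ℕ → V := fun i j => P (l (i + 1)) (v j) - P (l i) (v j)
    have hw : ∀ i, ‖P (l (i + 1)) (∑ j ∈ Finset.range k, v j) -
        P (l i) (∑ j ∈ Finset.range k, v j)‖ ^ p ≤
        C * ∑ j ∈ Finset.range k, ‖w i j‖ ^ p := by
      intro i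
      have h1 := hup m hm k (w i) (fun j => by
          change P (m (j + 1)) (P (l (i + 1)) (v j) - P (l i) (v j)) =
            P (l (i + 1)) (v j) - P (l i) (v j)
          rw [map_sub, H.comp, H.comp, min_comm, ← H.comp, hv1, min_comm, ← H.comp, hv1])
        (fun j => by
          change P (m j) (P (l (i + 1)) (v j) - P (l i) (v j)) = 0
          rw [map_sub, H.comp, H.comp, min_comm, ← H.comp, hv0, min_comm, ← H.comp, hv0,
            map_zero, map_zero, sub_self])
      have h2 : ∑ j ∈ Finset.range k, w i j = P (l (i + 1)) (∑ j ∈ Finset.range k, v j) -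
          P (l i) (∑ j ∈ Finset.range k, v j) := by
        rw [map_sum, map_sum, ← Finset.sum_sub_distrib]
      rw [← h2]
      exact h1
    have h3 : r1_S P q (⟨l, hl⟩, K) (∑ j ∈ Finset.range k, v j) ≤
        C ^ (q / p) * ∑ i ∈ Finset.range K, (∑ j ∈ Finset.range k, ‖w i j‖ ^ p) ^ (q / p) := by
      unfold r1_S
      rw [Finset.mul_sum]
      apply Finset.sum_le_sum
      intro i _
      change ‖P (l (i + 1)) (∑ j ∈ Finset.range k, v j) -
        P (l i) (∑ j ∈ Finset.range k, v j)‖ ^ q ≤ _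
      have h4 := Real.rpow_le_rpow (Real.rpow_nonneg (norm_nonneg _) _) (hw i) hs0.le
      rw [← Real.rpow_mul (norm_nonneg _), mul_div_cancel₀ q hp0.ne',
        Real.mul_rpow hC (Finset.sum_nonneg fun j _ => Real.rpow_nonneg (norm_nonneg _) _)] at h4
      exact h4
    have h5 := r1_mink (q / p) hs K k (fun i j => ‖w i j‖ ^ p)
      (fun i j => Real.rpow_nonneg (norm_nonneg _) _)
    have h6 : ∀ j, (∑ i ∈ Finset.range K, (‖w i j‖ ^ p) ^ (q / p)) ^ (1 / (q / p)) ≤
        r1_N P q (v j) ^ p := by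
      intro j
      have h7 : ∑ i ∈ Finset.range K, (‖w i j‖ ^ p) ^ (q / p) ≤ r1_N P q (v j) ^ q := by
        refine le_trans (le_of_eq ?_) (r1_S_le H (⟨l, hl⟩, K) (v j))
        unfold r1_S
        refine Finset.sum_congr rfl fun i _ => ?_
        rw [← Real.rpow_mul (norm_nonneg _), mul_div_cancel₀ q hp0.ne']
      calc (∑ i ∈ Finset.range K, (‖w i j‖ ^ p) ^ (q / p)) ^ (1 / (q / p)) ≤
          (r1_N P q (v j) ^ q) ^ (1 / (q / p)) :=
            Real.rpow_le_rpow (Finset.sum_nonneg fun i _ =>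
              Real.rpow_nonneg (Real.rpow_nonneg (norm_nonneg _) _) _) h7
              (one_div_pos.mpr hs0).le
        _ = r1_N P q (v j) ^ p := by
            rw [← Real.rpow_mul (r1_N_nonneg P q (v j))]
            congr 1
            field_simp
    have h8 : (∑ i ∈ Finset.range K, (∑ j ∈ Finset.range k, ‖w i j‖ ^ p) ^ (q / p)) ^
        (1 / (q / p)) ≤ ∑ j ∈ Finset.range k, r1_N P q (v j) ^ p :=
      h5.trans (Finset.sum_le_sum fun j _ => h6 j)
    have hnn : 0 ≤ ∑ i ∈ Finset.range K, (∑ j ∈ Finset.range k, ‖w i j‖ ^ p) ^ (q / p) :=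
      Finset.sum_nonneg fun i _ => Real.rpow_nonneg
        (Finset.sum_nonneg fun j _ => Real.rpow_nonneg (norm_nonneg _) _) _
    have h9 := Real.rpow_le_rpow (Real.rpow_nonneg hnn _) h8 hs0.le
    rw [← Real.rpow_mul hnn, one_div_mul_cancel hs0.ne', Real.rpow_one] at h9
    calc r1_S P q (⟨l, hl⟩, K) (∑ j ∈ Finset.range k, v j) ≤
        C ^ (q / p) * ∑ i ∈ Finset.range K,
          (∑ j ∈ Finset.range k, ‖w i j‖ ^ p) ^ (q / p) := h3
      _ ≤ C ^ (q / p) * (∑ j ∈ Finset.range k, r1_N P q (v j) ^ p) ^ (q / p) :=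
          mul_le_mul_of_nonneg_left h9 (Real.rpow_nonneg hC _)
      _ = R ^ (q / p) := by
          rw [hR, Real.mul_rpow hC (Finset.sum_nonneg fun j _ =>
            Real.rpow_nonneg (r1_N_nonneg P q (v j)) _)]
  calc r1_N P q (∑ j ∈ Finset.range k, v j) ^ p ≤ (R ^ (1 / p)) ^ p :=
        Real.rpow_le_rpow (r1_N_nonneg P q _) hmain hp0.le
    _ = R := by rw [← Real.rpow_mul hR0, one_div_mul_cancel hp0.ne', Real.rpow_one]

end

/-! ## The theorem -/

/-- the hypotheses are satisfied -/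
theorem r1_hyp {V : Type} [NormedAddCommGroup V] [NormedSpace ℂ V] [CompleteSpace V]
    (p q c C : ℝ) (P : ℕ → (V →L[ℂ] V)) (hp : 1 < p) (hpq : p ≤ q) (hc : 0 < c)
    (E : Est p q c C P) : ∃ M, r1_H P q M := by
  have hq0 : 0 < q := by linarith
  obtain ⟨K, hK⟩ : ∃ K, ∀ n, ‖P n‖ ≤ K := by
    apply banach_steinhaus
    intro x
    obtain ⟨B, hB⟩ := (E.tend x).norm.bddAbove_range
    exact ⟨B, fun n => hB ⟨n, rfl⟩⟩
  have hK0 : 0 ≤ K := (norm_nonneg _).trans (hK 0)
  have hci : 0 ≤ (1 / c) ^ (1 / q) := Real.rpow_nonneg (one_div_pos.mpr hc).le _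
  refine ⟨(1 / c) ^ (1 / q) * (2 * K), by linarith, mul_nonneg hci (by linarith), E.zero, E.comp,
    E.tend, ?_⟩
  rintro ⟨⟨m, hm⟩, k⟩ x
  let v : ℕ → V := fun j => P (m (j + 1)) x - P (m j) x
  have h1 := E.lower m hm k v (fun j => by
      change P (m (j + 1)) (P (m (j + 1)) x - P (m j) x) = P (m (j + 1)) x - P (m j) x
      rw [map_sub, E.comp, E.comp, min_self, min_eq_right (hm (Nat.le_succ j))])
    (fun j => by
      change P (m j) (P (m (j + 1)) x - P (m j) x) = 0
      rw [map_sub, E.comp, E.comp, min_self, min_eq_left (hm (Nat.le_succ j)), sub_self])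
  have h2 : ∑ j ∈ Finset.range k, v j = P (m k) x - P (m 0) x :=
    Finset.sum_range_sub (fun j => P (m j) x) k
  have h3 : ‖P (m k) x - P (m 0) x‖ ≤ 2 * K * ‖x‖ := by
    have h4 := (P (m k)).le_of_opNorm_le (hK _) x
    have h5 := (P (m 0)).le_of_opNorm_le (hK _) x
    have h6 := norm_sub_le (P (m k) x) (P (m 0) x)
    linarith
  have h7 : c * r1_S P q (⟨m, hm⟩, k) x ≤ (2 * K * ‖x‖) ^ q := by
    refine h1.trans ?_
    rw [h2]
    exact Real.rpow_le_rpow (norm_nonneg _) h3 hq0.le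
  have h8 : ((1 / c) ^ (1 / q) * (2 * K) * ‖x‖) ^ q = (1 / c) * (2 * K * ‖x‖) ^ q := by
    rw [mul_assoc, Real.mul_rpow hci (by positivity), ← Real.rpow_mul (one_div_pos.mpr hc).le,
      one_div_mul_cancel hq0.ne', Real.rpow_one]
  rw [h8, one_div, ← div_eq_inv_mul, le_div_iff₀ hc, mul_comm]
  exact h7

theorem r1 : R1 := by
  intro V _ _ _ p q c C P hp hpq hc E
  obtain ⟨M, H⟩ := r1_hyp p q c C P hp hpq hc E
  let r : Seminorm ℂ V := Seminorm.ofSMulLE (r1_N P q) (r1_N_zero H) (r1_N_add H) (r1_N_smul H)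
  have hr : ∀ x, r x = r1_N P q x := fun x => rfl
  obtain ⟨V', i1, i2, i3, e, he⟩ := r1_renorm V r M (fun x => r1_N_lower H x)
    (fun x => r1_N_upper H x)
  have hup : ∀ m : ℕ → ℕ, Monotone m → ∀ (k : ℕ) (v : ℕ → V),
      (∀ j, P (m (j + 1)) (v j) = v j) → (∀ j, P (m j) (v j) = 0) →
      ‖∑ j ∈ Finset.range k, v j‖ ^ p ≤ (max C 0) * ∑ j ∈ Finset.range k, ‖v j‖ ^ p := by
    intro m hm k v hv1 hv0
    exact (E.upper m hm k v hv1 hv0).trans (mul_le_mul_of_nonneg_right (le_max_left _ _)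
      (Finset.sum_nonneg fun j _ => Real.rpow_nonneg (norm_nonneg _) _))
  let P' : ℕ → (V' →L[ℂ] V') := fun n => (e : V →L[ℂ] V').comp ((P n).comp (e.symm : V' →L[ℂ] V))
  have hP' : ∀ n x, P' n x = e (P n (e.symm x)) := fun n x => rfl
  refine ⟨V', i1, i2, i3, max C 0, P', ⟨?_, ?_, ?_, ?_, ?_⟩, ?_, ⟨e⟩⟩
  · intro m n x
    rw [hP', hP', hP', e.symm_apply_apply, E.comp]
  · intro x
    have h1 := (e.continuous.tendsto _).comp (E.tend (e.symm x))
    rw [e.apply_symm_apply] at h1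
    exact h1
  · intro n
    have h1 : FiniteDimensional ℂ (LinearMap.range (P n : V →ₗ[ℂ] V)) := E.fin n
    have h2 : LinearMap.range (P' n : V' →ₗ[ℂ] V') ≤
        (LinearMap.range (P n : V →ₗ[ℂ] V)).map (e : V →ₗ[ℂ] V') := by
      rintro _ ⟨x, rfl⟩
      exact ⟨P n (e.symm x), ⟨e.symm x, rfl⟩, rfl⟩
    have h3 : FiniteDimensional ℂ
        ((LinearMap.range (P n : V →ₗ[ℂ] V)).map (e : V →ₗ[ℂ] V')) := inferInstance
    exact Submodule.finiteDimensional_of_le h2
  · intro n x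
    have h1 := r1_low H n (e.symm x)
    have e1 : ‖P' n x‖ = r1_N P q (P n (e.symm x)) := by
      rw [hP', he, hr]
    have e2 : ‖x - P' n x‖ = r1_N P q (e.symm x - P n (e.symm x)) := by
      rw [← hr, ← he, map_sub, e.apply_symm_apply, hP']
    have e3 : ‖x‖ = r1_N P q (e.symm x) := by
      rw [← hr, ← he, e.apply_symm_apply]
    rw [e1, e2, e3]
    exact h1
  · intro m hm k v hv1 hv0
    have h1 := r1_up H p (max C 0) hp hpq (le_max_right _ _) hup m hm k (fun j => e.symm (v j))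
      (fun j => by
        have h2 := congrArg e.symm (hv1 j)
        rwa [hP', e.symm_apply_apply] at h2)
      (fun j => by
        have h2 := congrArg e.symm (hv0 j)
        rwa [hP', e.symm_apply_apply, map_zero] at h2)
    have e1 : ‖∑ j ∈ Finset.range k, v j‖ = r1_N P q (∑ j ∈ Finset.range k, e.symm (v j)) := by
      rw [← hr, ← he, map_sum]
      simp only [e.apply_symm_apply]
    have e2 : ∀ j, ‖v j‖ = r1_N P q (e.symm (v j)) := by
      intro j
      rw [← hr, ← he, e.apply_symm_apply]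
    have e3 : ∑ j ∈ Finset.range k, ‖v j‖ ^ p =
        ∑ j ∈ Finset.range k, r1_N P q (e.symm (v j)) ^ p :=
      Finset.sum_congr rfl fun j _ => by rw [e2 j]
    rw [e1, e3]
    exact h1
  · ext x
    rw [hP', E.zero]
    simp

end Pool.Agent.H272.UU
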