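import Pool.Agent.H272.UU.Defs3

/-!
# R2: renorming, the upper estimate (by helper120)
-/

set_option autoImplicit false

namespace Pool.Agent.H272.UU

open Filter Topology Pool.Agent.H272.IS
open scoped Classical

/-! ### A space with an equivalent norm -/

/-- a copy of the space -/
def R2_RN (V : Type) : Type := V

instance (V : Type) [i : AddCommGroup V] : AddCommGroup (R2_RN V) := i
instance (V : Type) [AddCommGroup V] [i : Module ℂ V] : Module ℂ (R2_RN V) := i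

theorem R2_renorm (V : Type) [NormedAddCommGroup V] [NormedSpace ℂ V] [CompleteSpace V]
    (N : V → ℝ) (C : ℝ) (h0 : ∀ x, 0 ≤ N x) (hs : ∀ (z : ℂ) x, N (z • x) = ‖z‖ * N x)
    (ht : ∀ x y, N (x + y) ≤ N x + N y) (h1 : ∀ x, ‖x‖ ≤ C * N x) (h2 : ∀ x, N x ≤ ‖x‖) :
    ∃ (V' : Type) (_ : NormedAddCommGroup V') (_ : NormedSpace ℂ V') (_ : CompleteSpace V')
      (e : V ≃L[ℂ] V'), ∀ x, ‖e x‖ = N x := by
  let id0 : V → R2_RN V := fun x => x
  let di0 : R2_RN V → V := fun x => x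
  let iN : Norm (R2_RN V) := ⟨fun x => N (di0 x)⟩
  have core : NormedSpace.Core ℂ (R2_RN V) :=
    { norm_nonneg := fun x => h0 (di0 x)
      norm_smul := fun z x => hs z (di0 x)
      norm_triangle := fun x y => ht (di0 x) (di0 y)
      norm_eq_zero_iff := by
        intro x
        constructor
        · intro hx
          have h3 := h1 (di0 x)
          have h4 : N (di0 x) = 0 := hx
          rw [h4, mul_zero] at h3
          exact norm_le_zero_iff.1 h3
        · intro hx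
          have h3 : di0 x = 0 := hx
          have h4 := h2 (di0 x)
          rw [h3, norm_zero] at h4
          exact le_antisymm (by rw [← h3] at h4; exact h4) (h0 _) }
  let iG : NormedAddCommGroup (R2_RN V) := NormedAddCommGroup.ofCore core
  let iS : NormedSpace ℂ (R2_RN V) := NormedSpace.ofCore core
  let e0 : V ≃ₗ[ℂ] R2_RN V :=
    { toFun := id0
      invFun := di0
      left_inv := fun _ => rfl
      right_inv := fun _ => rfl
      map_add' := fun _ _ => rfl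
      map_smul' := fun _ _ => rfl }
  let e : V ≃L[ℂ] R2_RN V := e0.toContinuousLinearEquivOfBounds 1 C
    (fun x => by rw [one_mul]; exact h2 x) (fun x => h1 (di0 x))
  have hc : CompleteSpace (R2_RN V) :=
    (completeSpace_congr (e := e.toEquiv) e.isUniformEmbedding).1 inferInstance
  exact ⟨R2_RN V, iG, iS, hc, e, fun x => rfl⟩

/-! ### The predual norm -/

section

variable {V : Type} [NormedAddCommGroup V] [NormedSpace ℂ V] (M : (V →L[ℂ] ℂ) → ℝ)

/-- the norm given by the functionals with `M f ≤ 1` -/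
noncomputable def R2_N (x : V) : ℝ := ⨆ f : {f : V →L[ℂ] ℂ // M f ≤ 1}, ‖f.1 x‖

theorem R2_bdd (hM1 : ∀ f, ‖f‖ ≤ M f) (x : V) :
    BddAbove (Set.range fun f : {f : V →L[ℂ] ℂ // M f ≤ 1} => ‖f.1 x‖) := by
  refine ⟨‖x‖, ?_⟩
  rintro _ ⟨f, rfl⟩
  exact (f.1.le_opNorm x).trans (mul_le_of_le_one_left (norm_nonneg _) ((hM1 f.1).trans f.2))

theorem R2_zero (hsm : ∀ (z : ℂ) f, M (z • f) = ‖z‖ * M f) : M 0 = 0 := by
  have h := hsm (0 : ℂ) (0 : V →L[ℂ] ℂ)
  have e : (0 : ℂ) • (0 : V →L[ℂ] ℂ) = 0 := by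
    ext x
    exact zero_mul _
  rw [e, norm_zero, zero_mul] at h
  exact h

theorem R2_ne (hsm : ∀ (z : ℂ) f, M (z • f) = ‖z‖ * M f) :
    Nonempty {f : V →L[ℂ] ℂ // M f ≤ 1} :=
  ⟨⟨0, by rw [R2_zero M hsm]; exact zero_le_one⟩⟩

theorem R2_le (hM1 : ∀ f, ‖f‖ ≤ M f) (hsm : ∀ (z : ℂ) f, M (z • f) = ‖z‖ * M f) (x : V) :
    R2_N M x ≤ ‖x‖ := by
  have := R2_ne M hsm
  exact ciSup_le fun f =>
    (f.1.le_opNorm x).trans (mul_le_of_le_one_left (norm_nonneg _) ((hM1 f.1).trans f.2))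

theorem R2_nonneg (x : V) : 0 ≤ R2_N M x := Real.iSup_nonneg fun f => norm_nonneg _

theorem R2_app1 (hM1 : ∀ f, ‖f‖ ≤ M f) (f : V →L[ℂ] ℂ) (hf : M f ≤ 1) (x : V) :
    ‖f x‖ ≤ R2_N M x := le_ciSup (R2_bdd M hM1 x) ⟨f, hf⟩

theorem R2_app (hM1 : ∀ f, ‖f‖ ≤ M f) (hsm : ∀ (z : ℂ) f, M (z • f) = ‖z‖ * M f)
    (f : V →L[ℂ] ℂ) (x : V) : ‖f x‖ ≤ M f * R2_N M x := by
  have h0 : 0 ≤ M f := (norm_nonneg f).trans (hM1 f)
  rcases h0.eq_or_lt with h | h
  · have h1 := hM1 f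
    rw [← h] at h1
    have h2 : f = 0 := norm_le_zero_iff.1 h1
    rw [← h, h2, zero_mul, ContinuousLinearMap.zero_apply, norm_zero]
  · have h1 : ‖(((M f)⁻¹ : ℝ) : ℂ)‖ = (M f)⁻¹ := by
      rw [Complex.norm_real, Real.norm_eq_abs, abs_of_pos (inv_pos.2 h)]
    have h2 := R2_app1 M hM1 ((((M f)⁻¹ : ℝ) : ℂ) • f) (by
      rw [hsm, h1, inv_mul_cancel₀ h.ne']) x
    rw [ContinuousLinearMap.smul_apply, norm_smul, h1, inv_mul_le_iff₀ h] at h2
    exact h2

theorem R2_ge (C : ℝ) (hC : 0 ≤ C) (hM1 : ∀ f, ‖f‖ ≤ M f) (hM2 : ∀ f, M f ≤ C * ‖f‖)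
    (hsm : ∀ (z : ℂ) f, M (z • f) = ‖z‖ * M f) (x : V) : ‖x‖ ≤ C * R2_N M x := by
  obtain ⟨f, hf1, hf2⟩ := exists_dual_vector'' ℂ x
  have h1 := R2_app M hM1 hsm f x
  rw [hf2] at h1
  have h2 : ‖((‖x‖ : ℝ) : ℂ)‖ = ‖x‖ := by
    rw [Complex.norm_real, norm_norm]
  have h3 : ‖x‖ ≤ M f * R2_N M x := by
    rw [← h2]
    exact h1
  refine h3.trans (mul_le_mul_of_nonneg_right ?_ (R2_nonneg M x))
  exact (hM2 f).trans (mul_le_of_le_one_right hC hf1)

theorem R2_add (hM1 : ∀ f, ‖f‖ ≤ M f) (hsm : ∀ (z : ℂ) f, M (z • f) = ‖z‖ * M f) (x y : V) :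
    R2_N M (x + y) ≤ R2_N M x + R2_N M y := by
  have := R2_ne M hsm
  refine ciSup_le fun f => ?_
  rw [map_add]
  exact (norm_add_le _ _).trans (add_le_add (R2_app1 M hM1 f.1 f.2 x) (R2_app1 M hM1 f.1 f.2 y))

theorem R2_smul (z : ℂ) (x : V) : R2_N M (z • x) = ‖z‖ * R2_N M x := by
  unfold R2_N
  rw [Real.mul_iSup_of_nonneg (norm_nonneg z)]
  congr 1
  funext f
  rw [map_smul, norm_smul]

/-- Hölder for two terms -/
theorem R2_holder {p r A B a b : ℝ} (hpr : p.HolderConjugate r) (hA : 0 ≤ A) (hB : 0 ≤ B)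
    (ha : 0 ≤ a) (hb : 0 ≤ b) :
    A * a + B * b ≤ (A ^ r + B ^ r) ^ (1 / r) * (a ^ p + b ^ p) ^ (1 / p) := by
  have h := Real.inner_le_Lp_mul_Lq_of_nonneg (Finset.univ : Finset (Fin 2)) (f := ![A, B])
    (g := ![a, b]) hpr.symm (by
      intro i _
      fin_cases i
      · exact hA
      · exact hB) (by
      intro i _
      fin_cases i
      · exact ha
      · exact hb)
  rw [Fin.sum_univ_two, Fin.sum_univ_two, Fin.sum_univ_two] at h
  exact h

/-- the upper estimate -/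
theorem R2_upper {p r : ℝ} (hpr : p.HolderConjugate r) (hM1 : ∀ f, ‖f‖ ≤ M f)
    (hsm : ∀ (z : ℂ) f, M (z • f) = ‖z‖ * M f) (P : V →L[ℂ] V) (hP : ∀ x, P (P x) = P x)
    (hlow : ∀ f, M (f.comp P) ^ r + M (f - f.comp P) ^ r ≤ M f ^ r) (x : V) :
    R2_N M x ^ p ≤ R2_N M (P x) ^ p + R2_N M (x - P x) ^ p := by
  have hM0 : ∀ f, 0 ≤ M f := fun f => (norm_nonneg f).trans (hM1 f)
  set a := R2_N M (P x) with ha
  set b := R2_N M (x - P x) with hb
  have ha0 : 0 ≤ a := R2_nonneg M _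
  have hb0 : 0 ≤ b := R2_nonneg M _
  have hp0 : 0 < p := hpr.pos
  have hr0 : 0 < r := hpr.symm.pos
  have hab : 0 ≤ a ^ p + b ^ p := add_nonneg (Real.rpow_nonneg ha0 _) (Real.rpow_nonneg hb0 _)
  have key : R2_N M x ≤ (a ^ p + b ^ p) ^ (1 / p) := by
    have := R2_ne M hsm
    refine ciSup_le fun f => ?_
    have h1 : f.1 x = (f.1.comp P) (P x) + (f.1 - f.1.comp P) (x - P x) := by
      simp only [ContinuousLinearMap.comp_apply, ContinuousLinearMap.sub_apply, map_sub, hP]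
      ring
    rw [h1]
    refine (norm_add_le _ _).trans ?_
    refine (add_le_add (R2_app M hM1 hsm _ _) (R2_app M hM1 hsm _ _)).trans ?_
    refine (R2_holder hpr (hM0 _) (hM0 _) ha0 hb0).trans ?_
    refine mul_le_of_le_one_left (Real.rpow_nonneg hab _) ?_
    have h2 : M (f.1.comp P) ^ r + M (f.1 - f.1.comp P) ^ r ≤ 1 :=
      (hlow f.1).trans (Real.rpow_le_one (hM0 _) f.2 hr0.le)
    exact Real.rpow_le_one (add_nonneg (Real.rpow_nonneg (hM0 _) _) (Real.rpow_nonneg (hM0 _) _))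
      h2 (by positivity)
  have h3 := Real.rpow_le_rpow (R2_nonneg M x) key hp0.le
  rw [← Real.rpow_mul hab, one_div_mul_cancel hp0.ne', Real.rpow_one] at h3
  exact h3

/-- a unimodular number -/
theorem R2_unim (w : ℂ) : ∃ θ : ℂ, ‖θ‖ ≤ 1 ∧ θ * w = (‖w‖ : ℂ) := by
  by_cases hw : w = 0
  · exact ⟨0, by rw [norm_zero]; exact zero_le_one, by rw [hw, norm_zero]; simp⟩
  · have hw' : (‖w‖ : ℂ) ≠ 0 := by
      exact_mod_cast norm_ne_zero_iff.2 hw
    refine ⟨(‖w‖ : ℂ) / w, ?_, by field_simp⟩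
    rw [norm_div, Complex.norm_real, norm_norm, div_self (norm_ne_zero_iff.2 hw)]

/-- the main step of the lower estimate -/
theorem R2_low1 {r s : ℝ} (hr : 0 < r) (hs : 0 < s) (hM1 : ∀ f, ‖f‖ ≤ M f)
    (hsm : ∀ (z : ℂ) f, M (z • f) = ‖z‖ * M f) (P : V →L[ℂ] V) (hP : ∀ x, P (P x) = P x)
    (hlow : ∀ f, M (f.comp P) ^ r + M (f - f.comp P) ^ r ≤ M f ^ r)
    (hup : ∀ f, M f ^ s ≤ M (f.comp P) ^ s + M (f - f.comp P) ^ s) (x : V) (α β : ℝ)
    (hα : 0 ≤ α) (hβ : 0 ≤ β) (hαβ : α ^ s + β ^ s ≤ 1) :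
    α * R2_N M (P x) + β * R2_N M (x - P x) ≤ R2_N M x := by
  have hM0 : ∀ f, 0 ≤ M f := fun f => (norm_nonneg f).trans (hM1 f)
  have := R2_ne M hsm
  have hPc : P.comp P = P := by
    ext x
    exact hP x
  -- parts of functionals with `M f ≤ 1`
  have hpart1 : ∀ f, M f ≤ 1 → M (f.comp P) ≤ 1 := by
    intro f hf
    have h1 := hlow f
    have h2 : M (f.comp P) ^ r ≤ 1 := by
      have h3 : 0 ≤ M (f - f.comp P) ^ r := Real.rpow_nonneg (hM0 _) _
      have h4 : M f ^ r ≤ 1 := Real.rpow_le_one (hM0 _) hf hr.le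
      linarith
    by_contra hcon
    push Not at hcon
    exact absurd (Real.one_lt_rpow hcon hr) (not_lt.2 h2)
  have hpart2 : ∀ f, M f ≤ 1 → M (f - f.comp P) ≤ 1 := by
    intro f hf
    have h1 := hlow f
    have h2 : M (f - f.comp P) ^ r ≤ 1 := by
      have h3 : 0 ≤ M (f.comp P) ^ r := Real.rpow_nonneg (hM0 _) _
      have h4 : M f ^ r ≤ 1 := Real.rpow_le_one (hM0 _) hf hr.le
      linarith
    by_contra hcon
    push Not at hcon
    exact absurd (Real.one_lt_rpow hcon hr) (not_lt.2 h2)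
  have main : ∀ f1 f2 : {f : V →L[ℂ] ℂ // M f ≤ 1},
      α * ‖f1.1 (P x)‖ + β * ‖f2.1 (x - P x)‖ ≤ R2_N M x := by
    rintro ⟨f1, hf1⟩ ⟨f2, hf2⟩
    obtain ⟨θ1, hθ1, e1⟩ := R2_unim (f1 (P x))
    obtain ⟨θ2, hθ2, e2⟩ := R2_unim (f2 (x - P x))
    set g1 : V →L[ℂ] ℂ := ((α : ℂ) * θ1) • f1.comp P with hg1
    set g2 : V →L[ℂ] ℂ := ((β : ℂ) * θ2) • (f2 - f2.comp P) with hg2
    have hc1 : (g1 + g2).comp P = g1 := by
      ext y
      simp only [hg1, hg2, ContinuousLinearMap.comp_apply, ContinuousLinearMap.add_apply,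
        ContinuousLinearMap.smul_apply, ContinuousLinearMap.sub_apply, hP, sub_self, smul_zero,
        add_zero]
    have hc2 : (g1 + g2) - (g1 + g2).comp P = g2 := by
      rw [hc1, add_sub_cancel_left]
    have hn1 : M g1 ≤ α := by
      rw [hg1, hsm, norm_mul, Complex.norm_real, Real.norm_eq_abs, abs_of_nonneg hα]
      calc α * ‖θ1‖ * M (f1.comp P) ≤ α * 1 * 1 :=
            mul_le_mul (mul_le_mul_of_nonneg_left hθ1 hα) (hpart1 f1 hf1) (hM0 _)
              (by linarith)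
        _ = α := by ring
    have hn2 : M g2 ≤ β := by
      rw [hg2, hsm, norm_mul, Complex.norm_real, Real.norm_eq_abs, abs_of_nonneg hβ]
      calc β * ‖θ2‖ * M (f2 - f2.comp P) ≤ β * 1 * 1 :=
            mul_le_mul (mul_le_mul_of_nonneg_left hθ2 hβ) (hpart2 f2 hf2) (hM0 _)
              (by linarith)
        _ = β := by ring
    have hn : M (g1 + g2) ≤ 1 := by
      have h1 := hup (g1 + g2)
      rw [hc2, hc1] at h1
      have h2 : M (g1 + g2) ^ s ≤ 1 :=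
        (h1.trans (add_le_add (Real.rpow_le_rpow (hM0 _) hn1 hs.le)
          (Real.rpow_le_rpow (hM0 _) hn2 hs.le))).trans hαβ
      by_contra hcon
      push Not at hcon
      exact absurd (Real.one_lt_rpow hcon hs) (not_lt.2 h2)
    have hval : (g1 + g2) x = ((α * ‖f1 (P x)‖ + β * ‖f2 (x - P x)‖ : ℝ) : ℂ) := by
      have h3 : (g1 + g2) x = (α : ℂ) * (θ1 * f1 (P x)) + (β : ℂ) * (θ2 * f2 (x - P x)) := by
        simp only [hg1, hg2, ContinuousLinearMap.comp_apply, ContinuousLinearMap.add_apply,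
          ContinuousLinearMap.smul_apply, ContinuousLinearMap.sub_apply, smul_eq_mul, map_sub]
        ring
      rw [h3, e1, e2]
      push_cast
      ring
    have h4 := R2_app1 M hM1 (g1 + g2) hn x
    rw [hval, Complex.norm_real, Real.norm_eq_abs, abs_of_nonneg (by positivity)] at h4
    exact h4
  have step1 : ∀ f2 : {f : V →L[ℂ] ℂ // M f ≤ 1},
      α * R2_N M (P x) + β * ‖f2.1 (x - P x)‖ ≤ R2_N M x := by
    intro f2
    have h1 : α * R2_N M (P x) ≤ R2_N M x - β * ‖f2.1 (x - P x)‖ := by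
      unfold R2_N
      rw [Real.mul_iSup_of_nonneg hα]
      refine ciSup_le fun f1 => ?_
      have := main f1 f2
      unfold R2_N at this
      linarith
    linarith
  have h2 : β * R2_N M (x - P x) ≤ R2_N M x - α * R2_N M (P x) := by
    have h3 : β * R2_N M (x - P x) = ⨆ f : {f : V →L[ℂ] ℂ // M f ≤ 1}, β * ‖f.1 (x - P x)‖ := by
      unfold R2_N
      rw [Real.mul_iSup_of_nonneg hβ]
    rw [h3]
    refine ciSup_le fun f2 => ?_
    have := step1 f2
    linarith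
  linarith

/-- the lower estimate -/
theorem R2_lower {r q s : ℝ} (hr : 0 < r) (hqs : q.HolderConjugate s) (hM1 : ∀ f, ‖f‖ ≤ M f)
    (hsm : ∀ (z : ℂ) f, M (z • f) = ‖z‖ * M f) (P : V →L[ℂ] V) (hP : ∀ x, P (P x) = P x)
    (hlow : ∀ f, M (f.comp P) ^ r + M (f - f.comp P) ^ r ≤ M f ^ r)
    (hup : ∀ f, M f ^ s ≤ M (f.comp P) ^ s + M (f - f.comp P) ^ s) (x : V) :
    R2_N M (P x) ^ q + R2_N M (x - P x) ^ q ≤ R2_N M x ^ q := by
  set a := R2_N M (P x) with ha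
  set b := R2_N M (x - P x) with hb
  have ha0 : 0 ≤ a := R2_nonneg M _
  have hb0 : 0 ≤ b := R2_nonneg M _
  have hq0 : 0 < q := hqs.pos
  have hq1 : 1 < q := hqs.lt
  have hs0 : 0 < s := hqs.symm.pos
  have haq : 0 ≤ a ^ q := Real.rpow_nonneg ha0 _
  have hbq : 0 ≤ b ^ q := Real.rpow_nonneg hb0 _
  set D := a ^ q + b ^ q with hD
  have hD0 : 0 ≤ D := add_nonneg haq hbq
  rcases hD0.eq_or_lt with h | h
  · rw [← h]
    exact Real.rpow_nonneg (R2_nonneg M x) _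
  · have hDs : 0 < D ^ (1 / s) := Real.rpow_pos_of_pos h _
    have hqs1 : (q - 1) * s = q := hqs.sub_one_mul_conj
    have e1 : ∀ c : ℝ, 0 ≤ c → (c ^ (q - 1) / D ^ (1 / s)) ^ s = c ^ q / D := by
      intro c hc
      rw [Real.div_rpow (Real.rpow_nonneg hc _) hDs.le, ← Real.rpow_mul hc, hqs1,
        ← Real.rpow_mul hD0, one_div_mul_cancel hs0.ne', Real.rpow_one]
    have e2 : ∀ c : ℝ, 0 ≤ c → c ^ (q - 1) * c = c ^ q := by
      intro c hc
      rcases hc.eq_or_lt with h0 | h0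
      · rw [← h0, mul_zero, Real.zero_rpow hq0.ne']
      · rw [← Real.rpow_add_one h0.ne', sub_add_cancel]
    have h1 := R2_low1 M hr hs0 hM1 hsm P hP hlow hup x (a ^ (q - 1) / D ^ (1 / s))
      (b ^ (q - 1) / D ^ (1 / s)) (div_nonneg (Real.rpow_nonneg ha0 _) hDs.le)
      (div_nonneg (Real.rpow_nonneg hb0 _) hDs.le) (by
        rw [e1 a ha0, e1 b hb0, ← add_div, ← hD, div_self h.ne'])
    rw [← ha, ← hb] at h1
    have h2 : a ^ (q - 1) / D ^ (1 / s) * a + b ^ (q - 1) / D ^ (1 / s) * b = D / D ^ (1 / s) := by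
      rw [div_mul_eq_mul_div, div_mul_eq_mul_div, e2 a ha0, e2 b hb0, ← add_div]
    have h3 : D / D ^ (1 / s) = D ^ (1 / q) := by
      rw [div_eq_iff hDs.ne', ← Real.rpow_add h]
      have h4 : 1 / q + 1 / s = 1 := by
        have := hqs.inv_add_inv_eq_one
        rw [one_div, one_div]
        exact this
      rw [h4, Real.rpow_one]
    rw [h2, h3] at h1
    have h5 := Real.rpow_le_rpow (Real.rpow_nonneg hD0 _) h1 hq0.le
    rw [← Real.rpow_mul hD0, one_div_mul_cancel hq0.ne', Real.rpow_one] at h5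
    exact h5

end

theorem R2_conj {p r : ℝ} (hp : 1 < p) (hr : r = p / (p - 1)) : p.HolderConjugate r := by
  rw [Real.holderConjugate_iff_eq_conjExponent hp]
  exact hr

theorem r2 (ha : R2a) (hb : R2b) (hc : R2c) : R2 := by
  intro V _ _ _ p q C P hp hpq hPQC hP0
  have hq : 1 < q := lt_of_lt_of_le hp hpq
  set r : ℝ := p / (p - 1) with hr
  set s : ℝ := q / (q - 1) with hs
  have hpr : p.HolderConjugate r := R2_conj hp hr
  have hqs : q.HolderConjugate s := R2_conj hq hs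
  obtain ⟨hbdd, C₀, hC₀⟩ := ha V p q C r P hp hpq hr hPQC hP0
  obtain ⟨_, hsm, hlow⟩ := hb V p q C r P hp hpq hr hPQC hP0 hbdd
  have hup := hc V p q C r s P hp hpq hr hs hPQC hP0 hbdd
  have hM1 : ∀ f, ‖f‖ ≤ Mn r P f := fun f => (hC₀ f).1
  have hM2 : ∀ f, Mn r P f ≤ max C₀ 0 * ‖f‖ := fun f =>
    (hC₀ f).2.trans (mul_le_mul_of_nonneg_right (le_max_left _ _) (norm_nonneg _))
  obtain ⟨V', i1, i2, i3, e, he⟩ := R2_renorm V (R2_N (Mn r P)) (max C₀ 0)
    (R2_nonneg _) (R2_smul _) (R2_add _ hM1 hsm)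
    (R2_ge _ _ (le_max_right _ _) hM1 hM2 hsm) (R2_le _ hM1 hsm)
  have hPP : ∀ n x, P n (P n x) = P n x := by
    intro n x
    rw [hPQC.comp, min_self]
  refine ⟨V', i1, i2, i3, fun n => (e : V →L[ℂ] V').comp ((P n).comp (e.symm : V' →L[ℂ] V)),
    ?_, ⟨e⟩⟩
  constructor
  · intro m n x
    change e (P m (e.symm (e (P n (e.symm x))))) = e (P (min m n) (e.symm x))
    rw [e.symm_apply_apply, hPQC.comp]
  · intro x
    have h1 := (e.continuous.tendsto _).comp (hPQC.tend (e.symm x))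
    rw [e.apply_symm_apply] at h1
    exact h1
  · intro n
    have := hPQC.fin n
    have h1 : LinearMap.range ((((e : V →L[ℂ] V').comp ((P n).comp (e.symm : V' →L[ℂ] V))) :
        V' →L[ℂ] V') : V' →ₗ[ℂ] V') ≤
        (LinearMap.range (P n : V →ₗ[ℂ] V)).map ((e : V →L[ℂ] V') : V →ₗ[ℂ] V') := by
      rintro _ ⟨x, rfl⟩
      exact ⟨P n (e.symm x), ⟨e.symm x, rfl⟩, rfl⟩
    exact Submodule.finiteDimensional_of_le h1
  · intro n y
    obtain ⟨x, rfl⟩ := e.surjective y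
    have h1 : ((e : V →L[ℂ] V').comp ((P n).comp (e.symm : V' →L[ℂ] V))) (e x) = e (P n x) := by
      change e (P n (e.symm (e x))) = e (P n x)
      rw [e.symm_apply_apply]
    rw [h1, ← map_sub, he, he, he]
    exact R2_lower (Mn r P) hpr.symm.pos hqs hM1 hsm (P n) (hPP n) (hlow n) (hup n) x
  · intro n y
    obtain ⟨x, rfl⟩ := e.surjective y
    have h1 : ((e : V →L[ℂ] V').comp ((P n).comp (e.symm : V' →L[ℂ] V))) (e x) = e (P n x) := by
      change e (P n (e.symm (e x))) = e (P n x)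
      rw [e.symm_apply_apply]
    rw [h1, ← map_sub, he, he, he]
    exact R2_upper (Mn r P) hpr hM1 hsm (P n) (hPP n) (hlow n) x

end Pool.Agent.H272.UU
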