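import Pool.Agent.H272.UU.Defs3

/-!
# UU: `Mn` is equivalent to the dual norm
-/

set_option autoImplicit false

namespace Pool.Agent.H272.UU

open Filter Topology Pool.Agent.H272.IS
open scoped Classical

section R2aAux

variable {V : Type} [NormedAddCommGroup V] [NormedSpace ℂ V] {p q C : ℝ} {P : ℕ → (V →L[ℂ] V)}

theorem R2a_norm_le (hq : 0 < q) (h : PQC p q C P) (n : ℕ) (x : V) : ‖P n x‖ ≤ ‖x‖ := by
  have h1 := h.lower n x
  have h2 : 0 ≤ ‖x - P n x‖ ^ q := Real.rpow_nonneg (norm_nonneg _) _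
  have h3 : ‖P n x‖ ^ q ≤ ‖x‖ ^ q := by linarith
  exact (Real.rpow_le_rpow_iff (norm_nonneg _) (norm_nonneg _) hq).1 h3

theorem R2a_norm_sub_le (hq : 0 < q) (h : PQC p q C P) (n : ℕ) (x : V) : ‖x - P n x‖ ≤ ‖x‖ := by
  have h1 := h.lower n x
  have h2 : 0 ≤ ‖P n x‖ ^ q := Real.rpow_nonneg (norm_nonneg _) _
  have h3 : ‖x - P n x‖ ^ q ≤ ‖x‖ ^ q := by linarith
  exact (Real.rpow_le_rpow_iff (norm_nonneg _) (norm_nonneg _) hq).1 h3

theorem R2a_delta_norm (hq : 0 < q) (h : PQC p q C P) {a b : ℕ} (hab : a ≤ b) (x : V) :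
    ‖(P b - P a) x‖ ≤ ‖x‖ := by
  have e : (P b - P a) x = P b (x - P a x) := by
    rw [ContinuousLinearMap.sub_apply, map_sub, h.comp, min_eq_right hab]
  rw [e]
  exact (R2a_norm_le hq h b _).trans (R2a_norm_sub_le hq h a x)

theorem R2a_choice (g : V →L[ℂ] ℂ) : ∃ y : V, ‖y‖ ≤ 1 ∧ ∃ t : ℝ, g y = (t : ℂ) ∧ ‖g‖ / 2 ≤ t := by
  rcases eq_or_lt_of_le (norm_nonneg g) with h0 | h0
  · refine ⟨0, by simp, 0, by simp, ?_⟩
    rw [← h0]
    simp
  · obtain ⟨x, hx, hgx⟩ := ContinuousLinearMap.exists_lt_apply_of_lt_opNorm g (half_lt_self h0)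
    obtain ⟨z, hz, hzx⟩ := RCLike.exists_norm_eq_mul_self (g x)
    refine ⟨z • x, ?_, ‖g x‖, ?_, hgx.le⟩
    · rw [norm_smul, hz, one_mul]
      exact hx.le
    · rw [map_smul, smul_eq_mul]
      exact hzx.symm

theorem R2a_bound (hp : 1 < p) (hq : 0 < q) {r : ℝ} (hr : r = p / (p - 1)) (h : PQC p q C P)
    (f : V →L[ℂ] ℂ) (m : ℕ → ℕ) (hm : Monotone m) (k : ℕ) :
    (∑ j ∈ Finset.range k, ‖f.comp (P (m (j + 1)) - P (m j))‖ ^ r) ^ (1 / r) ≤
      2 * (max C 0) ^ (1 / p) * ‖f‖ := by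
  have hp0 : 0 < p := by linarith
  have hp1 : 0 < p - 1 := by linarith
  have hr1 : 1 < r := by
    rw [hr, lt_div_iff₀ hp1]
    linarith
  have hr0 : 0 < r := by linarith
  have hrp : (r - 1) * p = r := by
    rw [hr]
    field_simp
    ring
  have hconj : 1 / r = 1 - 1 / p := by
    rw [hr]
    field_simp
  obtain ⟨D, hD⟩ : ∃ D : ℕ → (V →L[ℂ] V), ∀ j, D j = P (m (j + 1)) - P (m j) := ⟨_, fun _ => rfl⟩
  obtain ⟨a, ha⟩ : ∃ a : ℕ → ℝ, ∀ j, a j = ‖f.comp (D j)‖ := ⟨_, fun _ => rfl⟩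
  have ha0 : ∀ j, 0 ≤ a j := fun j => by
    rw [ha]
    exact norm_nonneg _
  choose y hy t ht hat using fun j => R2a_choice (f.comp (D j))
  obtain ⟨u, hu⟩ : ∃ u : ℕ → V, ∀ j, u j = ((a j ^ (r - 1) : ℝ) : ℂ) • D j (y j) :=
    ⟨_, fun _ => rfl⟩
  have hle : ∀ j, m j ≤ m (j + 1) := fun j => hm (Nat.le_succ j)
  have hu1 : ∀ j, P (m (j + 1)) (u j) = u j := by
    intro j
    simp only [hu, hD, map_smul, ContinuousLinearMap.sub_apply, map_sub, h.comp, min_self,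
      min_eq_right (hle j)]
  have hu0 : ∀ j, P (m j) (u j) = 0 := by
    intro j
    simp only [hu, hD, map_smul, ContinuousLinearMap.sub_apply, map_sub, h.comp, min_self,
      min_eq_left (hle j), sub_self, smul_zero]
  have hun : ∀ j, ‖u j‖ ^ p ≤ a j ^ r := by
    intro j
    have h1 : ‖u j‖ ≤ a j ^ (r - 1) := by
      rw [hu, norm_smul, Complex.norm_real, Real.norm_of_nonneg (Real.rpow_nonneg (ha0 j) _)]
      have h2 : ‖D j (y j)‖ ≤ 1 := by
        rw [hD]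
        exact (R2a_delta_norm hq h (hle j) (y j)).trans (hy j)
      calc a j ^ (r - 1) * ‖D j (y j)‖ ≤ a j ^ (r - 1) * 1 :=
            mul_le_mul_of_nonneg_left h2 (Real.rpow_nonneg (ha0 j) _)
        _ = a j ^ (r - 1) := mul_one _
    calc ‖u j‖ ^ p ≤ (a j ^ (r - 1)) ^ p := Real.rpow_le_rpow (norm_nonneg _) h1 hp0.le
      _ = a j ^ r := by rw [← Real.rpow_mul (ha0 j), hrp]
  have hsum : ∑ j ∈ Finset.range k, ‖f.comp (P (m (j + 1)) - P (m j))‖ ^ r =
      ∑ j ∈ Finset.range k, a j ^ r := Finset.sum_congr rfl fun j _ => by rw [ha, hD]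
  rw [hsum]
  obtain ⟨S, hS⟩ : ∃ S, S = ∑ j ∈ Finset.range k, a j ^ r := ⟨_, rfl⟩
  rw [← hS]
  have hS0 : 0 ≤ S := by
    rw [hS]
    exact Finset.sum_nonneg fun j _ => Real.rpow_nonneg (ha0 j) _
  have hC0 : 0 ≤ max C 0 := le_max_right _ _
  have hup : ‖∑ j ∈ Finset.range k, u j‖ ^ p ≤ max C 0 * S := by
    refine (h.upper m hm k u hu1 hu0).trans ?_
    calc C * ∑ j ∈ Finset.range k, ‖u j‖ ^ p ≤ max C 0 * ∑ j ∈ Finset.range k, ‖u j‖ ^ p :=
          mul_le_mul_of_nonneg_right (le_max_left _ _)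
            (Finset.sum_nonneg fun j _ => Real.rpow_nonneg (norm_nonneg _) _)
      _ ≤ max C 0 * S := by
          rw [hS]
          exact mul_le_mul_of_nonneg_left (Finset.sum_le_sum fun j _ => hun j) hC0
  have hun2 : ‖∑ j ∈ Finset.range k, u j‖ ≤ (max C 0) ^ (1 / p) * S ^ (1 / p) := by
    rw [← Real.mul_rpow hC0 hS0]
    have h1 := Real.rpow_le_rpow (Real.rpow_nonneg (norm_nonneg _) _) hup
      (by positivity : 0 ≤ 1 / p)
    rwa [← Real.rpow_mul (norm_nonneg _), mul_one_div_cancel hp0.ne', Real.rpow_one] at h1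
  have hfu : f (∑ j ∈ Finset.range k, u j) =
      ((∑ j ∈ Finset.range k, a j ^ (r - 1) * t j : ℝ) : ℂ) := by
    rw [map_sum, Complex.ofReal_sum]
    refine Finset.sum_congr rfl fun j _ => ?_
    rw [hu, map_smul, smul_eq_mul, Complex.ofReal_mul]
    congr 1
    exact ht j
  have hlow : S / 2 ≤ ∑ j ∈ Finset.range k, a j ^ (r - 1) * t j := by
    rw [hS, Finset.sum_div]
    refine Finset.sum_le_sum fun j _ => ?_
    have h1 : a j ^ r = a j ^ (r - 1) * a j := by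
      rcases eq_or_lt_of_le (ha0 j) with h0 | h0
      · rw [← h0, mul_zero, Real.zero_rpow hr0.ne']
      · rw [← Real.rpow_add_one h0.ne', sub_add_cancel]
    rw [h1, mul_div_assoc]
    refine mul_le_mul_of_nonneg_left ?_ (Real.rpow_nonneg (ha0 j) _)
    rw [ha]
    exact hat j
  have hmain : S / 2 ≤ ‖f‖ * ((max C 0) ^ (1 / p) * S ^ (1 / p)) := by
    calc S / 2 ≤ ‖f (∑ j ∈ Finset.range k, u j)‖ := by
          rw [hfu, Complex.norm_real]
          exact hlow.trans (le_abs_self _)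
      _ ≤ ‖f‖ * ‖∑ j ∈ Finset.range k, u j‖ := f.le_opNorm _
      _ ≤ _ := mul_le_mul_of_nonneg_left hun2 (norm_nonneg _)
  rcases eq_or_lt_of_le hS0 with h0 | h0
  · rw [← h0, Real.zero_rpow (by positivity)]
    positivity
  · have hSp : 0 < S ^ (1 / p) := Real.rpow_pos_of_pos h0 _
    have h1 : S = S ^ (1 / r) * S ^ (1 / p) := by
      rw [← Real.rpow_add h0, hconj, sub_add_cancel, Real.rpow_one]
    have h2 : S ^ (1 / r) * S ^ (1 / p) ≤ (2 * (max C 0) ^ (1 / p) * ‖f‖) * S ^ (1 / p) := by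
      rw [← h1]
      have e : (2 * (max C 0) ^ (1 / p) * ‖f‖) * S ^ (1 / p) =
          2 * (‖f‖ * ((max C 0) ^ (1 / p) * S ^ (1 / p))) := by ring
      rw [e]
      linarith
    exact le_of_mul_le_mul_right h2 hSp

end R2aAux

theorem r2a : R2a := by
  intro V _ _ p q C r P hp hpq hr h hP0
  have hq : 0 < q := by linarith
  have hp1 : 0 < p - 1 := by linarith
  have hr0 : 0 < r := by
    rw [hr]
    positivity
  have hb : MnBdd r P := by
    intro f
    refine ⟨2 * (max C 0) ^ (1 / p) * ‖f‖, ?_⟩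
    rintro _ ⟨a, rfl⟩
    exact R2a_bound hp hq hr h f a.1.1 a.1.2 a.2
  refine ⟨hb, 2 * (max C 0) ^ (1 / p), fun f => ⟨?_, ?_⟩⟩
  · have hval : ∀ n, ‖f.comp (P n)‖ ≤ Mn r P f := by
      intro n
      have hmono : Monotone (fun j : ℕ => if j = 0 then 0 else n) := by
        intro i j hij
        by_cases hi : i = 0
        · simp [hi]
        · have hj : j ≠ 0 := by omega
          simp [hi, hj]
      have h1 := le_ciSup (hb f) (⟨⟨_, hmono⟩, 1⟩ : {m : ℕ → ℕ // Monotone m} × ℕ)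
      refine le_trans (le_of_eq ?_) h1
      simp only [Finset.sum_range_one, zero_add, one_ne_zero, if_true, if_false, hP0, sub_zero]
      rw [← Real.rpow_mul (norm_nonneg _), mul_one_div_cancel hr0.ne', Real.rpow_one]
    have hM0 : 0 ≤ Mn r P f := (norm_nonneg _).trans (hval 0)
    refine f.opNorm_le_bound hM0 fun x => ?_
    have hlim : Tendsto (fun n => ‖f (P n x)‖) atTop (𝓝 ‖f x‖) :=
      ((f.continuous.tendsto x).comp (h.tend x)).norm
    refine le_of_tendsto hlim (Eventually.of_forall fun n => ?_)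
    calc ‖f (P n x)‖ = ‖(f.comp (P n)) x‖ := rfl
      _ ≤ ‖f.comp (P n)‖ * ‖x‖ := ContinuousLinearMap.le_opNorm _ _
      _ ≤ Mn r P f * ‖x‖ := mul_le_mul_of_nonneg_right (hval n) (norm_nonneg _)
  · haveI : Nonempty ({m : ℕ → ℕ // Monotone m} × ℕ) := ⟨⟨⟨fun _ => 0, monotone_const⟩, 0⟩⟩
    exact ciSup_le fun a => R2a_bound hp hq hr h f a.1.1 a.1.2 a.2

end Pool.Agent.H272.UU
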