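import Pool.Agent.H272.UU.Defs3

/-!
# `Mn` is a seminorm with a lower `r`-estimate (helper404)
-/

set_option autoImplicit false

namespace Pool.Agent.H272.UU

open Filter Topology Pool.Agent.H272.IS
open scoped Classical

theorem r2b_sup {α : Type*} [Nonempty α] {q s : ℝ} (hq : 0 < q) (a : α → ℝ)
    (ha : ∀ i, 0 ≤ a i) (h : ∀ i, a i ^ q ≤ s) : (⨆ i, a i) ^ q ≤ s := by
  have hs : 0 ≤ s := (Real.rpow_nonneg (ha (Classical.arbitrary α)) q).trans (h _)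
  have h1 : (⨆ i, a i) ≤ s ^ (1 / q) := by
    apply ciSup_le
    intro i
    have h2 := Real.rpow_le_rpow (Real.rpow_nonneg (ha i) q) (h i) (one_div_pos.2 hq).le
    rwa [← Real.rpow_mul (ha i), mul_one_div_cancel hq.ne', Real.rpow_one] at h2
  have h2 := Real.rpow_le_rpow (Real.iSup_nonneg ha) h1 hq.le
  rwa [← Real.rpow_mul hs, one_div_mul_cancel hq.ne', Real.rpow_one] at h2

theorem r2b_sup2 {α β : Type*} [Nonempty α] [Nonempty β] {q r : ℝ} (hq : 0 < q) (a : α → ℝ)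
    (b : β → ℝ) (ha : ∀ i, 0 ≤ a i) (hb : ∀ i, 0 ≤ b i) (h : ∀ i j, a i ^ q + b j ^ q ≤ r) :
    (⨆ i, a i) ^ q + (⨆ j, b j) ^ q ≤ r := by
  have h1 : ∀ j, b j ^ q ≤ r - (⨆ i, a i) ^ q := by
    intro j
    have h2 := r2b_sup (s := r - b j ^ q) hq a ha (fun i => by linarith [h i j])
    linarith
  have h3 := r2b_sup hq b hb h1
  linarith

section

variable {V : Type*} [NormedAddCommGroup V] [NormedSpace ℂ V]

/-- the value of a partition -/
noncomputable def r2b_val (r : ℝ) (P : ℕ → (V →L[ℂ] V)) (f : V →L[ℂ] ℂ)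
    (a : {m : ℕ → ℕ // Monotone m} × ℕ) : ℝ :=
  (∑ j ∈ Finset.range a.2, ‖f.comp (P (a.1.1 (j + 1)) - P (a.1.1 j))‖ ^ r) ^ (1 / r)

theorem r2b_Mn (r : ℝ) (P : ℕ → (V →L[ℂ] V)) (f : V →L[ℂ] ℂ) : Mn r P f = ⨆ a, r2b_val r P f a :=
  rfl

theorem r2b_sum_nonneg (r : ℝ) (P : ℕ → (V →L[ℂ] V)) (f : V →L[ℂ] ℂ)
    (a : {m : ℕ → ℕ // Monotone m} × ℕ) :
    0 ≤ ∑ j ∈ Finset.range a.2, ‖f.comp (P (a.1.1 (j + 1)) - P (a.1.1 j))‖ ^ r :=
  Finset.sum_nonneg fun _ _ => Real.rpow_nonneg (norm_nonneg _) _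

theorem r2b_val_nonneg (r : ℝ) (P : ℕ → (V →L[ℂ] V)) (f : V →L[ℂ] ℂ)
    (a : {m : ℕ → ℕ // Monotone m} × ℕ) : 0 ≤ r2b_val r P f a :=
  Real.rpow_nonneg (r2b_sum_nonneg r P f a) _

theorem r2b_val_rpow {r : ℝ} (hr : 0 < r) (P : ℕ → (V →L[ℂ] V)) (f : V →L[ℂ] ℂ)
    (a : {m : ℕ → ℕ // Monotone m} × ℕ) :
    r2b_val r P f a ^ r =
      ∑ j ∈ Finset.range a.2, ‖f.comp (P (a.1.1 (j + 1)) - P (a.1.1 j))‖ ^ r := by
  unfold r2b_val
  rw [← Real.rpow_mul (r2b_sum_nonneg r P f a), one_div_mul_cancel hr.ne', Real.rpow_one]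

theorem r2b_val_add {r : ℝ} (hr : 1 ≤ r) (P : ℕ → (V →L[ℂ] V)) (f g : V →L[ℂ] ℂ)
    (a : {m : ℕ → ℕ // Monotone m} × ℕ) :
    r2b_val r P (f + g) a ≤ r2b_val r P f a + r2b_val r P g a := by
  unfold r2b_val
  refine le_trans ?_ (Real.Lp_add_le_of_nonneg (Finset.range a.2) hr
    (f := fun j => ‖f.comp (P (a.1.1 (j + 1)) - P (a.1.1 j))‖)
    (g := fun j => ‖g.comp (P (a.1.1 (j + 1)) - P (a.1.1 j))‖)
    (fun _ _ => norm_nonneg _) (fun _ _ => norm_nonneg _))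
  apply Real.rpow_le_rpow (r2b_sum_nonneg r P (f + g) a) _ (by positivity)
  refine Finset.sum_le_sum fun j _ => ?_
  apply Real.rpow_le_rpow (norm_nonneg _) _ (by linarith)
  rw [ContinuousLinearMap.add_comp]
  exact norm_add_le _ _

theorem r2b_val_smul {r : ℝ} (hr : 0 < r) (P : ℕ → (V →L[ℂ] V)) (z : ℂ) (f : V →L[ℂ] ℂ)
    (a : {m : ℕ → ℕ // Monotone m} × ℕ) :
    r2b_val r P (z • f) a = ‖z‖ * r2b_val r P f a := by
  unfold r2b_val
  have h1 : ∀ j, ‖(z • f).comp (P (a.1.1 (j + 1)) - P (a.1.1 j))‖ ^ r =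
      ‖z‖ ^ r * ‖f.comp (P (a.1.1 (j + 1)) - P (a.1.1 j))‖ ^ r := by
    intro j
    rw [ContinuousLinearMap.smul_comp, norm_smul, Real.mul_rpow (norm_nonneg _) (norm_nonneg _)]
  rw [Finset.sum_congr rfl fun j _ => h1 j, ← Finset.mul_sum,
    Real.mul_rpow (Real.rpow_nonneg (norm_nonneg _) _) (r2b_sum_nonneg r P f a),
    ← Real.rpow_mul (norm_nonneg _), mul_one_div_cancel hr.ne', Real.rpow_one]

/-- the combination of two partitions -/
def r2b_seq (n : ℕ) (a b : {m : ℕ → ℕ // Monotone m} × ℕ) (j : ℕ) : ℕ :=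
  if j ≤ a.2 then min (a.1.1 j) n else max (b.1.1 (j - a.2 - 1)) n

theorem r2b_seq_mono (n : ℕ) (a b : {m : ℕ → ℕ // Monotone m} × ℕ) : Monotone (r2b_seq n a b) := by
  intro i j hij
  unfold r2b_seq
  by_cases h1 : j ≤ a.2
  · rw [if_pos h1, if_pos (hij.trans h1)]
    exact min_le_min_right _ (a.1.2 hij)
  · rw [if_neg h1]
    by_cases h2 : i ≤ a.2
    · rw [if_pos h2]
      exact (min_le_right _ _).trans (le_max_right _ _)
    · rw [if_neg h2]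
      exact max_le_max_right _ (b.1.2 (by omega))

/-- the combination of two partitions -/
def r2b_part (n : ℕ) (a b : {m : ℕ → ℕ // Monotone m} × ℕ) : {m : ℕ → ℕ // Monotone m} × ℕ :=
  (⟨r2b_seq n a b, r2b_seq_mono n a b⟩, a.2 + (1 + b.2))

theorem r2b_low {P : ℕ → (V →L[ℂ] V)} (hc : ∀ m n x, P m (P n x) = P (min m n) x)
    (f : V →L[ℂ] ℂ) (n x y : ℕ) :
    (f.comp (P n)).comp (P x - P y) = f.comp (P (min x n) - P (min y n)) := by
  ext v
  simp only [ContinuousLinearMap.comp_apply, sub_apply, map_sub, hc,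
    min_comm n]

theorem r2b_high {P : ℕ → (V →L[ℂ] V)} (hc : ∀ m n x, P m (P n x) = P (min m n) x)
    (f : V →L[ℂ] ℂ) (n x y : ℕ) :
    (f - f.comp (P n)).comp (P x - P y) = f.comp (P (max x n) - P (max y n)) := by
  have h1 : ∀ (a : ℕ) (v : V), P a v - P (min n a) v = P (max a n) v - P n v := by
    intro a v
    rcases le_total a n with h | h
    · rw [min_eq_right h, max_eq_right h, sub_self, sub_self]
    · rw [min_eq_left h, max_eq_left h]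
  ext v
  simp only [ContinuousLinearMap.comp_apply, sub_apply, map_sub, hc]
  have h2 := congrArg f (h1 x v)
  have h3 := congrArg f (h1 y v)
  rw [map_sub, map_sub] at h2 h3
  linear_combination h2 - h3

theorem r2b_combine {r : ℝ} (hr : 0 < r) {P : ℕ → (V →L[ℂ] V)}
    (hc : ∀ m n x, P m (P n x) = P (min m n) x) (f : V →L[ℂ] ℂ) (n : ℕ)
    (a b : {m : ℕ → ℕ // Monotone m} × ℕ) :
    r2b_val r P (f.comp (P n)) a ^ r + r2b_val r P (f - f.comp (P n)) b ^ r ≤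
      r2b_val r P f (r2b_part n a b) ^ r := by
  rw [r2b_val_rpow hr, r2b_val_rpow hr, r2b_val_rpow hr]
  show _ ≤ ∑ j ∈ Finset.range (a.2 + (1 + b.2)),
    ‖f.comp (P (r2b_seq n a b (j + 1)) - P (r2b_seq n a b j))‖ ^ r
  rw [Finset.sum_range_add, Finset.sum_range_add, Finset.sum_range_one]
  have h1 : ∑ j ∈ Finset.range a.2, ‖(f.comp (P n)).comp (P (a.1.1 (j + 1)) - P (a.1.1 j))‖ ^ r =
      ∑ j ∈ Finset.range a.2, ‖f.comp (P (r2b_seq n a b (j + 1)) - P (r2b_seq n a b j))‖ ^ r := by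
    refine Finset.sum_congr rfl fun j hj => ?_
    have hj' := Finset.mem_range.1 hj
    rw [r2b_low hc]
    unfold r2b_seq
    rw [if_pos (by omega : j + 1 ≤ a.2), if_pos (by omega : j ≤ a.2)]
  have h2 : ∑ j ∈ Finset.range b.2,
      ‖(f - f.comp (P n)).comp (P (b.1.1 (j + 1)) - P (b.1.1 j))‖ ^ r =
      ∑ j ∈ Finset.range b.2, ‖f.comp (P (r2b_seq n a b (a.2 + (1 + j) + 1)) -
        P (r2b_seq n a b (a.2 + (1 + j))))‖ ^ r := by
    refine Finset.sum_congr rfl fun j hj => ?_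
    rw [r2b_high hc]
    unfold r2b_seq
    rw [if_neg (by omega : ¬ a.2 + (1 + j) + 1 ≤ a.2), if_neg (by omega : ¬ a.2 + (1 + j) ≤ a.2)]
    have e1 : a.2 + (1 + j) + 1 - a.2 - 1 = j + 1 := by omega
    have e2 : a.2 + (1 + j) - a.2 - 1 = j := by omega
    rw [e1, e2]
  rw [h1, h2]
  have h3 : 0 ≤ ‖f.comp (P (r2b_seq n a b (a.2 + 0 + 1)) - P (r2b_seq n a b (a.2 + 0)))‖ ^ r :=
    Real.rpow_nonneg (norm_nonneg _) _
  linarith

end

/-- R2b -/
theorem r2b : R2b := by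
  intro V _ _ p q C r P hp hpq hr hP hP0 hb
  have hr1 : 1 < r := by
    rw [hr, one_lt_div (by linarith)]
    linarith
  have hr0 : 0 < r := by linarith
  have : Nonempty ({m : ℕ → ℕ // Monotone m} × ℕ) := ⟨(⟨id, monotone_id⟩, 0)⟩
  have hle : ∀ f a, r2b_val r P f a ≤ Mn r P f := fun f a => le_ciSup (hb f) a
  refine ⟨fun f g => ?_, fun z f => ?_, fun n f => ?_⟩
  · rw [r2b_Mn r P (f + g)]
    apply ciSup_le
    intro a
    exact (r2b_val_add hr1.le P f g a).trans (add_le_add (hle f a) (hle g a))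
  · rw [r2b_Mn, r2b_Mn, Real.mul_iSup_of_nonneg (norm_nonneg z)]
    exact congrArg _ (funext fun a => r2b_val_smul hr0 P z f a)
  · rw [r2b_Mn r P (f.comp (P n)), r2b_Mn r P (f - f.comp (P n))]
    refine r2b_sup2 hr0 _ _ (fun a => r2b_val_nonneg r P _ a) (fun a => r2b_val_nonneg r P _ a) ?_
    intro a b
    exact (r2b_combine hr0 hP.comp f n a b).trans
      (Real.rpow_le_rpow (r2b_val_nonneg r P _ _) (hle f _) hr0.le)

end Pool.Agent.H272.UU

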