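import Pool.Agent.H272.UU.Defs3

/-!
# UU: the upper estimate of the norm of the dual space
-/

set_option autoImplicit false

namespace Pool.Agent.H272.UU

open Filter Topology Pool.Agent.H272.IS
open scoped Classical

theorem R2c_holder {s q A B a b : ℝ} (hsq : s.HolderConjugate q) (hA : 0 ≤ A) (hB : 0 ≤ B)
    (ha : 0 ≤ a) (hb : 0 ≤ b) :
    A * a + B * b ≤ (A ^ s + B ^ s) ^ (1 / s) * (a ^ q + b ^ q) ^ (1 / q) := by
  have h := Real.inner_le_Lp_mul_Lq_of_nonneg (Finset.univ : Finset (Fin 2)) (f := ![A, B])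
    (g := ![a, b]) hsq (by intro i _; fin_cases i <;> simpa) (by intro i _; fin_cases i <;> simpa)
  simpa [Fin.sum_univ_two] using h

theorem R2c_two {V : Type} [NormedAddCommGroup V] [NormedSpace ℂ V] {p q C s : ℝ}
    {P : ℕ → (V →L[ℂ] V)} (hsq : s.HolderConjugate q) (hP : PQC p q C P)
    (g : V →L[ℂ] ℂ) (n : ℕ) :
    ‖g‖ ^ s ≤ ‖g.comp (P n)‖ ^ s + ‖g - g.comp (P n)‖ ^ s := by
  have hs0 : 0 < s := hsq.pos
  have hq0 : 0 < q := hsq.symm.pos
  set A := ‖g.comp (P n)‖ with hA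
  set B := ‖g - g.comp (P n)‖ with hB
  have hA0 : 0 ≤ A := norm_nonneg _
  have hB0 : 0 ≤ B := norm_nonneg _
  have hAs : 0 ≤ A ^ s := Real.rpow_nonneg hA0 _
  have hBs : 0 ≤ B ^ s := Real.rpow_nonneg hB0 _
  have hK : 0 ≤ (A ^ s + B ^ s) ^ (1 / s) := Real.rpow_nonneg (by linarith) _
  have key : ‖g‖ ≤ (A ^ s + B ^ s) ^ (1 / s) := by
    refine g.opNorm_le_bound hK (fun x => ?_)
    have hPP : P n (P n x) = P n x := by rw [hP.comp, min_self]
    have e1 : g (P n x) = g.comp (P n) (P n x) := by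
      rw [ContinuousLinearMap.comp_apply, hPP]
    have e2 : g (x - P n x) = (g - g.comp (P n)) (x - P n x) := by
      rw [sub_apply, ContinuousLinearMap.comp_apply, map_sub (P n), hPP,
        sub_self, map_zero, sub_zero]
    have e3 : g x = g (P n x) + g (x - P n x) := by
      rw [← map_add]; congr 1; abel
    have h1 : ‖g x‖ ≤ A * ‖P n x‖ + B * ‖x - P n x‖ := by
      rw [e3, e1, e2]
      exact (norm_add_le _ _).trans (add_le_add (ContinuousLinearMap.le_opNorm _ _)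
        (ContinuousLinearMap.le_opNorm _ _))
    have h2 := R2c_holder hsq hA0 hB0 (norm_nonneg (P n x)) (norm_nonneg (x - P n x))
    have h3 : (‖P n x‖ ^ q + ‖x - P n x‖ ^ q) ^ (1 / q) ≤ ‖x‖ := by
      have h4 := Real.rpow_le_rpow (add_nonneg (Real.rpow_nonneg (norm_nonneg _) _)
        (Real.rpow_nonneg (norm_nonneg _) _)) (hP.lower n x) (show 0 ≤ 1 / q by positivity)
      rwa [← Real.rpow_mul (norm_nonneg x), mul_one_div_cancel hq0.ne', Real.rpow_one] at h4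
    exact h1.trans (h2.trans (mul_le_mul_of_nonneg_left h3 hK))
  have h5 := Real.rpow_le_rpow (norm_nonneg g) key hs0.le
  rwa [← Real.rpow_mul (by linarith), one_div_mul_cancel hs0.ne', Real.rpow_one] at h5

theorem R2c_mink {r s : ℝ} (hs : 0 < s) (hrs : s ≤ r) (k : ℕ) (c a b : ℕ → ℝ)
    (hc : ∀ j, 0 ≤ c j) (ha : ∀ j, 0 ≤ a j) (hb : ∀ j, 0 ≤ b j)
    (h : ∀ j, c j ^ s ≤ a j ^ s + b j ^ s) :
    ((∑ j ∈ Finset.range k, c j ^ r) ^ (1 / r)) ^ s ≤
      ((∑ j ∈ Finset.range k, a j ^ r) ^ (1 / r)) ^ s +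
        ((∑ j ∈ Finset.range k, b j ^ r) ^ (1 / r)) ^ s := by
  have hr : 0 < r := hs.trans_le hrs
  have ht : 1 ≤ r / s := by rwa [le_div_iff₀ hs, one_mul]
  have hpow : ∀ x : ℝ, 0 ≤ x → (x ^ s) ^ (r / s) = x ^ r := by
    intro x hx
    rw [← Real.rpow_mul hx, mul_div_cancel₀ _ hs.ne']
  have hsum : ∀ d : ℕ → ℝ, (∀ j, 0 ≤ d j) → 0 ≤ ∑ j ∈ Finset.range k, d j ^ r := fun d hd =>
    Finset.sum_nonneg (fun j _ => Real.rpow_nonneg (hd j) _)
  have e : ∀ x : ℝ, 0 ≤ x → (x ^ (1 / r)) ^ s = x ^ (1 / (r / s)) := by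
    intro x hx
    rw [← Real.rpow_mul hx]
    congr 1
    field_simp
  rw [e _ (hsum c hc), e _ (hsum a ha), e _ (hsum b hb)]
  have hM := Real.Lp_add_le_of_nonneg (Finset.range k) (f := fun j => a j ^ s)
    (g := fun j => b j ^ s) ht (fun j _ => Real.rpow_nonneg (ha j) _)
    (fun j _ => Real.rpow_nonneg (hb j) _)
  have e1 : ∑ j ∈ Finset.range k, (a j ^ s) ^ (r / s) = ∑ j ∈ Finset.range k, a j ^ r :=
    Finset.sum_congr rfl (fun j _ => hpow _ (ha j))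
  have e2 : ∑ j ∈ Finset.range k, (b j ^ s) ^ (r / s) = ∑ j ∈ Finset.range k, b j ^ r :=
    Finset.sum_congr rfl (fun j _ => hpow _ (hb j))
  rw [e1, e2] at hM
  refine le_trans (Real.rpow_le_rpow (hsum c hc) (Finset.sum_le_sum (fun j _ => ?_))
    (by positivity)) hM
  rw [← hpow _ (hc j)]
  exact Real.rpow_le_rpow (Real.rpow_nonneg (hc j) _) (h j) (by positivity)

theorem r2c : R2c := by
  intro V _ _ p q C r s P hp hpq hr hs hP h0 hB n f
  have hq : 1 < q := hp.trans_le hpq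
  have hq1 : 0 < q - 1 := by linarith
  have hp1 : 0 < p - 1 := by linarith
  have hs1 : 1 < s := by
    rw [hs, lt_div_iff₀ hq1]; linarith
  have hs0 : 0 < s := by linarith
  have hsr : s ≤ r := by
    rw [hs, hr, div_le_div_iff₀ hq1 hp1]
    nlinarith
  have hr0 : 0 < r := by linarith
  have hsq : s.HolderConjugate q := by
    rw [Real.holderConjugate_iff]
    refine ⟨hs1, ?_⟩
    rw [hs]
    field_simp
    ring
  have hcomm : ∀ a b x, P a (P b x) = P b (P a x) := by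
    intro a b x
    rw [hP.comp, hP.comp, min_comm]
  have hle : ∀ (g : V →L[ℂ] ℂ) (a : {m : ℕ → ℕ // Monotone m} × ℕ),
      (∑ j ∈ Finset.range a.2, ‖g.comp (P (a.1.1 (j + 1)) - P (a.1.1 j))‖ ^ r) ^ (1 / r)
        ≤ Mn r P g := fun g a => le_ciSup (hB g) a
  have hnn : ∀ (g : V →L[ℂ] ℂ) (a : {m : ℕ → ℕ // Monotone m} × ℕ),
      0 ≤ (∑ j ∈ Finset.range a.2, ‖g.comp (P (a.1.1 (j + 1)) - P (a.1.1 j))‖ ^ r) ^ (1 / r) :=
    fun g a => Real.rpow_nonneg (Finset.sum_nonneg (fun j _ => Real.rpow_nonneg (norm_nonneg _) _)) _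
  have hM0 : ∀ g : V →L[ℂ] ℂ, 0 ≤ Mn r P g := fun g => Real.iSup_nonneg (hnn g)
  set X := Mn r P (f.comp (P n)) ^ s + Mn r P (f - f.comp (P n)) ^ s with hX
  have hX0 : 0 ≤ X := add_nonneg (Real.rpow_nonneg (hM0 _) _) (Real.rpow_nonneg (hM0 _) _)
  have key : Mn r P f ≤ X ^ (1 / s) := by
    have : Nonempty ({m : ℕ → ℕ // Monotone m} × ℕ) := ⟨(⟨id, monotone_id⟩, 0)⟩
    refine ciSup_le (fun a => ?_)
    have h1 : ∀ j, ‖f.comp (P (a.1.1 (j + 1)) - P (a.1.1 j))‖ ^ s ≤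
        ‖(f.comp (P n)).comp (P (a.1.1 (j + 1)) - P (a.1.1 j))‖ ^ s +
          ‖(f - f.comp (P n)).comp (P (a.1.1 (j + 1)) - P (a.1.1 j))‖ ^ s := by
      intro j
      have h2 := R2c_two hsq hP (f.comp (P (a.1.1 (j + 1)) - P (a.1.1 j))) n
      have e1 : (f.comp (P (a.1.1 (j + 1)) - P (a.1.1 j))).comp (P n)
          = (f.comp (P n)).comp (P (a.1.1 (j + 1)) - P (a.1.1 j)) := by
        ext x
        simp only [ContinuousLinearMap.comp_apply, sub_apply, map_sub]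
        rw [hcomm _ n x, hcomm _ n x]
      have e2 : f.comp (P (a.1.1 (j + 1)) - P (a.1.1 j)) -
          (f.comp (P n)).comp (P (a.1.1 (j + 1)) - P (a.1.1 j))
          = (f - f.comp (P n)).comp (P (a.1.1 (j + 1)) - P (a.1.1 j)) := by
        rw [ContinuousLinearMap.sub_comp]
      rw [e1, e2] at h2
      exact h2
    have h3 := R2c_mink hs0 hsr a.2 (fun j => ‖f.comp (P (a.1.1 (j + 1)) - P (a.1.1 j))‖)
      (fun j => ‖(f.comp (P n)).comp (P (a.1.1 (j + 1)) - P (a.1.1 j))‖)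
      (fun j => ‖(f - f.comp (P n)).comp (P (a.1.1 (j + 1)) - P (a.1.1 j))‖)
      (fun j => norm_nonneg _) (fun j => norm_nonneg _) (fun j => norm_nonneg _) h1
    have h4 := Real.rpow_le_rpow (hnn (f.comp (P n)) a) (hle (f.comp (P n)) a) hs0.le
    have h5 := Real.rpow_le_rpow (hnn (f - f.comp (P n)) a) (hle (f - f.comp (P n)) a) hs0.le
    have h6 := h3.trans (add_le_add h4 h5)
    have h7 := Real.rpow_le_rpow (Real.rpow_nonneg (hnn f a) s) h6 (show 0 ≤ 1 / s by positivity)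
    rwa [← Real.rpow_mul (hnn f a), mul_one_div_cancel hs0.ne', Real.rpow_one] at h7
  have h8 := Real.rpow_le_rpow (hM0 f) key hs0.le
  rwa [← Real.rpow_mul hX0, one_div_mul_cancel hs0.ne', Real.rpow_one] at h8

end Pool.Agent.H272.UU
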