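import Pool.Agent.H272.UU.Defs4
import Pool.Agent.H272.UU.R2

/-!
# RN: renorming so that the decomposition is monotone (by helper981)
-/

set_option autoImplicit false

namespace Pool.Agent.H272.UU

open Filter Topology Pool.Agent.H272.IS
open scoped Classical

theorem rn : RN := by
  intro V _ _ _ P hcomp htend hfin
  obtain ⟨K0, hK0⟩ : ∃ K, ∀ n, ‖P n‖ ≤ K := banach_steinhaus (fun x => by
    obtain ⟨C, hC⟩ := (htend x).norm.bddAbove_range
    exact ⟨C, fun n => hC ⟨n, rfl⟩⟩)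
  set K := max K0 1 with hKdef
  have hK1 : 1 ≤ K := le_max_right _ _
  have hKpos : 0 < K := lt_of_lt_of_le one_pos hK1
  have hK : ∀ n x, ‖P n x‖ ≤ K * ‖x‖ := fun n x =>
    ((P n).le_opNorm x).trans
      (mul_le_mul_of_nonneg_right ((hK0 n).trans (le_max_left _ _)) (norm_nonneg x))
  have hbd : ∀ x, BddAbove (Set.range fun n => ‖P n x‖) := by
    intro x
    refine ⟨K * ‖x‖, ?_⟩
    rintro _ ⟨n, rfl⟩
    exact hK n x
  let S : V → ℝ := fun x => ⨆ n, ‖P n x‖
  have hS1 : ∀ x n, ‖P n x‖ ≤ S x := fun x n => le_ciSup (hbd x) n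
  have hS2 : ∀ x, S x ≤ K * ‖x‖ := fun x => ciSup_le (fun n => hK n x)
  have hS3 : ∀ x, ‖x‖ ≤ S x := fun x =>
    le_of_tendsto (htend x).norm (Eventually.of_forall (hS1 x))
  have hS0 : ∀ x, 0 ≤ S x := fun x => (norm_nonneg x).trans (hS3 x)
  have hSs : ∀ (z : ℂ) x, S (z • x) = ‖z‖ * S x := by
    intro z x
    change (⨆ n, ‖P n (z • x)‖) = ‖z‖ * ⨆ n, ‖P n x‖
    rw [Real.mul_iSup_of_nonneg (norm_nonneg z)]
    congr 1
    funext n
    rw [map_smul, norm_smul]
  have hSt : ∀ x y, S (x + y) ≤ S x + S y := by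
    intro x y
    refine ciSup_le fun n => ?_
    rw [map_add]
    exact (norm_add_le _ _).trans (add_le_add (hS1 x n) (hS1 y n))
  have hSm : ∀ m x, S (P m x) ≤ S x := by
    intro m x
    refine ciSup_le fun n => ?_
    rw [hcomp]
    exact hS1 x _
  obtain ⟨V', i1, i2, i3, e, he⟩ := R2_renorm V (fun x => K⁻¹ * S x) K
    (fun x => mul_nonneg (inv_nonneg.2 hKpos.le) (hS0 x))
    (fun z x => by rw [hSs]; ring)
    (fun x y => by
      rw [← mul_add]
      exact mul_le_mul_of_nonneg_left (hSt x y) (inv_nonneg.2 hKpos.le))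
    (fun x => by
      rw [← mul_assoc, mul_inv_cancel₀ hKpos.ne', one_mul]
      exact hS3 x)
    (fun x => by
      rw [inv_mul_le_iff₀ hKpos]
      exact hS2 x)
  refine ⟨V', i1, i2, i3, fun n => (e : V →L[ℂ] V').comp ((P n).comp (e.symm : V' →L[ℂ] V)),
    ?_, ⟨e⟩⟩
  constructor
  · intro m n x
    change e (P m (e.symm (e (P n (e.symm x))))) = e (P (min m n) (e.symm x))
    rw [e.symm_apply_apply, hcomp]
  · intro x
    have h1 := (e.continuous.tendsto _).comp (htend (e.symm x))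
    rw [e.apply_symm_apply] at h1
    exact h1
  · intro n
    have := hfin n
    have h1 : LinearMap.range ((((e : V →L[ℂ] V').comp ((P n).comp (e.symm : V' →L[ℂ] V))) :
        V' →L[ℂ] V') : V' →ₗ[ℂ] V') ≤
        (LinearMap.range (P n : V →ₗ[ℂ] V)).map ((e : V →L[ℂ] V') : V →ₗ[ℂ] V') := by
      rintro _ ⟨x, rfl⟩
      exact ⟨P n (e.symm x), ⟨e.symm x, rfl⟩, rfl⟩
    exact Submodule.finiteDimensional_of_le h1
  · intro n y
    obtain ⟨x, rfl⟩ := e.surjective y
    have h1 : ((e : V →L[ℂ] V').comp ((P n).comp (e.symm : V' →L[ℂ] V))) (e x) = e (P n x) := by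
      change e (P n (e.symm (e x))) = e (P n x)
      rw [e.symm_apply_apply]
    rw [h1, he, he]
    exact mul_le_mul_of_nonneg_left (hSm n x) (inv_nonneg.2 hKpos.le)

end Pool.Agent.H272.UU
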