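import Pool.Agent.H272.UU.Defs

/-!
# Steps T1b and T1 of the project UU: several blocks, reflexivity and separable dual
-/

set_option autoImplicit false

namespace Pool.Agent.H272.UU

open Filter Topology Pool.Agent.H272.IS
open scoped Classical

theorem t1b : T1b := by
  intro X _ _ p q P hp hpq h
  have hp0 : p ≠ 0 := by linarith
  refine ⟨h.comp, h.tend, h.fin, h.lower, ?_⟩
  intro m hm k v hv1 hv0
  rw [one_mul]
  induction k with
  | zero => simp [Real.zero_rpow hp0]
  | succ k ih =>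
    rw [Finset.sum_range_succ, Finset.sum_range_succ]
    have h1 : P (m k) (∑ j ∈ Finset.range k, v j) = ∑ j ∈ Finset.range k, v j := by
      rw [map_sum]
      refine Finset.sum_congr rfl (fun j hj => ?_)
      have h2 : m (j + 1) ≤ m k := hm (Finset.mem_range.1 hj)
      rw [← hv1 j, h.comp, min_eq_right h2]
    have h2 : P (m k) (∑ j ∈ Finset.range k, v j + v k) = ∑ j ∈ Finset.range k, v j := by
      rw [map_add, h1, hv0, add_zero]
    have h3 := h.upper (m k) (∑ j ∈ Finset.range k, v j + v k)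
    rw [h2, add_sub_cancel_left] at h3
    linarith

section t1

variable {X : Type} [NormedAddCommGroup X] [NormedSpace ℂ X]
variable {p q C : ℝ} {P : ℕ → (X →L[ℂ] X)}

theorem t1_norm_le (h : PQC p q C P) (hq : 0 < q) (n : ℕ) (x : X) : ‖P n x‖ ≤ ‖x‖ := by
  have h1 := h.lower n x
  have h2 : 0 ≤ ‖x - P n x‖ ^ q := Real.rpow_nonneg (norm_nonneg _) _
  have h3 : ‖P n x‖ ^ q ≤ ‖x‖ ^ q := by linarith
  exact (Real.rpow_le_rpow_iff (norm_nonneg _) (norm_nonneg _) hq).1 h3

theorem t1_norm_sub_le (h : PQC p q C P) (hq : 0 < q) (n : ℕ) (x : X) : ‖x - P n x‖ ≤ ‖x‖ := by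
  have h1 := h.lower n x
  have h2 : 0 ≤ ‖P n x‖ ^ q := Real.rpow_nonneg (norm_nonneg _) _
  have h3 : ‖x - P n x‖ ^ q ≤ ‖x‖ ^ q := by linarith
  exact (Real.rpow_le_rpow_iff (norm_nonneg _) (norm_nonneg _) hq).1 h3

theorem t1_idem (h : PQC p q C P) (n : ℕ) (x : X) : P n (P n x) = P n x := by
  rw [h.comp, min_self]

/-- the decomposition is shrinking -/
theorem t1_shrink (h : PQC p q C P) (hp : 1 < p) (hq : 0 < q) (F : X →L[ℂ] ℂ) :
    Tendsto (fun n => F - F.comp (P n)) atTop (𝓝 0) := by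
  set s : ℕ → ℝ := fun n => ‖F - F.comp (P n)‖ with hs
  have hs0 : ∀ n, 0 ≤ s n := fun n => norm_nonneg _
  have happ : ∀ n x, (F - F.comp (P n)) x = F (x - P n x) := by
    intro n x
    simp
  have hsb : ∀ n y, P n y = 0 → ‖F y‖ ≤ s n * ‖y‖ := by
    intro n y hy
    have h1 := (F - F.comp (P n)).le_opNorm y
    rw [happ, hy, sub_zero] at h1
    exact h1
  have hanti : Antitone s := by
    intro m n hmn
    refine ContinuousLinearMap.opNorm_le_bound _ (hs0 m) (fun x => ?_)
    rw [happ]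
    have h1 : P m (x - P n x) = 0 := by
      rw [map_sub, h.comp, min_eq_left hmn, sub_self]
    exact (hsb m _ h1).trans (mul_le_mul_of_nonneg_left (t1_norm_sub_le h hq n x) (hs0 m))
  have hbdd : BddBelow (Set.range s) := ⟨0, by rintro _ ⟨n, rfl⟩; exact hs0 n⟩
  have hlim := tendsto_atTop_ciInf hanti hbdd
  set t : ℝ := ⨅ n, s n with ht
  have ht0 : 0 ≤ t := le_ciInf hs0
  have htle : ∀ n, t ≤ s n := fun n => ciInf_le hbdd n
  have hp0 : 0 < p := by linarith
  have ht1 : t = 0 := by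
    by_contra hne
    have htpos : 0 < t := lt_of_le_of_ne ht0 (Ne.symm hne)
    -- the step of the construction
    have hstep : ∀ n, ∃ m, n ≤ m ∧ ∃ y : X, P m y = y ∧ P n y = 0 ∧ ‖y‖ ≤ 1 ∧
        F y = ((‖F y‖ : ℝ) : ℂ) ∧ t / 2 ≤ ‖F y‖ := by
      intro n
      obtain ⟨x, hx1, hx2⟩ := (F - F.comp (P n)).exists_lt_apply_of_lt_opNorm
        (show t / 2 < ‖F - F.comp (P n)‖ by
          have := htle n
          change t / 2 < s n
          linarith)
      rw [happ] at hx2
      set y₀ := x - P n x with hy₀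
      have hy₀1 : P n y₀ = 0 := by rw [hy₀, map_sub, t1_idem h, sub_self]
      have hy₀2 : ‖y₀‖ ≤ 1 := (t1_norm_sub_le h hq n x).trans hx1.le
      have h1 : Tendsto (fun m => ‖F (P m y₀)‖) atTop (𝓝 ‖F y₀‖) :=
        ((F.continuous.tendsto _).comp (h.tend y₀)).norm
      obtain ⟨m, hm1, hm2⟩ := ((h1.eventually (lt_mem_nhds hx2)).and (eventually_ge_atTop n)).exists
      obtain ⟨θ, hθ1, hθ2⟩ := exists_phase (F (P m y₀))
      have hFy : F (θ • P m y₀) = ((‖F (P m y₀)‖ : ℝ) : ℂ) := by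
        rw [map_smul, smul_eq_mul, hθ2]
      have hFn : ‖F (θ • P m y₀)‖ = ‖F (P m y₀)‖ := by
        rw [hFy, Complex.norm_real, norm_norm]
      refine ⟨m, hm2, θ • P m y₀, ?_, ?_, ?_, ?_, ?_⟩
      · rw [map_smul, t1_idem h]
      · rw [map_smul, h.comp, min_eq_left hm2, hy₀1, smul_zero]
      · rw [norm_smul, hθ1, one_mul]
        exact (t1_norm_le h hq m y₀).trans hy₀2
      · rw [hFn]; exact hFy
      · rw [hFn]; exact hm1.le
    choose g hg Y hY1 hY0 hYn hYF hYt using hstep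
    let a : ℕ → ℕ := fun j => Nat.rec 0 (fun _ b => g b) j
    have ha : ∀ j, a (j + 1) = g (a j) := fun j => rfl
    have hmono : Monotone a := monotone_nat_of_le_succ (fun j => by rw [ha]; exact hg _)
    let v : ℕ → X := fun j => Y (a j)
    have hv1 : ∀ j, P (a (j + 1)) (v j) = v j := fun j => hY1 (a j)
    have hv0 : ∀ j, P (a j) (v j) = 0 := fun j => hY0 (a j)
    have hbound : ∀ k : ℕ, 0 < k → (k : ℝ) ^ (p - 1) ≤ ‖F‖ ^ p * |C| / (t / 2) ^ p := by
      intro k hk
      have hk0 : (0 : ℝ) < k := by exact_mod_cast hk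
      set S : X := ∑ j ∈ Finset.range k, v j with hS
      have h1 : ‖S‖ ^ p ≤ |C| * k := by
        have h2 := h.upper a hmono k v hv1 hv0
        have h3 : ∑ j ∈ Finset.range k, ‖v j‖ ^ p ≤ k := by
          calc ∑ j ∈ Finset.range k, ‖v j‖ ^ p ≤ ∑ j ∈ Finset.range k, (1 : ℝ) :=
                Finset.sum_le_sum (fun j _ =>
                  Real.rpow_le_one (norm_nonneg _) (hYn (a j)) hp0.le)
            _ = k := by simp
        have h4 : 0 ≤ ∑ j ∈ Finset.range k, ‖v j‖ ^ p :=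
          Finset.sum_nonneg (fun j _ => Real.rpow_nonneg (norm_nonneg _) _)
        calc ‖S‖ ^ p ≤ C * ∑ j ∈ Finset.range k, ‖v j‖ ^ p := h2
          _ ≤ |C| * ∑ j ∈ Finset.range k, ‖v j‖ ^ p :=
              mul_le_mul_of_nonneg_right (le_abs_self C) h4
          _ ≤ |C| * k := mul_le_mul_of_nonneg_left h3 (abs_nonneg C)
      have h5 : (k : ℝ) * (t / 2) ≤ ‖F‖ * ‖S‖ := by
        have h6 : F S = ((∑ j ∈ Finset.range k, ‖F (v j)‖ : ℝ) : ℂ) := by
          rw [hS, map_sum]
          push_cast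
          exact Finset.sum_congr rfl (fun j _ => hYF (a j))
        have h7 : ‖F S‖ = ∑ j ∈ Finset.range k, ‖F (v j)‖ := by
          rw [h6, Complex.norm_real, Real.norm_of_nonneg
            (Finset.sum_nonneg (fun j _ => norm_nonneg _))]
        have h8 : (k : ℝ) * (t / 2) ≤ ∑ j ∈ Finset.range k, ‖F (v j)‖ := by
          calc (k : ℝ) * (t / 2) = ∑ j ∈ Finset.range k, (t / 2) := by simp
            _ ≤ ∑ j ∈ Finset.range k, ‖F (v j)‖ := Finset.sum_le_sum (fun j _ => hYt (a j))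
        rw [← h7] at h8
        exact h8.trans (F.le_opNorm S)
      have h9 : ((k : ℝ) * (t / 2)) ^ p ≤ ‖F‖ ^ p * (|C| * k) := by
        calc ((k : ℝ) * (t / 2)) ^ p ≤ (‖F‖ * ‖S‖) ^ p :=
              Real.rpow_le_rpow (by positivity) h5 hp0.le
          _ = ‖F‖ ^ p * ‖S‖ ^ p := Real.mul_rpow (norm_nonneg _) (norm_nonneg _)
          _ ≤ ‖F‖ ^ p * (|C| * k) :=
              mul_le_mul_of_nonneg_left h1 (Real.rpow_nonneg (norm_nonneg _) _)
      have h10 : ((k : ℝ) * (t / 2)) ^ p = (k : ℝ) ^ (p - 1) * k * (t / 2) ^ p := by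
        rw [Real.mul_rpow hk0.le (by positivity)]
        congr 1
        rw [Real.rpow_sub_one hk0.ne', div_mul_cancel₀ _ hk0.ne']
      rw [h10] at h9
      have h11 : 0 < (t / 2) ^ p := Real.rpow_pos_of_pos (by positivity) p
      rw [le_div_iff₀ h11]
      have h12 : ((k : ℝ) ^ (p - 1) * (t / 2) ^ p) * k ≤ (‖F‖ ^ p * |C|) * k := by
        calc ((k : ℝ) ^ (p - 1) * (t / 2) ^ p) * k = (k : ℝ) ^ (p - 1) * k * (t / 2) ^ p := by ring
          _ ≤ ‖F‖ ^ p * (|C| * k) := h9
          _ = (‖F‖ ^ p * |C|) * k := by ring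
      exact le_of_mul_le_mul_right h12 hk0
    have hinf : Tendsto (fun k : ℕ => (k : ℝ) ^ (p - 1)) atTop atTop :=
      (tendsto_rpow_atTop (by linarith)).comp tendsto_natCast_atTop_atTop
    obtain ⟨k, hk1, hk2⟩ := ((hinf.eventually
      (eventually_gt_atTop (‖F‖ ^ p * |C| / (t / 2) ^ p))).and (eventually_gt_atTop 0)).exists
    exact absurd (hbound k hk2) (not_le.2 hk1)
  rw [ht1] at hlim
  exact tendsto_zero_iff_norm_tendsto_zero.2 hlim

/-- bounded increasing families converge -/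
theorem t1_exists_limit [CompleteSpace X] (h : PQC p q C P) (hq : 0 < q) (x : ℕ → X) (M : ℝ)
    (hC : ∀ n, ‖x n‖ ≤ M) (hx : ∀ m n, m ≤ n → P m (x n) = x m) :
    ∃ y, Tendsto x atTop (𝓝 y) := by
  have hadd : ∀ m n, m ≤ n → ‖x n - x m‖ ^ q ≤ ‖x n‖ ^ q - ‖x m‖ ^ q := by
    intro m n hmn
    have h1 := h.lower m (x n)
    rw [hx m n hmn] at h1
    linarith
  have hmono : Monotone fun n => ‖x n‖ ^ q := by
    intro m n hmn
    have h1 := hadd m n hmn
    have h2 : 0 ≤ ‖x n - x m‖ ^ q := Real.rpow_nonneg (norm_nonneg _) _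
    change ‖x m‖ ^ q ≤ ‖x n‖ ^ q
    linarith
  have hbdd : BddAbove (Set.range fun n => ‖x n‖ ^ q) := by
    refine ⟨M ^ q, ?_⟩
    rintro _ ⟨n, rfl⟩
    exact Real.rpow_le_rpow (norm_nonneg _) (hC n) hq.le
  have hlim := tendsto_atTop_ciSup hmono hbdd
  have hcau := hlim.cauchySeq
  apply cauchySeq_tendsto_of_complete
  rw [Metric.cauchySeq_iff'] at hcau ⊢
  intro ε hε
  obtain ⟨N, hN⟩ := hcau (ε ^ q) (Real.rpow_pos_of_pos hε q)
  refine ⟨N, fun n hn => ?_⟩
  have h1 := hN n hn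
  rw [Real.dist_eq] at h1
  have h2 := (le_abs_self _).trans_lt h1
  rw [dist_eq_norm]
  have h3 := (hadd N n hn).trans_lt h2
  exact (Real.rpow_lt_rpow_iff (norm_nonneg _) hε.le hq).1 h3

/-- reflexivity -/
theorem t1_reflexive [CompleteSpace X] (h : PQC p q C P) (hp : 1 < p) (hq : 0 < q) :
    Function.Surjective (NormedSpace.inclusionInDoubleDual ℂ X) := by
  intro Φ
  -- the coordinates of `Φ`
  have hex : ∀ n, ∃ x : X, P n x = x ∧ ∀ F : X →L[ℂ] ℂ, F x = Φ (F.comp (P n)) := by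
    intro n
    have := h.fin n
    set V := LinearMap.range (P n : X →ₗ[ℂ] X) with hV
    let π : X →L[ℂ] V := (P n).codRestrict V (fun x => ⟨x, rfl⟩)
    let Λ : (V →ₗ[ℂ] ℂ) →ₗ[ℂ] ℂ :=
      { toFun := fun f => Φ ((LinearMap.toContinuousLinearMap f).comp π)
        map_add' := by
          intro f g
          rw [map_add, ContinuousLinearMap.add_comp, map_add]
        map_smul' := by
          intro c f
          rw [map_smul, ContinuousLinearMap.smul_comp, map_smul]
          rfl }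
    obtain ⟨v, hv⟩ := (Module.evalEquiv ℂ V).surjective Λ
    refine ⟨(v : X), ?_, ?_⟩
    · obtain ⟨x, hx⟩ := v.2
      have hx' : P n x = (v : X) := hx
      rw [← hx', t1_idem h]
    · intro F
      have h1 := congrArg (fun L : (V →ₗ[ℂ] ℂ) →ₗ[ℂ] ℂ => L ((F : X →ₗ[ℂ] ℂ) ∘ₗ V.subtype)) hv
      change F (v : X) = Φ _ at h1
      rw [h1]
      congr 1
  choose x hxP hx using hex
  have hxn : ∀ n, ‖x n‖ ≤ ‖Φ‖ := by
    intro n
    by_cases h0 : ‖x n‖ = 0
    · rw [h0]; exact norm_nonneg Φ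
    · obtain ⟨F, hF1, hF2⟩ := exists_dual_vector ℂ (x n) h0
      have h1 : ‖F (x n)‖ = ‖x n‖ := by
        rw [hF2]
        simp
      rw [← h1, hx]
      calc ‖Φ (F.comp (P n))‖ ≤ ‖Φ‖ * ‖F.comp (P n)‖ := Φ.le_opNorm _
        _ ≤ ‖Φ‖ * 1 := by
            gcongr
            refine ContinuousLinearMap.opNorm_le_bound _ zero_le_one (fun y => ?_)
            calc ‖F (P n y)‖ ≤ ‖F‖ * ‖P n y‖ := F.le_opNorm _
              _ ≤ 1 * ‖y‖ := by
                  rw [hF1]
                  gcongr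
                  exact t1_norm_le h hq n y
        _ = ‖Φ‖ := mul_one _
  have hxc : ∀ m n, m ≤ n → P m (x n) = x m := by
    intro m n hmn
    have h1 : ∀ F : X →L[ℂ] ℂ, F (P m (x n)) = F (x m) := by
      intro F
      have h2 := hx n (F.comp (P m))
      have h3 : (F.comp (P m)).comp (P n) = F.comp (P m) := by
        ext y
        change F (P m (P n y)) = F (P m y)
        rw [h.comp, min_eq_left hmn]
      rw [h3, ← hx m F] at h2
      exact h2
    by_contra hne
    have h4 : P m (x n) - x m ≠ 0 := sub_ne_zero.2 hne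
    obtain ⟨F, -, hF2⟩ := exists_dual_vector ℂ (P m (x n) - x m) (norm_ne_zero_iff.2 h4)
    rw [map_sub, h1, sub_self] at hF2
    have : ((‖P m (x n) - x m‖ : ℝ) : ℂ) ≠ 0 := by
      exact_mod_cast norm_ne_zero_iff.2 h4
    exact this hF2.symm
  obtain ⟨y, hy⟩ := t1_exists_limit h hq x ‖Φ‖ hxn hxc
  refine ⟨y, ?_⟩
  ext F
  rw [NormedSpace.dual_def]
  have h1 : Tendsto (fun n => F (x n)) atTop (𝓝 (F y)) := (F.continuous.tendsto _).comp hy
  have h2 : Tendsto (fun n => Φ (F.comp (P n))) atTop (𝓝 (Φ F)) := by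
    have h3 : Tendsto (fun n => F.comp (P n)) atTop (𝓝 F) := by
      have h4 := (t1_shrink h hp hq F).const_sub F
      rw [sub_zero] at h4
      refine h4.congr (fun n => ?_)
      rw [sub_sub_cancel]
    exact (Φ.continuous.tendsto _).comp h3
  refine tendsto_nhds_unique h1 (h2.congr (fun n => ?_))
  rw [hx]

/-- the dual is separable -/
theorem t1_dual_dense (h : PQC p q C P) (hp : 1 < p) (hq : 0 < q) :
    ∃ d : ℕ → (X →L[ℂ] ℂ), DenseRange d := by
  -- for every `n` the functionals `F.comp (P n)` are in a separable set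
  have hn : ∀ n, ∃ S : Set (X →L[ℂ] ℂ), TopologicalSpace.IsSeparable S ∧
      ∀ F : X →L[ℂ] ℂ, F.comp (P n) ∈ S := by
    intro n
    have := h.fin n
    set V := LinearMap.range (P n : X →ₗ[ℂ] X) with hV
    let π : X →L[ℂ] V := (P n).codRestrict V (fun x => ⟨x, rfl⟩)
    let b := Module.finBasis ℂ V
    let G : Set (X →L[ℂ] ℂ) :=
      Set.range (fun i => (LinearMap.toContinuousLinearMap (b.coord i)).comp π)
    refine ⟨(Submodule.span ℂ G : Set (X →L[ℂ] ℂ)), ?_, ?_⟩
    · exact TopologicalSpace.IsSeparable.span (Set.countable_range _).isSeparable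
    · intro F
      have h1 : ∀ y, P n y = ∑ i, (b.repr (π y) i) • (b i : X) := by
        intro y
        have h2 := b.sum_repr (π y)
        have h3 := congrArg (fun v : V => (v : X)) h2
        simp only [Submodule.coe_sum, Submodule.coe_smul] at h3
        exact h3.symm
      have h2 : F.comp (P n) =
          ∑ i, F (b i : X) • (LinearMap.toContinuousLinearMap (b.coord i)).comp π := by
        ext y
        change F (P n y) = _
        rw [h1, map_sum, ContinuousLinearMap.sum_apply]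
        refine Finset.sum_congr rfl (fun i _ => ?_)
        rw [map_smul, smul_eq_mul, mul_comm]
        rfl
      rw [SetLike.mem_coe, h2]
      exact Submodule.sum_mem _ (fun i _ => Submodule.smul_mem _ _
        (Submodule.subset_span ⟨i, rfl⟩))
  choose S hS hSF using hn
  have hsep : TopologicalSpace.IsSeparable (closure (⋃ n, S n)) :=
    (TopologicalSpace.IsSeparable.iUnion hS).closure
  have huniv : (Set.univ : Set (X →L[ℂ] ℂ)) ⊆ closure (⋃ n, S n) := by
    intro F _
    have h3 : Tendsto (fun n => F.comp (P n)) atTop (𝓝 F) := by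
      have h4 := (t1_shrink h hp hq F).const_sub F
      rw [sub_zero] at h4
      refine h4.congr (fun n => ?_)
      rw [sub_sub_cancel]
    exact mem_closure_of_tendsto h3 (Eventually.of_forall (fun n => Set.mem_iUnion.2 ⟨n, hSF n F⟩))
  have : TopologicalSpace.SeparableSpace (X →L[ℂ] ℂ) :=
    TopologicalSpace.isSeparable_univ_iff.1 (hsep.mono huniv)
  exact ⟨TopologicalSpace.denseSeq _, TopologicalSpace.denseRange_denseSeq _⟩

end t1

theorem t1 : T1 := by
  intro X _ _ _ p q C P hp hpq h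
  have hq : 0 < q := by linarith
  exact ⟨t1_reflexive h hp hq, t1_dual_dense h hp hq⟩

end Pool.Agent.H272.UU
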