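import Pool.Agent.H272.UU.Defs

/-!
# T4: the choice of blocks and functionals
-/

set_option autoImplicit false

namespace Pool.Agent.H272.UU

open Filter Topology Pool.Agent.H272.IS
open scoped Classical

section t4

variable {X : Type} [NormedAddCommGroup X] [NormedSpace ℂ X] [CompleteSpace X]

/-- density in the annihilator of a finite biorthogonal system -/
theorem t4_dens (hX : Function.Surjective (NormedSpace.inclusionInDoubleDual ℂ X))
    {T : X →L[ℂ] X} (hT : Function.Injective T) (n : ℕ) (y : ℕ → X) (h : ℕ → (X →L[ℂ] ℂ))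
    (hbi : ∀ i, i < n → ∀ j, j < n → h i (T (y j)) = if i = j then 1 else 0)
    (hy : ∀ i, i < n → ‖y i‖ = 1) (hh : ∀ i, i < n → ‖(h i).comp T‖ ≤ 3)
    (f : X →L[ℂ] ℂ) (hf : ∀ i, i < n → f (y i) = 0) (η : ℝ) (hη : 0 < η) :
    ∃ g : X →L[ℂ] ℂ, (∀ i, i < n → g (T (y i)) = 0) ∧ ‖g.comp T - f‖ < η := by
  have hn0 : (0 : ℝ) < 1 + 3 * n := by positivity
  obtain ⟨δ, hδ0, hδ⟩ : ∃ δ : ℝ, 0 < δ ∧ δ + n * (δ * 3) = η := by
    refine ⟨η / (1 + 3 * n), div_pos hη hn0, ?_⟩
    have h1 : η / (1 + 3 * n) + n * (η / (1 + 3 * n) * 3) =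
        η / (1 + 3 * n) * (1 + 3 * n) := by ring
    rw [h1, div_mul_cancel₀ _ hn0.ne']
  obtain ⟨φ, hφ⟩ := dense_adjoint hX hT f δ hδ0
  have hc : ∀ i, i < n → ‖φ (T (y i))‖ ≤ δ := by
    intro i hi
    have h1 : φ (T (y i)) = (φ.comp T - f) (y i) := by
      rw [sub_apply, hf i hi, sub_zero, ContinuousLinearMap.comp_apply]
    rw [h1]
    calc ‖(φ.comp T - f) (y i)‖ ≤ ‖φ.comp T - f‖ * ‖y i‖ := ContinuousLinearMap.le_opNorm _ _
      _ = ‖φ.comp T - f‖ := by rw [hy i hi, mul_one]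
      _ ≤ δ := hφ.le
  refine ⟨φ - ∑ i ∈ Finset.range n, (φ (T (y i))) • h i, ?_, ?_⟩
  · intro j hj
    have h2 : (φ - ∑ i ∈ Finset.range n, (φ (T (y i))) • h i) (T (y j)) =
        φ (T (y j)) - ∑ i ∈ Finset.range n, (φ (T (y i))) * h i (T (y j)) := by
      simp
    rw [h2, Finset.sum_eq_single j]
    · rw [hbi j hj j hj, if_pos rfl, mul_one, sub_self]
    · intro i hi hij
      rw [hbi i (Finset.mem_range.1 hi) j hj, if_neg hij, mul_zero]
    · intro hcon
      exact absurd (Finset.mem_range.2 hj) hcon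
  · have hcomp : (φ - ∑ i ∈ Finset.range n, (φ (T (y i))) • h i).comp T - f =
        (φ.comp T - f) - ∑ i ∈ Finset.range n, (φ (T (y i))) • ((h i).comp T) := by
      ext x
      simp
      ring
    rw [hcomp]
    calc ‖(φ.comp T - f) - ∑ i ∈ Finset.range n, (φ (T (y i))) • ((h i).comp T)‖
        ≤ ‖φ.comp T - f‖ + ∑ i ∈ Finset.range n, ‖(φ (T (y i))) • ((h i).comp T)‖ :=
          (norm_sub_le _ _).trans (by gcongr; exact norm_sum_le _ _)
      _ < δ + ∑ i ∈ Finset.range n, δ * 3 := by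
          refine add_lt_add_of_lt_of_le hφ (Finset.sum_le_sum fun i hi => ?_)
          rw [norm_smul]
          have hi' := Finset.mem_range.1 hi
          exact mul_le_mul (hc i hi') (hh i hi') (norm_nonneg _) hδ0.le
      _ = η := by
          rw [Finset.sum_const, Finset.card_range, nsmul_eq_mul, hδ]

/-- near optimal functionals -/
theorem t4_near (hX : Function.Surjective (NormedSpace.inclusionInDoubleDual ℂ X))
    {T : X →L[ℂ] X} (hT : Function.Injective T) (n : ℕ) (y : ℕ → X) (h : ℕ → (X →L[ℂ] ℂ))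
    (hbi : ∀ i, i < n → ∀ j, j < n → h i (T (y j)) = if i = j then 1 else 0)
    (hy : ∀ i, i < n → ‖y i‖ = 1) (hh : ∀ i, i < n → ‖(h i).comp T‖ ≤ 3)
    (e : X →L[ℂ] ℂ) (η : ℝ) (hη : 0 < η) :
    ∃ g : X →L[ℂ] ℂ, (∀ i, i < n → g (T (y i)) = 0) ∧
      ∀ f : X →L[ℂ] ℂ, (∀ i, i < n → f (y i) = 0) → ‖g.comp T - e‖ ≤ ‖f - e‖ + η := by
  let S : Set ℝ := {r | ∃ f : X →L[ℂ] ℂ, (∀ i, i < n → f (y i) = 0) ∧ r = ‖f - e‖}
  have hne : S.Nonempty := ⟨‖0 - e‖, 0, fun i _ => rfl, rfl⟩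
  have hbd : BddBelow S := ⟨0, by
    rintro _ ⟨f, -, rfl⟩
    exact norm_nonneg _⟩
  obtain ⟨_, ⟨f0, hf0, rfl⟩, hlt⟩ := exists_lt_of_csInf_lt hne
    (lt_add_of_pos_right (sInf S) (half_pos hη))
  obtain ⟨g, hg1, hg2⟩ := t4_dens hX hT n y h hbi hy hh f0 hf0 (η / 2) (half_pos hη)
  refine ⟨g, hg1, fun f hf => ?_⟩
  have h1 : sInf S ≤ ‖f - e‖ := csInf_le hbd ⟨f, hf, rfl⟩
  have h2 : ‖g.comp T - e‖ ≤ ‖g.comp T - f0‖ + ‖f0 - e‖ := by
    have h3 : g.comp T - e = (g.comp T - f0) + (f0 - e) := by abel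
    rw [h3]
    exact norm_add_le _ _
  linarith

/-- the data of a step: the next cut, the vector, its functional and the approximating
functionals -/
abbrev T4D (X : Type) [NormedAddCommGroup X] [NormedSpace ℂ X] : Type :=
  ℕ × X × (X →L[ℂ] ℂ) × (ℕ → (X →L[ℂ] ℂ))

/-- the cut before the block `n` -/
def t4_cut {X : Type} [NormedAddCommGroup X] [NormedSpace ℂ X] (s : ℕ → T4D X) : ℕ → ℕ
  | 0 => 0
  | n + 1 => (s n).1

/-- the first `n` steps are correct -/
structure T4Good (P : ℕ → (X →L[ℂ] X)) (T : X →L[ℂ] X) (ε : ℕ → ℝ) (d : ℕ → (X →L[ℂ] ℂ))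
    (n : ℕ) (s : ℕ → T4D X) : Prop where
  cut : ∀ i, i < n → t4_cut s i < t4_cut s (i + 1)
  blk : ∀ i, i < n → P (t4_cut s (i + 1)) (s i).2.1 = (s i).2.1
  blk0 : ∀ i, i < n → P (t4_cut s i) (s i).2.1 = 0
  unit : ∀ i, i < n → ‖(s i).2.1‖ = 1
  small : ∀ i, i < n → ‖T (s i).2.1‖ ≤ ε i
  bi : ∀ i, i < n → ∀ j, j < n → (s i).2.2.1 (T (s j).2.1) = if i = j then 1 else 0
  hn : ∀ i, i < n → ‖((s i).2.2.1).comp T‖ ≤ 3
  gz : ∀ i, i < n → ∀ k, k ≤ i → ∀ j, j < n → (s i).2.2.2 k (T (s j).2.1) = 0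
  gn : ∀ i, i < n → ∀ k, k ≤ i → ∀ f : X →L[ℂ] ℂ, (∀ j, j < i → f (s j).2.1 = 0) →
    ‖((s i).2.2.2 k).comp T - d k‖ ≤ ‖f - d k‖ + 1 / ((i : ℝ) + 1)

omit [CompleteSpace X] in
theorem t4_cut_congr {s t : ℕ → T4D X} {n : ℕ} (hst : ∀ i, i < n → s i = t i) :
    ∀ i, i ≤ n → t4_cut s i = t4_cut t i := by
  intro i hi
  cases i with
  | zero => rfl
  | succ i =>
    show (s i).1 = (t i).1
    rw [hst i (by omega)]

omit [CompleteSpace X] in
theorem T4Good.congr {P : ℕ → (X →L[ℂ] X)} {T : X →L[ℂ] X} {ε : ℕ → ℝ} {d : ℕ → (X →L[ℂ] ℂ)}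
    {n : ℕ} {s t : ℕ → T4D X} (hst : ∀ i, i < n → s i = t i) (h : T4Good P T ε d n s) :
    T4Good P T ε d n t where
  cut i hi := by
    rw [← t4_cut_congr hst i hi.le, ← t4_cut_congr hst (i + 1) hi]
    exact h.cut i hi
  blk i hi := by
    rw [← t4_cut_congr hst (i + 1) hi, ← hst i hi]
    exact h.blk i hi
  blk0 i hi := by
    rw [← t4_cut_congr hst i hi.le, ← hst i hi]
    exact h.blk0 i hi
  unit i hi := by
    rw [← hst i hi]
    exact h.unit i hi
  small i hi := by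
    rw [← hst i hi]
    exact h.small i hi
  bi i hi j hj := by
    rw [← hst i hi, ← hst j hj]
    exact h.bi i hi j hj
  hn i hi := by
    rw [← hst i hi]
    exact h.hn i hi
  gz i hi k hk j hj := by
    rw [← hst i hi, ← hst j hj]
    exact h.gz i hi k hk j hj
  gn i hi k hk f hf := by
    rw [← hst i hi]
    refine h.gn i hi k hk f fun j hj => ?_
    rw [hst j (hj.trans hi)]
    exact hf j hj

omit [CompleteSpace X] in
/-- extension by one step -/
theorem T4Good.ext {P : ℕ → (X →L[ℂ] X)} {T : X →L[ℂ] X} {ε : ℕ → ℝ} {d : ℕ → (X →L[ℂ] ℂ)}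
    {n : ℕ} {s t : ℕ → T4D X} (hst : ∀ i, i < n → s i = t i) (h : T4Good P T ε d n s)
    (h1 : t4_cut s n < (t n).1) (h2 : P (t n).1 (t n).2.1 = (t n).2.1)
    (h3 : P (t4_cut s n) (t n).2.1 = 0) (h4 : ‖(t n).2.1‖ = 1) (h5 : ‖T (t n).2.1‖ ≤ ε n)
    (h6 : ∀ i, i < n → (s i).2.2.1 (T (t n).2.1) = 0)
    (h7 : ∀ j, j < n → (t n).2.2.1 (T (s j).2.1) = 0)
    (h8 : (t n).2.2.1 (T (t n).2.1) = 1) (h9 : ‖((t n).2.2.1).comp T‖ ≤ 3)
    (h10 : ∀ i, i < n → ∀ k, k ≤ i → (s i).2.2.2 k (T (t n).2.1) = 0)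
    (h11 : ∀ k, k ≤ n → ∀ j, j < n → (t n).2.2.2 k (T (s j).2.1) = 0)
    (h12 : ∀ k, k ≤ n → (t n).2.2.2 k (T (t n).2.1) = 0)
    (h13 : ∀ k, k ≤ n → ∀ f : X →L[ℂ] ℂ, (∀ j, j < n → f (s j).2.1 = 0) →
      ‖((t n).2.2.2 k).comp T - d k‖ ≤ ‖f - d k‖ + 1 / ((n : ℝ) + 1)) :
    T4Good P T ε d (n + 1) t := by
  have ht : T4Good P T ε d n t := h.congr hst
  have hcn : t4_cut t n = t4_cut s n := (t4_cut_congr hst n le_rfl).symm
  have hcn1 : t4_cut t (n + 1) = (t n).1 := rfl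
  refine ⟨fun i hi => ?_, fun i hi => ?_, fun i hi => ?_, fun i hi => ?_, fun i hi => ?_,
    fun i hi j hj => ?_, fun i hi => ?_, fun i hi k hk j hj => ?_, fun i hi k hk f hf => ?_⟩
  · rcases Nat.lt_succ_iff_lt_or_eq.1 hi with hi' | rfl
    · exact ht.cut i hi'
    · rw [hcn, hcn1]
      exact h1
  · rcases Nat.lt_succ_iff_lt_or_eq.1 hi with hi' | rfl
    · exact ht.blk i hi'
    · rw [hcn1]
      exact h2
  · rcases Nat.lt_succ_iff_lt_or_eq.1 hi with hi' | rfl
    · exact ht.blk0 i hi'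
    · rw [hcn]
      exact h3
  · rcases Nat.lt_succ_iff_lt_or_eq.1 hi with hi' | rfl
    · exact ht.unit i hi'
    · exact h4
  · rcases Nat.lt_succ_iff_lt_or_eq.1 hi with hi' | rfl
    · exact ht.small i hi'
    · exact h5
  · rcases Nat.lt_succ_iff_lt_or_eq.1 hi with hi' | rfl
    · rcases Nat.lt_succ_iff_lt_or_eq.1 hj with hj' | rfl
      · exact ht.bi i hi' j hj'
      · rw [if_neg hi'.ne, ← hst i hi']
        exact h6 i hi'
    · rcases Nat.lt_succ_iff_lt_or_eq.1 hj with hj' | rfl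
      · rw [if_neg hj'.ne', ← hst j hj']
        exact h7 j hj'
      · rw [if_pos rfl]
        exact h8
  · rcases Nat.lt_succ_iff_lt_or_eq.1 hi with hi' | rfl
    · exact ht.hn i hi'
    · exact h9
  · rcases Nat.lt_succ_iff_lt_or_eq.1 hi with hi' | rfl
    · rcases Nat.lt_succ_iff_lt_or_eq.1 hj with hj' | rfl
      · exact ht.gz i hi' k hk j hj'
      · rw [← hst i hi']
        exact h10 i hi' k hk
    · rcases Nat.lt_succ_iff_lt_or_eq.1 hj with hj' | rfl
      · rw [← hst j hj']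
        exact h11 k hk j hj'
      · exact h12 k hk
  · rcases Nat.lt_succ_iff_lt_or_eq.1 hi with hi' | rfl
    · exact ht.gn i hi' k hk f hf
    · refine h13 k hk f fun j hj => ?_
      rw [hst j hj]
      exact hf j hj

omit [CompleteSpace X] in
/-- the cuts are monotone -/
theorem T4Good.mono {P : ℕ → (X →L[ℂ] X)} {T : X →L[ℂ] X} {ε : ℕ → ℝ} {d : ℕ → (X →L[ℂ] ℂ)}
    {n : ℕ} {s : ℕ → T4D X} (h : T4Good P T ε d n s) :
    ∀ j, j ≤ n → ∀ i, i ≤ j → t4_cut s i ≤ t4_cut s j := by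
  intro j
  induction j with
  | zero =>
    intro _ i hi
    rw [Nat.le_zero.1 hi]
  | succ j ih =>
    intro hj i hi
    rcases Nat.lt_or_ge i (j + 1) with h1 | h1
    · exact (ih (by omega) i (by omega)).trans (h.cut j (by omega)).le
    · rw [le_antisymm hi h1]

theorem t4 (h3 : T3) : T4 := by
  intro X _ _ _ p q P hp hpq hP hX hd T hinj hdT hu ε hε
  obtain ⟨d, hd⟩ := hd
  obtain ⟨s, hs⟩ := exists_seq_of_step ((0, 0, 0, fun _ => 0) : T4D X) (T4Good P T ε d)
    (fun s => ⟨fun i hi => absurd hi (Nat.not_lt_zero i), fun i hi => absurd hi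
      (Nat.not_lt_zero i), fun i hi => absurd hi (Nat.not_lt_zero i),
      fun i hi => absurd hi (Nat.not_lt_zero i), fun i hi => absurd hi (Nat.not_lt_zero i),
      fun i hi => absurd hi (Nat.not_lt_zero i), fun i hi => absurd hi (Nat.not_lt_zero i),
      fun i hi => absurd hi (Nat.not_lt_zero i), fun i hi => absurd hi (Nat.not_lt_zero i)⟩)
    (fun n s t hst h => h.congr hst)
    (by
      intro n s hs
      let y : ℕ → X := fun i => (s i).2.1
      let h : ℕ → (X →L[ℂ] ℂ) := fun i => (s i).2.2.1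
      -- the approximating functionals
      have hG : ∀ k, ∃ g : X →L[ℂ] ℂ, (∀ i, i < n → g (T (y i)) = 0) ∧
          ∀ f : X →L[ℂ] ℂ, (∀ i, i < n → f (y i) = 0) →
            ‖g.comp T - d k‖ ≤ ‖f - d k‖ + 1 / ((n : ℝ) + 1) := fun k =>
        t4_near hX hinj n y h hs.bi hs.unit hs.hn (d k) (1 / ((n : ℝ) + 1)) (by positivity)
      choose G hG1 hG2 using hG
      -- the vector
      let L : Finset (X →L[ℂ] ℂ) :=
        ((Finset.range n ×ˢ Finset.range n).image fun a => ((s a.1).2.2.2 a.2).comp T) ∪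
          ((Finset.range (n + 1)).image fun k => (G k).comp T) ∪
          ((Finset.range n).image fun j => (h j).comp T)
      obtain ⟨m', hm', z, hz1, hz2, hz3, hz4, hz5⟩ := h3 X p q P hp hpq hP T hinj hdT hu L
        (t4_cut s n) (ε n) (hε n)
      have hL1 : ∀ i, i < n → ∀ k, k ≤ i → (s i).2.2.2 k (T z) = 0 := by
        intro i hi k hk
        refine hz3 (((s i).2.2.2 k).comp T) ?_
        refine Finset.mem_union_left _ (Finset.mem_union_left _ (Finset.mem_image.2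
          ⟨(i, k), Finset.mem_product.2 ⟨Finset.mem_range.2 hi, Finset.mem_range.2 ?_⟩, rfl⟩))
        exact lt_of_le_of_lt hk hi
      have hL2 : ∀ k, k ≤ n → G k (T z) = 0 := by
        intro k hk
        refine hz3 ((G k).comp T) ?_
        exact Finset.mem_union_left _ (Finset.mem_union_right _ (Finset.mem_image.2
          ⟨k, Finset.mem_range.2 (by omega), rfl⟩))
      have hL3 : ∀ j, j < n → h j (T z) = 0 := by
        intro j hj
        refine hz3 ((h j).comp T) ?_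
        exact Finset.mem_union_right _ (Finset.mem_image.2 ⟨j, Finset.mem_range.2 hj, rfl⟩)
      -- the functional
      obtain ⟨φ, hφ1, hφ2⟩ := exists_dual_vector ℂ z (by rw [hz4]; exact one_ne_zero)
      let f0 : X →L[ℂ] ℂ := φ.comp (ContinuousLinearMap.id ℂ X - P (t4_cut s n))
      have hf0 : ∀ x, f0 x = φ (x - P (t4_cut s n) x) := fun x => rfl
      have hf0z : f0 z = 1 := by
        rw [hf0, hz2, sub_zero, hφ2, hz4]
        simp
      have hq0 : 0 < q := by linarith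
      have hf0n : ‖f0‖ ≤ 1 := by
        refine ContinuousLinearMap.opNorm_le_bound _ zero_le_one fun x => ?_
        rw [hf0, one_mul]
        have h1 : ‖x - P (t4_cut s n) x‖ ≤ ‖x‖ := by
          have h2 := hP.lower (t4_cut s n) x
          have h3 : 0 ≤ ‖P (t4_cut s n) x‖ ^ q := Real.rpow_nonneg (norm_nonneg _) _
          have h4 : ‖x - P (t4_cut s n) x‖ ^ q ≤ ‖x‖ ^ q := by linarith
          exact (Real.rpow_le_rpow_iff (norm_nonneg _) (norm_nonneg _) hq0).1 h4
        calc ‖φ (x - P (t4_cut s n) x)‖ ≤ ‖φ‖ * ‖x - P (t4_cut s n) x‖ := φ.le_opNorm _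
          _ = ‖x - P (t4_cut s n) x‖ := by rw [hφ1, one_mul]
          _ ≤ ‖x‖ := h1
      have hf0y : ∀ j, j < n → f0 (y j) = 0 := by
        intro j hj
        have h1 : P (t4_cut s n) (y j) = y j := by
          have h2 : P (t4_cut s (j + 1)) (y j) = y j := hs.blk j hj
          have h3 := hP.comp (t4_cut s n) (t4_cut s (j + 1)) (y j)
          rw [h2, min_eq_right (hs.mono n le_rfl (j + 1) hj), h2] at h3
          exact h3
        rw [hf0, h1, sub_self, map_zero]
      obtain ⟨g, hg1, hg2⟩ := t4_dens hX hinj n y h hs.bi hs.unit hs.hn f0 hf0y (1 / 3)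
        (by norm_num)
      have hgz : 2 / 3 ≤ ‖g (T z)‖ := by
        have h1 : ‖(g.comp T - f0) z‖ ≤ 1 / 3 := by
          calc ‖(g.comp T - f0) z‖ ≤ ‖g.comp T - f0‖ * ‖z‖ := ContinuousLinearMap.le_opNorm _ _
            _ = ‖g.comp T - f0‖ := by rw [hz4, mul_one]
            _ ≤ 1 / 3 := hg2.le
        have h2 : (g.comp T - f0) z = g (T z) - 1 := by
          rw [sub_apply, hf0z, ContinuousLinearMap.comp_apply]
        rw [h2] at h1
        have h4 := norm_sub_norm_le (1 : ℂ) (1 - g (T z))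
        have h5 : (1 : ℂ) - (1 - g (T z)) = g (T z) := by ring
        rw [h5, norm_one, norm_sub_rev] at h4
        linarith
      have hgz0 : g (T z) ≠ 0 := by
        intro h0
        rw [h0, norm_zero] at hgz
        norm_num at hgz
      have hgT : ‖g.comp T‖ ≤ 4 / 3 := by
        have h1 : g.comp T = (g.comp T - f0) + f0 := by abel
        rw [h1]
        exact (norm_add_le _ _).trans (by linarith)
      have hg3 : ‖((g (T z))⁻¹ • g).comp T‖ ≤ 3 := by
        have h1 : ((g (T z))⁻¹ • g).comp T = (g (T z))⁻¹ • (g.comp T) := by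
          ext x
          simp
        rw [h1, norm_smul, norm_inv, inv_mul_le_iff₀ (by linarith)]
        linarith
      refine ⟨(m', z, (g (T z))⁻¹ • g, G), ?_⟩
      refine hs.ext (t := Function.update s n (m', z, (g (T z))⁻¹ • g, G))
        (fun i hi => (Function.update_of_ne hi.ne _ _).symm) ?_ ?_ ?_ ?_ ?_ ?_ ?_ ?_ ?_ ?_ ?_ ?_ ?_
        <;> rw [Function.update_self]
      · exact hm'
      · exact hz1
      · exact hz2
      · exact hz4
      · exact hz5
      · exact hL3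
      · intro j hj
        show ((g (T z))⁻¹ • g) (T (s j).2.1) = 0
        rw [smul_apply, hg1 j hj, smul_zero]
      · show ((g (T z))⁻¹ • g) (T z) = 1
        rw [smul_apply, smul_eq_mul, inv_mul_cancel₀ hgz0]
      · exact hg3
      · exact hL1
      · exact fun k _ => hG1 k
      · exact hL2
      · exact fun k _ => hG2 k)
  refine ⟨t4_cut s, fun n => (s n).2.1, fun n => (s n).2.2.1, ?_⟩
  refine ⟨?_, ?_, ?_, ?_, ?_, ?_, ?_, ?_⟩
  · exact strictMono_nat_of_lt_succ fun n => (hs (n + 1)).cut n (Nat.lt_succ_self n)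
  · exact fun n => (hs (n + 1)).blk n (Nat.lt_succ_self n)
  · exact fun n => (hs (n + 1)).blk0 n (Nat.lt_succ_self n)
  · exact fun n => (hs (n + 1)).unit n (Nat.lt_succ_self n)
  · exact fun n => (hs (n + 1)).small n (Nat.lt_succ_self n)
  · intro i j
    exact (hs (max i j + 1)).bi i (by omega) j (by omega)
  · exact fun n => (hs (n + 1)).hn n (Nat.lt_succ_self n)
  · intro f hf η hη
    obtain ⟨k, hk⟩ := hd.exists_dist_lt f (show 0 < η / 3 by positivity)
    rw [dist_eq_norm] at hk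
    obtain ⟨N, hN⟩ := exists_nat_one_div_lt (show 0 < η / 3 by positivity)
    let n : ℕ := max N k
    have hn : 1 / ((n : ℝ) + 1) < η / 3 := by
      refine lt_of_le_of_lt ?_ hN
      have h1 : (N : ℝ) ≤ (n : ℝ) := by exact_mod_cast le_max_left N k
      exact one_div_le_one_div_of_le (by positivity) (by linarith)
    refine ⟨(s n).2.2.2 k, fun j => ?_, ?_⟩
    · exact (hs (max n j + 1)).gz n (by omega) k (le_max_right _ _) j (by omega)
    · have h1 := (hs (n + 1)).gn n (Nat.lt_succ_self n) k (le_max_right _ _) f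
        (fun j _ => hf j)
      have h2 : ((s n).2.2.2 k).comp T - f =
          (((s n).2.2.2 k).comp T - d k) - (f - d k) := by abel
      rw [h2]
      have h3 := norm_sub_le (((s n).2.2.2 k).comp T - d k) (f - d k)
      linarith

end t4

end Pool.Agent.H272.UU
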