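import Pool.Agent.H272.UU.Defs2
import Pool.Agent.H272.UU.T3

/-!
# T4': the choice of vectors and functionals in a space mapped into a space with projections
-/

set_option autoImplicit false

namespace Pool.Agent.H272.UU

open Filter Topology Pool.Agent.H272.IS
open scoped Classical

section t4p

variable {X V : Type} [NormedAddCommGroup X] [NormedSpace ℂ X] [CompleteSpace X]
  [NormedAddCommGroup V] [NormedSpace ℂ V]

/-- the sum of the bounds -/
theorem t4p_sum (n : ℕ) :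
    ∑ j ∈ Finset.range n, (4 : ℝ) ^ (j + 1) = ((4 : ℝ) ^ (n + 1) - 4) / 3 := by
  induction n with
  | zero => norm_num
  | succ n ih =>
    rw [Finset.sum_range_succ, ih]
    ring

/-- density in the annihilator of a finite biorthogonal system -/
theorem t4p_dens (hX : Function.Surjective (NormedSpace.inclusionInDoubleDual ℂ X))
    {T : X →L[ℂ] X} (hT : Function.Injective T) (n : ℕ) (y : ℕ → X) (h : ℕ → (X →L[ℂ] ℂ))
    (hbi : ∀ i, i < n → ∀ j, j < n → h i (T (y j)) = if i = j then 1 else 0)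
    (hy : ∀ i, i < n → ‖y i‖ = 1) (hh : ∀ i, i < n → ‖(h i).comp T‖ ≤ 4 ^ (i + 1))
    (f : X →L[ℂ] ℂ) (hf : ∀ i, i < n → f (y i) = 0) (η : ℝ) (hη : 0 < η) :
    ∃ g : X →L[ℂ] ℂ, (∀ i, i < n → g (T (y i)) = 0) ∧ ‖g.comp T - f‖ < η := by
  have hS0 : (0 : ℝ) ≤ ∑ i ∈ Finset.range n, (4 : ℝ) ^ (i + 1) :=
    Finset.sum_nonneg fun i _ => by positivity
  have hn0 : (0 : ℝ) < 1 + ∑ i ∈ Finset.range n, (4 : ℝ) ^ (i + 1) := by linarith
  obtain ⟨δ, hδ0, hδ⟩ : ∃ δ : ℝ, 0 < δ ∧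
      δ + ∑ i ∈ Finset.range n, δ * (4 : ℝ) ^ (i + 1) = η := by
    refine ⟨η / (1 + ∑ i ∈ Finset.range n, (4 : ℝ) ^ (i + 1)), div_pos hη hn0, ?_⟩
    rw [← Finset.mul_sum]
    have h1 : ∀ a b : ℝ, a + a * b = a * (1 + b) := fun a b => by ring
    rw [h1, div_mul_cancel₀ _ hn0.ne']
  obtain ⟨φ, hφ⟩ := dense_adjoint hX hT f δ hδ0
  have hc : ∀ i, i < n → ‖φ (T (y i))‖ ≤ δ := by
    intro i hi
    have h1 : φ (T (y i)) = (φ.comp T - f) (y i) := by
      rw [sub_apply, hf i hi, sub_zero, ContinuousLinearMap.comp_apply]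
    rw [h1]
    calc ‖(φ.comp T - f) (y i)‖ ≤ ‖φ.comp T - f‖ * ‖y i‖ := ContinuousLinearMap.le_opNorm _ _
      _ = ‖φ.comp T - f‖ := by rw [hy i hi, mul_one]
      _ ≤ δ := hφ.le
  refine ⟨φ - ∑ i ∈ Finset.range n, (φ (T (y i))) • h i, ?_, ?_⟩
  · intro j hj
    have h2 : (φ - ∑ i ∈ Finset.range n, (φ (T (y i))) • h i) (T (y j)) =
        φ (T (y j)) - ∑ i ∈ Finset.range n, (φ (T (y i))) * h i (T (y j)) := by
      simp
    rw [h2, Finset.sum_eq_single j]
    · rw [hbi j hj j hj, if_pos rfl, mul_one, sub_self]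
    · intro i hi hij
      rw [hbi i (Finset.mem_range.1 hi) j hj, if_neg hij, mul_zero]
    · intro hcon
      exact absurd (Finset.mem_range.2 hj) hcon
  · have hcomp : (φ - ∑ i ∈ Finset.range n, (φ (T (y i))) • h i).comp T - f =
        (φ.comp T - f) - ∑ i ∈ Finset.range n, (φ (T (y i))) • ((h i).comp T) := by
      ext x
      simp
      ring
    rw [hcomp]
    calc ‖(φ.comp T - f) - ∑ i ∈ Finset.range n, (φ (T (y i))) • ((h i).comp T)‖
        ≤ ‖φ.comp T - f‖ + ∑ i ∈ Finset.range n, ‖(φ (T (y i))) • ((h i).comp T)‖ :=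
          (norm_sub_le _ _).trans (by gcongr; exact norm_sum_le _ _)
      _ < δ + ∑ i ∈ Finset.range n, δ * (4 : ℝ) ^ (i + 1) := by
          refine add_lt_add_of_lt_of_le hφ (Finset.sum_le_sum fun i hi => ?_)
          rw [norm_smul]
          have hi' := Finset.mem_range.1 hi
          exact mul_le_mul (hc i hi') (hh i hi') (norm_nonneg _) hδ0.le
      _ = η := hδ

/-- near optimal functionals -/
theorem t4p_near (hX : Function.Surjective (NormedSpace.inclusionInDoubleDual ℂ X))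
    {T : X →L[ℂ] X} (hT : Function.Injective T) (n : ℕ) (y : ℕ → X) (h : ℕ → (X →L[ℂ] ℂ))
    (hbi : ∀ i, i < n → ∀ j, j < n → h i (T (y j)) = if i = j then 1 else 0)
    (hy : ∀ i, i < n → ‖y i‖ = 1) (hh : ∀ i, i < n → ‖(h i).comp T‖ ≤ 4 ^ (i + 1))
    (e : X →L[ℂ] ℂ) (η : ℝ) (hη : 0 < η) :
    ∃ g : X →L[ℂ] ℂ, (∀ i, i < n → g (T (y i)) = 0) ∧
      ∀ f : X →L[ℂ] ℂ, (∀ i, i < n → f (y i) = 0) → ‖g.comp T - e‖ ≤ ‖f - e‖ + η := by
  let S : Set ℝ := {r | ∃ f : X →L[ℂ] ℂ, (∀ i, i < n → f (y i) = 0) ∧ r = ‖f - e‖}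
  have hne : S.Nonempty := ⟨‖0 - e‖, 0, fun i _ => rfl, rfl⟩
  have hbd : BddBelow S := ⟨0, by
    rintro _ ⟨f, -, rfl⟩
    exact norm_nonneg _⟩
  obtain ⟨_, ⟨f0, hf0, rfl⟩, hlt⟩ := exists_lt_of_csInf_lt hne
    (lt_add_of_pos_right (sInf S) (half_pos hη))
  obtain ⟨g, hg1, hg2⟩ := t4p_dens hX hT n y h hbi hy hh f0 hf0 (η / 2) (half_pos hη)
  refine ⟨g, hg1, fun f hf => ?_⟩
  have h1 : sInf S ≤ ‖f - e‖ := csInf_le hbd ⟨f, hf, rfl⟩
  have h2 : ‖g.comp T - e‖ ≤ ‖g.comp T - f0‖ + ‖f0 - e‖ := by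
    have h3 : g.comp T - e = (g.comp T - f0) + (f0 - e) := by abel
    rw [h3]
    exact norm_add_le _ _
  linarith

/-- the data of a step: the next cut, the vector, its functional and the approximating
functionals -/
abbrev T4pD (X : Type) [NormedAddCommGroup X] [NormedSpace ℂ X] : Type :=
  ℕ × X × (X →L[ℂ] ℂ) × (ℕ → (X →L[ℂ] ℂ))

/-- the cut before the block `n` -/
def t4p_cut {X : Type} [NormedAddCommGroup X] [NormedSpace ℂ X] (s : ℕ → T4pD X) : ℕ → ℕ
  | 0 => 0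
  | n + 1 => (s n).1

/-- the first `n` steps are correct -/
structure T4pGood (P : ℕ → (V →L[ℂ] V)) (i₀ : X →L[ℂ] V) (T : X →L[ℂ] X) (ε : ℕ → ℝ)
    (d : ℕ → (X →L[ℂ] ℂ)) (n : ℕ) (s : ℕ → T4pD X) : Prop where
  cut : ∀ i, i < n → t4p_cut s i < t4p_cut s (i + 1)
  near : ∀ i, i < n → ‖P (t4p_cut s (i + 1)) (i₀ (s i).2.1) - i₀ (s i).2.1‖ ≤ ε i
  blk0 : ∀ i, i < n → P (t4p_cut s i) (i₀ (s i).2.1) = 0
  unit : ∀ i, i < n → ‖(s i).2.1‖ = 1
  small : ∀ i, i < n → ‖T (s i).2.1‖ ≤ ε i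
  bi : ∀ i, i < n → ∀ j, j < n → (s i).2.2.1 (T (s j).2.1) = if i = j then 1 else 0
  hn : ∀ i, i < n → ‖((s i).2.2.1).comp T‖ ≤ 4 ^ (i + 1)
  gz : ∀ i, i < n → ∀ k, k ≤ i → ∀ j, j < n → (s i).2.2.2 k (T (s j).2.1) = 0
  gn : ∀ i, i < n → ∀ k, k ≤ i → ∀ f : X →L[ℂ] ℂ, (∀ j, j < i → f (s j).2.1 = 0) →
    ‖((s i).2.2.2 k).comp T - d k‖ ≤ ‖f - d k‖ + 1 / ((i : ℝ) + 1)

omit [CompleteSpace X] in
theorem t4p_cut_congr {s t : ℕ → T4pD X} {n : ℕ} (hst : ∀ i, i < n → s i = t i) :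
    ∀ i, i ≤ n → t4p_cut s i = t4p_cut t i := by
  intro i hi
  cases i with
  | zero => rfl
  | succ i =>
    show (s i).1 = (t i).1
    rw [hst i (by omega)]

omit [CompleteSpace X] in
theorem T4pGood.congr {P : ℕ → (V →L[ℂ] V)} {i₀ : X →L[ℂ] V} {T : X →L[ℂ] X} {ε : ℕ → ℝ}
    {d : ℕ → (X →L[ℂ] ℂ)} {n : ℕ} {s t : ℕ → T4pD X} (hst : ∀ i, i < n → s i = t i)
    (h : T4pGood P i₀ T ε d n s) : T4pGood P i₀ T ε d n t where
  cut i hi := by
    rw [← t4p_cut_congr hst i hi.le, ← t4p_cut_congr hst (i + 1) hi]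
    exact h.cut i hi
  near i hi := by
    rw [← t4p_cut_congr hst (i + 1) hi, ← hst i hi]
    exact h.near i hi
  blk0 i hi := by
    rw [← t4p_cut_congr hst i hi.le, ← hst i hi]
    exact h.blk0 i hi
  unit i hi := by
    rw [← hst i hi]
    exact h.unit i hi
  small i hi := by
    rw [← hst i hi]
    exact h.small i hi
  bi i hi j hj := by
    rw [← hst i hi, ← hst j hj]
    exact h.bi i hi j hj
  hn i hi := by
    rw [← hst i hi]
    exact h.hn i hi
  gz i hi k hk j hj := by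
    rw [← hst i hi, ← hst j hj]
    exact h.gz i hi k hk j hj
  gn i hi k hk f hf := by
    rw [← hst i hi]
    refine h.gn i hi k hk f fun j hj => ?_
    rw [hst j (hj.trans hi)]
    exact hf j hj

omit [CompleteSpace X] in
/-- extension by one step -/
theorem T4pGood.ext {P : ℕ → (V →L[ℂ] V)} {i₀ : X →L[ℂ] V} {T : X →L[ℂ] X} {ε : ℕ → ℝ}
    {d : ℕ → (X →L[ℂ] ℂ)} {n : ℕ} {s t : ℕ → T4pD X} (hst : ∀ i, i < n → s i = t i)
    (h : T4pGood P i₀ T ε d n s)
    (h1 : t4p_cut s n < (t n).1) (h2 : ‖P (t n).1 (i₀ (t n).2.1) - i₀ (t n).2.1‖ ≤ ε n)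
    (h3 : P (t4p_cut s n) (i₀ (t n).2.1) = 0) (h4 : ‖(t n).2.1‖ = 1) (h5 : ‖T (t n).2.1‖ ≤ ε n)
    (h6 : ∀ i, i < n → (s i).2.2.1 (T (t n).2.1) = 0)
    (h7 : ∀ j, j < n → (t n).2.2.1 (T (s j).2.1) = 0)
    (h8 : (t n).2.2.1 (T (t n).2.1) = 1) (h9 : ‖((t n).2.2.1).comp T‖ ≤ 4 ^ (n + 1))
    (h10 : ∀ i, i < n → ∀ k, k ≤ i → (s i).2.2.2 k (T (t n).2.1) = 0)
    (h11 : ∀ k, k ≤ n → ∀ j, j < n → (t n).2.2.2 k (T (s j).2.1) = 0)
    (h12 : ∀ k, k ≤ n → (t n).2.2.2 k (T (t n).2.1) = 0)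
    (h13 : ∀ k, k ≤ n → ∀ f : X →L[ℂ] ℂ, (∀ j, j < n → f (s j).2.1 = 0) →
      ‖((t n).2.2.2 k).comp T - d k‖ ≤ ‖f - d k‖ + 1 / ((n : ℝ) + 1)) :
    T4pGood P i₀ T ε d (n + 1) t := by
  have ht : T4pGood P i₀ T ε d n t := h.congr hst
  have hcn : t4p_cut t n = t4p_cut s n := (t4p_cut_congr hst n le_rfl).symm
  have hcn1 : t4p_cut t (n + 1) = (t n).1 := rfl
  refine ⟨fun i hi => ?_, fun i hi => ?_, fun i hi => ?_, fun i hi => ?_, fun i hi => ?_,
    fun i hi j hj => ?_, fun i hi => ?_, fun i hi k hk j hj => ?_, fun i hi k hk f hf => ?_⟩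
  · rcases Nat.lt_succ_iff_lt_or_eq.1 hi with hi' | rfl
    · exact ht.cut i hi'
    · rw [hcn, hcn1]
      exact h1
  · rcases Nat.lt_succ_iff_lt_or_eq.1 hi with hi' | rfl
    · exact ht.near i hi'
    · rw [hcn1]
      exact h2
  · rcases Nat.lt_succ_iff_lt_or_eq.1 hi with hi' | rfl
    · exact ht.blk0 i hi'
    · rw [hcn]
      exact h3
  · rcases Nat.lt_succ_iff_lt_or_eq.1 hi with hi' | rfl
    · exact ht.unit i hi'
    · exact h4
  · rcases Nat.lt_succ_iff_lt_or_eq.1 hi with hi' | rfl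
    · exact ht.small i hi'
    · exact h5
  · rcases Nat.lt_succ_iff_lt_or_eq.1 hi with hi' | rfl
    · rcases Nat.lt_succ_iff_lt_or_eq.1 hj with hj' | rfl
      · exact ht.bi i hi' j hj'
      · rw [if_neg hi'.ne, ← hst i hi']
        exact h6 i hi'
    · rcases Nat.lt_succ_iff_lt_or_eq.1 hj with hj' | rfl
      · rw [if_neg hj'.ne', ← hst j hj']
        exact h7 j hj'
      · rw [if_pos rfl]
        exact h8
  · rcases Nat.lt_succ_iff_lt_or_eq.1 hi with hi' | rfl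
    · exact ht.hn i hi'
    · exact h9
  · rcases Nat.lt_succ_iff_lt_or_eq.1 hi with hi' | rfl
    · rcases Nat.lt_succ_iff_lt_or_eq.1 hj with hj' | rfl
      · exact ht.gz i hi' k hk j hj'
      · rw [← hst i hi']
        exact h10 i hi' k hk
    · rcases Nat.lt_succ_iff_lt_or_eq.1 hj with hj' | rfl
      · rw [← hst j hj']
        exact h11 k hk j hj'
      · exact h12 k hk
  · rcases Nat.lt_succ_iff_lt_or_eq.1 hi with hi' | rfl
    · exact ht.gn i hi' k hk f hf
    · refine h13 k hk f fun j hj => ?_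
      rw [hst j hj]
      exact hf j hj

/-- a unit vector which is annihilated by finitely many functionals and by a projection, and is
almost annihilated by `T` -/
theorem t4p_vec {P : V →L[ℂ] V} (hP : FiniteDimensional ℂ (LinearMap.range (P : V →ₗ[ℂ] V)))
    (i₀ : X →L[ℂ] V) {T : X →L[ℂ] X} (hinj : Function.Injective T) (hd : DenseRange T)
    (hu : ¬ IsUnit T) (L : Finset (X →L[ℂ] ℂ)) (ε : ℝ) (hε : 0 < ε) :
    ∃ x : X, P (i₀ x) = 0 ∧ (∀ l ∈ L, l x = 0) ∧ ‖x‖ = 1 ∧ ‖T x‖ ≤ ε := by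
  let S : X →L[ℂ] (V × (L → ℂ)) :=
    (P.comp i₀).prod (ContinuousLinearMap.pi fun l : L => (l : X →L[ℂ] ℂ))
  have hS : FiniteDimensional ℂ (LinearMap.range (S : X →ₗ[ℂ] (V × (L → ℂ)))) := by
    let W : Submodule ℂ (V × (L → ℂ)) :=
      (LinearMap.range (P : V →ₗ[ℂ] V)).prod (⊤ : Submodule ℂ (L → ℂ))
    have hW : FiniteDimensional ℂ W := by
      have h1 : (LinearMap.range (P : V →ₗ[ℂ] V)).FG := Module.Finite.iff_fg.1 hP
      have h2 : (⊤ : Submodule ℂ (L → ℂ)).FG := Module.Finite.fg_top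
      exact Module.Finite.iff_fg.2 (h1.prod h2)
    refine Submodule.finiteDimensional_of_le (S₂ := W) ?_
    rintro _ ⟨x, rfl⟩
    exact ⟨⟨i₀ x, rfl⟩, trivial⟩
  obtain ⟨x, hSx, hx1, hTx⟩ := T3_small S hS hinj hd hu ε hε
  refine ⟨x, congrArg Prod.fst hSx, fun l hlL => ?_, hx1, hTx⟩
  have h1 := congrArg Prod.snd hSx
  exact congrFun h1 ⟨l, hlL⟩

end t4p

theorem t4' : T4' := by
  intro X V _ _ _ _ _ P htend hfin i₀ hX hd T hinj hdT hu ε hε
  obtain ⟨d, hd⟩ := hd
  obtain ⟨s, hs⟩ := exists_seq_of_step ((0, 0, 0, fun _ => 0) : T4pD X) (T4pGood P i₀ T ε d)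
    (fun s => ⟨fun i hi => absurd hi (Nat.not_lt_zero i), fun i hi => absurd hi
      (Nat.not_lt_zero i), fun i hi => absurd hi (Nat.not_lt_zero i),
      fun i hi => absurd hi (Nat.not_lt_zero i), fun i hi => absurd hi (Nat.not_lt_zero i),
      fun i hi => absurd hi (Nat.not_lt_zero i), fun i hi => absurd hi (Nat.not_lt_zero i),
      fun i hi => absurd hi (Nat.not_lt_zero i), fun i hi => absurd hi (Nat.not_lt_zero i)⟩)
    (fun n s t hst h => h.congr hst)
    (by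
      intro n s hs
      let y : ℕ → X := fun i => (s i).2.1
      let h : ℕ → (X →L[ℂ] ℂ) := fun i => (s i).2.2.1
      -- the approximating functionals
      have hG : ∀ k, ∃ g : X →L[ℂ] ℂ, (∀ i, i < n → g (T (y i)) = 0) ∧
          ∀ f : X →L[ℂ] ℂ, (∀ i, i < n → f (y i) = 0) →
            ‖g.comp T - d k‖ ≤ ‖f - d k‖ + 1 / ((n : ℝ) + 1) := fun k =>
        t4p_near hX hinj n y h hs.bi hs.unit hs.hn (d k) (1 / ((n : ℝ) + 1)) (by positivity)
      choose G hG1 hG2 using hG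
      -- the vector
      let L : Finset (X →L[ℂ] ℂ) :=
        ((Finset.range n ×ˢ Finset.range n).image fun a => ((s a.1).2.2.2 a.2).comp T) ∪
          ((Finset.range (n + 1)).image fun k => (G k).comp T) ∪
          ((Finset.range n).image fun j => (h j).comp T)
      obtain ⟨z, hz2, hz3, hz4, hz5⟩ := t4p_vec (hfin (t4p_cut s n)) i₀ hinj hdT hu L (ε n) (hε n)
      have hL1 : ∀ i, i < n → ∀ k, k ≤ i → (s i).2.2.2 k (T z) = 0 := by
        intro i hi k hk
        refine hz3 (((s i).2.2.2 k).comp T) ?_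
        refine Finset.mem_union_left _ (Finset.mem_union_left _ (Finset.mem_image.2
          ⟨(i, k), Finset.mem_product.2 ⟨Finset.mem_range.2 hi, Finset.mem_range.2 ?_⟩, rfl⟩))
        exact lt_of_le_of_lt hk hi
      have hL2 : ∀ k, k ≤ n → G k (T z) = 0 := by
        intro k hk
        refine hz3 ((G k).comp T) ?_
        exact Finset.mem_union_left _ (Finset.mem_union_right _ (Finset.mem_image.2
          ⟨k, Finset.mem_range.2 (by omega), rfl⟩))
      have hL3 : ∀ j, j < n → h j (T z) = 0 := by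
        intro j hj
        refine hz3 ((h j).comp T) ?_
        exact Finset.mem_union_right _ (Finset.mem_image.2 ⟨j, Finset.mem_range.2 hj, rfl⟩)
      -- the cut
      obtain ⟨m', hm', hm2⟩ : ∃ m', t4p_cut s n < m' ∧ ‖P m' (i₀ z) - i₀ z‖ ≤ ε n := by
        have h1 : ∀ᶠ k in atTop, ‖P k (i₀ z) - i₀ z‖ < ε n := by
          have h2 : Tendsto (fun k => ‖P k (i₀ z) - i₀ z‖) atTop (𝓝 0) := by
            rw [← tendsto_iff_norm_sub_tendsto_zero]
            exact htend (i₀ z)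
          exact h2.eventually (gt_mem_nhds (hε n))
        obtain ⟨k, hk1, hk2⟩ := (h1.and (eventually_gt_atTop (t4p_cut s n))).exists
        exact ⟨k, hk2, hk1.le⟩
      -- the functional
      obtain ⟨φ, hφ1, hφ2⟩ := exists_dual_vector ℂ z (by rw [hz4]; exact one_ne_zero)
      have hφ2' : φ z = 1 := by
        rw [hφ2, hz4]
        simp
      let f0 : X →L[ℂ] ℂ := φ - ∑ j ∈ Finset.range n, (φ (y j)) • ((h j).comp T)
      have hf0 : ∀ x, f0 x = φ x - ∑ j ∈ Finset.range n, φ (y j) * h j (T x) := by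
        intro x
        simp [f0]
      have hf0z : f0 z = 1 := by
        rw [hf0, hφ2', Finset.sum_eq_zero, sub_zero]
        intro j hj
        rw [hL3 j (Finset.mem_range.1 hj), mul_zero]
      have hf0y : ∀ j, j < n → f0 (y j) = 0 := by
        intro j hj
        rw [hf0, Finset.sum_eq_single j]
        · have h1 : h j (T (y j)) = 1 := by
            have h2 : (s j).2.2.1 (T (s j).2.1) = if j = j then 1 else 0 := hs.bi j hj j hj
            rw [if_pos rfl] at h2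
            exact h2
          rw [h1, mul_one, sub_self]
        · intro i hi hij
          have h1 : h i (T (y j)) = 0 := by
            have h2 : (s i).2.2.1 (T (s j).2.1) = if i = j then 1 else 0 :=
              hs.bi i (Finset.mem_range.1 hi) j hj
            rw [if_neg hij] at h2
            exact h2
          rw [h1, mul_zero]
        · intro hcon
          exact absurd (Finset.mem_range.2 hj) hcon
      have hf0n : ‖f0‖ ≤ 1 + ((4 : ℝ) ^ (n + 1) - 4) / 3 := by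
        rw [← t4p_sum]
        calc ‖f0‖ ≤ ‖φ‖ + ∑ j ∈ Finset.range n, ‖(φ (y j)) • ((h j).comp T)‖ :=
              (norm_sub_le _ _).trans (by gcongr; exact norm_sum_le _ _)
          _ ≤ 1 + ∑ j ∈ Finset.range n, (4 : ℝ) ^ (j + 1) := by
              refine add_le_add hφ1.le (Finset.sum_le_sum fun j hj => ?_)
              have hj' := Finset.mem_range.1 hj
              rw [norm_smul]
              have h1 : ‖φ (y j)‖ ≤ 1 := by
                calc ‖φ (y j)‖ ≤ ‖φ‖ * ‖y j‖ := φ.le_opNorm _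
                  _ = 1 := by rw [hφ1, show ‖y j‖ = 1 from hs.unit j hj', mul_one]
              calc ‖φ (y j)‖ * ‖(h j).comp T‖ ≤ 1 * (4 : ℝ) ^ (j + 1) :=
                    mul_le_mul h1 (hs.hn j hj') (norm_nonneg _) zero_le_one
                _ = (4 : ℝ) ^ (j + 1) := one_mul _
      obtain ⟨g, hg1, hg2⟩ := t4p_dens hX hinj n y h hs.bi hs.unit hs.hn f0 hf0y (1 / 3)
        (by norm_num)
      have hgz : 2 / 3 ≤ ‖g (T z)‖ := by
        have h1 : ‖(g.comp T - f0) z‖ ≤ 1 / 3 := by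
          calc ‖(g.comp T - f0) z‖ ≤ ‖g.comp T - f0‖ * ‖z‖ := ContinuousLinearMap.le_opNorm _ _
            _ = ‖g.comp T - f0‖ := by rw [hz4, mul_one]
            _ ≤ 1 / 3 := hg2.le
        have h2 : (g.comp T - f0) z = g (T z) - 1 := by
          rw [sub_apply, hf0z, ContinuousLinearMap.comp_apply]
        rw [h2] at h1
        have h4 := norm_sub_norm_le (1 : ℂ) (1 - g (T z))
        have h5 : (1 : ℂ) - (1 - g (T z)) = g (T z) := by ring
        rw [h5, norm_one, norm_sub_rev] at h4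
        linarith
      have hgz0 : g (T z) ≠ 0 := by
        intro h0
        rw [h0, norm_zero] at hgz
        norm_num at hgz
      have h40 : (0 : ℝ) < (4 : ℝ) ^ (n + 1) := by positivity
      have hgT : ‖g.comp T‖ ≤ (4 : ℝ) ^ (n + 1) / 3 := by
        have h1 : g.comp T = (g.comp T - f0) + f0 := by abel
        rw [h1]
        exact (norm_add_le _ _).trans (by linarith)
      have hg3 : ‖((g (T z))⁻¹ • g).comp T‖ ≤ 4 ^ (n + 1) := by
        have h1 : ((g (T z))⁻¹ • g).comp T = (g (T z))⁻¹ • (g.comp T) := by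
          ext x
          simp
        rw [h1, norm_smul, norm_inv, inv_mul_le_iff₀ (by linarith)]
        nlinarith
      refine ⟨(m', z, (g (T z))⁻¹ • g, G), ?_⟩
      refine hs.ext (t := Function.update s n (m', z, (g (T z))⁻¹ • g, G))
        (fun i hi => (Function.update_of_ne hi.ne _ _).symm) ?_ ?_ ?_ ?_ ?_ ?_ ?_ ?_ ?_ ?_ ?_ ?_ ?_
        <;> rw [Function.update_self]
      · exact hm'
      · exact hm2
      · exact hz2
      · exact hz4
      · exact hz5
      · exact hL3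
      · intro j hj
        show ((g (T z))⁻¹ • g) (T (s j).2.1) = 0
        rw [smul_apply, hg1 j hj, smul_zero]
      · show ((g (T z))⁻¹ • g) (T z) = 1
        rw [smul_apply, smul_eq_mul, inv_mul_cancel₀ hgz0]
      · exact hg3
      · exact hL1
      · exact fun k _ => hG1 k
      · exact hL2
      · exact fun k _ => hG2 k)
  refine ⟨t4p_cut s, fun n => (s n).2.1, fun n => (s n).2.2.1, ?_⟩
  refine ⟨?_, ?_, ?_, ?_, ?_, ?_, ?_, ?_⟩
  · exact strictMono_nat_of_lt_succ fun n => (hs (n + 1)).cut n (Nat.lt_succ_self n)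
  · exact fun n => (hs (n + 1)).blk0 n (Nat.lt_succ_self n)
  · exact fun n => (hs (n + 1)).near n (Nat.lt_succ_self n)
  · exact fun n => (hs (n + 1)).unit n (Nat.lt_succ_self n)
  · exact fun n => (hs (n + 1)).small n (Nat.lt_succ_self n)
  · intro i j
    exact (hs (max i j + 1)).bi i (by omega) j (by omega)
  · exact fun n => (hs (n + 1)).hn n (Nat.lt_succ_self n)
  · intro f hf η hη
    obtain ⟨k, hk⟩ := hd.exists_dist_lt f (show 0 < η / 3 by positivity)
    rw [dist_eq_norm] at hk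
    obtain ⟨N, hN⟩ := exists_nat_one_div_lt (show 0 < η / 3 by positivity)
    let n : ℕ := max N k
    have hn : 1 / ((n : ℝ) + 1) < η / 3 := by
      refine lt_of_le_of_lt ?_ hN
      have h1 : (N : ℝ) ≤ (n : ℝ) := by exact_mod_cast le_max_left N k
      exact one_div_le_one_div_of_le (by positivity) (by linarith)
    refine ⟨(s n).2.2.2 k, fun j => ?_, ?_⟩
    · exact (hs (max n j + 1)).gz n (by omega) k (le_max_right _ _) j (by omega)
    · have h1 := (hs (n + 1)).gn n (Nat.lt_succ_self n) k (le_max_right _ _) f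
        (fun j _ => hf j)
      have h2 : ((s n).2.2.2 k).comp T - f =
          (((s n).2.2.2 k).comp T - d k) - (f - d k) := by abel
      rw [h2]
      have h3 := norm_sub_le (((s n).2.2.2 k).comp T - d k) (f - d k)
      linarith

end Pool.Agent.H272.UU
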