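import Pool.Agent.H272.UU.Defs

/-!
# UU: operators without invariant subspaces on `W × Z`, `W` a quotient of `X`
-/

set_option autoImplicit false

namespace Pool.Agent.H272.UU

open Filter Topology Pool.Agent.H272.IS
open scoped Classical

theorem t6 (h1b : T1b) (h1 : T1) (h4 : T4) (h5 : T5) : T6 := by
  intro X _ _ _ p q P hp hpq hP hX T hT a ha
  obtain ⟨c, hc⟩ := exists_sub_not_isUnit hX T
  have hN : NoInv (T - c • (1 : X →L[ℂ] X)) := hT.sub_smul_one c
  set T₀ : X →L[ℂ] X := T - c • (1 : X →L[ℂ] X) with hT₀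
  have hinj : Function.Injective T₀ := hN.injective hX
  have hd : DenseRange T₀ := hN.denseRange hX
  obtain ⟨hrefl, hdd⟩ := h1 X p q 1 P hp hpq (h1b X p q P hp hpq hP)
  set Nm : ℝ := ‖T₀‖ + 2 with hNm
  have hNm0 : 0 < Nm := by positivity
  set δ : ℕ → ℝ := fun n => min (a (2 * n) / (2 * 3 ^ n))
    (min (a (2 * n + 1) / Nm) ((1 / 2) ^ (n + 1) / (2 * 3 ^ n))) with hδ
  have h3 : ∀ n : ℕ, (0 : ℝ) < 2 * 3 ^ n := fun n => by positivity
  have hδ0 : ∀ n, 0 < δ n := fun n =>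
    lt_min (div_pos (ha _) (h3 n)) (lt_min (div_pos (ha _) hNm0) (div_pos (by positivity) (h3 n)))
  have hδ1 : ∀ n, 2 * 3 ^ n * δ n ≤ a (2 * n) := by
    intro n
    have h4 : δ n ≤ a (2 * n) / (2 * 3 ^ n) := min_le_left _ _
    rw [le_div_iff₀ (h3 n)] at h4
    linarith
  have hδ2 : ∀ n, δ n * Nm ≤ a (2 * n + 1) := by
    intro n
    have h4 : δ n ≤ a (2 * n + 1) / Nm := (min_le_right _ _).trans (min_le_left _ _)
    rwa [le_div_iff₀ hNm0] at h4
  have hδ3 : ∀ n, 2 * 3 ^ n * δ n ≤ (1 / 2) ^ (n + 1) := by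
    intro n
    have h4 : δ n ≤ (1 / 2) ^ (n + 1) / (2 * 3 ^ n) := (min_le_right _ _).trans (min_le_right _ _)
    rw [le_div_iff₀ (h3 n)] at h4
    linarith
  have hδ4 : ∀ n, δ n ≤ (1 / 2) ^ (n + 1) := by
    intro n
    refine le_trans ?_ (hδ3 n)
    have h3 : (1 : ℝ) ≤ 3 ^ n := one_le_pow₀ (by norm_num)
    nlinarith [hδ0 n]
  have hδ5 : ∀ n, δ n ≤ 1 := fun n =>
    (hδ4 n).trans (pow_le_one₀ (by norm_num) (by norm_num))
  -- the choice
  obtain ⟨m, y, h', hS⟩ := h4 X p q P hp hpq hP hrefl hdd T₀ hinj hd hc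
    (fun n => δ n * δ n / 3) (fun n => by have := hδ0 n; positivity)
  -- the scalars
  have hδc : ∀ n, ((δ n : ℝ) : ℂ) ≠ 0 := fun n => by exact_mod_cast (hδ0 n).ne'
  set g : ℕ → X := fun n => (3 / (δ n : ℂ)) • y n with hg0
  set h : ℕ → (X →L[ℂ] ℂ) := fun n => ((δ n : ℂ) / 3) • h' n with hh0
  have hgh : ∀ i j, h i (T₀ (g j)) = if i = j then 1 else 0 := by
    intro i j
    simp only [hg0, hh0, map_smul, smul_apply, smul_eq_mul, hS.bi]
    by_cases hij : i = j
    · subst hij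
      rw [if_pos rfl]
      have := hδc i
      field_simp
    · rw [if_neg hij]
      simp
  have hnd : ∀ n, ‖((δ n : ℝ) : ℂ)‖ = δ n := fun n => by
    rw [Complex.norm_real, Real.norm_of_nonneg (hδ0 n).le]
  have hg : ∀ n, ‖T₀ (g n)‖ ≤ δ n := by
    intro n
    have h6 : ‖T₀ (g n)‖ = 3 / δ n * ‖T₀ (y n)‖ := by
      rw [hg0]
      simp only [map_smul, norm_smul, norm_div, hnd]
      norm_num
    rw [h6]
    calc 3 / δ n * ‖T₀ (y n)‖ ≤ 3 / δ n * (δ n * δ n / 3) := by
          have := hδ0 n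
          gcongr
          exact hS.small n
      _ = δ n := by have := (hδ0 n).ne'; field_simp
  have hh : ∀ n, ‖(h n).comp T₀‖ ≤ δ n := by
    intro n
    have h6 : ‖(h n).comp T₀‖ = δ n / 3 * ‖(h' n).comp T₀‖ := by
      rw [hh0]
      simp only [ContinuousLinearMap.smul_comp, norm_smul, norm_div, hnd]
      norm_num
    rw [h6]
    calc δ n / 3 * ‖(h' n).comp T₀‖ ≤ δ n / 3 * 3 := by
          have := hδ0 n
          gcongr
          exact hS.hn n
      _ = δ n := by ring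
  have hpow : HasSum (fun n : ℕ => (1 / 2 : ℝ) ^ (n + 1)) 1 := by
    have h1 := hasSum_geometric_two.mul_left (1 / 2 : ℝ)
    have h2 : (1 / 2 : ℝ) * 2 = 1 := by norm_num
    rw [h2] at h1
    refine h1.congr_fun ?_ |> fun h => h
    intro n
    rw [pow_succ]; ring
  have hNb : ∀ n, ‖(h n).comp T₀‖ * ‖T₀ (g n)‖ ≤ (1 / 2) ^ (n + 1) := by
    intro n
    calc ‖(h n).comp T₀‖ * ‖T₀ (g n)‖ ≤ δ n * δ n :=
          mul_le_mul (hh n) (hg n) (norm_nonneg _) (hδ0 n).le
      _ ≤ δ n * 1 := by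
          have := hδ0 n
          have := hδ5 n
          gcongr
      _ ≤ (1 / 2) ^ (n + 1) := by rw [mul_one]; exact hδ4 n
  have hNs : Summable fun n => ‖(h n).comp T₀‖ * ‖T₀ (g n)‖ :=
    Summable.of_nonneg_of_le (fun n => by positivity) hNb hpow.summable
  set N₀ : X →L[ℂ] X := nuc (fun n => (h n).comp T₀) (fun n => T₀ (g n)) with hN₀
  have hN₀s : ∀ x, HasSum (fun n => h n (T₀ x) • T₀ (g n)) (N₀ x) :=
    fun x => nuc_hasSum hNs x
  have hN₀n : ‖N₀‖ ≤ 1 := norm_nuc_le hpow hNb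
  set T' : X →L[ℂ] X := T₀ - N₀ with hT'
  set M : Submodule ℂ X := LinearMap.ker (T' : X →ₗ[ℂ] X) with hM
  have hMc : IsClosed (M : Set X) := T'.isClosed_ker
  have hmem : ∀ x, x ∈ M ↔ T' x = 0 := fun x => Iff.rfl
  set π : X →L[ℂ] (X ⧸ M) := M.mkQL with hπ
  have hπs : Function.Surjective π := Submodule.Quotient.mk_surjective M
  have hπ0 : ∀ x, π x = 0 ↔ x ∈ M := fun x => Submodule.Quotient.mk_eq_zero M
  have hπn : ‖π‖ ≤ 1 := by
    refine ContinuousLinearMap.opNorm_le_bound _ zero_le_one (fun x => ?_)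
    rw [one_mul]
    exact Submodule.Quotient.norm_mk_le M x
  set A₁ : (X ⧸ M) →L[ℂ] X := M.liftQL T' le_rfl with hA₁
  have hA₁π : ∀ x, A₁ (π x) = T' x := fun x => rfl
  have hA₁inj : Function.Injective A₁ := by
    rw [injective_iff_map_eq_zero]
    intro w hw
    obtain ⟨x, rfl⟩ := hπs w
    rw [hA₁π] at hw
    exact (hπ0 x).2 hw
  have hA₁n : ‖A₁‖ ≤ ‖T₀‖ + 1 := by
    refine ContinuousLinearMap.opNorm_le_bound _ (by positivity) (fun w => ?_)
    refine le_of_forall_pos_le_add (fun ε hε => ?_)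
    obtain ⟨x, hx1, hx2⟩ := Submodule.Quotient.norm_mk_lt w
      (show 0 < ε / (‖T₀‖ + 1) by positivity)
    have hx3 : w = π x := hx1.symm
    calc ‖A₁ w‖ = ‖T' x‖ := by rw [hx3, hA₁π]
      _ ≤ ‖T'‖ * ‖x‖ := T'.le_opNorm x
      _ ≤ (‖T₀‖ + 1) * (‖w‖ + ε / (‖T₀‖ + 1)) := by
          gcongr
          calc ‖T'‖ ≤ ‖T₀‖ + ‖N₀‖ := norm_sub_le _ _
            _ ≤ ‖T₀‖ + 1 := by gcongr
      _ = (‖T₀‖ + 1) * ‖w‖ + ε := by field_simp
  have hA : ∀ x, HasSum (fun n => h n (T₀ x) • T₀ (g n)) (T₀ x - A₁ (π x)) := by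
    intro x
    have h5 : T₀ x - A₁ (π x) = N₀ x := by
      rw [hA₁π, hT']
      simp
    rw [h5]
    exact hN₀s x
  -- `M` is the closed span of the `y n`
  have hgM : ∀ n, g n ∈ M := by
    intro n
    rw [hmem, hT']
    have h6 : N₀ (g n) = T₀ (g n) := by
      have h2 : HasSum (fun m => h m (T₀ (g n)) • T₀ (g m)) (T₀ (g n)) := by
        have h3 := hasSum_ite_eq n (T₀ (g n))
        refine h3.congr_fun ?_ |> fun h => h
        intro m
        rw [hgh]
        by_cases hmn : m = n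
        · rw [if_pos hmn, if_pos hmn, one_smul, hmn]
        · rw [if_neg hmn, if_neg hmn, zero_smul]
      exact (hN₀s (g n)).unique h2
    change T₀ (g n) - N₀ (g n) = 0
    rw [h6, sub_self]
  have hyM : ∀ n, y n ∈ M := by
    intro n
    have h6 : y n = ((δ n : ℂ) / 3) • g n := by
      rw [hg0, smul_smul]
      have := hδc n
      have h7 : (δ n : ℂ) / 3 * (3 / (δ n : ℂ)) = 1 := by field_simp
      rw [h7, one_smul]
    rw [h6]
    exact M.smul_mem _ (hgM n)
  set S : Submodule ℂ X := (Submodule.span ℂ (Set.range y)).topologicalClosure with hSdef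
  have hSc : IsClosed (S : Set X) := Submodule.isClosed_topologicalClosure _
  have hyS : ∀ n, y n ∈ S := fun n =>
    Submodule.le_topologicalClosure _ (Submodule.subset_span ⟨n, rfl⟩)
  have hSM : S ≤ M := by
    refine Submodule.topologicalClosure_minimal _ ?_ hMc
    rw [Submodule.span_le]
    rintro _ ⟨n, rfl⟩
    exact hyM n
  have hMS : M ≤ S := by
    intro x hx
    by_contra hcon
    obtain ⟨f, hf1, hf2⟩ := exists_vanishing S hSc hcon
    have hx' : T₀ x = N₀ x := by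
      have := (hmem x).1 hx
      rw [hT'] at this
      exact sub_eq_zero.1 this
    have hfx : 0 < ‖f x‖ := norm_pos_iff.2 hf1
    have hxn : 0 < ‖x‖ + 1 := by positivity
    obtain ⟨u, hu1, hu2⟩ := hS.dens f (fun n => hf2 _ (hyS n)) (‖f x‖ / (‖x‖ + 1)) (by positivity)
    have h6 : u (T₀ x) = 0 := by
      rw [hx']
      have h7 := (hN₀s x).mapL u
      have h8 : (fun n => u (h n (T₀ x) • T₀ (g n))) = fun _ => 0 := by
        funext n
        rw [hg0]
        simp only [map_smul, hu1, smul_zero]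
      rw [h8] at h7
      exact h7.unique hasSum_zero
    have h9 : ‖f x‖ ≤ ‖u.comp T₀ - f‖ * ‖x‖ := by
      have h10 := (u.comp T₀ - f).le_opNorm x
      rw [sub_apply, ContinuousLinearMap.comp_apply, h6, zero_sub,
        norm_neg] at h10
      exact h10
    have h11 : ‖u.comp T₀ - f‖ * ‖x‖ ≤ ‖f x‖ / (‖x‖ + 1) * ‖x‖ :=
      mul_le_mul_of_nonneg_right hu2.le (norm_nonneg _)
    have h12 : ‖f x‖ / (‖x‖ + 1) * ‖x‖ < ‖f x‖ := by
      rw [div_mul_eq_mul_div, div_lt_iff₀ hxn]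
      nlinarith
    linarith
  have hPy : ∀ n j, P (m n) (y j) = if j < n then y j else 0 := by
    intro n j
    by_cases hjn : j < n
    · rw [if_pos hjn]
      have h6 : m (j + 1) ≤ m n := hS.mono.monotone hjn
      rw [← hS.blk j, hP.comp, min_eq_right h6]
    · rw [if_neg hjn]
      push Not at hjn
      have h6 : m n ≤ m j := hS.mono.monotone hjn
      have h7 : P (m n) (P (m j) (y j)) = P (m n) (y j) := by
        rw [hP.comp, min_eq_left h6]
      rw [← h7, hS.blk0, map_zero]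
  have hPM : ∀ n, ∀ x ∈ M, P (m n) x ∈ M := by
    intro n x hx
    have h6 : IsClosed {x : X | P (m n) x ∈ M} := hMc.preimage (P (m n)).continuous
    have h7 : ∀ x ∈ Submodule.span ℂ (Set.range y), P (m n) x ∈ M := by
      intro x hx
      induction hx using Submodule.span_induction with
      | mem x hx =>
        obtain ⟨j, rfl⟩ := hx
        rw [hPy]
        split_ifs
        · exact hyM j
        · exact M.zero_mem
      | zero => rw [map_zero]; exact M.zero_mem
      | add x y _ _ hx hy => rw [map_add]; exact M.add_mem hx hy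
      | smul c x _ hx => rw [map_smul]; exact M.smul_mem _ hx
    have h8 : closure (Submodule.span ℂ (Set.range y) : Set X) ⊆ {x : X | P (m n) x ∈ M} :=
      closure_minimal h7 h6
    have h9 : x ∈ closure (Submodule.span ℂ (Set.range y) : Set X) := by
      have := hMS hx
      rw [hSdef, ← SetLike.mem_coe, Submodule.topologicalClosure_coe] at this
      exact this
    exact h8 h9
  obtain ⟨P', hP'⟩ := h5 X p q P hp hpq hP M m hS.mono hPM
  refine ⟨X ⧸ M, inferInstance, inferInstance, inferInstance, P', hP', ?_⟩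
  intro Z _ _ _ _ hZ
  obtain ⟨z, z', e1, e2, e3, e4, e5⟩ := exists_mbasis hZ
  obtain ⟨K, hK, hK'⟩ := abstract_main hN π hπs hπn A₁ hA₁inj Nm (by rw [hNm]; linarith) a δ hδ1
    hδ2 hδ3 hδ0 g h hgh hg hh hA z z' e1 e2 e3 e4 e5
  exact ⟨_, K, hK, hK'⟩

end Pool.Agent.H272.UU
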