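import Pool.Agent.H272.UU.Defs4
import Pool.Agent.H272.UU.T6p
import Pool.Agent.H272.WC.Quasi

/-!
# UU: operators without invariant subspaces on `W × Z`, `W` a quotient of the reflexive space `X`,
`X` complemented in a space with a finite-dimensional decomposition
-/

set_option autoImplicit false

namespace Pool.Agent.H272.UU

open Filter Topology Pool.Agent.H272.IS
open scoped Classical

theorem t6f (h4 : T4') (h5 : T5f) (hsd : SD) : T6f := by
  intro X V _ _ _ _ _ _ P hP i r hri hX hrefl T hT a ha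
  obtain ⟨c, hc⟩ := exists_sub_not_isUnit hX T
  have hN : NoInv (T - c • (1 : X →L[ℂ] X)) := hT.sub_smul_one c
  set T₀ : X →L[ℂ] X := T - c • (1 : X →L[ℂ] X) with hT₀
  have hinj : Function.Injective T₀ := hN.injective hX
  have hd : DenseRange T₀ := hN.denseRange hX
  have hrs : Function.Surjective r := fun x => ⟨i x, hri x⟩
  have hsepX : TopologicalSpace.SeparableSpace X :=
    Pool.Agent.H272.WC.separable_of_noInv hT
  have hdd : ∃ d : ℕ → (X →L[ℂ] ℂ), DenseRange d := hsd X hrefl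
  set Nm : ℝ := ‖T₀‖ + 2 with hNm
  have hNm0 : 0 < Nm := by positivity
  set δ : ℕ → ℝ := fun n => min (a (2 * n) / (2 * 3 ^ n))
    (min (a (2 * n + 1) / Nm) ((1 / 2) ^ (n + 1) / (2 * 3 ^ n))) with hδ
  have h3 : ∀ n : ℕ, (0 : ℝ) < 2 * 3 ^ n := fun n => by positivity
  have hδ0 : ∀ n, 0 < δ n := fun n =>
    lt_min (div_pos (ha _) (h3 n)) (lt_min (div_pos (ha _) hNm0) (div_pos (by positivity) (h3 n)))
  have hδ1 : ∀ n, 2 * 3 ^ n * δ n ≤ a (2 * n) := by
    intro n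
    have h4 : δ n ≤ a (2 * n) / (2 * 3 ^ n) := min_le_left _ _
    rw [le_div_iff₀ (h3 n)] at h4
    linarith
  have hδ2 : ∀ n, δ n * Nm ≤ a (2 * n + 1) := by
    intro n
    have h4 : δ n ≤ a (2 * n + 1) / Nm := (min_le_right _ _).trans (min_le_left _ _)
    rwa [le_div_iff₀ hNm0] at h4
  have hδ3 : ∀ n, 2 * 3 ^ n * δ n ≤ (1 / 2) ^ (n + 1) := by
    intro n
    have h4 : δ n ≤ (1 / 2) ^ (n + 1) / (2 * 3 ^ n) := (min_le_right _ _).trans (min_le_right _ _)
    rw [le_div_iff₀ (h3 n)] at h4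
    linarith
  have hδ4 : ∀ n, δ n ≤ (1 / 2) ^ (n + 1) := by
    intro n
    refine le_trans ?_ (hδ3 n)
    have h3 : (1 : ℝ) ≤ 3 ^ n := one_le_pow₀ (by norm_num)
    nlinarith [hδ0 n]
  have hδ5 : ∀ n, δ n ≤ 1 := fun n =>
    (hδ4 n).trans (pow_le_one₀ (by norm_num) (by norm_num))
  -- the choice
  set κ : ℕ → ℝ := fun n => 4 ^ (n + 1) with hκ
  have hκ0 : ∀ n, 0 < κ n := fun n => by positivity
  set ε : ℕ → ℝ := fun n => min (δ n * δ n / κ n) ((1 / 2) ^ (n + 1) / (2 * κ n * (‖r‖ + 1)))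
    with hε
  have hε0 : ∀ n, 0 < ε n := fun n => by
    have := hδ0 n
    have := hκ0 n
    exact lt_min (by positivity) (by positivity)
  obtain ⟨m, y, h', hS⟩ := h4 X V P hP.tend hP.fin i hrefl hdd T₀ hinj hd hc ε hε0
  -- the scalars
  have hδc : ∀ n, ((δ n : ℝ) : ℂ) ≠ 0 := fun n => by exact_mod_cast (hδ0 n).ne'
  have hκc : ∀ n, ((κ n : ℝ) : ℂ) ≠ 0 := fun n => by exact_mod_cast (hκ0 n).ne'
  set g : ℕ → X := fun n => ((κ n : ℂ) / (δ n : ℂ)) • y n with hg0
  set h : ℕ → (X →L[ℂ] ℂ) := fun n => ((δ n : ℂ) / (κ n : ℂ)) • h' n with hh0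
  have hgh : ∀ i j, h i (T₀ (g j)) = if i = j then 1 else 0 := by
    intro i j
    simp only [hg0, hh0, map_smul, smul_apply, smul_eq_mul, hS.bi]
    by_cases hij : i = j
    · subst hij
      rw [if_pos rfl]
      have := hδc i
      have := hκc i
      field_simp
    · rw [if_neg hij]
      simp
  have hnd : ∀ n, ‖((δ n : ℝ) : ℂ)‖ = δ n := fun n => by
    rw [Complex.norm_real, Real.norm_of_nonneg (hδ0 n).le]
  have hnk : ∀ n, ‖((κ n : ℝ) : ℂ)‖ = κ n := fun n => by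
    rw [Complex.norm_real, Real.norm_of_nonneg (hκ0 n).le]
  have hg : ∀ n, ‖T₀ (g n)‖ ≤ δ n := by
    intro n
    have h6 : ‖T₀ (g n)‖ = κ n / δ n * ‖T₀ (y n)‖ := by
      rw [hg0]
      simp only [map_smul, norm_smul, norm_div, hnd, hnk]
    rw [h6]
    calc κ n / δ n * ‖T₀ (y n)‖ ≤ κ n / δ n * (δ n * δ n / κ n) := by
          have := hδ0 n
          have := hκ0 n
          gcongr
          exact (hS.small n).trans (min_le_left _ _)
      _ = δ n := by
          have := (hδ0 n).ne'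
          have := (hκ0 n).ne'
          field_simp
  have hh : ∀ n, ‖(h n).comp T₀‖ ≤ δ n := by
    intro n
    have h6 : ‖(h n).comp T₀‖ = δ n / κ n * ‖(h' n).comp T₀‖ := by
      rw [hh0]
      simp only [ContinuousLinearMap.smul_comp, norm_smul, norm_div, hnd, hnk]
    rw [h6]
    calc δ n / κ n * ‖(h' n).comp T₀‖ ≤ δ n / κ n * κ n := by
          have := hδ0 n
          have := hκ0 n
          gcongr
          exact hS.hn n
      _ = δ n := by
          have := (hκ0 n).ne'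
          field_simp
  have hpow : HasSum (fun n : ℕ => (1 / 2 : ℝ) ^ (n + 1)) 1 := by
    have h1 := hasSum_geometric_two.mul_left (1 / 2 : ℝ)
    have h2 : (1 / 2 : ℝ) * 2 = 1 := by norm_num
    rw [h2] at h1
    refine h1.congr_fun ?_ |> fun h => h
    intro n
    rw [pow_succ]; ring
  have hNb : ∀ n, ‖(h n).comp T₀‖ * ‖T₀ (g n)‖ ≤ (1 / 2) ^ (n + 1) := by
    intro n
    calc ‖(h n).comp T₀‖ * ‖T₀ (g n)‖ ≤ δ n * δ n :=
          mul_le_mul (hh n) (hg n) (norm_nonneg _) (hδ0 n).le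
      _ ≤ δ n * 1 := by
          have := hδ0 n
          have := hδ5 n
          gcongr
      _ ≤ (1 / 2) ^ (n + 1) := by rw [mul_one]; exact hδ4 n
  have hNs : Summable fun n => ‖(h n).comp T₀‖ * ‖T₀ (g n)‖ :=
    Summable.of_nonneg_of_le (fun n => by positivity) hNb hpow.summable
  set N₀ : X →L[ℂ] X := nuc (fun n => (h n).comp T₀) (fun n => T₀ (g n)) with hN₀
  have hN₀s : ∀ x, HasSum (fun n => h n (T₀ x) • T₀ (g n)) (N₀ x) :=
    fun x => nuc_hasSum hNs x
  have hN₀n : ‖N₀‖ ≤ 1 := norm_nuc_le hpow hNb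
  set T' : X →L[ℂ] X := T₀ - N₀ with hT'
  set M : Submodule ℂ X := LinearMap.ker (T' : X →ₗ[ℂ] X) with hM
  have hMc : IsClosed (M : Set X) := T'.isClosed_ker
  have hmem : ∀ x, x ∈ M ↔ T' x = 0 := fun x => Iff.rfl
  set π : X →L[ℂ] (X ⧸ M) := M.mkQL with hπ
  have hπs : Function.Surjective π := Submodule.Quotient.mk_surjective M
  have hπ0 : ∀ x, π x = 0 ↔ x ∈ M := fun x => Submodule.Quotient.mk_eq_zero M
  have hπn : ‖π‖ ≤ 1 := by
    refine ContinuousLinearMap.opNorm_le_bound _ zero_le_one (fun x => ?_)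
    rw [one_mul]
    exact Submodule.Quotient.norm_mk_le M x
  set A₁ : (X ⧸ M) →L[ℂ] X := M.liftQL T' le_rfl with hA₁
  have hA₁π : ∀ x, A₁ (π x) = T' x := fun x => rfl
  have hA₁inj : Function.Injective A₁ := by
    rw [injective_iff_map_eq_zero]
    intro w hw
    obtain ⟨x, rfl⟩ := hπs w
    rw [hA₁π] at hw
    exact (hπ0 x).2 hw
  have hA₁n : ‖A₁‖ ≤ ‖T₀‖ + 1 := by
    refine ContinuousLinearMap.opNorm_le_bound _ (by positivity) (fun w => ?_)
    refine le_of_forall_pos_le_add (fun ε hε => ?_)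
    obtain ⟨x, hx1, hx2⟩ := Submodule.Quotient.norm_mk_lt w
      (show 0 < ε / (‖T₀‖ + 1) by positivity)
    have hx3 : w = π x := hx1.symm
    calc ‖A₁ w‖ = ‖T' x‖ := by rw [hx3, hA₁π]
      _ ≤ ‖T'‖ * ‖x‖ := T'.le_opNorm x
      _ ≤ (‖T₀‖ + 1) * (‖w‖ + ε / (‖T₀‖ + 1)) := by
          gcongr
          calc ‖T'‖ ≤ ‖T₀‖ + ‖N₀‖ := norm_sub_le _ _
            _ ≤ ‖T₀‖ + 1 := by gcongr
      _ = (‖T₀‖ + 1) * ‖w‖ + ε := by field_simp
  have hA : ∀ x, HasSum (fun n => h n (T₀ x) • T₀ (g n)) (T₀ x - A₁ (π x)) := by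
    intro x
    have h5 : T₀ x - A₁ (π x) = N₀ x := by
      rw [hA₁π, hT']
      simp
    rw [h5]
    exact hN₀s x
  -- `M` is the closed span of the `y n`
  have hgM : ∀ n, g n ∈ M := by
    intro n
    rw [hmem, hT']
    have h6 : N₀ (g n) = T₀ (g n) := by
      have h2 : HasSum (fun m => h m (T₀ (g n)) • T₀ (g m)) (T₀ (g n)) := by
        have h3 := hasSum_ite_eq n (T₀ (g n))
        refine h3.congr_fun ?_ |> fun h => h
        intro m
        rw [hgh]
        by_cases hmn : m = n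
        · rw [if_pos hmn, if_pos hmn, one_smul, hmn]
        · rw [if_neg hmn, if_neg hmn, zero_smul]
      exact (hN₀s (g n)).unique h2
    change T₀ (g n) - N₀ (g n) = 0
    rw [h6, sub_self]
  have hyM : ∀ n, y n ∈ M := by
    intro n
    have h6 : y n = ((δ n : ℂ) / (κ n : ℂ)) • g n := by
      rw [hg0, smul_smul]
      have := hδc n
      have := hκc n
      have h7 : (δ n : ℂ) / (κ n : ℂ) * ((κ n : ℂ) / (δ n : ℂ)) = 1 := by field_simp
      rw [h7, one_smul]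
    rw [h6]
    exact M.smul_mem _ (hgM n)
  set S : Submodule ℂ X := (Submodule.span ℂ (Set.range y)).topologicalClosure with hSdef
  have hSc : IsClosed (S : Set X) := Submodule.isClosed_topologicalClosure _
  have hyS : ∀ n, y n ∈ S := fun n =>
    Submodule.le_topologicalClosure _ (Submodule.subset_span ⟨n, rfl⟩)
  have hSM : S ≤ M := by
    refine Submodule.topologicalClosure_minimal _ ?_ hMc
    rw [Submodule.span_le]
    rintro _ ⟨n, rfl⟩
    exact hyM n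
  have hMS : M ≤ S := by
    intro x hx
    by_contra hcon
    obtain ⟨f, hf1, hf2⟩ := exists_vanishing S hSc hcon
    have hx' : T₀ x = N₀ x := by
      have := (hmem x).1 hx
      rw [hT'] at this
      exact sub_eq_zero.1 this
    have hfx : 0 < ‖f x‖ := norm_pos_iff.2 hf1
    have hxn : 0 < ‖x‖ + 1 := by positivity
    obtain ⟨u, hu1, hu2⟩ := hS.dens f (fun n => hf2 _ (hyS n)) (‖f x‖ / (‖x‖ + 1)) (by positivity)
    have h6 : u (T₀ x) = 0 := by
      rw [hx']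
      have h7 := (hN₀s x).mapL u
      have h8 : (fun n => u (h n (T₀ x) • T₀ (g n))) = fun _ => 0 := by
        funext n
        rw [hg0]
        simp only [map_smul, hu1, smul_zero]
      rw [h8] at h7
      exact h7.unique hasSum_zero
    have h9 : ‖f x‖ ≤ ‖u.comp T₀ - f‖ * ‖x‖ := by
      have h10 := (u.comp T₀ - f).le_opNorm x
      rw [sub_apply, ContinuousLinearMap.comp_apply, h6, zero_sub,
        norm_neg] at h10
      exact h10
    have h11 : ‖u.comp T₀ - f‖ * ‖x‖ ≤ ‖f x‖ / (‖x‖ + 1) * ‖x‖ :=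
      mul_le_mul_of_nonneg_right hu2.le (norm_nonneg _)
    have h12 : ‖f x‖ / (‖x‖ + 1) * ‖x‖ < ‖f x‖ := by
      rw [div_mul_eq_mul_div, div_lt_iff₀ hxn]
      nlinarith
    linarith
  -- the small perturbation of the identity of `V` which maps `i (y n)` to a block
  set y' : ℕ → V := fun n => P (m (n + 1)) (i (y n)) with hy'
  have hφn : ∀ n, ‖((h' n).comp T₀).comp r‖ ≤ κ n * ‖r‖ := fun n =>
    (ContinuousLinearMap.opNorm_comp_le _ _).trans
      (mul_le_mul_of_nonneg_right (hS.hn n) (norm_nonneg _))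
  have hε2 : ∀ n, κ n * ‖r‖ * ε n ≤ (1 / 2) ^ (n + 1) / 2 := by
    intro n
    have e1 : ε n ≤ (1 / 2) ^ (n + 1) / (2 * κ n * (‖r‖ + 1)) := min_le_right _ _
    have hk := hκ0 n
    have hr0 := norm_nonneg r
    rw [le_div_iff₀ (by positivity)] at e1
    have e2 : κ n * ‖r‖ * ε n ≤ κ n * (‖r‖ + 1) * ε n := by
      have := hε0 n
      gcongr
      linarith
    nlinarith
  have hUb : ∀ n, ‖((h' n).comp T₀).comp r‖ * ‖y' n - i (y n)‖ ≤ (1 / 2) ^ (n + 1) / 2 := by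
    intro n
    have hk := hκ0 n
    calc ‖((h' n).comp T₀).comp r‖ * ‖y' n - i (y n)‖ ≤ κ n * ‖r‖ * ε n :=
          mul_le_mul (hφn n) (hS.near n) (norm_nonneg _) (by positivity)
      _ ≤ (1 / 2) ^ (n + 1) / 2 := hε2 n
  have hpow2 : HasSum (fun n : ℕ => (1 / 2 : ℝ) ^ (n + 1) / 2) (1 / 2) := hpow.div_const 2
  have hUs : Summable fun n => ‖((h' n).comp T₀).comp r‖ * ‖y' n - i (y n)‖ :=
    Summable.of_nonneg_of_le (fun n => by positivity) hUb hpow2.summable
  set N₁ : V →L[ℂ] V := nuc (fun n => ((h' n).comp T₀).comp r) (fun n => y' n - i (y n)) with hN₁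
  have hN₁s : ∀ x, HasSum (fun n => h' n (T₀ (r x)) • (y' n - i (y n))) (N₁ x) :=
    fun x => nuc_hasSum hUs x
  have hN₁n : ‖N₁‖ ≤ 1 / 2 := norm_nuc_le hpow2 hUb
  have hN₁y : ∀ n, N₁ (i (y n)) = y' n - i (y n) := by
    intro n
    have h2 : HasSum (fun k => h' k (T₀ (r (i (y n)))) • (y' k - i (y k))) (y' n - i (y n)) := by
      have h3 := hasSum_ite_eq n (y' n - i (y n))
      refine h3.congr_fun ?_ |> fun h => h
      intro k
      rw [hri, hS.bi]
      by_cases hkn : k = n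
      · rw [if_pos hkn, if_pos hkn, one_smul, hkn]
      · rw [if_neg hkn, if_neg hkn, zero_smul]
    exact (hN₁s _).unique h2
  have hlow : ∀ v, (1 / 2) * ‖v‖ ≤ ‖v + N₁ v‖ := by
    intro v
    have e1 : ‖v‖ ≤ ‖v + N₁ v‖ + ‖N₁ v‖ := by
      have := norm_sub_le (v + N₁ v) (N₁ v)
      rwa [add_sub_cancel_right] at this
    have e2 : ‖N₁ v‖ ≤ (1 / 2) * ‖v‖ :=
      (N₁.le_opNorm v).trans (mul_le_mul_of_nonneg_right hN₁n (norm_nonneg _))
    linarith
  obtain ⟨u, hu⟩ : IsUnit (1 + N₁) := by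
    have e1 : IsUnit (1 - (-N₁)) := isUnit_one_sub_of_norm_lt_one (by
      rw [norm_neg]
      linarith)
    rwa [sub_neg_eq_add] at e1
  set Q : V →L[ℂ] V := 1 + N₁ with hQ
  set Q' : V →L[ℂ] V := ((u⁻¹ : (V →L[ℂ] V)ˣ) : V →L[ℂ] V) with hQ'
  have hQQ' : ∀ v, Q (Q' v) = v := by
    intro v
    have e1 : Q * Q' = 1 := by rw [hQ', ← hu]; exact u.mul_inv
    exact congrArg (fun D : V →L[ℂ] V => D v) e1
  have hQ'Q : ∀ v, Q' (Q v) = v := by
    intro v
    have e1 : Q' * Q = 1 := by rw [hQ', ← hu]; exact u.inv_mul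
    exact congrArg (fun D : V →L[ℂ] V => D v) e1
  have hQv : ∀ v, Q v = v + N₁ v := fun v => rfl
  have hQn : ‖Q‖ ≤ 2 := by
    refine ContinuousLinearMap.opNorm_le_bound _ (by norm_num) (fun v => ?_)
    rw [hQv]
    calc ‖v + N₁ v‖ ≤ ‖v‖ + ‖N₁ v‖ := norm_add_le _ _
      _ ≤ ‖v‖ + (1 / 2) * ‖v‖ := by
          gcongr
          exact (N₁.le_opNorm v).trans (mul_le_mul_of_nonneg_right hN₁n (norm_nonneg _))
      _ ≤ 2 * ‖v‖ := by nlinarith [norm_nonneg v]
  have hQ'n : ‖Q'‖ ≤ 2 := by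
    refine ContinuousLinearMap.opNorm_le_bound _ (by norm_num) (fun v => ?_)
    have e1 := hlow (Q' v)
    rw [← hQv, hQQ'] at e1
    linarith
  set i₁ : X →L[ℂ] V := Q ∘L i with hi₁
  set r₁ : V →L[ℂ] X := r ∘L Q' with hr₁
  have hri₁ : ∀ x, r₁ (i₁ x) = x := by
    intro x
    change r (Q' (Q (i x))) = x
    rw [hQ'Q, hri]
  have hi₁n : ‖i₁‖ ≤ 2 * ‖i‖ := (ContinuousLinearMap.opNorm_comp_le _ _).trans
    (mul_le_mul_of_nonneg_right hQn (norm_nonneg _))
  have hr₁n : ‖r₁‖ ≤ 2 * ‖r‖ := by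
    refine (ContinuousLinearMap.opNorm_comp_le _ _).trans ?_
    rw [mul_comm 2]
    exact mul_le_mul_of_nonneg_left hQ'n (norm_nonneg _)
  have hi₁y : ∀ n, i₁ (y n) = y' n := by
    intro n
    change Q (i (y n)) = y' n
    rw [hQv, hN₁y]
    abel
  have hr₁y : ∀ n, r₁ (y' n) = y n := fun n => by rw [← hi₁y, hri₁]
  have hPy : ∀ n j, P (m n) (y' j) = if j < n then y' j else 0 := by
    intro n j
    by_cases hjn : j < n
    · rw [if_pos hjn]
      have h6 : m (j + 1) ≤ m n := hS.mono.monotone hjn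
      change P (m n) (P (m (j + 1)) (i (y j))) = P (m (j + 1)) (i (y j))
      rw [hP.comp, min_eq_right h6]
    · rw [if_neg hjn]
      push Not at hjn
      have h6 : m n ≤ m j := hS.mono.monotone hjn
      have h6' : m n ≤ m (j + 1) := h6.trans (hS.mono.monotone (Nat.le_succ j))
      have h7 : P (m n) (P (m j) (i (y j))) = P (m n) (y' j) := by
        change P (m n) (P (m j) (i (y j))) = P (m n) (P (m (j + 1)) (i (y j)))
        rw [hP.comp, hP.comp, min_eq_left h6, min_eq_left h6']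
      rw [← h7, hS.blk0, map_zero]
  set Y' : Submodule ℂ V := (Submodule.span ℂ (Set.range y')).topologicalClosure with hY'
  have hY'c : IsClosed (Y' : Set V) := Submodule.isClosed_topologicalClosure _
  have hyY' : ∀ n, y' n ∈ Y' := fun n =>
    Submodule.le_topologicalClosure _ (Submodule.subset_span ⟨n, rfl⟩)
  have hgen : ∀ (E : Type) [NormedAddCommGroup E] [NormedSpace ℂ E] (D : V →L[ℂ] E)
      (L : Submodule ℂ E), IsClosed (L : Set E) → (∀ n, D (y' n) ∈ L) → ∀ v ∈ Y', D v ∈ L := by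
    intro E _ _ D L hL hDL v hv
    have e1 : Submodule.span ℂ (Set.range y') ≤ L.comap (D : V →ₗ[ℂ] E) := by
      rw [Submodule.span_le]
      rintro _ ⟨n, rfl⟩
      exact hDL n
    have e2 : IsClosed ((L.comap (D : V →ₗ[ℂ] E) : Submodule ℂ V) : Set V) :=
      hL.preimage D.continuous
    exact Submodule.topologicalClosure_minimal _ e1 e2 hv
  have hPY : ∀ n, ∀ v ∈ Y', P (m n) v ∈ Y' := by
    intro n
    refine hgen V (P (m n)) Y' hY'c (fun j => ?_)
    rw [hPy]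
    split_ifs
    · exact hyY' j
    · exact Y'.zero_mem
  have hrY : ∀ v ∈ Y', r₁ v ∈ M := hgen X r₁ M hMc (fun n => by rw [hr₁y]; exact hyM n)
  have hiM : ∀ x ∈ M, i₁ x ∈ Y' := by
    intro x hx
    have e1 : Submodule.span ℂ (Set.range y) ≤ Y'.comap (i₁ : X →ₗ[ℂ] V) := by
      rw [Submodule.span_le]
      rintro _ ⟨n, rfl⟩
      change i₁ (y n) ∈ Y'
      rw [hi₁y]
      exact hyY' n
    have e2 : IsClosed ((Y'.comap (i₁ : X →ₗ[ℂ] V) : Submodule ℂ X) : Set X) :=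
      hY'c.preimage i₁.continuous
    exact Submodule.topologicalClosure_minimal _ e1 e2 (hMS hx)
  obtain ⟨P', hP'⟩ := h5 V P hP Y' m hS.mono hPY
  have hπ'n : ‖Y'.mkQL‖ ≤ 1 := by
    refine ContinuousLinearMap.opNorm_le_bound _ zero_le_one (fun x => ?_)
    rw [one_mul]
    exact Submodule.Quotient.norm_mk_le Y' x
  set j : (X ⧸ M) →L[ℂ] (V ⧸ Y') := M.liftQL (Y'.mkQL ∘L i₁) (fun x hx =>
    (Submodule.Quotient.mk_eq_zero Y').2 (hiM x hx)) with hj
  set s : (V ⧸ Y') →L[ℂ] (X ⧸ M) := Y'.liftQL (π ∘L r₁) (fun v hv =>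
    (Submodule.Quotient.mk_eq_zero M).2 (hrY v hv)) with hs
  refine ⟨X ⧸ M, inferInstance, inferInstance, inferInstance, V ⧸ Y', inferInstance,
    inferInstance, inferInstance, P', j, s, hP', ?_, ?_, ?_, refl_of_surjective π hπs hrefl, ?_⟩
  · intro w
    obtain ⟨x, rfl⟩ := hπs w
    change π (r₁ (i₁ x)) = π x
    rw [hri₁]
  · refine (t6p_norm_liftQL_le M _ _).trans ?_
    refine (ContinuousLinearMap.opNorm_comp_le _ _).trans ?_
    calc ‖Y'.mkQL‖ * ‖i₁‖ ≤ 1 * ‖i₁‖ := mul_le_mul_of_nonneg_right hπ'n (norm_nonneg _)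
      _ ≤ 2 * ‖i‖ := by rw [one_mul]; exact hi₁n
  · refine (t6p_norm_liftQL_le Y' _ _).trans ?_
    refine (ContinuousLinearMap.opNorm_comp_le _ _).trans ?_
    calc ‖π‖ * ‖r₁‖ ≤ 1 * ‖r₁‖ := mul_le_mul_of_nonneg_right hπn (norm_nonneg _)
      _ ≤ 2 * ‖r‖ := by rw [one_mul]; exact hr₁n
  intro Z _ _ _ _ hZ
  obtain ⟨z, z', e1, e2, e3, e4, e5⟩ := exists_mbasis hZ
  obtain ⟨K, hK, hK'⟩ := abstract_main hN π hπs hπn A₁ hA₁inj Nm (by rw [hNm]; linarith) a δ hδ1
    hδ2 hδ3 hδ0 g h hgh hg hh hA z z' e1 e2 e3 e4 e5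
  exact ⟨_, K, hK, hK'⟩

end Pool.Agent.H272.UU
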