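import Pool.Agent.H272.UU.Defs

set_option autoImplicit false

namespace Pool.Agent.H272.UU

open Filter Topology Pool.Agent.H272.IS

open scoped Classical

/-- superadditivity of the power -/
theorem ua1_pow {α : Type} (s : Finset α) (a : α → ℝ) (q : ℝ) (hq : 1 ≤ q)
    (ha : ∀ i ∈ s, 0 ≤ a i) : ∑ i ∈ s, a i ^ q ≤ (∑ i ∈ s, a i) ^ q := by
  induction s using Finset.induction_on with
  | empty =>
    rw [Finset.sum_empty, Finset.sum_empty, Real.zero_rpow (by linarith)]
  | insert i s hi ih =>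
    rw [Finset.sum_insert hi, Finset.sum_insert hi]
    have h1 := ih (fun j hj => ha j (Finset.mem_insert_of_mem hj))
    have h2 : 0 ≤ ∑ j ∈ s, a j :=
      Finset.sum_nonneg fun j hj => ha j (Finset.mem_insert_of_mem hj)
    have h3 := Real.add_rpow_le_rpow_add (ha i (Finset.mem_insert_self _ _)) h2 hq
    linarith

variable {p C : ℝ} {ι J : Type} [PartialOrder ι]

theorem ua1_res_add (D : TreeData p C ι J) (S : Set ι) (x y : J →₀ ℂ) :
    D.res S (x + y) = D.res S x + D.res S y := by
  unfold TreeData.res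
  exact Finsupp.filter_add

theorem ua1_res_smul (D : TreeData p C ι J) (S : Set ι) (c : ℂ) (x : J →₀ ℂ) :
    D.res S (c • x) = c • D.res S x := by
  unfold TreeData.res
  exact Finsupp.filter_smul

theorem ua1_res_zero (D : TreeData p C ι J) (S : Set ι) : D.res S (0 : J →₀ ℂ) = 0 := by
  unfold TreeData.res
  exact Finsupp.filter_zero _

/-- the value of a unit vector -/
theorem ua1_single (D : TreeData p C ι J) (t : ι) (j : J) (h : D.ν j ≤ t) :
    D.N t (Finsupp.single j 1) ≤ 2 * D.N (D.ν j) (Finsupp.single j 1) := by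
  apply D.mono (D.ν j) t h
  intro j' hj'
  have h1 : j' ∈ ({j} : Finset J) := Finsupp.support_single_subset hj'
  rw [Finset.mem_singleton.mp h1]

/-- bound of the seminorm of a restriction -/
theorem ua1_bound (D : TreeData p C ι J) (S : Set ι) (t : ι) (hS : ∀ s ∈ S, s ≤ t)
    (x : J →₀ ℂ) : D.N t (D.res S x) ≤
      ∑ j ∈ x.support.filter (fun j => D.ν j ∈ S),
        2 * (‖x j‖ * D.N (D.ν j) (Finsupp.single j 1)) := by
  have h1 : D.res S x = ∑ j ∈ x.support.filter (fun j => D.ν j ∈ S),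
      x j • Finsupp.single j (1 : ℂ) := by
    ext k
    unfold TreeData.res
    rw [Finsupp.finsetSum_apply, Finsupp.filter_apply]
    have h2 : ∀ j, (x j • Finsupp.single j (1 : ℂ)) k = if j = k then x j else 0 := by
      intro j
      rw [Finsupp.smul_apply, Finsupp.single_apply]
      split_ifs
      · simp
      · simp
    rw [Finset.sum_congr rfl fun j _ => h2 j, Finset.sum_ite_eq']
    by_cases hk : D.ν k ∈ S
    · rw [if_pos hk]
      by_cases hx : x k = 0
      · rw [hx]
        split_ifs <;> rfl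
      · rw [if_pos (Finset.mem_filter.mpr ⟨Finsupp.mem_support_iff.mpr hx, hk⟩)]
    · have h3 : k ∉ x.support.filter (fun j => D.ν j ∈ S) := fun h => hk (Finset.mem_filter.mp h).2
      rw [if_neg hk, if_neg h3]
  rw [h1]
  refine (Finset.le_sum_of_subadditive (D.N t) (le_of_eq (map_zero (D.N t)))
    (fun a b => map_add_le_add (D.N t) a b) _ _).trans ?_
  apply Finset.sum_le_sum
  intro j hj
  have hj2 : D.ν j ∈ S := (Finset.mem_filter.mp hj).2
  rw [map_smul_eq_mul]
  have h3 := mul_le_mul_of_nonneg_left (ua1_single D t j (hS _ hj2)) (norm_nonneg (x j))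
  calc ‖x j‖ * D.N t (Finsupp.single j 1) ≤ ‖x j‖ * (2 * D.N (D.ν j) (Finsupp.single j 1)) := h3
    _ = 2 * (‖x j‖ * D.N (D.ν j) (Finsupp.single j 1)) := by ring

theorem ua1_val_le (D : TreeData p C ι J) (q : ℝ) (hq : 1 ≤ q) (f : Fam ι) (x : J →₀ ℂ) :
    D.val q f x ≤ ∑ j ∈ x.support, 2 * (‖x j‖ * D.N (D.ν j) (Finsupp.single j 1)) := by
  have hq0 : 0 < q := by linarith
  have hb : ∀ j, 0 ≤ 2 * (‖x j‖ * D.N (D.ν j) (Finsupp.single j 1)) := fun j =>
    mul_nonneg (by norm_num) (mul_nonneg (norm_nonneg _) (apply_nonneg _ _))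
  have hB : 0 ≤ ∑ j ∈ x.support, 2 * (‖x j‖ * D.N (D.ν j) (Finsupp.single j 1)) :=
    Finset.sum_nonneg fun j _ => hb j
  have h1 : ∑ i, D.N (f.t i) (D.res (f.S i) x) ^ q ≤
      (∑ j ∈ x.support, 2 * (‖x j‖ * D.N (D.ν j) (Finsupp.single j 1))) ^ q := by
    calc ∑ i, D.N (f.t i) (D.res (f.S i) x) ^ q ≤
        ∑ i, (∑ j ∈ x.support.filter (fun j => D.ν j ∈ f.S i),
          2 * (‖x j‖ * D.N (D.ν j) (Finsupp.single j 1))) ^ q := by
          apply Finset.sum_le_sum
          intro i _
          exact Real.rpow_le_rpow (apply_nonneg _ _) (ua1_bound D (f.S i) (f.t i) (f.piece i).1 x)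
            hq0.le
      _ ≤ (∑ i, ∑ j ∈ x.support.filter (fun j => D.ν j ∈ f.S i),
          2 * (‖x j‖ * D.N (D.ν j) (Finsupp.single j 1))) ^ q :=
          ua1_pow _ _ q hq fun i _ => Finset.sum_nonneg fun j _ => hb j
      _ ≤ _ := by
          apply Real.rpow_le_rpow (Finset.sum_nonneg fun i _ => Finset.sum_nonneg fun j _ => hb j)
            _ hq0.le
          rw [← Finset.sum_biUnion]
          · apply Finset.sum_le_sum_of_subset_of_nonneg
            · intro j hj
              obtain ⟨i, _, hi⟩ := Finset.mem_biUnion.mp hj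
              exact (Finset.mem_filter.mp hi).1
            · intro j _ _
              exact hb j
          · intro i _ i' _ hii
            apply Finset.disjoint_left.mpr
            intro j hj hj'
            exact Set.disjoint_left.mp (f.disj i i' hii) (Finset.mem_filter.mp hj).2
              (Finset.mem_filter.mp hj').2
  unfold TreeData.val
  calc (∑ i, D.N (f.t i) (D.res (f.S i) x) ^ q) ^ (1 / q) ≤
      ((∑ j ∈ x.support, 2 * (‖x j‖ * D.N (D.ν j) (Finsupp.single j 1))) ^ q) ^ (1 / q) :=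
        Real.rpow_le_rpow (Finset.sum_nonneg fun i _ => Real.rpow_nonneg (apply_nonneg _ _) _) h1
          (by positivity)
    _ = _ := by
        rw [← Real.rpow_mul hB, mul_one_div_cancel hq0.ne', Real.rpow_one]

theorem ua1_val_zero (D : TreeData p C ι J) (q : ℝ) (hq : 1 ≤ q) (f : Fam ι) :
    D.val q f 0 = 0 := by
  have hq0 : 0 < q := by linarith
  unfold TreeData.val
  have h1 : ∀ i, D.N (f.t i) (D.res (f.S i) 0) ^ q = 0 := by
    intro i
    rw [ua1_res_zero, map_zero, Real.zero_rpow hq0.ne']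
  rw [Finset.sum_congr rfl fun i _ => h1 i, Finset.sum_const_zero, Real.zero_rpow]
  exact (one_div_pos.mpr hq0).ne'

theorem ua1_val_add (D : TreeData p C ι J) (q : ℝ) (hq : 1 ≤ q) (f : Fam ι) (x y : J →₀ ℂ) :
    D.val q f (x + y) ≤ D.val q f x + D.val q f y := by
  have hq0 : 0 < q := by linarith
  unfold TreeData.val
  refine le_trans ?_ (Real.Lp_add_le_of_nonneg (s := Finset.univ) hq
    (fun i _ => apply_nonneg _ _) (fun i _ => apply_nonneg _ _))
  apply Real.rpow_le_rpow (Finset.sum_nonneg fun i _ => Real.rpow_nonneg (apply_nonneg _ _) _) _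
    (one_div_pos.mpr hq0).le
  apply Finset.sum_le_sum
  intro i _
  apply Real.rpow_le_rpow (apply_nonneg _ _) _ hq0.le
  rw [ua1_res_add]
  exact map_add_le_add _ _ _

theorem ua1_val_smul (D : TreeData p C ι J) (q : ℝ) (hq : 1 ≤ q) (f : Fam ι) (c : ℂ)
    (x : J →₀ ℂ) : D.val q f (c • x) = ‖c‖ * D.val q f x := by
  have hq0 : 0 < q := by linarith
  unfold TreeData.val
  have h1 : ∀ i, D.N (f.t i) (D.res (f.S i) (c • x)) ^ q =
      ‖c‖ ^ q * D.N (f.t i) (D.res (f.S i) x) ^ q := by
    intro i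
    rw [ua1_res_smul, map_smul_eq_mul, Real.mul_rpow (norm_nonneg _) (apply_nonneg _ _)]
  rw [Finset.sum_congr rfl fun i _ => h1 i, ← Finset.mul_sum,
    Real.mul_rpow (Real.rpow_nonneg (norm_nonneg _) _)
      (Finset.sum_nonneg fun i _ => Real.rpow_nonneg (apply_nonneg _ _) _),
    ← Real.rpow_mul (norm_nonneg _), mul_one_div_cancel hq0.ne', Real.rpow_one]

/-- the empty family -/
def ua1_fam (ι : Type) [PartialOrder ι] : Fam ι where
  n := 0
  S := fun i => i.elim0
  t := fun i => i.elim0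
  piece := fun i => i.elim0
  disj := fun i => i.elim0

theorem ua1 : UA1 := by
  intro p C q ι J _ D hp hpq
  have hq : 1 ≤ q := by linarith
  have hbdd : ∀ x, BddAbove (Set.range fun f : Fam ι => D.val q f x) := by
    intro x
    refine ⟨∑ j ∈ x.support, 2 * (‖x j‖ * D.N (D.ν j) (Finsupp.single j 1)), ?_⟩
    rintro _ ⟨f, rfl⟩
    exact ua1_val_le D q hq f x
  have : Nonempty (Fam ι) := ⟨ua1_fam ι⟩
  refine ⟨hbdd, Seminorm.ofSMulLE (D.rho q) ?_ ?_ ?_, fun x => rfl⟩
  · unfold TreeData.rho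
    rw [iSup_congr fun f => ua1_val_zero D q hq f, ciSup_const]
  · intro x y
    unfold TreeData.rho
    apply ciSup_le
    intro f
    exact (ua1_val_add D q hq f x y).trans
      (add_le_add (le_ciSup (hbdd x) f) (le_ciSup (hbdd y) f))
  · intro c x
    unfold TreeData.rho
    apply ciSup_le
    intro f
    rw [ua1_val_smul D q hq f c x]
    exact mul_le_mul_of_nonneg_left (le_ciSup (hbdd x) f) (norm_nonneg c)

end Pool.Agent.H272.UU
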