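import Pool.Agent.H272.UU.Defs

/-!
# The lower `q`-estimate of the universal space
-/

set_option autoImplicit false

namespace Pool.Agent.H272.UU

open Filter Topology Pool.Agent.H272.IS
open scoped Classical

section

variable {p C : ℝ} {ι J : Type} [PartialOrder ι]

theorem ua2_sup {α : Type*} [Nonempty α] {q s : ℝ} (hq : 0 < q) (a : α → ℝ)
    (ha : ∀ i, 0 ≤ a i) (h : ∀ i, a i ^ q ≤ s) : (⨆ i, a i) ^ q ≤ s := by
  have hs : 0 ≤ s := (Real.rpow_nonneg (ha (Classical.arbitrary α)) q).trans (h _)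
  have h1 : (⨆ i, a i) ≤ s ^ (1 / q) := by
    apply ciSup_le
    intro i
    have h2 := Real.rpow_le_rpow (Real.rpow_nonneg (ha i) q) (h i) (one_div_pos.2 hq).le
    rwa [← Real.rpow_mul (ha i), mul_one_div_cancel hq.ne', Real.rpow_one] at h2
  have h2 := Real.rpow_le_rpow (Real.iSup_nonneg ha) h1 hq.le
  rwa [← Real.rpow_mul hs, one_div_mul_cancel hq.ne', Real.rpow_one] at h2

theorem ua2_sup2 {α β : Type*} [Nonempty α] [Nonempty β] {q r : ℝ} (hq : 0 < q) (a : α → ℝ)
    (b : β → ℝ) (ha : ∀ i, 0 ≤ a i) (hb : ∀ i, 0 ≤ b i) (h : ∀ i j, a i ^ q + b j ^ q ≤ r) :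
    (⨆ i, a i) ^ q + (⨆ j, b j) ^ q ≤ r := by
  have h1 : ∀ j, b j ^ q ≤ r - (⨆ i, a i) ^ q := by
    intro j
    have h2 := ua2_sup (s := r - b j ^ q) hq a ha (fun i => by linarith [h i j])
    linarith
  have h3 := ua2_sup hq b hb h1
  linarith

/-- the empty family -/
def ua2_empty (ι : Type) [PartialOrder ι] : Fam ι where
  n := 0
  S := fun i => i.elim0
  t := fun i => i.elim0
  piece := fun i => i.elim0
  disj := fun i => i.elim0

theorem ua2_nonempty (ι : Type) [PartialOrder ι] : Nonempty (Fam ι) := ⟨ua2_empty ι⟩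

theorem ua2_val_nonneg (D : TreeData p C ι J) (q : ℝ) (f : Fam ι) (x : J →₀ ℂ) :
    0 ≤ D.val q f x :=
  Real.rpow_nonneg (Finset.sum_nonneg fun _ _ => Real.rpow_nonneg (apply_nonneg _ _) _) _

theorem ua2_val_rpow (D : TreeData p C ι J) {q : ℝ} (hq : 0 < q) (f : Fam ι) (x : J →₀ ℂ) :
    D.val q f x ^ q = ∑ i, D.N (f.t i) (D.res (f.S i) x) ^ q := by
  unfold TreeData.val
  rw [← Real.rpow_mul
    (Finset.sum_nonneg fun _ _ => Real.rpow_nonneg (apply_nonneg _ _) _),
    one_div_mul_cancel hq.ne', Real.rpow_one]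

/-- the union of the traces of two families -/
def ua2_fam (S : Set ι) (hS : IsLowerSet S) (f g : Fam ι) : Fam ι where
  n := f.n + g.n
  S := Fin.append (fun i => f.S i ∩ S) (fun i => g.S i ∩ Sᶜ)
  t := Fin.append f.t g.t
  piece := by
    intro i
    refine Fin.addCases (fun i => ?_) (fun i => ?_) i
    · rw [Fin.append_left, Fin.append_left]
      refine ⟨fun s hs => (f.piece i).1 s hs.1, fun a b c ha hc hab hbc => ?_⟩
      exact ⟨(f.piece i).2 a b c ha.1 hc.1 hab hbc, hS hbc hc.2⟩
    · rw [Fin.append_right, Fin.append_right]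
      refine ⟨fun s hs => (g.piece i).1 s hs.1, fun a b c ha hc hab hbc => ?_⟩
      exact ⟨(g.piece i).2 a b c ha.1 hc.1 hab hbc, fun hb => ha.2 (hS hab hb)⟩
  disj := by
    intro i i'
    refine Fin.addCases (fun i => ?_) (fun i => ?_) i <;>
      refine Fin.addCases (fun i' => ?_) (fun i' => ?_) i'
    · intro hne
      rw [Fin.append_left, Fin.append_left]
      have h : i ≠ i' := fun h => hne (by rw [h])
      exact (f.disj i i' h).mono Set.inter_subset_left Set.inter_subset_left
    · intro _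
      rw [Fin.append_left, Fin.append_right]
      exact disjoint_compl_right.mono Set.inter_subset_right Set.inter_subset_right
    · intro _
      rw [Fin.append_left, Fin.append_right]
      exact disjoint_compl_left.mono Set.inter_subset_right Set.inter_subset_right
    · intro hne
      rw [Fin.append_right, Fin.append_right]
      have h : i ≠ i' := fun h => hne (by rw [h])
      exact (g.disj i i' h).mono Set.inter_subset_left Set.inter_subset_left

theorem ua2_res_inter (D : TreeData p C ι J) (T S : Set ι) (x : J →₀ ℂ) :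
    D.res (T ∩ S) x = D.res T (D.res S x) := by
  ext j
  unfold TreeData.res
  simp only [Finsupp.filter_apply, Set.mem_inter_iff]
  by_cases h1 : D.ν j ∈ T <;> by_cases h2 : D.ν j ∈ S <;> simp [h1, h2]

theorem ua2_res_compl (D : TreeData p C ι J) (T S : Set ι) (x : J →₀ ℂ) :
    D.res (T ∩ Sᶜ) x = D.res T (x - D.res S x) := by
  ext j
  unfold TreeData.res
  simp only [Finsupp.filter_apply, Set.mem_inter_iff, Finsupp.sub_apply, Set.mem_compl_iff]
  by_cases h1 : D.ν j ∈ T <;> by_cases h2 : D.ν j ∈ S <;> simp [h1, h2]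

theorem ua2_add (D : TreeData p C ι J) {q : ℝ} (hq : 0 < q) (S : Set ι) (hS : IsLowerSet S)
    (f g : Fam ι) (x : J →₀ ℂ) :
    D.val q f (D.res S x) ^ q + D.val q g (x - D.res S x) ^ q =
      D.val q (ua2_fam S hS f g) x ^ q := by
  rw [ua2_val_rpow D hq, ua2_val_rpow D hq, ua2_val_rpow D hq]
  show _ = ∑ i : Fin (f.n + g.n), D.N (Fin.append f.t g.t i)
    (D.res (Fin.append (fun i => f.S i ∩ S) (fun i => g.S i ∩ Sᶜ) i) x) ^ q
  rw [Fin.sum_univ_add]
  congr 1
  · refine Finset.sum_congr rfl fun i _ => ?_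
    rw [Fin.append_left, Fin.append_left, ua2_res_inter]
  · refine Finset.sum_congr rfl fun i _ => ?_
    rw [Fin.append_right, Fin.append_right, ua2_res_compl]

end

/-- UA2 -/
theorem ua2 : UA2 := by
  intro p C q ι J _ D hp hpq hb S hS x
  have hq : 0 < q := by linarith
  haveI := ua2_nonempty ι
  refine ua2_sup2 hq _ _ (fun f => ua2_val_nonneg D q f _) (fun f => ua2_val_nonneg D q f _) ?_
  intro f g
  rw [ua2_add D hq S hS f g x]
  exact Real.rpow_le_rpow (ua2_val_nonneg D q _ _) (le_ciSup (hb x) _) hq.le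

end Pool.Agent.H272.UU
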