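import Pool.Agent.H272.UU.Defs

set_option autoImplicit false

namespace Pool.Agent.H272.UU

open Filter Topology Pool.Agent.H272.IS
open scoped Classical

/-- the inequality of Minkowski for a finite sum of nonnegative vectors -/
theorem ua3_mink {r : ℝ} (hr : 1 ≤ r) {n : ℕ} (b : ℕ → Fin n → ℝ) (hb : ∀ j i, 0 ≤ b j i)
    (k : ℕ) : (∑ i, (∑ j ∈ Finset.range k, b j i) ^ r) ^ (1 / r) ≤
      ∑ j ∈ Finset.range k, (∑ i, b j i ^ r) ^ (1 / r) := by
  have hr0 : r ≠ 0 := by linarith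
  have hr1 : 1 / r ≠ 0 := one_div_ne_zero hr0
  induction k with
  | zero =>
    simp only [Finset.range_zero, Finset.sum_empty]
    rw [Real.zero_rpow hr0, Finset.sum_const_zero, Real.zero_rpow hr1]
  | succ k ih =>
    simp only [Finset.sum_range_succ]
    have h := Real.Lp_add_le_of_nonneg (s := Finset.univ) (p := r)
      (f := fun i => ∑ j ∈ Finset.range k, b j i) (g := fun i => b k i) hr
      (fun i _ => Finset.sum_nonneg fun j _ => hb j i) (fun i _ => hb k i)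
    calc (∑ i, (∑ j ∈ Finset.range k, b j i + b k i) ^ r) ^ (1 / r)
        ≤ (∑ i, (∑ j ∈ Finset.range k, b j i) ^ r) ^ (1 / r) + (∑ i, b k i ^ r) ^ (1 / r) := h
      _ ≤ ∑ j ∈ Finset.range k, (∑ i, b j i ^ r) ^ (1 / r) + (∑ i, b k i ^ r) ^ (1 / r) := by
        linarith

/-- the powers of the value of a family -/
theorem ua3_pow {p q : ℝ} (hp : 1 < p) (hpq : p ≤ q) {n : ℕ} (X : Fin n → ℝ)
    (hX : ∀ i, 0 ≤ X i) :
    ((∑ i, X i ^ q) ^ (1 / q)) ^ p = (∑ i, (X i ^ p) ^ (q / p)) ^ (1 / (q / p)) := by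
  have hp0 : p ≠ 0 := by linarith
  have hq0 : q ≠ 0 := by linarith
  have h1 : ∀ i, (X i ^ p) ^ (q / p) = X i ^ q := by
    intro i
    rw [← Real.rpow_mul (hX i)]
    congr 1
    field_simp
  simp only [h1]
  rw [← Real.rpow_mul (Finset.sum_nonneg fun i _ => Real.rpow_nonneg (hX i) _)]
  congr 1
  field_simp

/-- restriction is additive -/
theorem ua3_res_sum {p C : ℝ} {ι J : Type} [PartialOrder ι] (D : TreeData p C ι J) (S : Set ι)
    (k : ℕ) (v : ℕ → (J →₀ ℂ)) :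
    D.res S (∑ i ∈ Finset.range k, v i) = ∑ i ∈ Finset.range k, D.res S (v i) := by
  unfold TreeData.res
  induction k with
  | zero => simp [Finsupp.filter_zero]
  | succ k ih => rw [Finset.sum_range_succ, Finset.sum_range_succ, Finsupp.filter_add, ih]

theorem ua3_val_nonneg {p C : ℝ} {ι J : Type} [PartialOrder ι] (D : TreeData p C ι J) (q : ℝ)
    (f : Fam ι) (x : J →₀ ℂ) : 0 ≤ D.val q f x :=
  Real.rpow_nonneg (Finset.sum_nonneg fun _ _ => Real.rpow_nonneg (apply_nonneg _ _) _) _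

theorem ua3_val {p C q : ℝ} {ι J : Type} [PartialOrder ι] (D : TreeData p C ι J)
    (hp : 1 < p) (hpq : p ≤ q) (hC : 0 ≤ C) (B : ℕ → Set ι) (hB : Monotone B)
    (hBl : ∀ n, IsLowerSet (B n)) (k : ℕ) (v : ℕ → (J →₀ ℂ))
    (hv : ∀ i, ∀ j ∈ (v i).support, D.ν j ∈ B (i + 1) ∧ D.ν j ∉ B i) (f : Fam ι) :
    D.val q f (∑ i ∈ Finset.range k, v i) ^ p ≤
      C * ∑ i ∈ Finset.range k, D.val q f (v i) ^ p := by
  have hp0 : 0 < p := by linarith
  have hr : 1 ≤ q / p := by rw [le_div_iff₀ hp0]; linarith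
  have hr0 : q / p ≠ 0 := by linarith
  have key : ∀ x, D.val q f x ^ p =
      (∑ i, (D.N (f.t i) (D.res (f.S i) x) ^ p) ^ (q / p)) ^ (1 / (q / p)) := fun x =>
    ua3_pow hp hpq (fun i => D.N (f.t i) (D.res (f.S i) x)) fun i => apply_nonneg _ _
  have h1 : ∀ i, D.N (f.t i) (D.res (f.S i) (∑ i ∈ Finset.range k, v i)) ^ p ≤
      ∑ j ∈ Finset.range k, C * D.N (f.t i) (D.res (f.S i) (v j)) ^ p := by
    intro i
    rw [ua3_res_sum, ← Finset.mul_sum]
    refine D.upper (f.t i) B hB hBl k (fun j => D.res (f.S i) (v j)) ?_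
    intro a j hj
    refine hv a j ?_
    unfold TreeData.res at hj
    rw [Finsupp.support_filter, Finset.mem_filter] at hj
    exact hj.1
  rw [key]
  have h2 : (∑ i, (D.N (f.t i) (D.res (f.S i) (∑ i ∈ Finset.range k, v i)) ^ p) ^ (q / p)) ^
      (1 / (q / p)) ≤
      (∑ i, (∑ j ∈ Finset.range k, C * D.N (f.t i) (D.res (f.S i) (v j)) ^ p) ^ (q / p)) ^
        (1 / (q / p)) := by
    refine Real.rpow_le_rpow (Finset.sum_nonneg fun i _ => Real.rpow_nonneg
      (Real.rpow_nonneg (apply_nonneg _ _) _) _) ?_ (by positivity)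
    refine Finset.sum_le_sum fun i _ => ?_
    exact Real.rpow_le_rpow (Real.rpow_nonneg (apply_nonneg _ _) _) (h1 i) (by linarith)
  refine h2.trans ?_
  refine (ua3_mink hr (fun j i => C * D.N (f.t i) (D.res (f.S i) (v j)) ^ p)
    (fun j i => mul_nonneg hC (Real.rpow_nonneg (apply_nonneg _ _) _)) k).trans ?_
  rw [Finset.mul_sum]
  refine Finset.sum_le_sum fun j _ => ?_
  rw [key]
  have h3 : ∀ i, (C * D.N (f.t i) (D.res (f.S i) (v j)) ^ p) ^ (q / p) =
      C ^ (q / p) * (D.N (f.t i) (D.res (f.S i) (v j)) ^ p) ^ (q / p) := fun i =>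
    Real.mul_rpow hC (Real.rpow_nonneg (apply_nonneg _ _) _)
  simp only [h3]
  rw [← Finset.mul_sum, Real.mul_rpow (Real.rpow_nonneg hC _) (Finset.sum_nonneg fun i _ =>
    Real.rpow_nonneg (Real.rpow_nonneg (apply_nonneg _ _) _) _), ← Real.rpow_mul hC,
    mul_one_div_cancel hr0, Real.rpow_one]

/-- UA3: upper `p`-estimate -/
theorem ua3 : UA3 := by
  intro p C q ι J _ D hp hpq hC hbdd B hB hBl k v hv
  have hp0 : 0 < p := by linarith
  have hrho : ∀ x, 0 ≤ D.rho q x := fun x =>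
    Real.iSup_nonneg fun f => ua3_val_nonneg D q f x
  have hle : ∀ f x, D.val q f x ≤ D.rho q x := fun f x => le_ciSup (hbdd x) f
  have hR : 0 ≤ C * ∑ i ∈ Finset.range k, D.rho q (v i) ^ p :=
    mul_nonneg hC (Finset.sum_nonneg fun i _ => Real.rpow_nonneg (hrho _) _)
  have h1 : ∀ f, D.val q f (∑ i ∈ Finset.range k, v i) ≤
      (C * ∑ i ∈ Finset.range k, D.rho q (v i) ^ p) ^ (1 / p) := by
    intro f
    have h2 := ua3_val D hp hpq hC B hB hBl k v hv f
    have h3 : D.val q f (∑ i ∈ Finset.range k, v i) ^ p ≤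
        C * ∑ i ∈ Finset.range k, D.rho q (v i) ^ p := by
      refine h2.trans (mul_le_mul_of_nonneg_left (Finset.sum_le_sum fun i _ => ?_) hC)
      exact Real.rpow_le_rpow (ua3_val_nonneg D q f _) (hle f _) hp0.le
    have h4 := Real.rpow_le_rpow (Real.rpow_nonneg (ua3_val_nonneg D q f _) _) h3
      (by positivity : (0:ℝ) ≤ 1 / p)
    rw [← Real.rpow_mul (ua3_val_nonneg D q f _), mul_one_div_cancel hp0.ne',
      Real.rpow_one] at h4
    exact h4
  have : Nonempty (Fam ι) :=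
    ⟨{ n := 0, S := fun i => i.elim0, t := fun i => i.elim0, piece := fun i => i.elim0,
       disj := fun i => i.elim0 }⟩
  have h5 : D.rho q (∑ i ∈ Finset.range k, v i) ≤
      (C * ∑ i ∈ Finset.range k, D.rho q (v i) ^ p) ^ (1 / p) := ciSup_le h1
  have h6 := Real.rpow_le_rpow (hrho _) h5 hp0.le
  rw [← Real.rpow_mul hR, one_div_mul_cancel hp0.ne', Real.rpow_one] at h6
  exact h6

end Pool.Agent.H272.UU
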