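import Pool.Agent.H272.UU.Defs

/-!
# UB: the completion of the universal tree space and its decomposition (helper127 for helper272)
-/

set_option autoImplicit false

namespace Pool.Agent.H272.UU

open Filter Topology Pool.Agent.H272.IS
open scoped Classical

/-! ## UB1 -/

lemma ub1_sep (V : Type) [SeminormedAddCommGroup V] [NormedSpace ℂ V]
    (h : ∃ s : Set V, s.Countable ∧ Submodule.span ℂ s = ⊤) :
    TopologicalSpace.SeparableSpace V := by
  obtain ⟨s, hs, hs1⟩ := h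
  rw [← TopologicalSpace.isSeparable_univ_iff]
  have h1 := (hs.isSeparable).span (R := ℂ)
  rw [hs1] at h1
  exact h1

lemma ub1_compl (V : Type) [AddCommGroup V] [Module ℂ V] (r : Seminorm ℂ V)
    (h : ∃ s : Set V, s.Countable ∧ Submodule.span ℂ s = ⊤) :
    ∃ (U : Type) (_ : NormedAddCommGroup U) (_ : NormedSpace ℂ U) (_ : CompleteSpace U)
      (_ : TopologicalSpace.SeparableSpace U) (e : V →ₗ[ℂ] U), DenseRange e ∧
        ∀ x, ‖e x‖ = r x := by
  let : SeminormedAddCommGroup V := AddGroupSeminorm.toSeminormedAddCommGroup r.toAddGroupSeminorm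
  let : NormedSpace ℂ V := ⟨fun a x => (map_smul_eq_mul r a x).le⟩
  have : TopologicalSpace.SeparableSpace V := ub1_sep V h
  refine ⟨UniformSpace.Completion V, inferInstance, inferInstance, inferInstance, inferInstance,
    (UniformSpace.Completion.toComplₗᵢ (𝕜 := ℂ) (E := V)).toLinearMap, ?_, ?_⟩
  · exact UniformSpace.Completion.denseRange_coe
  · intro x
    exact UniformSpace.Completion.norm_coe x

lemma ub1_span (J : Type) [Countable J] :
    ∃ s : Set (J →₀ ℂ), s.Countable ∧ Submodule.span ℂ s = ⊤ :=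
  ⟨Set.range (Finsupp.basisSingleOne : Module.Basis J ℂ (J →₀ ℂ)), Set.countable_range _,
    Module.Basis.span_eq _⟩

/-- UB1 -/
theorem ub1 (h1 : UA1) : UB1 := by
  intro p C q ι J _ _ D hp hpq
  obtain ⟨-, r, hr⟩ := h1 p C q ι J D hp hpq
  obtain ⟨U, i1, i2, i3, i4, e, he, hn⟩ := ub1_compl (J →₀ ℂ) r (ub1_span J)
  exact ⟨U, i1, i2, i3, i4, e, he, fun x => (hn x).trans (hr x)⟩

/-! ## UB2 -/

/-- extension of a linear map -/
lemma ub2_ext {V U : Type} [AddCommGroup V] [Module ℂ V] [NormedAddCommGroup U] [NormedSpace ℂ U]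
    [CompleteSpace U] (e : V →ₗ[ℂ] U) (he : DenseRange e) (A : V →ₗ[ℂ] V)
    (hA : ∀ x, ‖e (A x)‖ ≤ ‖e x‖) :
    ∃ P : U →L[ℂ] U, (∀ x, P (e x) = e (A x)) ∧ ∀ u, ‖P u‖ ≤ ‖u‖ := by
  have h1 : ∀ x, ‖(e ∘ₗ A) x‖ ≤ 1 * ‖e x‖ := fun x => by
    rw [one_mul]
    exact hA x
  refine ⟨(e ∘ₗ A).extendOfNorm e, fun x => LinearMap.extendOfNorm_eq he ⟨1, h1⟩ x, fun u => ?_⟩
  have h2 := LinearMap.norm_extendOfNorm_apply_le he 1 h1 u
  rwa [one_mul] at h2

/-- an exhausting sequence of finite lower sets -/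
lemma ub2_exh (ι : Type) [PartialOrder ι] [Countable ι] (hb : ∀ t : ι, {s | s ≤ t}.Finite) :
    ∃ A : ℕ → Set ι, Monotone A ∧ (∀ n, IsLowerSet (A n)) ∧ (∀ n, (A n).Finite) ∧
      ∀ s, ∃ n, s ∈ A n := by
  obtain ⟨f, hf⟩ := exists_injective_nat ι
  refine ⟨fun n => {s | ∃ t, f t < n ∧ s ≤ t}, ?_, ?_, ?_, ?_⟩
  · rintro m n hmn s ⟨t, ht, hst⟩
    exact ⟨t, lt_of_lt_of_le ht hmn, hst⟩
  · rintro n a b hba ⟨t, ht, hat⟩
    exact ⟨t, ht, hba.trans hat⟩
  · intro n
    have h1 : {s | ∃ t, f t < n ∧ s ≤ t} = ⋃ t ∈ f ⁻¹' Set.Iio n, {s | s ≤ t} := by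
      ext s
      simp
    show {s | ∃ t, f t < n ∧ s ≤ t}.Finite
    rw [h1]
    exact ((Set.finite_Iio n).preimage hf.injOn).biUnion fun t _ => hb t
  · intro s
    exact ⟨f s + 1, s, Nat.lt_succ_self _, le_refl _⟩

section res

variable {p C : ℝ} {ι J : Type} [PartialOrder ι] (D : TreeData p C ι J)

lemma ub2_res_apply (S : Set ι) (x : J →₀ ℂ) (j : J) :
    D.res S x j = if D.ν j ∈ S then x j else 0 := by
  unfold TreeData.res
  rw [Finsupp.filter_apply]

/-- the restriction as a linear map -/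
noncomputable def ub2_resL (S : Set ι) : (J →₀ ℂ) →ₗ[ℂ] (J →₀ ℂ) where
  toFun := D.res S
  map_add' x y := by
    ext j
    rw [ub2_res_apply, Finsupp.add_apply, Finsupp.add_apply, ub2_res_apply, ub2_res_apply]
    split_ifs
    · rfl
    · rw [add_zero]
  map_smul' c x := by
    ext j
    rw [ub2_res_apply, Finsupp.smul_apply, RingHom.id_apply, Finsupp.smul_apply, ub2_res_apply]
    split_ifs
    · rfl
    · rw [smul_zero]

lemma ub2_res_res (S T : Set ι) (x : J →₀ ℂ) : D.res S (D.res T x) = D.res (S ∩ T) x := by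
  ext j
  rw [ub2_res_apply, ub2_res_apply, ub2_res_apply]
  by_cases h1 : D.ν j ∈ S
  · by_cases h2 : D.ν j ∈ T
    · rw [if_pos h1, if_pos h2, if_pos ⟨h1, h2⟩]
    · rw [if_pos h1, if_neg h2, if_neg fun h => h2 h.2]
  · rw [if_neg h1, if_neg fun h => h1 h.1]

lemma ub2_res_supp (S : Set ι) (x : J →₀ ℂ) (j : J) (hj : j ∈ (D.res S x).support) :
    D.ν j ∈ S := by
  by_contra h
  rw [Finsupp.mem_support_iff, ub2_res_apply, if_neg h] at hj
  exact hj rfl

lemma ub2_res_eq (S : Set ι) (x : J →₀ ℂ) (h : ∀ j ∈ x.support, D.ν j ∈ S) : D.res S x = x := by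
  ext j
  rw [ub2_res_apply]
  by_cases hj : j ∈ x.support
  · rw [if_pos (h j hj)]
  · rw [Finsupp.notMem_support_iff.1 hj]
    split_ifs <;> rfl

end res

/-- the vectors of a finite-dimensional coordinate subspace -/
lemma ub2_fd {J U : Type} [NormedAddCommGroup U] [NormedSpace ℂ U] (e : (J →₀ ℂ) →ₗ[ℂ] U)
    {T : Set J} (hT : T.Finite) :
    FiniteDimensional ℂ (Submodule.map e (Finsupp.supported ℂ ℂ T)) := by
  rw [Finsupp.supported_eq_span_single, Submodule.map_span]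
  exact FiniteDimensional.span_of_finite ℂ ((hT.image _).image _)

/-- UB2 -/
theorem ub2 (h1 : UA1) (h2 : UA2) (h3 : UA3) : UB2 := by
  intro p C q ι J _ _ D hp hpq hC U _ _ _ e hU
  obtain ⟨hbd, r, hr⟩ := h1 p C q ι J D hp hpq
  have hq : 0 < q := by linarith
  have he : ∀ x, ‖e x‖ = D.rho q x := hU.norm
  have hlow : ∀ (S : Set ι), IsLowerSet S → ∀ x,
      ‖e (D.res S x)‖ ^ q + ‖e x - e (D.res S x)‖ ^ q ≤ ‖e x‖ ^ q := by
    intro S hS x
    rw [← map_sub, he, he, he]
    exact h2 p C q ι J D hp hpq hbd S hS x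
  have hle : ∀ (S : Set ι), IsLowerSet S → ∀ x, ‖e (ub2_resL D S x)‖ ≤ ‖e x‖ := by
    intro S hS x
    have h4 := hlow S hS x
    have h5 : (0 : ℝ) ≤ ‖e x - e (D.res S x)‖ ^ q := Real.rpow_nonneg (norm_nonneg _) _
    have h6 : ‖e (D.res S x)‖ ^ q ≤ ‖e x‖ ^ q := by linarith
    exact (Real.rpow_le_rpow_iff (norm_nonneg _) (norm_nonneg _) hq).1 h6
  obtain ⟨A, hA1, hA2, hA3, hA4⟩ := ub2_exh ι D.below
  choose P hP hPn using fun n => ub2_ext e hU.dense (ub2_resL D (A n)) (hle (A n) (hA2 n))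
  have hPe : ∀ n x, P n (e x) = e (D.res (A n) x) := hP
  -- the range of `P n`
  have hT : ∀ n, {j | D.ν j ∈ A n}.Finite := by
    intro n
    have h4 : {j | D.ν j ∈ A n} = ⋃ t ∈ A n, {j | D.ν j = t} := by
      ext j
      simp
    rw [h4]
    exact (hA3 n).biUnion fun t _ => D.fib t
  have hran : ∀ n u, ∃ w : J →₀ ℂ, (∀ j ∈ w.support, D.ν j ∈ A n) ∧ e w = P n u := by
    intro n u
    have hfd := ub2_fd e (hT n)
    have hcl : IsClosed ((Submodule.map e (Finsupp.supported ℂ ℂ {j | D.ν j ∈ A n}) :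
        Submodule ℂ U) : Set U) := Submodule.closed_of_finiteDimensional _
    have h4 : P n u ∈ Submodule.map e (Finsupp.supported ℂ ℂ {j | D.ν j ∈ A n}) := by
      refine isClosed_property (p := fun u => P n u ∈ Submodule.map e
        (Finsupp.supported ℂ ℂ {j | D.ν j ∈ A n})) hU.dense (hcl.preimage (P n).continuous)
        (fun x => ?_) u
      rw [hPe]
      refine Submodule.mem_map_of_mem ?_
      rw [Finsupp.mem_supported]
      intro j hj
      exact ub2_res_supp D _ _ j (Finset.mem_coe.1 hj)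
    obtain ⟨w, hw, hw1⟩ := Submodule.mem_map.1 h4
    refine ⟨w, fun j hj => ?_, hw1⟩
    exact (Finsupp.mem_supported ℂ w).1 hw (Finset.mem_coe.2 hj)
  refine ⟨P, ?_, ?_, ?_, ?_, ?_⟩
  · -- comp
    intro m n x
    refine isClosed_property (p := fun x => P m (P n x) = P (min m n) x) hU.dense
      (isClosed_eq ((P m).continuous.comp (P n).continuous) (P (min m n)).continuous)
      (fun x => ?_) x
    have h4 : A m ∩ A n = A (min m n) := by
      rcases le_total m n with h | h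
      · rw [min_eq_left h]
        exact Set.inter_eq_left.2 (hA1 h)
      · rw [min_eq_right h]
        exact Set.inter_eq_right.2 (hA1 h)
    rw [hPe, hPe, hPe, ub2_res_res, h4]
  · -- tend
    intro u
    rw [Metric.tendsto_atTop]
    intro ε hε
    obtain ⟨x, hx⟩ := hU.dense.exists_dist_lt u (half_pos hε)
    have h4 : ∃ n, ∀ j ∈ x.support, D.ν j ∈ A n := by
      choose g hg using hA4
      refine ⟨x.support.sup (fun j => g (D.ν j)), fun j hj => ?_⟩
      exact hA1 (Finset.le_sup (f := fun j => g (D.ν j)) hj) (hg (D.ν j))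
    obtain ⟨n₀, hn₀⟩ := h4
    refine ⟨n₀, fun n hn => ?_⟩
    have h5 : P n (e x) = e x := by
      rw [hPe, ub2_res_eq D (A n) x fun j hj => hA1 hn (hn₀ j hj)]
    have h6 : P n u - u = P n (u - e x) - (u - e x) := by
      rw [map_sub, h5]
      abel
    rw [dist_eq_norm] at hx ⊢
    rw [h6]
    calc ‖P n (u - e x) - (u - e x)‖ ≤ ‖P n (u - e x)‖ + ‖u - e x‖ := norm_sub_le _ _
      _ ≤ ‖u - e x‖ + ‖u - e x‖ := by linarith [hPn n (u - e x)]
      _ < ε := by linarith
  · -- fin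
    intro n
    have hfd := ub2_fd e (hT n)
    refine Submodule.finiteDimensional_of_le
      (S₂ := Submodule.map e (Finsupp.supported ℂ ℂ {j | D.ν j ∈ A n})) ?_
    rintro _ ⟨u, rfl⟩
    obtain ⟨w, hw, hw1⟩ := hran n u
    refine Submodule.mem_map.2 ⟨w, ?_, hw1⟩
    rw [Finsupp.mem_supported]
    exact fun j hj => hw j (Finset.mem_coe.1 hj)
  · -- lower
    intro n u
    refine isClosed_property (p := fun u => ‖P n u‖ ^ q + ‖u - P n u‖ ^ q ≤ ‖u‖ ^ q) hU.dense
      (isClosed_le ?_ ?_) (fun x => ?_) u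
    · exact ((P n).continuous.norm.rpow_const fun _ => Or.inr hq.le).add
        ((continuous_id.sub (P n).continuous).norm.rpow_const fun _ => Or.inr hq.le)
    · exact continuous_norm.rpow_const fun _ => Or.inr hq.le
    · rw [hPe]
      exact hlow (A n) (hA2 n) x
  · -- upper
    intro m hm k v hv1 hv2
    have h4 : ∀ i, ∃ w : J →₀ ℂ, (∀ j ∈ w.support, D.ν j ∈ A (m (i + 1)) ∧ D.ν j ∉ A (m i)) ∧
        e w = v i := by
      intro i
      obtain ⟨w, hw, hw1⟩ := hran (m (i + 1)) (v i)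
      rw [hv1] at hw1
      have h5 : e (D.res (A (m i)) w) = 0 := by rw [← hPe, hw1, hv2]
      refine ⟨w - D.res (A (m i)) w, fun j hj => ?_, by rw [map_sub, h5, sub_zero, hw1]⟩
      rw [Finsupp.mem_support_iff, Finsupp.sub_apply, ub2_res_apply] at hj
      by_cases h6 : D.ν j ∈ A (m i)
      · rw [if_pos h6, sub_self] at hj
        exact absurd rfl hj
      · rw [if_neg h6, sub_zero] at hj
        exact ⟨hw j (Finsupp.mem_support_iff.2 hj), h6⟩
    choose w hw hw1 using h4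
    have h5 := h3 p C q ι J D hp hpq hC hbd (fun n => A (m n)) (hA1.comp hm)
      (fun n => hA2 (m n)) k w hw
    have h6 : ∑ j ∈ Finset.range k, v j = e (∑ i ∈ Finset.range k, w i) := by
      rw [map_sum]
      exact Finset.sum_congr rfl fun i _ => (hw1 i).symm
    rw [h6, he]
    have h7 : ∀ i, ‖v i‖ = D.rho q (w i) := fun i => by rw [← hw1 i, he]
    simp only [h7]
    exact h5

end Pool.Agent.H272.UU
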