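import Pool.Agent.H272.UU.Defs

set_option autoImplicit false

namespace Pool.Agent.H272.UU

open Filter Topology Pool.Agent.H272.IS
open scoped Classical

theorem uc1_fix {W : Type} [NormedAddCommGroup W] [NormedSpace ℂ W] {p q : ℝ}
    {P : ℕ → (W →L[ℂ] W)} (hPQ : PQ p q P) {w : ℕ → W} (h1 : ∀ n, P n (w n) = w n)
    (m k : ℕ) (h : k ≤ m) : P m (w k) = w k := by
  have h3 := hPQ.comp m k (w k)
  rw [h1 k, min_eq_right h, h1 k] at h3
  exact h3

theorem uc1_proj {W : Type} [NormedAddCommGroup W] [NormedSpace ℂ W] {p q : ℝ}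
    {P : ℕ → (W →L[ℂ] W)} (hPQ : PQ p q P) {w : ℕ → W} (h1 : ∀ n, P n (w n) = w n)
    (h2 : ∀ n m, m < n → P m (w n) = 0) (m M : ℕ) :
    P m (∑ k ∈ Finset.range M, w k) = ∑ k ∈ Finset.range (min (m + 1) M), w k := by
  induction M with
  | zero => simp
  | succ M ih =>
    rw [Finset.sum_range_succ, map_add, ih]
    rcases Nat.lt_or_ge m M with h | h
    · rw [h2 M m h, add_zero, min_eq_left (by omega), min_eq_left (by omega)]
    · rw [uc1_fix hPQ h1 m M h, min_eq_right (by omega), min_eq_right (by omega),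
        Finset.sum_range_succ]

theorem uc1_split {W : Type} [NormedAddCommGroup W] [NormedSpace ℂ W] {p q : ℝ}
    {P : ℕ → (W →L[ℂ] W)} (hq : 0 < q) (hPQ : PQ p q P) {w : ℕ → W}
    (h1 : ∀ n, P n (w n) = w n) (h2 : ∀ n m, m < n → P m (w n) = 0) (a M : ℕ) (h : a ≤ M) :
    ‖∑ k ∈ Finset.range a, w k‖ ^ q +
      ‖∑ k ∈ Finset.range M, w k - ∑ k ∈ Finset.range a, w k‖ ^ q ≤
      ‖∑ k ∈ Finset.range M, w k‖ ^ q := by
  rcases Nat.eq_zero_or_pos a with h0 | h0
  · subst h0
    simp [Real.zero_rpow hq.ne']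
  · obtain ⟨b, rfl⟩ : ∃ b, a = b + 1 := ⟨a - 1, by omega⟩
    have h3 := hPQ.lower b (∑ k ∈ Finset.range M, w k)
    rw [uc1_proj hPQ h1 h2, min_eq_left h] at h3
    exact h3

theorem uc1_cut {W : Type} [NormedAddCommGroup W] [NormedSpace ℂ W] {p q : ℝ}
    {P : ℕ → (W →L[ℂ] W)} (hPQ : PQ p q P) {w : ℕ → W}
    (h1 : ∀ n, P n (w n) = w n) (h2 : ∀ n m, m < n → P m (w n) = 0) (a b M : ℕ)
    (hab : a ≤ b + 1) (h : b + 1 ≤ M) :
    ‖∑ k ∈ Finset.range (b + 1), w k - ∑ k ∈ Finset.range a, w k‖ ^ q ≤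
      ‖∑ k ∈ Finset.range M, w k - ∑ k ∈ Finset.range a, w k‖ ^ q := by
  have h3 := hPQ.lower b (∑ k ∈ Finset.range M, w k - ∑ k ∈ Finset.range a, w k)
  have h4 : P b (∑ k ∈ Finset.range M, w k - ∑ k ∈ Finset.range a, w k) =
      ∑ k ∈ Finset.range (b + 1), w k - ∑ k ∈ Finset.range a, w k := by
    rw [map_sub, uc1_proj hPQ h1 h2, uc1_proj hPQ h1 h2, min_eq_left h, min_eq_right hab]
  rw [h4] at h3
  refine le_trans ?_ h3
  exact le_add_of_nonneg_right (Real.rpow_nonneg (norm_nonneg _) _)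

theorem uc1_main {W : Type} [NormedAddCommGroup W] [NormedSpace ℂ W] {p q : ℝ}
    {P : ℕ → (W →L[ℂ] W)} (hq : 0 < q) (hPQ : PQ p q P) {w : ℕ → W}
    (h1 : ∀ n, P n (w n) = w n) (h2 : ∀ n m, m < n → P m (w n) = 0) {n : ℕ}
    (I : Fin n → Set ℕ) (hI : ∀ i, (I i).OrdConnected)
    (hd : ∀ i j, i ≠ j → Disjoint (I i) (I j)) (s : Finset (Fin n)) :
    ∀ M : ℕ, ∑ i ∈ s, ‖∑ k ∈ (Finset.range M).filter (fun k => k ∈ I i), w k‖ ^ q ≤
      ‖∑ k ∈ Finset.range M, w k‖ ^ q := by
  induction s using Finset.strongInduction with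
  | H s ih =>
    intro M
    by_cases hU : ((Finset.range M).filter (fun k => ∃ i ∈ s, k ∈ I i)).Nonempty
    · obtain ⟨k0, hmem, hmax⟩ : ∃ k0 ∈ (Finset.range M).filter (fun k => ∃ i ∈ s, k ∈ I i),
          ∀ k ∈ (Finset.range M).filter (fun k => ∃ i ∈ s, k ∈ I i), k ≤ k0 :=
        ⟨_, Finset.max'_mem _ hU, fun k hk => Finset.le_max' _ k hk⟩
      simp only [Finset.mem_filter, Finset.mem_range] at hmem hmax
      obtain ⟨hk0M, i0, hi0, hk0⟩ := hmem
      have hJ : ((Finset.range M).filter (fun k => k ∈ I i0)).Nonempty :=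
        ⟨k0, by simp only [Finset.mem_filter, Finset.mem_range]; exact ⟨hk0M, hk0⟩⟩
      obtain ⟨a, amem, amin⟩ : ∃ a ∈ (Finset.range M).filter (fun k => k ∈ I i0),
          ∀ k ∈ (Finset.range M).filter (fun k => k ∈ I i0), a ≤ k :=
        ⟨_, Finset.min'_mem _ hJ, fun k hk => Finset.min'_le _ k hk⟩
      simp only [Finset.mem_filter, Finset.mem_range] at amem amin
      obtain ⟨haM, ha⟩ := amem
      have hak0 : a ≤ k0 := amin k0 ⟨hk0M, hk0⟩
      have hout : ∀ k, a ≤ k → k ≤ k0 → k ∈ I i0 := fun k hk hk' =>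
        (hI i0).out ha hk0 ⟨hk, hk'⟩
      -- the block of i0
      have hblock : ∑ k ∈ (Finset.range M).filter (fun k => k ∈ I i0), w k =
          ∑ k ∈ Finset.range (k0 + 1), w k - ∑ k ∈ Finset.range a, w k := by
        have e1 : (Finset.range M).filter (fun k => k ∈ I i0) =
            Finset.Ico a (k0 + 1) := by
          ext k
          simp only [Finset.mem_filter, Finset.mem_range, Finset.mem_Ico]
          constructor
          · rintro ⟨hk, hk'⟩
            exact ⟨amin k ⟨hk, hk'⟩, Nat.lt_succ_of_le (hmax k ⟨hk, i0, hi0, hk'⟩)⟩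
          · rintro ⟨hk, hk'⟩
            exact ⟨by omega, hout k hk (by omega)⟩
        rw [e1, Finset.sum_Ico_eq_sub _ (by omega)]
      have hrest : ∑ i ∈ s.erase i0, ‖∑ k ∈ (Finset.range M).filter (fun k => k ∈ I i), w k‖ ^ q
          = ∑ i ∈ s.erase i0, ‖∑ k ∈ (Finset.range a).filter (fun k => k ∈ I i), w k‖ ^ q := by
        refine Finset.sum_congr rfl fun i hi => ?_
        have hne : i ≠ i0 := (Finset.mem_erase.1 hi).1
        have hs : i ∈ s := (Finset.mem_erase.1 hi).2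
        have e2 : (Finset.range M).filter (fun k => k ∈ I i) =
            (Finset.range a).filter (fun k => k ∈ I i) := by
          ext k
          simp only [Finset.mem_filter, Finset.mem_range]
          constructor
          · rintro ⟨hk, hk'⟩
            refine ⟨?_, hk'⟩
            by_contra hka
            exact Set.disjoint_left.1 (hd i i0 hne) hk'
              (hout k (by omega) (hmax k ⟨hk, i, hs, hk'⟩))
          · rintro ⟨hk, hk'⟩
            exact ⟨by omega, hk'⟩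
        rw [e2]
      rw [← Finset.add_sum_erase _ _ hi0, hrest, hblock]
      have h5 := ih (s.erase i0) (Finset.erase_ssubset hi0) a
      have h6 := uc1_split hq hPQ h1 h2 a M haM.le
      have h7 := uc1_cut hPQ h1 h2 a k0 M (by omega) (by omega)
      linarith
    · have h0 : ∑ i ∈ s, ‖∑ k ∈ (Finset.range M).filter (fun k => k ∈ I i), w k‖ ^ q = 0 := by
        refine Finset.sum_eq_zero fun i hi => ?_
        have e3 : (Finset.range M).filter (fun k => k ∈ I i) = ∅ := by
          rw [Finset.filter_eq_empty_iff]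
          intro k hk hk'
          exact hU ⟨k, Finset.mem_filter.2 ⟨hk, i, hi, hk'⟩⟩
        rw [e3, Finset.sum_empty, norm_zero, Real.zero_rpow hq.ne']
      rw [h0]
      exact Real.rpow_nonneg (norm_nonneg _) _

theorem uc1 : UC1 := by
  intro W _ _ p q P hp hpq hPQ w h1 h2 M n I hI hd
  exact uc1_main (by linarith) hPQ h1 h2 I hI hd Finset.univ M

end Pool.Agent.H272.UU
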