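import Pool.Agent.H272.UU.Defs

set_option autoImplicit false

namespace Pool.Agent.H272.UU

open Filter Topology Pool.Agent.H272.IS
open scoped Classical

section

variable {p C : ℝ} {ι J : Type} [PartialOrder ι] {D : TreeData p C ι J} {W : Type}
  [NormedAddCommGroup W] [NormedSpace ℂ W] {P : ℕ → (W →L[ℂ] W)} {t : ℕ → ι}
  {b : (J →₀ ℂ) →ₗ[ℂ] W}

lemma uc3_sum (b : (J →₀ ℂ) →ₗ[ℂ] W) (x : J →₀ ℂ) :
    b x = ∑ j ∈ x.support, x j • b (Finsupp.single j 1) := by
  conv_lhs => rw [← Finsupp.sum_single x]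
  rw [Finsupp.sum, map_sum]
  refine Finset.sum_congr rfl fun j _ => ?_
  rw [← map_smul, Finsupp.smul_single, smul_eq_mul, mul_one]

lemma uc3_on (h : Branch D P t b) (n : ℕ) (x : J →₀ ℂ) (hx : ∀ j ∈ x.support, D.ν j ≤ t n) :
    P n (b x) = b x := by
  rw [uc3_sum b x, map_sum]
  refine Finset.sum_congr rfl fun j hj => ?_
  rw [map_smul, h.on n j (hx j hj)]

lemma uc3_on0 (h : Branch D P t b) (n : ℕ) (x : J →₀ ℂ)
    (hx : ∀ j ∈ x.support, ¬ D.ν j ≤ t n) : P n (b x) = 0 := by
  rw [uc3_sum b x, map_sum]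
  refine Finset.sum_eq_zero fun j hj => ?_
  rw [map_smul, h.on0 n j (hx j hj), smul_zero]

lemma uc3_mem_res (S : Set ι) (x : J →₀ ℂ) (j : J) (hj : j ∈ (D.res S x).support) :
    D.ν j ∈ S ∧ j ∈ x.support := by
  unfold TreeData.res at hj
  rw [Finsupp.support_filter, Finset.mem_filter] at hj
  exact ⟨hj.2, hj.1⟩

lemma uc3_res_apply (S : Set ι) (x : J →₀ ℂ) (j : J) :
    D.res S x j = if D.ν j ∈ S then x j else 0 := by
  unfold TreeData.res
  rw [Finsupp.filter_apply]

lemma uc3_off (h : Branch D P t b) (x : J →₀ ℂ) : b (D.res (Set.range t) x) = b x := by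
  have h0 : b (x - D.res (Set.range t) x) = 0 := by
    rw [uc3_sum b]
    refine Finset.sum_eq_zero fun j _ => ?_
    by_cases hj : D.ν j ∈ Set.range t
    · rw [Finsupp.sub_apply, uc3_res_apply, if_pos hj, sub_self, zero_smul]
    · rw [h.off j (fun n hn => hj ⟨n, hn.symm⟩), smul_zero]
  rw [map_sub, sub_eq_zero] at h0
  exact h0.symm

/-- a bound for the indices of the nodes of the branch in the support -/
lemma uc3_bound (h : Branch D P t b) (x : J →₀ ℂ) :
    ∃ M : ℕ, ∀ j ∈ x.support, ∀ k, D.ν j = t k → k < M := by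
  have hf : ∀ j : J, ∃ m : ℕ, ∀ k, D.ν j = t k → k ≤ m := by
    intro j
    by_cases hj : ∃ k, D.ν j = t k
    · obtain ⟨k, hk⟩ := hj
      refine ⟨k, fun k' hk' => ?_⟩
      exact le_of_eq (h.mono.injective (hk'.symm.trans hk))
    · exact ⟨0, fun k hk => absurd ⟨k, hk⟩ hj⟩
  choose f hf using hf
  refine ⟨x.support.sup f + 1, fun j hj k hk => ?_⟩
  have h1 := hf j k hk
  have h2 : f j ≤ x.support.sup f := Finset.le_sup hj
  omega

lemma uc3_decomp (h : Branch D P t b) (x : J →₀ ℂ) (M : ℕ)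
    (hM : ∀ j ∈ x.support, ∀ k, D.ν j = t k → k < M) (S : Set ι) :
    D.res S (D.res (Set.range t) x) =
      ∑ k ∈ (Finset.range M).filter (fun k => k ∈ {n : ℕ | t n ∈ S}), D.res {t k} x := by
  ext j
  rw [Finsupp.finsetSum_apply]
  simp only [uc3_res_apply, Set.mem_singleton_iff, Set.mem_range]
  by_cases hS : D.ν j ∈ S
  · rw [if_pos hS]
    by_cases hr : ∃ k, t k = D.ν j
    · rw [if_pos hr]
      obtain ⟨k, hk⟩ := hr
      by_cases hj : x j = 0
      · rw [hj]
        symm
        refine Finset.sum_eq_zero fun i _ => ?_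
        split_ifs <;> rfl
      · have hk' : k < M := hM j (Finsupp.mem_support_iff.mpr hj) k hk.symm
        rw [Finset.sum_eq_single k]
        · rw [if_pos hk.symm]
        · intro k' _ hne
          rw [if_neg]
          intro h'
          exact hne (h.mono.injective (h'.symm.trans hk.symm))
        · intro hn
          exfalso
          apply hn
          rw [Finset.mem_filter, Finset.mem_range]
          refine ⟨hk', ?_⟩
          show t k ∈ S
          rw [hk]
          exact hS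
    · rw [if_neg hr]
      symm
      refine Finset.sum_eq_zero fun i _ => ?_
      rw [if_neg]
      intro h'
      exact hr ⟨i, h'.symm⟩
  · rw [if_neg hS]
    symm
    refine Finset.sum_eq_zero fun i hi => ?_
    rw [if_neg]
    intro h'
    rw [Finset.mem_filter] at hi
    apply hS
    rw [h']
    exact hi.2

lemma uc3_piece (h : Branch D P t b) (S : Set ι) (s : ι) (hS : IsPiece S s) (y : J →₀ ℂ)
    (hy : ∀ j ∈ y.support, D.ν j ∈ S ∧ D.ν j ∈ Set.range t) : D.N s y ≤ 2 * ‖b y‖ := by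
  by_cases h0 : y = 0
  · subst h0
    rw [map_zero, map_zero, norm_zero, mul_zero]
  have hne : y.support.Nonempty := Finsupp.support_nonempty_iff.mpr h0
  have hm : ∃ m : ℕ, t m ∈ S ∧ ∀ j ∈ y.support, D.ν j ≤ t m := by
    have hf : ∀ j : J, ∃ m : ℕ, j ∈ y.support → t m = D.ν j := by
      intro j
      by_cases hj : j ∈ y.support
      · obtain ⟨m, hm⟩ := (hy j hj).2
        exact ⟨m, fun _ => hm⟩
      · exact ⟨0, fun h' => absurd h' hj⟩
    choose f hf using hf
    obtain ⟨j0, hj0, hmax⟩ := Finset.exists_max_image y.support f hne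
    refine ⟨f j0, ?_, fun j hj => ?_⟩
    · rw [hf j0 hj0]
      exact (hy j0 hj0).1
    · rw [← hf j hj]
      exact h.mono.monotone (hmax j hj)
  obtain ⟨m, hmS, hm⟩ := hm
  have h1 := D.mono (t m) s (hS.1 _ hmS) y hm
  have h2 := h.le m y hm
  linarith

end

theorem uc3 (h : UC1) : UC3 := by
  intro p C q ι J _ D hp hpq _ W _ _ P hP t b hb x
  have hq : 0 < q := by linarith
  have : Nonempty (Fam ι) := ⟨⟨0, fun _ => ∅, fun i => i.elim0, fun i => i.elim0,
    fun i => i.elim0⟩⟩
  obtain ⟨M, hM⟩ := uc3_bound hb x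
  refine ciSup_le fun f => ?_
  have hw1 : ∀ n, P n (b (D.res {t n} x)) = b (D.res {t n} x) := by
    intro n
    refine uc3_on hb n _ fun j hj => ?_
    exact le_of_eq (uc3_mem_res _ _ _ hj).1
  have hw2 : ∀ n m, m < n → P m (b (D.res {t n} x)) = 0 := by
    intro n m hmn
    refine uc3_on0 hb m _ fun j hj hle => ?_
    have h1 : D.ν j = t n := (uc3_mem_res _ _ _ hj).1
    rw [h1] at hle
    exact absurd (hb.mono hmn) (not_lt_of_ge hle)
  have hI1 : ∀ i, ({n : ℕ | t n ∈ f.S i} : Set ℕ).OrdConnected := by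
    intro i
    refine ⟨fun a ha c hc k hk => ?_⟩
    exact (f.piece i).2 (t a) (t k) (t c) ha hc (hb.mono.monotone hk.1)
      (hb.mono.monotone hk.2)
  have hI2 : ∀ i j, i ≠ j → Disjoint ({n : ℕ | t n ∈ f.S i} : Set ℕ) {n : ℕ | t n ∈ f.S j} := by
    intro i j hij
    rw [Set.disjoint_left]
    intro n hn hn'
    exact (Set.disjoint_left.mp (f.disj i j hij)) hn hn'
  have key := h W p q P hp hpq hP (fun n => b (D.res {t n} x)) hw1 hw2 M f.n
    (fun i => {n : ℕ | t n ∈ f.S i}) hI1 hI2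
  have hall : b x = ∑ k ∈ Finset.range M, b (D.res {t k} x) := by
    have h1 := uc3_decomp hb x M hM Set.univ
    have h2 : D.res Set.univ (D.res (Set.range t) x) = D.res (Set.range t) x := by
      ext j
      rw [uc3_res_apply, if_pos (Set.mem_univ _)]
    rw [h2] at h1
    have h3 := congrArg b h1
    rw [uc3_off hb, map_sum] at h3
    rw [h3]
    refine Finset.sum_congr ?_ fun _ _ => rfl
    ext k
    simp
  have hpart : ∀ i, b (D.res (f.S i) (D.res (Set.range t) x)) =
      ∑ k ∈ (Finset.range M).filter (fun k => k ∈ {n : ℕ | t n ∈ f.S i}), b (D.res {t k} x) := by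
    intro i
    rw [uc3_decomp hb x M hM (f.S i), map_sum]
  have key2 : ∑ i, ‖b (D.res (f.S i) (D.res (Set.range t) x))‖ ^ q ≤ ‖b x‖ ^ q := by
    rw [hall]
    refine le_trans (le_of_eq ?_) key
    refine Finset.sum_congr rfl fun i _ => ?_
    rw [hpart i]
  have hterm : ∀ i, D.N (f.t i) (D.res (f.S i) (D.res (Set.range t) x)) ≤
      2 * ‖b (D.res (f.S i) (D.res (Set.range t) x))‖ := by
    intro i
    refine uc3_piece hb (f.S i) (f.t i) (f.piece i) _ fun j hj => ?_
    have h1 := uc3_mem_res _ _ _ hj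
    exact ⟨h1.1, (uc3_mem_res _ _ _ h1.2).1⟩
  have hsum : ∑ i, D.N (f.t i) (D.res (f.S i) (D.res (Set.range t) x)) ^ q ≤
      (2 * ‖b x‖) ^ q := by
    calc ∑ i, D.N (f.t i) (D.res (f.S i) (D.res (Set.range t) x)) ^ q
        ≤ ∑ i, (2 * ‖b (D.res (f.S i) (D.res (Set.range t) x))‖) ^ q := by
          refine Finset.sum_le_sum fun i _ => ?_
          exact Real.rpow_le_rpow (apply_nonneg _ _) (hterm i) hq.le
      _ = 2 ^ q * ∑ i, ‖b (D.res (f.S i) (D.res (Set.range t) x))‖ ^ q := by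
          rw [Finset.mul_sum]
          refine Finset.sum_congr rfl fun i _ => ?_
          rw [Real.mul_rpow (by norm_num) (norm_nonneg _)]
      _ ≤ 2 ^ q * ‖b x‖ ^ q :=
          mul_le_mul_of_nonneg_left key2 (Real.rpow_nonneg (by norm_num) _)
      _ = (2 * ‖b x‖) ^ q := by
          rw [Real.mul_rpow (by norm_num) (norm_nonneg _)]
  unfold TreeData.val
  calc (∑ i, D.N (f.t i) (D.res (f.S i) (D.res (Set.range t) x)) ^ q) ^ (1 / q)
      ≤ ((2 * ‖b x‖) ^ q) ^ (1 / q) := by
        refine Real.rpow_le_rpow ?_ hsum (by positivity)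
        exact Finset.sum_nonneg fun i _ => Real.rpow_nonneg (apply_nonneg _ _) _
    _ = 2 * ‖b x‖ := by
        rw [← Real.rpow_mul (by positivity), mul_one_div_cancel hq.ne', Real.rpow_one]

end Pool.Agent.H272.UU
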