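import Pool.Agent.H272.UU.Defs

/-!
# UD: the tree data of the universal tree
-/

set_option autoImplicit false

namespace Pool.Agent.H272.UU

open Filter Topology Pool.Agent.H272.IS
open scoped Classical

section UD

variable {p : ℝ} {cn : ℕ → Seminorm ℂ (ℕ →₀ ℂ)}

theorem UD_single (t : Node p cn) (j : Coord p cn) (a : ℂ) :
    pathVec t (Finsupp.single j a) = if j.1.1 ≤ t then Finsupp.single j.1.2 a else 0 := by
  unfold pathVec
  rw [Finsupp.lsum_single]
  split_ifs
  · rfl
  · rfl

theorem UD_apply (t : Node p cn) (x : Coord p cn →₀ ℂ) :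
    pathVec t x = ∑ j ∈ x.support, if j.1.1 ≤ t then Finsupp.single j.1.2 (x j) else 0 := by
  conv_lhs => rw [← Finsupp.sum_single x]
  rw [Finsupp.sum, map_sum]
  exact Finset.sum_congr rfl fun j _ => UD_single t j (x j)

theorem UD_supp {t : Node p cn} {x : Coord p cn →₀ ℂ} {k : ℕ}
    (hk : k ∈ (pathVec t x).support) : ∃ j ∈ x.support, j.1.1 ≤ t ∧ j.1.2 = k := by
  by_contra hcon
  push Not at hcon
  rw [Finsupp.mem_support_iff] at hk
  apply hk
  rw [UD_apply, Finsupp.finsetSum_apply]
  apply Finset.sum_eq_zero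
  intro j hj
  by_cases h : j.1.1 ≤ t
  · rw [if_pos h, Finsupp.single_apply, if_neg (hcon j hj h)]
  · rw [if_neg h]
    rfl

theorem UD_dep (t : Node p cn) (x : Coord p cn →₀ ℂ) :
    pathVec t (x.filter fun j => j.1.1 ≤ t) = pathVec t x := by
  induction x using Finsupp.induction_linear with
  | zero => rw [Finsupp.filter_zero]
  | add x y hx hy => rw [Finsupp.filter_add, map_add, map_add, hx, hy]
  | single j a =>
    by_cases h : j.1.1 ≤ t
    · have e : (Finsupp.single j a).filter (fun j : Coord p cn => j.1.1 ≤ t) =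
          Finsupp.single j a := Finsupp.filter_single_of_pos _ h
      rw [e]
    · have e : (Finsupp.single j a).filter (fun j : Coord p cn => j.1.1 ≤ t) = 0 :=
        Finsupp.filter_single_of_neg _ h
      rw [e, map_zero, UD_single, if_neg h]

theorem UD_eq {s t : Node p cn} (hst : s ≤ t) {x : Coord p cn →₀ ℂ}
    (hx : ∀ j ∈ x.support, j.1.1 ≤ s) : pathVec t x = pathVec s x := by
  rw [UD_apply, UD_apply]
  refine Finset.sum_congr rfl fun j hj => ?_
  rw [if_pos (hx j hj), if_pos ((hx j hj).trans hst)]

/-- the length of the longest prefix of `t` in `B` -/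
noncomputable def UD_len (t : Node p cn) (B : Set (Node p cn)) : ℕ :=
  Nat.findGreatest (fun m => m = 0 ∨ ∃ s : Node p cn, s ∈ B ∧ s.1 = t.1.take m) t.1.length

theorem UD_len_spec (t : Node p cn) (B : Set (Node p cn)) :
    UD_len t B = 0 ∨ ∃ s : Node p cn, s ∈ B ∧ s.1 = t.1.take (UD_len t B) :=
  Nat.findGreatest_spec (P := fun m => m = 0 ∨ ∃ s : Node p cn, s ∈ B ∧ s.1 = t.1.take m)
    (Nat.zero_le _) (Or.inl rfl)

theorem UD_le_len {t : Node p cn} {B : Set (Node p cn)} {s : Node p cn} (hs : s ∈ B)
    (hst : s ≤ t) : s.1.length ≤ UD_len t B := by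
  have h : s.1 <+: t.1 := hst
  apply Nat.le_findGreatest h.length_le
  right
  exact ⟨s, hs, List.prefix_iff_eq_take.1 h⟩

theorem UD_len_mono (t : Node p cn) {B B' : Set (Node p cn)} (h : B ⊆ B') :
    UD_len t B ≤ UD_len t B' := by
  apply Nat.findGreatest_mono_left
  intro m hm
  rcases hm with hm | ⟨s, hs, hs'⟩
  · exact Or.inl hm
  · exact Or.inr ⟨s, h hs, hs'⟩

theorem UD_lt_len {t : Node p cn} {B : Set (Node p cn)} (hB : IsLowerSet B) {s : Node p cn}
    (hs : s ∉ B) (hst : s ≤ t) : UD_len t B < s.1.length := by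
  by_contra hcon
  have hcon' : s.1.length ≤ UD_len t B := not_lt.1 hcon
  have hpos : 0 < s.1.length := List.length_pos_iff.2 s.2.1
  rcases UD_len_spec t B with h | ⟨s', hs', he⟩
  · omega
  · apply hs
    refine hB ?_ hs'
    show s.1 <+: s'.1
    rw [he]
    have h1 : s.1 <+: t.1 := hst
    rw [List.prefix_iff_eq_take.1 h1]
    exact List.take_prefix_take_left hcon'

end UD

theorem ud : UD := by
  intro p cn hp
  refine ⟨{ ν := fun j => j.1.1
            N := fun t => (cn (lcode t.1)).comp (pathVec t)
            fib := ?_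
            below := ?_
            dep := ?_
            mono := ?_
            upper := ?_ }, fun _ => rfl, fun _ _ => rfl⟩
  · -- fib
    intro t
    apply Set.Finite.of_injOn (f := fun j : Coord p cn => j.1.2) (t := Set.Iio (lc t.1))
    · intro j hj
      have hj' : j.1.1 = t := hj
      have h := j.2.2
      rw [hj'] at h
      exact h
    · intro i hi j hj hij
      have hi' : i.1.1 = t := hi
      have hj' : j.1.1 = t := hj
      have hij' : i.1.2 = j.1.2 := hij
      exact Subtype.ext (Prod.ext (hi'.trans hj'.symm) hij')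
    · exact Set.finite_Iio _
  · -- below
    intro t
    apply Set.Finite.of_injOn (f := fun s : Node p cn => s.1) (t := {l | l ∈ t.1.inits})
    · intro s hs
      exact (List.mem_inits _ _).2 hs
    · intro i _ j _ hij
      exact Subtype.ext hij
    · exact List.finite_toSet _
  · -- dep
    intro t x
    rw [Seminorm.comp_apply, Seminorm.comp_apply, UD_dep]
  · -- mono
    intro s t hst x hx
    rw [Seminorm.comp_apply, Seminorm.comp_apply, UD_eq hst hx]
    refine t.2.2.mono s.1 t.1 hst (List.prefix_refl _) s.2.1 (pathVec s x) ?_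
    intro k hk
    obtain ⟨j, hj, hjs, hjk⟩ := UD_supp hk
    rw [← hjk]
    exact lt_of_lt_of_le j.2.2 (s.2.2.cuts j.1.1.1 s.1 hjs (List.prefix_refl _))
  · -- upper
    intro t B hB hBl k v hv
    have hsum : pathVec t (∑ i ∈ Finset.range k, v i) =
        ∑ i ∈ Finset.range k, pathVec t (v i) := map_sum _ _ _
    rw [Seminorm.comp_apply, hsum]
    have h := t.2.2.upper t.1 (List.prefix_refl _) t.2.1
      (fun n => lc (t.1.take (UD_len t (B n)))) ?_ ?_ k (fun i => pathVec t (v i)) ?_
    · refine h.trans (le_of_eq ?_)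
      rfl
    · intro m n hmn
      exact t.2.2.cuts _ _ (List.take_prefix_take_left (UD_len_mono t (hB hmn)))
        (List.take_prefix _ _)
    · intro n
      exact ⟨_, List.take_prefix _ _, rfl⟩
    · intro i l hl
      obtain ⟨j, hj, hjt, hjl⟩ := UD_supp hl
      obtain ⟨h1, h2⟩ := hv i j hj
      have hjt' : j.1.1.1 <+: t.1 := hjt
      rw [← hjl]
      constructor
      · refine le_trans ?_ j.2.1
        have h3 := UD_lt_len (hBl i) h2 hjt
        refine t.2.2.cuts _ _ ?_ ((List.dropLast_prefix _).trans hjt')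
        rw [List.dropLast_eq_take, List.prefix_iff_eq_take.1 hjt', List.take_take]
        apply List.take_prefix_take_left
        rw [List.length_take]
        have h4 := hjt'.length_le
        omega
      · refine lt_of_lt_of_le j.2.2 ?_
        refine t.2.2.cuts _ _ ?_ (List.take_prefix _ _)
        have h3 := UD_le_len h1 hjt
        rw [List.prefix_iff_eq_take.1 hjt']
        exact List.take_prefix_take_left h3

end Pool.Agent.H272.UU
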