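import Pool.Agent.H272.UU.Defs

set_option autoImplicit false

namespace Pool.Agent.H272.UU

open Filter Topology Pool.Agent.H272.IS
open scoped Classical

/-- a seminorm on a finite-dimensional space is continuous -/
theorem UE_cont {c : ℕ} (s : Seminorm ℂ (Fin c → ℂ)) : Continuous s := by
  have hC : ∀ y : Fin c → ℂ, s y ≤ (∑ i, s (Pi.single i 1)) * ‖y‖ := by
    intro y
    have h1 : y = ∑ i, y i • (Pi.single i (1 : ℂ) : Fin c → ℂ) := by
      funext j
      simp [Finset.sum_apply, Pi.single_apply]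
    calc s y = s (∑ i, y i • (Pi.single i (1 : ℂ) : Fin c → ℂ)) := by rw [← h1]
      _ ≤ ∑ i, s (y i • (Pi.single i (1 : ℂ) : Fin c → ℂ)) :=
          Finset.le_sum_of_subadditive s (map_zero s).le (map_add_le_add s) _ _
      _ = ∑ i, ‖y i‖ * s (Pi.single i 1) := by simp_rw [map_smul_eq_mul]
      _ ≤ ∑ i, ‖y‖ * s (Pi.single i 1) :=
          Finset.sum_le_sum fun i _ =>
            mul_le_mul_of_nonneg_right (norm_le_pi_norm y i) (apply_nonneg s _)
      _ = (∑ i, s (Pi.single i 1)) * ‖y‖ := by rw [← Finset.mul_sum, mul_comm]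
  have hC0 : 0 ≤ ∑ i, s (Pi.single i 1) := Finset.sum_nonneg fun i _ => apply_nonneg s _
  have hl : LipschitzWith ⟨∑ i, s (Pi.single i 1), hC0⟩ s := by
    refine LipschitzWith.of_dist_le_mul fun x y => ?_
    rw [Real.dist_eq, dist_eq_norm]
    exact (abs_sub_map_le_sub s x y).trans (hC _)
  exact hl.continuous

/-- countably many seminorms approximate all norms on `ℂ^c` -/
theorem UE_fin (c : ℕ) : ∃ s : ℕ → Seminorm ℂ (Fin c → ℂ), ∀ ν : Seminorm ℂ (Fin c → ℂ),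
    (∀ y, ν y = 0 → y = 0) → ∃ n, ∀ y, ν y ≤ 2 * s n y ∧ s n y ≤ ν y := by
  let K := Metric.sphere (0 : Fin c → ℂ) 1
  have hK : CompactSpace K := isCompact_iff_compactSpace.1 (isCompact_sphere _ _)
  let T : Set C(K, ℝ) := {f | ∃ s : Seminorm ℂ (Fin c → ℂ), ∀ y : K, f y = s y}
  have hT : ∀ s : Seminorm ℂ (Fin c → ℂ),
      (⟨fun y : K => s y, (UE_cont s).comp continuous_subtype_val⟩ : C(K, ℝ)) ∈ T :=
    fun s => ⟨s, fun y => rfl⟩
  have hne : Nonempty T := ⟨⟨_, hT 0⟩⟩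
  obtain ⟨u, hu⟩ := TopologicalSpace.exists_dense_seq T
  choose s hs using fun n => (u n).2
  refine ⟨s, fun ν hν => ?_⟩
  -- a lower bound of `ν` on the sphere
  obtain ⟨μ, hμ, hμ2⟩ : ∃ μ : ℝ, 0 < μ ∧ ∀ y ∈ K, μ ≤ ν y := by
    rcases K.eq_empty_or_nonempty with h0 | h0
    · exact ⟨1, one_pos, fun y hy => by rw [h0] at hy; exact absurd hy (Set.notMem_empty _)⟩
    · obtain ⟨y0, hy0, hmin⟩ := (isCompact_sphere (0 : Fin c → ℂ) 1).exists_isMinOn h0
        (UE_cont ν).continuousOn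
      refine ⟨ν y0, ?_, fun y hy => hmin hy⟩
      refine lt_of_le_of_ne (apply_nonneg ν _) fun h1 => ?_
      have h2 := hν y0 h1.symm
      have h3 : ‖y0‖ = 1 := by simpa [K] using hy0
      rw [h2, norm_zero] at h3
      exact zero_ne_one h3
  let f : T := ⟨_, hT ((3 / 4 : NNReal) • ν)⟩
  obtain ⟨n, hn⟩ := hu.exists_dist_lt f (show (0 : ℝ) < μ / 4 by positivity)
  have hK2 : ∀ y ∈ K, ν y ≤ 2 * s n y ∧ s n y ≤ ν y := by
    intro y hy
    have h1 : dist ((f : C(K, ℝ)) ⟨y, hy⟩) ((u n : C(K, ℝ)) ⟨y, hy⟩) < μ / 4 :=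
      lt_of_le_of_lt (ContinuousMap.dist_apply_le_dist _) hn
    have h2 : (f : C(K, ℝ)) ⟨y, hy⟩ = 3 / 4 * ν y := by
      have h4 : (f : C(K, ℝ)) ⟨y, hy⟩ = ((3 / 4 : NNReal) : ℝ) * ν y := rfl
      rw [h4]
      norm_num
    rw [h2, hs n ⟨y, hy⟩, Real.dist_eq, abs_lt] at h1
    have h3 := hμ2 y hy
    constructor <;> linarith [h1.1, h1.2]
  refine ⟨n, fun y => ?_⟩
  by_cases hy : y = 0
  · rw [hy, map_zero, map_zero]
    norm_num
  · have hy' : 0 < ‖y‖ := norm_pos_iff.2 hy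
    have h1 : ((‖y‖⁻¹ : ℝ) : ℂ) • y ∈ K := by
      show _ ∈ Metric.sphere _ _
      rw [mem_sphere_zero_iff_norm, norm_smul, Complex.norm_real, norm_inv, norm_norm]
      exact inv_mul_cancel₀ hy'.ne'
    obtain ⟨h2, h3⟩ := hK2 _ h1
    rw [map_smul_eq_mul, map_smul_eq_mul, Complex.norm_real, norm_inv, norm_norm] at h2
    rw [map_smul_eq_mul, map_smul_eq_mul, Complex.norm_real, norm_inv, norm_norm] at h3
    have hi : 0 < ‖y‖⁻¹ := inv_pos.2 hy'
    constructor
    · have h4 : ‖y‖⁻¹ * ν y ≤ ‖y‖⁻¹ * (2 * s n y) := by linarith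
      exact le_of_mul_le_mul_left h4 hi
    · exact le_of_mul_le_mul_left h3 hi

/-- restriction to the first `c` coordinates -/
noncomputable def UE_res (c : ℕ) : (ℕ →₀ ℂ) →ₗ[ℂ] (Fin c → ℂ) where
  toFun y i := y i
  map_add' _ _ := rfl
  map_smul' _ _ := rfl

/-- extension by zero -/
noncomputable def UE_ext (c : ℕ) : (Fin c → ℂ) →ₗ[ℂ] (ℕ →₀ ℂ) where
  toFun y := ∑ i : Fin c, Finsupp.single (i : ℕ) (y i)
  map_add' x y := by
    rw [← Finset.sum_add_distrib]
    refine Finset.sum_congr rfl fun i _ => ?_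
    rw [Pi.add_apply, Finsupp.single_add]
  map_smul' a y := by
    rw [RingHom.id_apply, Finset.smul_sum]
    refine Finset.sum_congr rfl fun i _ => ?_
    rw [Pi.smul_apply, Finsupp.smul_single]

theorem UE_ext_apply (c : ℕ) (y : Fin c → ℂ) (k : ℕ) :
    UE_ext c y k = if h : k < c then y ⟨k, h⟩ else 0 := by
  show (∑ i : Fin c, Finsupp.single (i : ℕ) (y i)) k = _
  rw [Finsupp.finsetSum_apply]
  split_ifs with h
  · rw [Finset.sum_eq_single ⟨k, h⟩]
    · simp
    · intro i _ hi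
      rw [Finsupp.single_apply, if_neg]
      intro h1
      exact hi (Fin.ext h1)
    · intro h1
      exact absurd (Finset.mem_univ _) h1
  · refine Finset.sum_eq_zero fun i _ => ?_
    rw [Finsupp.single_apply, if_neg]
    intro h1
    exact h (h1 ▸ i.2)

theorem UE_ext_res (c : ℕ) (y : ℕ →₀ ℂ) (hy : ∀ j ∈ y.support, j < c) :
    UE_ext c (UE_res c y) = y := by
  ext k
  rw [UE_ext_apply]
  split_ifs with h
  · rfl
  · by_contra h1
    exact h (hy k (Finsupp.mem_support_iff.2 (Ne.symm h1)))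

theorem ue : UE := by
  choose s hs using UE_fin
  let g : ℕ × ℕ → Seminorm ℂ (ℕ →₀ ℂ) := fun a => (s a.1 a.2).comp (UE_res a.1)
  refine ⟨fun k => g (Nat.unpair k), ?_⟩
  intro c ν hν
  obtain ⟨n, hn⟩ := hs c (ν.comp (UE_ext c)) (by
    intro y hy
    have h1 : UE_ext c y = 0 := by
      refine hν _ ?_ hy
      intro k hk
      by_contra h2
      rw [Finsupp.mem_support_iff, UE_ext_apply, dif_neg h2] at hk
      exact hk rfl
    funext i
    have h2 := congrArg (fun z : ℕ →₀ ℂ => z i) h1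
    simp only [UE_ext_apply, Finsupp.coe_zero, Pi.zero_apply] at h2
    rw [dif_pos i.2] at h2
    exact h2)
  refine ⟨Nat.pair c n, fun y hy => ?_⟩
  have h1 := hn (UE_res c y)
  have h2 : (ν.comp (UE_ext c)) (UE_res c y) = ν y := by
    show ν (UE_ext c (UE_res c y)) = ν y
    rw [UE_ext_res c y hy]
  rw [h2] at h1
  show ν y ≤ 2 * g (Nat.unpair (Nat.pair c n)) y ∧ g (Nat.unpair (Nat.pair c n)) y ≤ ν y
  rw [Nat.unpair_pair]
  exact h1

end Pool.Agent.H272.UU
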