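import Pool.Agent.H272.UU.Defs

set_option autoImplicit false

namespace Pool.Agent.H272.UU

open Filter Topology Pool.Agent.H272.IS
open scoped Classical

/-- the list -/
def ug1_l (c κ : ℕ → ℕ) (n : ℕ) : List (ℕ × ℕ) := (List.range n).map fun i => (c (i + 1), κ i)

theorem ug1_prefix (c κ : ℕ → ℕ) (n : ℕ) (t : List (ℕ × ℕ)) (h : t <+: ug1_l c κ n) :
    ∃ r ≤ n, t = ug1_l c κ r := by
  have h1 := List.prefix_iff_eq_take.1 h
  refine ⟨min t.length n, min_le_right _ _, ?_⟩
  rw [h1]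
  unfold ug1_l
  rw [← List.map_take, List.take_range]
  simp

theorem ug1_lc (c κ : ℕ → ℕ) (hc : c 0 = 0) (n : ℕ) : lc (ug1_l c κ n) = c n := by
  cases n with
  | zero => simp [ug1_l, lc, hc]
  | succ n => simp [ug1_l, lc, List.range_succ]

theorem ug1_lcode (c κ : ℕ → ℕ) (n : ℕ) : lcode (ug1_l c κ (n + 1)) = κ n := by
  simp [ug1_l, lcode, List.range_succ]

theorem ug1_nil (c κ : ℕ → ℕ) (n : ℕ) (h : ug1_l c κ n ≠ []) : ∃ m, n = m + 1 := by
  cases n with
  | zero => exact absurd (by simp [ug1_l]) h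
  | succ n => exact ⟨n, rfl⟩

theorem ug1 (h : T1b) : UG1 := by
  intro p q hp hpq cn W _ _ P hP hP0 w c hA κ hκ n
  have hc0 := hA.zero
  have hcm := hA.mono
  have hPC := h W p q P hp hpq hP
  change Adm p cn (ug1_l c κ n)
  -- the map on finitely supported vectors
  have hlow : ∀ (m : ℕ) (y : ℕ →₀ ℂ), (∀ j ∈ y.support, j < c m) →
      P m (Finsupp.linearCombination ℂ w y) = Finsupp.linearCombination ℂ w y := by
    intro m y hy
    rw [Finsupp.linearCombination_apply, Finsupp.sum, map_sum]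
    refine Finset.sum_congr rfl (fun j hj => ?_)
    rw [map_smul, hA.low m j (hy j hj)]
  have hhigh : ∀ (m : ℕ) (y : ℕ →₀ ℂ), (∀ j ∈ y.support, c m ≤ j) →
      P m (Finsupp.linearCombination ℂ w y) = 0 := by
    intro m y hy
    rw [Finsupp.linearCombination_apply, Finsupp.sum, map_sum]
    refine Finset.sum_eq_zero (fun j hj => ?_)
    rw [map_smul, hA.high m j (hy j hj), smul_zero]
  refine ⟨?_, ?_, ?_⟩
  · intro s t hst ht
    obtain ⟨r, hr, rfl⟩ := ug1_prefix c κ n t ht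
    obtain ⟨r', hr', rfl⟩ := ug1_prefix c κ r s hst
    rw [ug1_lc c κ hc0, ug1_lc c κ hc0]
    exact hcm hr'
  · intro s t hst ht hs y hy
    obtain ⟨r, hr, rfl⟩ := ug1_prefix c κ n t ht
    obtain ⟨r', hr', rfl⟩ := ug1_prefix c κ r s hst
    obtain ⟨a, rfl⟩ := ug1_nil c κ r' hs
    obtain ⟨b, rfl⟩ : ∃ b, r = b + 1 := ⟨r - 1, by omega⟩
    rw [ug1_lc c κ hc0] at hy
    rw [ug1_lcode, ug1_lcode]
    have h1 : ∀ j ∈ y.support, j < c (b + 1) := fun j hj => (hy j hj).trans_le (hcm hr')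
    exact (hκ b y h1).2.trans (hκ a y hy).1
  · intro t ht ht0 c' hc' hex k v hv
    obtain ⟨r, hr, rfl⟩ := ug1_prefix c κ n t ht
    obtain ⟨b, rfl⟩ := ug1_nil c κ r ht0
    rw [ug1_lcode]
    have hex' : ∀ m, ∃ r, c r = c' m := by
      intro m
      obtain ⟨s, hs, hs'⟩ := hex m
      obtain ⟨r', hr', rfl⟩ := ug1_prefix c κ (b + 1) s hs
      rw [ug1_lc c κ hc0] at hs'
      exact ⟨r', hs'⟩
    have hex'' : ∀ m, ∃ r ≤ b + 1, c r = c' m := by
      intro m
      obtain ⟨s, hs, hs'⟩ := hex m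
      obtain ⟨r', hr', rfl⟩ := ug1_prefix c κ (b + 1) s hs
      rw [ug1_lc c κ hc0] at hs'
      exact ⟨r', hr', hs'⟩
    set ρ : ℕ → ℕ := fun m => Nat.find (hex' m) with hρ
    have hρc : ∀ m, c (ρ m) = c' m := fun m => Nat.find_spec (hex' m)
    have hρb : ∀ m, ρ m ≤ b + 1 := by
      intro m
      obtain ⟨r', hr', h2⟩ := hex'' m
      exact (Nat.find_min' (hex' m) h2).trans hr'
    have hρm : Monotone ρ := by
      intro m m' hmm
      by_contra hcon
      push Not at hcon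
      have h2 : c (ρ m') ≤ c (ρ m) := hcm hcon.le
      rw [hρc, hρc] at h2
      have h3 : c' m' = c' m := le_antisymm h2 (hc' hmm)
      have h4 : ρ m ≤ ρ m' := Nat.find_min' (hex' m) ((hρc m').trans h3)
      omega
    have hvb : ∀ i, ∀ j ∈ (v i).support, j < c (b + 1) := by
      intro i j hj
      have h2 := (hv i j hj).2
      rw [← hρc] at h2
      exact h2.trans_le (hcm (hρb _))
    have hsum : ∀ j ∈ (∑ i ∈ Finset.range k, v i).support, j < c (b + 1) := by
      intro j hj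
      have h2 := Finsupp.support_finsetSum hj
      rw [Finset.mem_biUnion] at h2
      obtain ⟨i, _, hi⟩ := h2
      exact hvb i j hi
    have hup := hPC.upper ρ hρm k (fun i => Finsupp.linearCombination ℂ w (v i))
      (fun i => hlow _ _ (fun j hj => by rw [hρc]; exact (hv i j hj).2))
      (fun i => hhigh _ _ (fun j hj => by rw [hρc]; exact (hv i j hj).1))
    rw [one_mul] at hup
    have h5 : cn (κ b) (∑ i ∈ Finset.range k, v i) ≤
        ‖∑ i ∈ Finset.range k, Finsupp.linearCombination ℂ w (v i)‖ := by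
      have h6 := (hκ b _ hsum).2
      rwa [map_sum (Finsupp.linearCombination ℂ w)] at h6
    have hp0 : 0 ≤ p := by linarith
    calc cn (κ b) (∑ i ∈ Finset.range k, v i) ^ p
        ≤ ‖∑ i ∈ Finset.range k, Finsupp.linearCombination ℂ w (v i)‖ ^ p :=
          Real.rpow_le_rpow (apply_nonneg _ _) h5 hp0
      _ ≤ ∑ i ∈ Finset.range k, ‖Finsupp.linearCombination ℂ w (v i)‖ ^ p := hup
      _ ≤ ∑ i ∈ Finset.range k, 2 ^ p * cn (κ b) (v i) ^ p := by
          refine Finset.sum_le_sum (fun i _ => ?_)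
          rw [← Real.mul_rpow (by norm_num) (apply_nonneg _ _)]
          exact Real.rpow_le_rpow (norm_nonneg _) (hκ b (v i) (hvb i)).1 hp0
      _ = 2 ^ p * ∑ i ∈ Finset.range k, cn (κ b) (v i) ^ p := by
          rw [Finset.mul_sum]

end Pool.Agent.H272.UU
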