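import Pool.Agent.H272.UU.Defs

set_option autoImplicit false

namespace Pool.Agent.H272.UU

open Filter Topology Pool.Agent.H272.IS
open scoped Classical

/-- the list of the cuts and codes -/
def ug2_l (c κ : ℕ → ℕ) (n : ℕ) : List (ℕ × ℕ) := (List.range n).map fun i => (c (i + 1), κ i)

theorem ug2_take (c κ : ℕ → ℕ) (m n : ℕ) : (ug2_l c κ n).take m = ug2_l c κ (min m n) := by
  unfold ug2_l
  rw [← List.map_take, List.take_range]

theorem ug2_prefix (c κ : ℕ → ℕ) (n : ℕ) (s : List (ℕ × ℕ)) (h : s <+: ug2_l c κ n) :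
    ∃ m ≤ n, s = ug2_l c κ m := by
  have h1 := List.prefix_iff_eq_take.1 h
  rw [ug2_take] at h1
  exact ⟨min s.length n, min_le_right _ _, h1⟩

theorem ug2_le (c κ : ℕ → ℕ) {m n : ℕ} (h : m ≤ n) : ug2_l c κ m <+: ug2_l c κ n := by
  have h1 : ug2_l c κ m = (ug2_l c κ n).take m := by rw [ug2_take, min_eq_left h]
  rw [h1]
  exact List.take_prefix _ _

theorem ug2_length (c κ : ℕ → ℕ) (n : ℕ) : (ug2_l c κ n).length = n := by simp [ug2_l]

theorem ug2_ne (c κ : ℕ → ℕ) (n : ℕ) : ug2_l c κ (n + 1) ≠ [] := by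
  intro h
  have := ug2_length c κ (n + 1)
  rw [h] at this
  simp at this

theorem ug2_succ (c κ : ℕ → ℕ) (n : ℕ) : ug2_l c κ (n + 1) = ug2_l c κ n ++ [(c (n + 1), κ n)] := by
  unfold ug2_l
  rw [List.range_succ, List.map_append]
  rfl

theorem ug2_lc (c κ : ℕ → ℕ) (h0 : c 0 = 0) (n : ℕ) : lc (ug2_l c κ n) = c n := by
  cases n with
  | zero => simp [ug2_l, lc, h0]
  | succ n => rw [ug2_succ]; simp [lc]

theorem ug2_lcode (c κ : ℕ → ℕ) (n : ℕ) : lcode (ug2_l c κ (n + 1)) = κ n := by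
  rw [ug2_succ]; simp [lcode]

theorem ug2_dropLast (c κ : ℕ → ℕ) (n : ℕ) : (ug2_l c κ (n + 1)).dropLast = ug2_l c κ n := by
  rw [ug2_succ, List.dropLast_concat]

theorem ug2 (h : UG1) : UG2 := by
  intro p q hp hpq cn D hν hN W _ _ P hPQ hP0 w c hA κ hκ
  have hadm : ∀ n, Adm p cn (ug2_l c κ n) := h p q hp hpq cn W P hPQ hP0 w c hA κ hκ
  obtain ⟨t, ht⟩ : ∃ t : ℕ → Node p cn, ∀ n, (t n).1 = ug2_l c κ (n + 1) :=
    ⟨fun n => ⟨ug2_l c κ (n + 1), ug2_ne c κ n, hadm (n + 1)⟩, fun n => rfl⟩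
  have htle : ∀ m n, m ≤ n → t m ≤ t n := by
    intro m n hmn
    show (t m).1 <+: (t n).1
    rw [ht, ht]
    exact ug2_le c κ (by omega)
  have htge : ∀ m n, t m ≤ t n → m ≤ n := by
    intro m n hmn
    have h1 : (t m).1 <+: (t n).1 := hmn
    have h2 := h1.length_le
    rw [ht, ht, ug2_length, ug2_length] at h2
    omega
  have hinit : ∀ n s, s ≤ t n → ∃ m, s = t m := by
    intro n s hs
    have h1 : s.1 <+: (t n).1 := hs
    rw [ht] at h1
    obtain ⟨m, hm, h2⟩ := ug2_prefix c κ _ _ h1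
    cases m with
    | zero => exact absurd h2 s.2.1
    | succ m => exact ⟨m, Subtype.ext (h2.trans (ht m).symm)⟩
  have hlc : ∀ n, lc (t n).1 = c (n + 1) := fun n => by rw [ht, ug2_lc c κ hA.zero]
  have hlcd : ∀ n, lc (t n).1.dropLast = c n := fun n => by
    rw [ht, ug2_dropLast, ug2_lc c κ hA.zero]
  have hlcode : ∀ n, lcode (t n).1 = κ n := fun n => by rw [ht, ug2_lcode]
  -- the map
  set b : (Coord p cn →₀ ℂ) →ₗ[ℂ] W := Finsupp.lsum ℂ fun j =>
    if ∃ n, j.1.1 = t n then LinearMap.toSpanSingleton ℂ W (w j.1.2) else 0 with hb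
  have hb1 : ∀ (j : Coord p cn) (a : ℂ), (∃ n, j.1.1 = t n) → b (Finsupp.single j a) = a • w j.1.2 := by
    intro j a hj
    rw [hb, Finsupp.lsum_single, if_pos hj, LinearMap.toSpanSingleton_apply]
  have hb0 : ∀ (j : Coord p cn) (a : ℂ), (¬ ∃ n, j.1.1 = t n) → b (Finsupp.single j a) = 0 := by
    intro j a hj
    rw [hb, Finsupp.lsum_single, if_neg hj, LinearMap.zero_apply]
  have hpv1 : ∀ (s : Node p cn) (j : Coord p cn) (a : ℂ), j.1.1 ≤ s →
      pathVec s (Finsupp.single j a) = Finsupp.single j.1.2 a := by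
    intro s j a hj
    unfold pathVec
    rw [Finsupp.lsum_single, if_pos hj, Finsupp.lsingle_apply]
  have hpv0 : ∀ (s : Node p cn) (j : Coord p cn) (a : ℂ), ¬ j.1.1 ≤ s →
      pathVec s (Finsupp.single j a) = 0 := by
    intro s j a hj
    unfold pathVec
    rw [Finsupp.lsum_single, if_neg hj, LinearMap.zero_apply]
  have hlt : ∀ n (j : Coord p cn), j.1.1 ≤ t n → j.1.2 < c (n + 1) := by
    intro n j hj
    obtain ⟨m, hm⟩ := hinit n _ hj
    have h1 := j.2.2
    rw [hm, hlc] at h1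
    rw [hm] at hj
    exact lt_of_lt_of_le h1 (hA.mono (by have := htge m n hj; omega))
  -- the support of the path vector
  have hsupp : ∀ n (x : Coord p cn →₀ ℂ), ∀ k ∈ (pathVec (t n) x).support, k < c (n + 1) := by
    intro n x
    have h1 : pathVec (t n) x ∈ Finsupp.supported ℂ ℂ {k : ℕ | k < c (n + 1)} := by
      induction x using Finsupp.induction_linear with
      | zero => rw [map_zero]; exact Submodule.zero_mem _
      | add f g hf hg => rw [map_add]; exact Submodule.add_mem _ hf hg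
      | single j a =>
        by_cases hj : j.1.1 ≤ t n
        · rw [hpv1 _ _ _ hj]
          exact Finsupp.single_mem_supported ℂ a (hlt n j hj)
        · rw [hpv0 _ _ _ hj]
          exact Submodule.zero_mem _
    intro k hk
    exact (Finsupp.mem_supported ℂ _).1 h1 hk
  -- the value of `b`
  have hval : ∀ n (x : Coord p cn →₀ ℂ), (∀ j ∈ x.support, D.ν j ≤ t n) →
      b x = Finsupp.linearCombination ℂ w (pathVec (t n) x) := by
    intro n x hx
    have h1 : x = x.sum fun j a => Finsupp.single j a := x.sum_single.symm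
    rw [h1, map_finsuppSum, map_finsuppSum, map_finsuppSum]
    refine Finsupp.sum_congr fun j hj => ?_
    have h2 := hx j hj
    rw [hν] at h2
    obtain ⟨m, hm⟩ := hinit n _ h2
    rw [hb1 j _ ⟨m, hm⟩, hpv1 _ _ _ h2, Finsupp.linearCombination_single]
  refine ⟨t, b, ?_, hinit, ?_, ?_, ?_, ?_, ?_, ?_⟩
  · intro m n hmn
    exact lt_of_le_of_ne (htle m n hmn.le) fun h' => by
      have := htge n m h'.ge
      omega
  · intro j hj
    refine hb0 j 1 ?_
    rintro ⟨n, hn⟩
    exact hj n ((hν j).trans hn)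
  · intro n j hj
    rw [hν] at hj
    obtain ⟨m, hm⟩ := hinit n _ hj
    rw [hb1 j 1 ⟨m, hm⟩, one_smul]
    exact hA.low (n + 1) _ (hlt n j hj)
  · intro n j hj
    rw [hν] at hj
    by_cases hm : ∃ m, j.1.1 = t m
    · rw [hb1 j 1 hm, one_smul]
      obtain ⟨m, hm⟩ := hm
      refine hA.high (n + 1) _ ?_
      have h1 := j.2.1
      rw [hm, hlcd] at h1
      rw [hm] at hj
      have h2 : n + 1 ≤ m := by
        by_contra h3
        exact hj (htle m n (by omega))
      exact (hA.mono h2).trans h1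
    · rw [hb0 j 1 hm, map_zero]
  · intro n x hx
    rw [hN, hlcode, hval n x hx]
    exact (hκ n _ (hsupp n x)).2
  · intro n x hx
    rw [hN, hlcode, hval n x hx]
    exact (hκ n _ (hsupp n x)).1
  · -- density
    have hw : ∀ k, (∃ n, k < c n) → w k ∈ LinearMap.range b := by
      intro k hk
      have h1 := Nat.find_spec hk
      have h2 : Nat.find hk ≠ 0 := by
        intro h3
        rw [h3, hA.zero] at h1
        omega
      obtain ⟨m, hm⟩ := Nat.exists_eq_succ_of_ne_zero h2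
      have h3 : c m ≤ k := by
        by_contra h4
        have h5 := Nat.find_min' hk (not_le.1 h4)
        omega
      rw [hm] at h1
      have h4 : lc (t m).1.dropLast ≤ k := by rw [hlcd]; exact h3
      have h5 : k < lc (t m).1 := by rw [hlc]; exact h1
      obtain ⟨j, hj⟩ : ∃ j : Coord p cn, j.1 = (t m, k) := ⟨⟨(t m, k), h4, h5⟩, rfl⟩
      refine ⟨Finsupp.single j 1, ?_⟩
      have h6 : j.1.1 = t m := congrArg Prod.fst hj
      have h7 : j.1.2 = k := congrArg Prod.snd hj
      rw [hb1 j 1 ⟨m, h6⟩, h7, one_smul]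
    have hr : ∀ n x, P n x ∈ LinearMap.range b := by
      intro n x
      have h1 : P n x ∈ LinearMap.range (P n : W →ₗ[ℂ] W) := ⟨x, rfl⟩
      rw [← hA.span n] at h1
      refine (Submodule.span_le.2 ?_) h1
      rintro _ ⟨k, hk, rfl⟩
      exact hw k ⟨n, hk⟩
    intro x
    refine mem_closure_of_tendsto (hPQ.tend x) (Eventually.of_forall fun n => ?_)
    obtain ⟨y, hy⟩ := hr n x
    exact ⟨y, hy⟩

end Pool.Agent.H272.UU
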