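import Pool.Agent.H272.UU.Defs3

/-!
# UP: addition of the summand `ℓ_p`
-/

set_option autoImplicit false

namespace Pool.Agent.H272.UU

open Filter Topology Pool.Agent.H272.IS
open scoped Classical

theorem UP_mink {s x y x' y' : ℝ} (hs : 1 ≤ s) (hx : 0 ≤ x) (hy : 0 ≤ y) (hx' : 0 ≤ x')
    (hy' : 0 ≤ y') : ((x + y) ^ s + (x' + y') ^ s) ^ (1 / s) ≤
      (x ^ s + x' ^ s) ^ (1 / s) + (y ^ s + y' ^ s) ^ (1 / s) := by
  have h := Real.Lp_add_le_of_nonneg (s := (Finset.univ : Finset (Fin 2))) (f := ![x, x'])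
    (g := ![y, y']) hs (by intro i _; fin_cases i <;> simpa)
    (by intro i _; fin_cases i <;> simpa)
  simpa [Fin.sum_univ_two] using h

theorem UP_lower {p q a a' A b b' B : ℝ} (hp : 0 < p) (hpq : p ≤ q) (ha : 0 ≤ a) (ha' : 0 ≤ a')
    (hA : 0 ≤ A) (hb : 0 ≤ b) (hb' : 0 ≤ b') (hB : 0 ≤ B) (h1 : a ^ q + a' ^ q ≤ A ^ q)
    (h2 : b ^ p + b' ^ p ≤ B ^ p) :
    (a ^ p + b ^ p) ^ (q / p) + (a' ^ p + b' ^ p) ^ (q / p) ≤ (A ^ p + B ^ p) ^ (q / p) := by
  set s : ℝ := q / p with hs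
  have hs1 : 1 ≤ s := by
    rw [hs, le_div_iff₀ hp, one_mul]
    exact hpq
  have hs0 : 0 < s := by linarith
  have e : ∀ x : ℝ, 0 ≤ x → (x ^ p) ^ s = x ^ q := by
    intro x hx
    rw [← Real.rpow_mul hx, hs, mul_div_cancel₀ _ hp.ne']
  have e1 : ∀ x : ℝ, 0 ≤ x → (x ^ s) ^ (1 / s) = x := by
    intro x hx
    rw [← Real.rpow_mul hx, mul_one_div_cancel hs0.ne', Real.rpow_one]
  have e2 : ∀ x : ℝ, 0 ≤ x → (x ^ (1 / s)) ^ s = x := by
    intro x hx
    rw [← Real.rpow_mul hx, one_div_mul_cancel hs0.ne', Real.rpow_one]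
  have pa := Real.rpow_nonneg ha p
  have pa' := Real.rpow_nonneg ha' p
  have pb := Real.rpow_nonneg hb p
  have pb' := Real.rpow_nonneg hb' p
  have pA := Real.rpow_nonneg hA p
  have pB := Real.rpow_nonneg hB p
  have m := UP_mink hs1 pa pb pa' pb'
  have h1s : 0 ≤ 1 / s := by positivity
  have m1 : ((a ^ p) ^ s + (a' ^ p) ^ s) ^ (1 / s) ≤ A ^ p := by
    have h3 : ((a ^ p) ^ s + (a' ^ p) ^ s) ^ (1 / s) ≤ ((A ^ p) ^ s) ^ (1 / s) := by
      apply Real.rpow_le_rpow (by positivity) _ h1s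
      rw [e a ha, e a' ha', e A hA]
      exact h1
    rwa [e1 _ pA] at h3
  have m2 : ((b ^ p) ^ s + (b' ^ p) ^ s) ^ (1 / s) ≤ B ^ p := by
    have h3 : ((b ^ p) ^ s + (b' ^ p) ^ s) ^ (1 / s) ≤ ((B ^ p) ^ s) ^ (1 / s) := by
      apply Real.rpow_le_rpow (by positivity) _ h1s
      exact (Real.add_rpow_le_rpow_add pb pb' hs1).trans
        (Real.rpow_le_rpow (add_nonneg pb pb') h2 hs0.le)
    rwa [e1 _ pB] at h3
  have hL0 : 0 ≤ (a ^ p + b ^ p) ^ s + (a' ^ p + b' ^ p) ^ s := by positivity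
  rw [← e2 _ hL0]
  exact Real.rpow_le_rpow (Real.rpow_nonneg hL0 _) (m.trans (add_le_add m1 m2)) hs0.le

section sum

variable {W Z : Type} [NormedAddCommGroup W] [NormedSpace ℂ W] [NormedAddCommGroup Z]
  [NormedSpace ℂ Z] (e : ENNReal) [Fact (1 ≤ e)]

/-- the sum of two operators -/
noncomputable def UP_P (P : W →L[ℂ] W) (Q : Z →L[ℂ] Z) :
    WithLp e (W × Z) →L[ℂ] WithLp e (W × Z) :=
  ((WithLp.prodContinuousLinearEquiv e ℂ W Z).symm : (W × Z) →L[ℂ] WithLp e (W × Z)).comp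
    ((P.prodMap Q).comp
      ((WithLp.prodContinuousLinearEquiv e ℂ W Z) : WithLp e (W × Z) →L[ℂ] (W × Z)))

theorem UP_P_apply (P : W →L[ℂ] W) (Q : Z →L[ℂ] Z) (x : WithLp e (W × Z)) :
    UP_P e P Q x = WithLp.toLp e (P x.fst, Q x.snd) := rfl

theorem UP_norm (he : 0 < e.toReal) (x : WithLp e (W × Z)) :
    ‖x‖ ^ e.toReal = ‖x.fst‖ ^ e.toReal + ‖x.snd‖ ^ e.toReal := by
  rw [WithLp.prod_norm_eq_add he, ← Real.rpow_mul (by positivity), one_div_mul_cancel he.ne',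
    Real.rpow_one]

theorem UP_pq {p q : ℝ} (he : e.toReal = p) (hp : 1 < p) (hpq : p ≤ q) {P : ℕ → (W →L[ℂ] W)}
    {Q : ℕ → (Z →L[ℂ] Z)} (hP : PQ p q P) (hQ : PDec p Q) :
    PQ p q (fun n => UP_P e (P n) (Q n)) := by
  have hp0 : 0 < p := by linarith
  have hN : ∀ x : WithLp e (W × Z), ‖x‖ ^ p = ‖x.fst‖ ^ p + ‖x.snd‖ ^ p := by
    intro x
    rw [← he]
    exact UP_norm e (by rw [he]; exact hp0) x
  have hNq : ∀ x : WithLp e (W × Z), ‖x‖ ^ q = (‖x.fst‖ ^ p + ‖x.snd‖ ^ p) ^ (q / p) := by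
    intro x
    rw [← hN, ← Real.rpow_mul (norm_nonneg _), mul_div_cancel₀ _ hp0.ne']
  refine ⟨fun m n x => ?_, fun x => ?_, fun n => ?_, fun n x => ?_, fun n x => ?_⟩
  · simp only [UP_P_apply, WithLp.toLp_fst, WithLp.toLp_snd, hP.comp, hQ.comp]
  · have h1 : Tendsto (fun n => (P n x.fst, Q n x.snd)) atTop (𝓝 (x.fst, x.snd)) :=
      (hP.tend x.fst).prodMk_nhds (hQ.tend x.snd)
    exact ((WithLp.prod_continuous_toLp e W Z).tendsto _).comp h1
  · have := hP.fin n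
    have := hQ.fin n
    let A : (LinearMap.range (P n : W →ₗ[ℂ] W) × LinearMap.range (Q n : Z →ₗ[ℂ] Z)) →ₗ[ℂ]
        WithLp e (W × Z) :=
      (WithLp.linearEquiv e ℂ (W × Z)).symm.toLinearMap ∘ₗ
        (LinearMap.prodMap (Submodule.subtype _) (Submodule.subtype _))
    have hle : LinearMap.range (UP_P e (P n) (Q n) : WithLp e (W × Z) →ₗ[ℂ] WithLp e (W × Z)) ≤
        LinearMap.range A := by
      rintro _ ⟨x, rfl⟩
      exact ⟨(⟨P n x.fst, x.fst, rfl⟩, ⟨Q n x.snd, x.snd, rfl⟩), rfl⟩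
    exact Submodule.finiteDimensional_of_le hle
  · simp only [hNq]
    exact UP_lower hp0 hpq (norm_nonneg _) (norm_nonneg _) (norm_nonneg _) (norm_nonneg _)
      (norm_nonneg _) (norm_nonneg _) (hP.lower n x.fst) (hQ.add n x.snd).ge
  · simp only [hN]
    have h1 := hP.upper n x.fst
    have h2 := hQ.add n x.snd
    simp only [UP_P_apply, WithLp.sub_fst, WithLp.sub_snd, WithLp.toLp_fst, WithLp.toLp_snd]
    linarith

theorem UP_not_fd : ¬ FiniteDimensional ℂ (lp (fun _ : ℕ => ℂ) e) := by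
  intro hfd
  have hli : LinearIndependent ℂ
      (fun n : ℕ => (lp.single e n (1 : ℂ) : lp (fun _ : ℕ => ℂ) e)) := by
    rw [linearIndependent_iff']
    intro s b hb j hj
    have h1 := congrArg (fun x : lp (fun _ : ℕ => ℂ) e => x j) hb
    simp only [lp.coeFn_sum, Finset.sum_apply, lp.coeFn_smul, Pi.smul_apply, lp.single_apply,
      smul_eq_mul, lp.coeFn_zero, Pi.zero_apply] at h1
    rw [Finset.sum_eq_single j] at h1
    · simpa using h1
    · intro l _ hlj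
      rw [Pi.single_eq_of_ne (Ne.symm hlj), mul_zero]
    · intro hcon
      exact absurd hj hcon
  have := hli.finite_of_isNoetherian
  exact not_finite ℕ

end sum

theorem up : UP := by
  intro W _ _ _ p q P hp hpq hP
  have h1e : (1 : ENNReal) ≤ ENNReal.ofReal p := by
    rw [← ENNReal.ofReal_one]
    exact ENNReal.ofReal_le_ofReal hp.le
  have : Fact (1 ≤ ENNReal.ofReal p) := ⟨h1e⟩
  have he : (ENNReal.ofReal p).toReal = p := ENNReal.toReal_ofReal (by linarith)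
  have h2e : 1 < ENNReal.ofReal p := by
    rw [← ENNReal.ofReal_one]
    exact (ENNReal.ofReal_lt_ofReal_iff (by linarith)).2 hp
  have hQ := pdec_lp (fun _ : ℕ => ℂ) (ENNReal.ofReal p) h2e ENNReal.ofReal_ne_top
  rw [he] at hQ
  generalize ENNReal.ofReal p = e at *
  let Z : Type := lp (fun _ : ℕ => ℂ) e
  let i : W →L[ℂ] WithLp e (W × Z) :=
    ((WithLp.prodContinuousLinearEquiv e ℂ W Z).symm : (W × Z) →L[ℂ] WithLp e (W × Z)).comp
      (ContinuousLinearMap.inl ℂ W Z)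
  let r : WithLp e (W × Z) →L[ℂ] W := WithLp.fstL e ℂ W Z
  refine ⟨WithLp e (W × Z), inferInstance, inferInstance, inferInstance,
    fun n => UP_P e (P n) (lpP (fun _ : ℕ => ℂ) e n), i, r, UP_pq e he hp hpq hP hQ,
    fun w => rfl, ?_, ?_, ?_⟩
  · refine ContinuousLinearMap.opNorm_le_bound _ zero_le_one (fun w => ?_)
    rw [one_mul]
    exact (WithLp.norm_toLp_fst e W Z w).le
  · refine ContinuousLinearMap.opNorm_le_bound _ zero_le_one (fun x => ?_)
    rw [one_mul]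
    exact WithLp.norm_fst_le W x
  · intro hfd
    let j : Z →ₗ[ℂ] LinearMap.ker (r : WithLp e (W × Z) →ₗ[ℂ] W) :=
      { toFun := fun z => ⟨WithLp.toLp e (0, z), rfl⟩
        map_add' := by
          intro z z'
          apply Subtype.ext
          change WithLp.toLp e ((0 : W), z + z') = WithLp.toLp e (0, z) + WithLp.toLp e (0, z')
          rw [← WithLp.toLp_add, Prod.mk_add_mk, add_zero]
        map_smul' := by
          intro c z
          apply Subtype.ext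
          change WithLp.toLp e ((0 : W), c • z) = c • WithLp.toLp e (0, z)
          rw [← WithLp.toLp_smul, Prod.smul_mk, smul_zero] }
    have hj : Function.Injective j := by
      intro z z' h
      exact congrArg (fun x : LinearMap.ker (r : WithLp e (W × Z) →ₗ[ℂ] W) =>
        (x : WithLp e (W × Z)).snd) h
    exact UP_not_fd e (FiniteDimensional.of_injective j hj)

end Pool.Agent.H272.UU
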