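import Pool.Agent.H272.UU.T1
import Pool.Agent.H272.UU.UA1
import Pool.Agent.H272.UU.UA2
import Pool.Agent.H272.UU.UA3
import Pool.Agent.H272.UU.UB
import Pool.Agent.H272.UU.UC1
import Pool.Agent.H272.UU.UC2
import Pool.Agent.H272.UU.UC3
import Pool.Agent.H272.UU.UD
import Pool.Agent.H272.UU.UE
import Pool.Agent.H272.UU.UF
import Pool.Agent.H272.UU.UG1
import Pool.Agent.H272.UU.UG2

/-!
# UU: the universal space for `(p,q)`-decompositions
-/

set_option autoImplicit false

namespace Pool.Agent.H272.UU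

open Filter Topology Pool.Agent.H272.IS
open scoped Classical

/-- the shifted decomposition -/
noncomputable def shift {W : Type*} [NormedAddCommGroup W] [NormedSpace ℂ W]
    (P : ℕ → (W →L[ℂ] W)) : ℕ → (W →L[ℂ] W)
  | 0 => 0
  | n + 1 => P n

theorem pq_shift {W : Type*} [NormedAddCommGroup W] [NormedSpace ℂ W] {p q : ℝ} (hp : 1 < p)
    (hpq : p ≤ q) {P : ℕ → (W →L[ℂ] W)} (h : PQ p q P) : PQ p q (shift P) := by
  have hp0 : p ≠ 0 := by positivity
  have hq0 : q ≠ 0 := by
    have : 0 < q := by linarith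
    exact this.ne'
  refine ⟨?_, ?_, ?_, ?_, ?_⟩
  · intro m n x
    cases m with
    | zero => simp [shift]
    | succ m =>
      cases n with
      | zero => simp [shift]
      | succ n =>
        change P m (P n x) = shift P (min (m + 1) (n + 1)) x
        rw [Nat.succ_min_succ]
        exact h.comp m n x
  · intro x
    rw [← tendsto_add_atTop_iff_nat 1]
    exact h.tend x
  · intro n
    cases n with
    | zero =>
      have : LinearMap.range ((shift P 0 : W →L[ℂ] W) : W →ₗ[ℂ] W) = ⊥ := by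
        rw [eq_bot_iff]
        rintro _ ⟨x, rfl⟩
        simp [shift]
      rw [this]
      infer_instance
    | succ n => exact h.fin n
  · intro n x
    cases n with
    | zero => simp [shift, Real.zero_rpow hq0]
    | succ n => exact h.lower n x
  · intro n x
    cases n with
    | zero => simp [shift, Real.zero_rpow hp0]
    | succ n => exact h.upper n x

/-- **The universal space.** -/
theorem exists_univ (p q : ℝ) (hp : 1 < p) (hpq : p ≤ q) :
    ∃ (U : Type) (_ : NormedAddCommGroup U) (_ : NormedSpace ℂ U) (_ : CompleteSpace U)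
      (_ : TopologicalSpace.SeparableSpace U) (PU : ℕ → (U →L[ℂ] U)), PQC p q (2 ^ p) PU ∧
      ∀ (W : Type) [NormedAddCommGroup W] [NormedSpace ℂ W] [CompleteSpace W]
        (P : ℕ → (W →L[ℂ] W)), PQ p q P →
        ∃ (i : W →L[ℂ] U) (r : U →L[ℂ] W), (∀ w, r (i w) = w) ∧ ‖i‖ ≤ 2 ∧ ‖r‖ ≤ 2 := by
  obtain ⟨cn, hcn⟩ := ue
  obtain ⟨D, hν, hN⟩ := ud p cn hp
  obtain ⟨U, i1, i2, i3, i4, e, he⟩ := ub1 ua1 p (2 ^ p) q _ _ D hp hpq
  have hC : (0 : ℝ) ≤ 2 ^ p := by positivity
  obtain ⟨PU, hPU⟩ := ub2 ua1 ua2 ua3 p (2 ^ p) q _ _ D hp hpq hC U e he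
  refine ⟨U, i1, i2, i3, i4, PU, hPU, ?_⟩
  intro W _ _ _ P hP
  have hP' : PQ p q (shift P) := pq_shift hp hpq hP
  obtain ⟨w, c, hA⟩ := uf W p q (shift P) hP' rfl
  have hex : ∀ n, ∃ k, ∀ y : ℕ →₀ ℂ, (∀ j ∈ y.support, j < c (n + 1)) →
      ‖Finsupp.linearCombination ℂ w y‖ ≤ 2 * cn k y ∧
        cn k y ≤ ‖Finsupp.linearCombination ℂ w y‖ := by
    intro n
    have h1 := hcn (c (n + 1)) ((normSeminorm ℂ W).comp (Finsupp.linearCombination ℂ w)) ?_
    · exact h1
    · intro y hy h0
      have h2 : Finsupp.linearCombination ℂ w y = 0 := by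
        have : ‖Finsupp.linearCombination ℂ w y‖ = 0 := h0
        exact norm_eq_zero.1 this
      have h3 := hA.indep (n + 1)
      rw [Fintype.linearIndependent_iff] at h3
      have h4 : ∑ k : Fin (c (n + 1)), y k • w k = 0 := by
        rw [Finsupp.linearCombination_apply, Finsupp.sum_of_support_subset y
          (s := Finset.range (c (n + 1))) (fun j hj => Finset.mem_range.2 (hy j hj)) _ (by simp)]
          at h2
        rw [← h2]
        exact Fin.sum_univ_eq_sum_range (fun k => y k • w k) (c (n + 1))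
      have h5 := h3 (fun k => y k) h4
      ext k
      by_cases hk : k < c (n + 1)
      · exact h5 ⟨k, hk⟩
      · by_contra hcon
        exact hk (hy k (Finsupp.mem_support_iff.2 hcon))
  choose κ hκ using hex
  obtain ⟨t, b, hB⟩ := ug2 (ug1 t1b) p q hp hpq cn D hν hN W (shift P) hP' rfl w c hA κ hκ
  have hbdd := (ua1 p (2 ^ p) q _ _ D hp hpq).1
  have hb1 := uc2 p (2 ^ p) q _ _ D hp hpq hbdd W (fun n => shift P (n + 1)) t b hB
  have hb2 := uc3 uc1 p (2 ^ p) q _ _ D hp hpq hbdd W (fun n => shift P (n + 1)) hP t b hB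
  exact uc4 p (2 ^ p) q _ _ D W (fun n => shift P (n + 1)) t b hB hb1 hb2 U e he

end Pool.Agent.H272.UU
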