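import Pool.Agent.H272.UU.Defs4

/-!
# The norm of the universal space is a finite seminorm; restriction to lower sets
-/

set_option autoImplicit false

namespace Pool.Agent.H272.UU

open Filter Topology Pool.Agent.H272.IS
open scoped Classical

theorem VA_single {ι J : Type} [PartialOrder ι] (D : TD ι J) (t : ι) (j : J) (c : ℂ) :
    D.N t (Finsupp.single j c) ≤ 2 * (‖c‖ * D.N (D.ν j) (Finsupp.single j 1)) := by
  by_cases h : D.ν j ≤ t
  · have h1 := D.mono (D.ν j) t h (Finsupp.single j c) (fun k hk => by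
      have hk' : k = j := Finset.mem_singleton.1 (Finsupp.support_single_subset hk)
      rw [hk'])
    have h2 : (Finsupp.single j c : J →₀ ℂ) = c • Finsupp.single j 1 := by
      rw [Finsupp.smul_single, smul_eq_mul, mul_one]
    have h3 : D.N (D.ν j) (Finsupp.single j c) = ‖c‖ * D.N (D.ν j) (Finsupp.single j 1) := by
      rw [h2, map_smul_eq_mul]
    rwa [h3] at h1
  · have h1 := D.dep t (Finsupp.single j c)
    have h2 : (Finsupp.single j c : J →₀ ℂ).filter (fun k => D.ν k ≤ t) = 0 :=
      Finsupp.filter_single_of_neg _ h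
    rw [h2, map_zero] at h1
    rw [← h1]
    exact mul_nonneg (by norm_num) (mul_nonneg (norm_nonneg _) (apply_nonneg _ _))

theorem VA_bdd {ι J : Type} [PartialOrder ι] (D : TD ι J) : D.Bdd := by
  intro x
  refine ⟨∑ j ∈ x.support, 2 * (‖x j‖ * D.N (D.ν j) (Finsupp.single j 1)), ?_⟩
  rintro _ ⟨t, rfl⟩
  change D.N t x ≤ _
  have h1 : x = ∑ j ∈ x.support, Finsupp.single j (x j) := (Finsupp.sum_single x).symm
  have h2 : D.N t (∑ j ∈ x.support, Finsupp.single j (x j)) ≤
      ∑ j ∈ x.support, D.N t (Finsupp.single j (x j)) :=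
    Finset.le_sum_of_subadditive (D.N t) (le_of_eq (map_zero (D.N t))) (fun a b => map_add_le_add (D.N t) a b) _ _
  calc D.N t x = D.N t (∑ j ∈ x.support, Finsupp.single j (x j)) := by rw [← h1]
    _ ≤ ∑ j ∈ x.support, D.N t (Finsupp.single j (x j)) := h2
    _ ≤ _ := Finset.sum_le_sum fun j _ => VA_single D t j (x j)

theorem va : VA := by
  intro ι J _ D
  refine ⟨VA_bdd D, ⨆ t, D.N t, fun x => ?_⟩
  exact Seminorm.iSup_apply (Seminorm.bddAbove_range_iff.2 (VA_bdd D))

theorem vb : VB := by
  intro ι J _ D hb S hS x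
  have h0 : 0 ≤ D.sig x := Real.iSup_nonneg fun t => apply_nonneg _ _
  have hle : ∀ s, D.N s x ≤ D.sig x := fun s => le_ciSup (hb x) s
  refine Real.iSup_le (fun t => ?_) (by linarith)
  rw [← D.dep t (D.res S x)]
  by_cases hne : {s | s ≤ t ∧ s ∈ S}.Nonempty
  · have hfin : {s | s ≤ t ∧ s ∈ S}.Finite := (D.below t).subset fun s hs => hs.1
    obtain ⟨s, hs⟩ := hfin.exists_maximal hne
    have hst : s ≤ t := hs.1.1
    have hsS : s ∈ S := hs.1.2
    have hiff : ∀ u, (u ∈ S ∧ u ≤ t) ↔ u ≤ s := by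
      intro u
      constructor
      · rintro ⟨h1, h2⟩
        rcases D.chain t u s h2 hst with h3 | h3
        · exact h3
        · exact hs.2 ⟨h2, h1⟩ h3
      · intro h1
        exact ⟨hS h1 hsS, h1.trans hst⟩
    have e : (D.res S x).filter (fun j => D.ν j ≤ t) = x.filter (fun j => D.ν j ≤ s) := by
      ext j
      unfold TD.res
      simp only [Finsupp.filter_apply]
      by_cases h : D.ν j ≤ s
      · obtain ⟨h1, h2⟩ := (hiff _).2 h
        rw [if_pos h2, if_pos h1, if_pos h]
      · rw [if_neg h]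
        by_cases h2 : D.ν j ≤ t
        · rw [if_pos h2, if_neg fun h1 => h ((hiff _).1 ⟨h1, h2⟩)]
        · rw [if_neg h2]
    rw [e]
    have h1 := D.mono s t hst (x.filter fun j => D.ν j ≤ s) (fun j hj => by
      rw [Finsupp.support_filter, Finset.mem_filter] at hj
      exact hj.2)
    rw [D.dep s x] at h1
    have := hle s
    linarith
  · have e : (D.res S x).filter (fun j => D.ν j ≤ t) = 0 := by
      ext j
      unfold TD.res
      simp only [Finsupp.filter_apply, Finsupp.coe_zero, Pi.zero_apply]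
      by_cases h2 : D.ν j ≤ t
      · rw [if_pos h2, if_neg fun h1 => hne ⟨_, h2, h1⟩]
      · rw [if_neg h2]
    rw [e, map_zero]
    linarith

end Pool.Agent.H272.UU
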