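import Pool.Agent.H272.UU.Defs4

set_option autoImplicit false

namespace Pool.Agent.H272.UU

open Filter Topology Pool.Agent.H272.IS
open scoped Classical

section

variable {ι J : Type} [PartialOrder ι] {D : TD ι J} {W : Type}
  [NormedAddCommGroup W] [NormedSpace ℂ W] {P : ℕ → (W →L[ℂ] W)} {t : ℕ → ι}
  {b : (J →₀ ℂ) →ₗ[ℂ] W}

lemma ve_sum (b : (J →₀ ℂ) →ₗ[ℂ] W) (x : J →₀ ℂ) :
    b x = ∑ j ∈ x.support, x j • b (Finsupp.single j 1) := by
  conv_lhs => rw [← Finsupp.sum_single x]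
  rw [Finsupp.sum, map_sum]
  refine Finset.sum_congr rfl fun j _ => ?_
  rw [← map_smul, Finsupp.smul_single, smul_eq_mul, mul_one]

lemma ve_res_apply (S : Set ι) (x : J →₀ ℂ) (j : J) :
    D.res S x j = if D.ν j ∈ S then x j else 0 := by
  unfold TD.res
  rw [Finsupp.filter_apply]

lemma ve_off (h : Branch2 D P t b) (x : J →₀ ℂ) : b (D.res (Set.range t) x) = b x := by
  have h0 : b (x - D.res (Set.range t) x) = 0 := by
    rw [ve_sum b]
    refine Finset.sum_eq_zero fun j _ => ?_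
    by_cases hj : D.ν j ∈ Set.range t
    · rw [Finsupp.sub_apply, ve_res_apply, if_pos hj, sub_self, zero_smul]
    · rw [h.off j (fun n hn => hj ⟨n, hn.symm⟩), smul_zero]
  rw [map_sub, sub_eq_zero] at h0
  exact h0.symm

/-- the nodes of the branch in the support are below a node of the branch -/
lemma ve_bound (h : Branch2 D P t b) (x : J →₀ ℂ) :
    ∃ n : ℕ, ∀ j, x j ≠ 0 → D.ν j ∈ Set.range t → D.ν j ≤ t n := by
  have hf : ∀ j : J, ∃ m : ℕ, D.ν j ∈ Set.range t → D.ν j ≤ t m := by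
    intro j
    by_cases hj : D.ν j ∈ Set.range t
    · obtain ⟨k, hk⟩ := hj
      exact ⟨k, fun _ => hk.ge⟩
    · exact ⟨0, fun h' => absurd h' hj⟩
  choose f hf using hf
  refine ⟨x.support.sup f, fun j hj hr => (hf j hr).trans (h.mono.monotone ?_)⟩
  exact Finset.le_sup (Finsupp.mem_support_iff.mpr hj)

lemma ve_res (h : Branch2 D P t b) (x : J →₀ ℂ) (n : ℕ)
    (hn : ∀ j, x j ≠ 0 → D.ν j ∈ Set.range t → D.ν j ≤ t n) :
    D.res {s | s ≤ t n} x = D.res (Set.range t) x := by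
  ext j
  rw [ve_res_apply, ve_res_apply]
  by_cases h1 : D.ν j ≤ t n
  · have h2 : D.ν j ∈ Set.range t := by
      obtain ⟨m, hm⟩ := h.init n _ h1
      exact ⟨m, hm.symm⟩
    rw [if_pos h2, if_pos (show D.ν j ∈ {s | s ≤ t n} from h1)]
  · rw [if_neg (show ¬ D.ν j ∈ {s | s ≤ t n} from h1)]
    by_cases h2 : D.ν j ∈ Set.range t
    · rw [if_pos h2]
      by_contra h3
      exact h1 (hn j (Ne.symm h3) h2)
    · rw [if_neg h2]

lemma ve_dep (s : ι) (x : J →₀ ℂ) : D.N s (D.res {a | a ≤ s} x) = D.N s x := by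
  have h1 : D.res {a | a ≤ s} x = x.filter fun j => D.ν j ≤ s := rfl
  rw [h1]
  exact D.dep s x

/-- a map bounded by a dense map extends -/
lemma ve_ext {V E G : Type} [AddCommGroup V] [Module ℂ V] [NormedAddCommGroup E]
    [NormedSpace ℂ E] [NormedAddCommGroup G] [NormedSpace ℂ G] [CompleteSpace G]
    (A : V →ₗ[ℂ] E) (B : V →ₗ[ℂ] G) (hA : DenseRange A) (h : ∀ x, ‖B x‖ ≤ 2 * ‖A x‖) :
    ∃ T : E →L[ℂ] G, (∀ x, T (A x) = B x) ∧ ‖T‖ ≤ 2 :=
  ⟨B.extendOfNorm A, fun x => LinearMap.extendOfNorm_eq hA ⟨2, h⟩ x,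
    LinearMap.opNorm_extendOfNorm_le hA (by norm_num) h⟩

/-- the restriction as a linear map -/
noncomputable def ve_resL (D : TD ι J) (S : Set ι) : (J →₀ ℂ) →ₗ[ℂ] (J →₀ ℂ) where
  toFun := D.res S
  map_add' x y := by
    ext j
    rw [Finsupp.add_apply, ve_res_apply, ve_res_apply, ve_res_apply, Finsupp.add_apply]
    split_ifs
    · rfl
    · rw [add_zero]
  map_smul' c x := by
    ext j
    rw [RingHom.id_apply, Finsupp.smul_apply, ve_res_apply, ve_res_apply, Finsupp.smul_apply]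
    split_ifs
    · rfl
    · rw [smul_zero]

end

theorem ve : VE := by
  intro ι J _ D hbd W _ _ P t b hb x
  obtain ⟨n, hn⟩ := ve_bound hb x
  have h1 := ve_res hb x n hn
  have h2 : ∀ j ∈ (D.res (Set.range t) x).support, D.ν j ≤ t n := by
    intro j hj
    rw [Finsupp.mem_support_iff, ← h1, ve_res_apply] at hj
    by_contra h3
    rw [if_neg (show ¬ D.ν j ∈ {s | s ≤ t n} from h3)] at hj
    exact hj rfl
  have h3 := hb.ge n _ h2
  have h4 : D.N (t n) (D.res (Set.range t) x) ≤ D.sig x := by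
    rw [← h1, ve_dep]
    exact le_ciSup (hbd x) (t n)
  rw [ve_off hb] at h3
  linarith

theorem vg : VG := by
  intro ι J _ D W _ _ _ P t b hb hle hge U _ _ _ e he
  obtain ⟨r, hr, hr2⟩ := ve_ext e b he.dense (fun x => by
    rw [he.norm]
    exact hle x)
  obtain ⟨i, hi, hi2⟩ := ve_ext b (e ∘ₗ ve_resL D (Set.range t)) hb.dense (fun x => by
    show ‖e (D.res (Set.range t) x)‖ ≤ 2 * ‖b x‖
    rw [he.norm]
    exact hge x)
  refine ⟨i, r, fun w => ?_, hi2, hr2⟩
  have h1 : (fun w => r (i w)) = fun w => w := by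
    refine hb.dense.equalizer (r.continuous.comp i.continuous) continuous_id ?_
    funext x
    show r (i (b x)) = b x
    rw [hi]
    show r (e (D.res (Set.range t) x)) = b x
    rw [hr, ve_off hb]
  exact congrFun h1 w

end Pool.Agent.H272.UU
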