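import Pool.Agent.H272.UU.Defs4

/-!
# VF: the norm of the restriction to a branch (helper675; after UC3)
-/

set_option autoImplicit false

namespace Pool.Agent.H272.UU

open Filter Topology Pool.Agent.H272.IS
open scoped Classical

section vf

variable {ι J : Type} [PartialOrder ι] {D : TD ι J} {W : Type}
  [NormedAddCommGroup W] [NormedSpace ℂ W] {P : ℕ → (W →L[ℂ] W)} {t : ℕ → ι}
  {b : (J →₀ ℂ) →ₗ[ℂ] W}

lemma vf_sum (b : (J →₀ ℂ) →ₗ[ℂ] W) (x : J →₀ ℂ) :
    b x = ∑ j ∈ x.support, x j • b (Finsupp.single j 1) := by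
  conv_lhs => rw [← Finsupp.sum_single x]
  rw [Finsupp.sum, map_sum]
  refine Finset.sum_congr rfl fun j _ => ?_
  rw [← map_smul, Finsupp.smul_single, smul_eq_mul, mul_one]

lemma vf_on (h : Branch2 D P t b) (n : ℕ) (x : J →₀ ℂ) (hx : ∀ j ∈ x.support, D.ν j ≤ t n) :
    P n (b x) = b x := by
  rw [vf_sum b x, map_sum]
  refine Finset.sum_congr rfl fun j hj => ?_
  rw [map_smul, h.on n j (hx j hj)]

lemma vf_on0 (h : Branch2 D P t b) (n : ℕ) (x : J →₀ ℂ)
    (hx : ∀ j ∈ x.support, ¬ D.ν j ≤ t n) : P n (b x) = 0 := by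
  rw [vf_sum b x, map_sum]
  refine Finset.sum_eq_zero fun j hj => ?_
  rw [map_smul, h.on0 n j (hx j hj), smul_zero]

lemma vf_res_apply (S : Set ι) (x : J →₀ ℂ) (j : J) :
    D.res S x j = if D.ν j ∈ S then x j else 0 := by
  unfold TD.res
  rw [Finsupp.filter_apply]

lemma vf_mem_res (S : Set ι) (x : J →₀ ℂ) (j : J) (hj : j ∈ (D.res S x).support) :
    D.ν j ∈ S := by
  unfold TD.res at hj
  rw [Finsupp.support_filter, Finset.mem_filter] at hj
  exact hj.2

lemma vf_off (h : Branch2 D P t b) (x : J →₀ ℂ) : b (D.res (Set.range t) x) = b x := by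
  have h0 : b (x - D.res (Set.range t) x) = 0 := by
    rw [vf_sum b]
    refine Finset.sum_eq_zero fun j _ => ?_
    by_cases hj : D.ν j ∈ Set.range t
    · rw [Finsupp.sub_apply, vf_res_apply, if_pos hj, sub_self, zero_smul]
    · rw [h.off j (fun n hn => hj ⟨n, hn.symm⟩), smul_zero]
  rw [map_sub, sub_eq_zero] at h0
  exact h0.symm

/-- the part of a vector below a node of the branch -/
lemma vf_part (h : Branch2 D P t b) (n : ℕ) (x : J →₀ ℂ) :
    b (x.filter fun j => D.ν j ≤ t n) = P n (b x) := by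
  have e : x = (x.filter fun j => D.ν j ≤ t n) + x.filter fun j => ¬ D.ν j ≤ t n :=
    (Finsupp.filter_add_filter_not x _).symm
  have h1 : P n (b (x.filter fun j => D.ν j ≤ t n)) = b (x.filter fun j => D.ν j ≤ t n) := by
    refine vf_on h n _ fun j hj => ?_
    rw [Finsupp.support_filter, Finset.mem_filter] at hj
    exact hj.2
  have h2 : P n (b (x.filter fun j => ¬ D.ν j ≤ t n)) = 0 := by
    refine vf_on0 h n _ fun j hj => ?_
    rw [Finsupp.support_filter, Finset.mem_filter] at hj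
    exact hj.2
  conv_rhs => rw [e]
  rw [map_add, map_add, h1, h2, add_zero]

end vf

theorem vf : VF := by
  intro ι J _ D _ W _ _ P hP t b hb x
  have : Nonempty ι := ⟨t 0⟩
  refine ciSup_le fun t' => ?_
  have hr : ∀ j ∈ (D.res (Set.range t) x).support, D.ν j ∈ Set.range t :=
    fun j hj => vf_mem_res _ _ _ hj
  obtain ⟨x', hx'⟩ : ∃ x', x' = D.res (Set.range t) x := ⟨_, rfl⟩
  rw [← hx'] at hr ⊢
  have hbx : b x' = b x := by rw [hx', vf_off hb]
  rw [← D.dep t' x']
  by_cases h0 : (x'.filter fun j => D.ν j ≤ t') = 0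
  · rw [h0, map_zero]
    positivity
  have hne : (x'.filter fun j => D.ν j ≤ t').support.Nonempty :=
    Finsupp.support_nonempty_iff.mpr h0
  have hmem : ∀ j, j ∈ (x'.filter fun j => D.ν j ≤ t').support ↔
      j ∈ x'.support ∧ D.ν j ≤ t' := by
    intro j
    rw [Finsupp.support_filter, Finset.mem_filter]
  have hf : ∀ j : J, ∃ m : ℕ, j ∈ x'.support → t m = D.ν j := by
    intro j
    by_cases hj : j ∈ x'.support
    · obtain ⟨m, hm⟩ := hr j hj
      exact ⟨m, fun _ => hm⟩
    · exact ⟨0, fun h' => absurd h' hj⟩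
  choose f hf using hf
  obtain ⟨j0, hj0, hmax⟩ := Finset.exists_max_image _ f hne
  rw [hmem] at hj0
  have htm : t (f j0) ≤ t' := by
    rw [hf j0 hj0.1]
    exact hj0.2
  have e : (x'.filter fun j => D.ν j ≤ t') = x'.filter fun j => D.ν j ≤ t (f j0) := by
    ext j
    rw [Finsupp.filter_apply, Finsupp.filter_apply]
    by_cases hj : j ∈ x'.support
    · by_cases h1 : D.ν j ≤ t'
      · have h2 : D.ν j ≤ t (f j0) := by
          rw [← hf j hj]
          exact hb.mono.monotone (hmax j ((hmem j).2 ⟨hj, h1⟩))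
        rw [if_pos h1, if_pos h2]
      · have h2 : ¬ D.ν j ≤ t (f j0) := fun h2 => h1 (h2.trans htm)
        rw [if_neg h1, if_neg h2]
    · rw [Finsupp.notMem_support_iff.mp hj, ite_self, ite_self]
  rw [e]
  have hs : ∀ j ∈ (x'.filter fun j => D.ν j ≤ t (f j0)).support, D.ν j ≤ t (f j0) := by
    intro j hj
    rw [Finsupp.support_filter, Finset.mem_filter] at hj
    exact hj.2
  have h1 := D.mono (t (f j0)) t' htm _ hs
  have h2 := hb.le (f j0) _ hs
  have h3 : ‖b (x'.filter fun j => D.ν j ≤ t (f j0))‖ ≤ ‖b x‖ := by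
    rw [vf_part hb, hbx]
    exact hP.le _ _
  linarith

end Pool.Agent.H272.UU
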