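import Pool.Agent.H272.UU.Defs4

/-!
# VH: the tree data of the universal tree (second theorem)
-/

set_option autoImplicit false

namespace Pool.Agent.H272.UU

open Filter Topology Pool.Agent.H272.IS
open scoped Classical

section VH

variable {cn : ℕ → Seminorm ℂ (ℕ →₀ ℂ)}

theorem VH_single (t : Node2 cn) (j : Coord2 cn) (a : ℂ) :
    pathVec2 t (Finsupp.single j a) = if j.1.1 ≤ t then Finsupp.single j.1.2 a else 0 := by
  unfold pathVec2
  rw [Finsupp.lsum_single]
  split_ifs
  · rfl
  · rfl

theorem VH_apply (t : Node2 cn) (x : Coord2 cn →₀ ℂ) :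
    pathVec2 t x = ∑ j ∈ x.support, if j.1.1 ≤ t then Finsupp.single j.1.2 (x j) else 0 := by
  conv_lhs => rw [← Finsupp.sum_single x]
  rw [Finsupp.sum, map_sum]
  exact Finset.sum_congr rfl fun j _ => VH_single t j (x j)

theorem VH_supp {t : Node2 cn} {x : Coord2 cn →₀ ℂ} {k : ℕ}
    (hk : k ∈ (pathVec2 t x).support) : ∃ j ∈ x.support, j.1.1 ≤ t ∧ j.1.2 = k := by
  by_contra hcon
  push Not at hcon
  rw [Finsupp.mem_support_iff] at hk
  apply hk
  rw [VH_apply, Finsupp.finsetSum_apply]
  apply Finset.sum_eq_zero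
  intro j hj
  by_cases h : j.1.1 ≤ t
  · rw [if_pos h, Finsupp.single_apply, if_neg (hcon j hj h)]
  · rw [if_neg h]
    rfl

theorem VH_dep (t : Node2 cn) (x : Coord2 cn →₀ ℂ) :
    pathVec2 t (x.filter fun j => j.1.1 ≤ t) = pathVec2 t x := by
  induction x using Finsupp.induction_linear with
  | zero => rw [Finsupp.filter_zero]
  | add x y hx hy => rw [Finsupp.filter_add, map_add, map_add, hx, hy]
  | single j a =>
    by_cases h : j.1.1 ≤ t
    · have e : (Finsupp.single j a).filter (fun j : Coord2 cn => j.1.1 ≤ t) =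
          Finsupp.single j a := Finsupp.filter_single_of_pos _ h
      rw [e]
    · have e : (Finsupp.single j a).filter (fun j : Coord2 cn => j.1.1 ≤ t) = 0 :=
        Finsupp.filter_single_of_neg _ h
      rw [e, map_zero, VH_single, if_neg h]

theorem VH_eq {s t : Node2 cn} (hst : s ≤ t) {x : Coord2 cn →₀ ℂ}
    (hx : ∀ j ∈ x.support, j.1.1 ≤ s) : pathVec2 t x = pathVec2 s x := by
  rw [VH_apply, VH_apply]
  refine Finset.sum_congr rfl fun j hj => ?_
  rw [if_pos (hx j hj), if_pos ((hx j hj).trans hst)]

end VH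

theorem vh : VH := by
  intro cn
  refine ⟨{ ν := fun j => j.1.1
            N := fun t => (cn (lcode t.1)).comp (pathVec2 t)
            fib := ?_
            below := ?_
            chain := ?_
            dep := ?_
            mono := ?_ }, fun _ => rfl, fun _ _ => rfl⟩
  · -- fib
    intro t
    apply Set.Finite.of_injOn (f := fun j : Coord2 cn => j.1.2) (t := Set.Iio (lc t.1))
    · intro j hj
      have hj' : j.1.1 = t := hj
      have h := j.2.2
      rw [hj'] at h
      exact h
    · intro i hi j hj hij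
      have hi' : i.1.1 = t := hi
      have hj' : j.1.1 = t := hj
      have hij' : i.1.2 = j.1.2 := hij
      exact Subtype.ext (Prod.ext (hi'.trans hj'.symm) hij')
    · exact Set.finite_Iio _
  · -- below
    intro t
    apply Set.Finite.of_injOn (f := fun s : Node2 cn => s.1) (t := {l | l ∈ t.1.inits})
    · intro s hs
      exact (List.mem_inits _ _).2 hs
    · intro i _ j _ hij
      exact Subtype.ext hij
    · exact List.finite_toSet _
  · -- chain
    intro t a b ha hb
    have ha' : a.1 <+: t.1 := ha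
    have hb' : b.1 <+: t.1 := hb
    exact List.prefix_or_prefix_of_prefix ha' hb'
  · -- dep
    intro t x
    rw [Seminorm.comp_apply, Seminorm.comp_apply, VH_dep]
  · -- mono
    intro s t hst x hx
    rw [Seminorm.comp_apply, Seminorm.comp_apply, VH_eq hst hx]
    refine t.2.2.mono s.1 t.1 hst (List.prefix_refl _) s.2.1 (pathVec2 s x) ?_
    intro k hk
    obtain ⟨j, hj, hjs, hjk⟩ := VH_supp hk
    rw [← hjk]
    exact lt_of_lt_of_le j.2.2 (s.2.2.cuts j.1.1.1 s.1 hjs (List.prefix_refl _))

end Pool.Agent.H272.UU
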