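import Pool.Agent.H272.UU.Defs4

/-!
# VI: adapted sequences exist for monotone decompositions (the proof is the one of UF, by
helper279; adapted by helper675)
-/

set_option autoImplicit false

namespace Pool.Agent.H272.UU

open Filter Topology Pool.Agent.H272.IS
open scoped Classical

section vi

variable {W : Type} [NormedAddCommGroup W] [NormedSpace ℂ W]

/-- the range of `P n` -/
noncomputable def vi_R (P : ℕ → (W →L[ℂ] W)) (n : ℕ) : Submodule ℂ W :=
  LinearMap.range (P n : W →ₗ[ℂ] W)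

/-- the blocks -/
noncomputable def vi_F (P : ℕ → (W →L[ℂ] W)) (n : ℕ) : Submodule ℂ W :=
  vi_R P (n + 1) ⊓ LinearMap.ker (P n : W →ₗ[ℂ] W)

theorem vi_fix {P : ℕ → (W →L[ℂ] W)} (h : ∀ m n x, P m (P n x) = P (min m n) x) {n : ℕ} {x : W}
    (hx : x ∈ vi_R P n) : P n x = x := by
  obtain ⟨y, rfl⟩ := hx
  show P n (P n y) = P n y
  rw [h, min_self]

theorem vi_mem {P : ℕ → (W →L[ℂ] W)} {n : ℕ} {x : W} (hx : P n x = x) : x ∈ vi_R P n := ⟨x, hx⟩

theorem vi_mono {P : ℕ → (W →L[ℂ] W)} (h : ∀ m n x, P m (P n x) = P (min m n) x) {m n : ℕ}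
    (hmn : m ≤ n) : vi_R P m ≤ vi_R P n := by
  intro x hx
  refine vi_mem ?_
  rw [← vi_fix h hx, h, min_eq_right hmn]

theorem vi_sup {P : ℕ → (W →L[ℂ] W)} (h : ∀ m n x, P m (P n x) = P (min m n) x) (n : ℕ) :
    vi_R P n ⊔ vi_F P n = vi_R P (n + 1) := by
  refine le_antisymm (sup_le (vi_mono h (Nat.le_succ n)) inf_le_left) ?_
  intro x hx
  refine Submodule.mem_sup.2 ⟨P n x, ⟨x, rfl⟩, x - P n x, ⟨?_, ?_⟩, by abel⟩
  · refine Submodule.sub_mem _ hx (vi_mono h (Nat.le_succ n) ⟨x, rfl⟩)
  · show P n (x - P n x) = 0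
    rw [map_sub, h, min_self, sub_self]

theorem vi_inf {P : ℕ → (W →L[ℂ] W)} (h : ∀ m n x, P m (P n x) = P (min m n) x) (n : ℕ) :
    vi_R P n ⊓ vi_F P n = ⊥ := by
  rw [eq_bot_iff]
  rintro x ⟨h1, -, h3⟩
  have h4 : P n x = 0 := h3
  rw [vi_fix h h1] at h4
  exact h4

end vi

theorem vi : VI := by
  intro W _ _ P hP hP0
  have h := hP.comp
  have hfin : ∀ n, FiniteDimensional ℂ (vi_R P n) := hP.fin
  have hfinF : ∀ n, FiniteDimensional ℂ (vi_F P n) := fun n =>
    Submodule.finiteDimensional_of_le (inf_le_left : vi_F P n ≤ vi_R P (n + 1))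
  obtain ⟨c, hc⟩ : ∃ c : ℕ → ℕ, ∀ n, c n = Module.finrank ℂ (vi_R P n) := ⟨_, fun _ => rfl⟩
  obtain ⟨d, hd⟩ : ∃ d : ℕ → ℕ, ∀ n, d n = Module.finrank ℂ (vi_F P n) := ⟨_, fun _ => rfl⟩
  have hcs : ∀ n, c (n + 1) = c n + d n := by
    intro n
    have e := Submodule.finrank_sup_add_finrank_inf_eq (vi_R P n) (vi_F P n)
    rw [vi_sup h, vi_inf h, finrank_bot, add_zero] at e
    rw [hc, hc, hd, e]
  have hc0 : c 0 = 0 := by
    rw [hc]
    have : vi_R P 0 = ⊥ := by
      unfold vi_R
      rw [hP0]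
      exact LinearMap.range_zero
    rw [this, finrank_bot]
  have hcm : Monotone c := monotone_nat_of_le_succ fun n => by rw [hcs]; exact Nat.le_add_right _ _
  let B : ∀ n, Module.Basis (Fin (Module.finrank ℂ (vi_F P n))) ℂ (vi_F P n) := fun n =>
    Module.finBasis ℂ (vi_F P n)
  let bl : ℕ → ℕ → W := fun n i =>
    if hi : i < Module.finrank ℂ (vi_F P n) then (B n ⟨i, hi⟩ : W) else 0
  have hblF : ∀ n i, bl n i ∈ vi_F P n := by
    intro n i
    by_cases hi : i < Module.finrank ℂ (vi_F P n)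
    · have : bl n i = (B n ⟨i, hi⟩ : W) := dif_pos hi
      rw [this]
      exact (B n ⟨i, hi⟩).2
    · have : bl n i = 0 := dif_neg hi
      rw [this]
      exact Submodule.zero_mem _
  have hblS : ∀ n, Submodule.span ℂ (bl n '' {i | i < d n}) = vi_F P n := by
    intro n
    have e : bl n '' {i | i < d n} = (vi_F P n).subtype '' (Set.range (B n)) := by
      ext v
      constructor
      · rintro ⟨i, hi, rfl⟩
        have hi' : i < Module.finrank ℂ (vi_F P n) := by rw [← hd]; exact hi
        refine ⟨B n ⟨i, hi'⟩, ⟨_, rfl⟩, ?_⟩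
        have e1 : bl n i = (B n ⟨i, hi'⟩ : W) := dif_pos hi'
        rw [e1]
        rfl
      · rintro ⟨_, ⟨i, rfl⟩, rfl⟩
        refine ⟨i, ?_, ?_⟩
        · show (i : ℕ) < d n
          rw [hd]; exact i.2
        · have e1 : bl n i = (B n ⟨i, i.2⟩ : W) := dif_pos i.2
          rw [e1]
          rfl
    rw [e, ← Submodule.map_span, (B n).span_eq, Submodule.map_top, Submodule.range_subtype]
  let w : ℕ → W := fun k => if hk : ∃ n, k < c (n + 1) then bl (Nat.find hk) (k - c (Nat.find hk)) else 0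
  have hw1 : ∀ n k, c n ≤ k → k < c (n + 1) → w k = bl n (k - c n) := by
    intro n k h1 h2
    have hk : ∃ n, k < c (n + 1) := ⟨n, h2⟩
    have hf : Nat.find hk = n := by
      rw [Nat.find_eq_iff]
      refine ⟨h2, fun m hm => ?_⟩
      have := hcm (show m + 1 ≤ n from hm)
      omega
    have e : w k = bl (Nat.find hk) (k - c (Nat.find hk)) := dif_pos hk
    rw [e, hf]
  have hw2 : ∀ k, w k = 0 ∨ ∃ n, c n ≤ k ∧ k < c (n + 1) := by
    intro k
    by_cases hk : ∃ n, k < c (n + 1)
    · right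
      refine ⟨Nat.find hk, ?_, Nat.find_spec hk⟩
      rcases Nat.eq_zero_or_pos (Nat.find hk) with h0 | h0
      · rw [h0, hc0]; exact Nat.zero_le _
      · have h1 := Nat.find_min hk (m := Nat.find hk - 1) (by omega)
        rw [show Nat.find hk - 1 + 1 = Nat.find hk by omega] at h1
        omega
    · left
      exact dif_neg hk
  have hspan : ∀ n, Submodule.span ℂ (w '' {k | k < c n}) = vi_R P n := by
    intro n
    induction n with
    | zero =>
      have e : {k | k < c 0} = (∅ : Set ℕ) := by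
        ext k; simp [hc0]
      have : vi_R P 0 = ⊥ := by
        unfold vi_R
        rw [hP0]
        exact LinearMap.range_zero
      rw [e, Set.image_empty, Submodule.span_empty, this]
    | succ n ih =>
      have e : w '' {k | k < c (n + 1)} = w '' {k | k < c n} ∪ bl n '' {i | i < d n} := by
        ext v
        constructor
        · rintro ⟨k, hk, rfl⟩
          have hk' : k < c (n + 1) := hk
          rcases lt_or_ge k (c n) with h1 | h1
          · exact Or.inl ⟨k, h1, rfl⟩
          · refine Or.inr ⟨k - c n, ?_, (hw1 n k h1 hk').symm⟩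
            show k - c n < d n
            have := hcs n
            omega
        · rintro (⟨k, hk, rfl⟩ | ⟨i, hi, rfl⟩)
          · exact ⟨k, lt_of_lt_of_le hk (hcm (Nat.le_succ n)), rfl⟩
          · have hi' : i < d n := hi
            have h2 : c n + i < c (n + 1) := by rw [hcs]; omega
            refine ⟨c n + i, h2, ?_⟩
            rw [hw1 n (c n + i) (Nat.le_add_right _ _) h2, Nat.add_sub_cancel_left]
      rw [e, Submodule.span_union, ih, hblS, vi_sup h]
  refine ⟨w, c, hcm, hc0, ?_, ?_, ?_, hspan⟩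
  · intro n k hk
    refine vi_fix h ?_
    rw [← hspan n]
    exact Submodule.subset_span ⟨k, hk, rfl⟩
  · intro n k hk
    rcases hw2 k with h0 | ⟨m, h1, h2⟩
    · rw [h0, map_zero]
    · have hnm : n ≤ m := by
        by_contra hlt
        have := hcm (show m + 1 ≤ n by omega)
        omega
      have hF := hblF m (k - c m)
      rw [← hw1 m k h1 h2] at hF
      have h3 : P m (w k) = 0 := hF.2
      have h4 : P n (w k) = P n (P m (w k)) := by rw [h, min_eq_left hnm]
      rw [h4, h3, map_zero]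
  · intro n
    rw [linearIndependent_iff_card_eq_finrank_span, Fintype.card_fin]
    have e : Set.range (fun k : Fin (c n) => w k) = w '' {k | k < c n} := by
      ext v
      constructor
      · rintro ⟨k, rfl⟩
        exact ⟨k, k.2, rfl⟩
      · rintro ⟨k, hk, rfl⟩
        exact ⟨⟨k, hk⟩, rfl⟩
    rw [e, Set.finrank, hspan n, hc]

end Pool.Agent.H272.UU
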